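import Mathlib

set_option autoImplicit false

open Set Filter Topology MeasureTheory
open scoped ENNReal NNReal OnePoint

namespace Pool.Agent.Work.MP_0a8b43_nt

/-- `z` is a pole of the meromorphic function represented by `F`. -/
def IsPole (F : ℂ → ℂ) (z : ℂ) : Prop := meromorphicOrderAt F z < 0

open Classical in
/-- The value in the Riemann sphere: `∞` at a pole, `F z` elsewhere. -/
noncomputable def val (F : ℂ → ℂ) (z : ℂ) : OnePoint ℂ := if IsPole F z then ∞ else (F z : OnePoint ℂ)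

/-- `F` represents a transcendental meromorphic function on `ℂ`: it is meromorphic at every point,
in normal form (so `F z` is the value of the function at each `z` which is not a pole), and it is
not a quotient of two polynomials. -/
def TransMero (F : ℂ → ℂ) : Prop :=
  MeromorphicNFOn F univ ∧
    ¬ ∃ p r : Polynomial ℂ, r ≠ 0 ∧ ∀ z, ¬ IsPole F z → F z * r.eval z = p.eval z

/-- The `n`-th iterate is defined at `z`: no earlier point of the orbit, the `(n-1)`-st image
excepted, is a pole (then the `(n-1)`-st image lies in `ℂ`). -/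
def DefdAt (F : ℂ → ℂ) (n : ℕ) (z : ℂ) : Prop := ∀ k, k + 1 < n → ¬ IsPole F (F^[k] z)

/-- The value of the `n`-th iterate in the Riemann sphere (meaningful where it is defined). -/
noncomputable def itv (F : ℂ → ℂ) : ℕ → ℂ → OnePoint ℂ
  | 0, z => (z : OnePoint ℂ)
  | n + 1, z => val F (F^[n] z)

/-- The chordal distance on the Riemann sphere. -/
noncomputable def chord : OnePoint ℂ → OnePoint ℂ → ℝ
  | none, none => 0
  | none, some w => 2 / √(1 + ‖w‖ ^ 2)
  | some z, none => 2 / √(1 + ‖z‖ ^ 2)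
  | some z, some w => 2 * ‖z - w‖ / (√(1 + ‖z‖ ^ 2) * √(1 + ‖w‖ ^ 2))

/-- The Fatou set: points with an open neighbourhood on which all iterates are defined and form a
normal family (every sequence of iterates has a subsequence converging locally uniformly in the
chordal metric). -/
def FatouSet (F : ℂ → ℂ) : Set ℂ :=
  {z | ∃ U : Set ℂ, IsOpen U ∧ z ∈ U ∧ (∀ n, ∀ w ∈ U, DefdAt F n w) ∧
    ∀ m : ℕ → ℕ, ∃ φ : ℕ → ℕ, StrictMono φ ∧ ∃ g : ℂ → OnePoint ℂ,
      ∀ K : Set ℂ, K ⊆ U → IsCompact K → ∀ ε : ℝ, 0 < ε →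
        ∀ᶠ k in atTop, ∀ w ∈ K, chord (itv F (m (φ k)) w) (g w) < ε}

/-- The finite part of the Julia set. -/
def JuliaSet (F : ℂ → ℂ) : Set ℂ := (FatouSet F)ᶜ

/-- The chordal ball. -/
def cball (a : OnePoint ℂ) (δ : ℝ) : Set (OnePoint ℂ) := {x | chord x a < δ}

open Classical in
/-- Analyticity of a `ℂ`-valued map at the points of a subset of the sphere. -/
def SphAnalytic (G : OnePoint ℂ → ℂ) (B : Set (OnePoint ℂ)) : Prop :=
  (∀ z : ℂ, (z : OnePoint ℂ) ∈ B → AnalyticAt ℂ (fun x : ℂ => G (x : OnePoint ℂ)) z) ∧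
  ((∞ : OnePoint ℂ) ∈ B →
    AnalyticAt ℂ (fun u : ℂ => G (if u = 0 then ∞ else ((u⁻¹ : ℂ) : OnePoint ℂ))) 0)

/-- The radial Julia set. -/
def RadialJulia (F : ℂ → ℂ) : Set ℂ :=
  {z | z ∈ JuliaSet F ∧ ∃ δ : ℝ, 0 < δ ∧ ∃ᶠ n in atTop, DefdAt F n z ∧
    ∃ G : OnePoint ℂ → ℂ, SphAnalytic G (cball (itv F n z) δ) ∧ G (itv F n z) = z ∧
      ∀ x ∈ cball (itv F n z) δ, DefdAt F n (G x) ∧ itv F n (G x) = x}

/-- The dynamically accessible dimension. -/
noncomputable def dynDim (F : ℂ → ℂ) : ℝ≥0∞ := dimH (RadialJulia F)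

/-- Locally finite `s`-conformal measures. -/
structure IsLFConformal (F : ℂ → ℂ) (s : ℝ) (μ : Measure ℂ) : Prop where
  ne_zero : μ ≠ 0
  supp : μ (JuliaSet F)ᶜ = 0
  lf : ∀ K : Set ℂ, IsCompact K → μ K < ⊤
  conf : ∀ A : Set ℂ, MeasurableSet A → (∀ z ∈ A, ¬ IsPole F z) → InjOn F A →
    μ (F '' A) = ∫⁻ z in A, ENNReal.ofReal (‖deriv F z‖ ^ s) ∂μ

/-- The conformal dimension (infimum over all exponents of locally finite conformal measures). -/
noncomputable def confDim (F : ℂ → ℂ) : ℝ≥0∞ :=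
  ⨅ (s : ℝ≥0) (_ : ∃ μ : Measure ℂ, IsLFConformal F s μ), (s : ℝ≥0∞)

/-- The variant of the conformal dimension in which only conformal measures are admitted whose
topological support is the whole Julia set in `ℂ`. -/
noncomputable def confDimFull (F : ℂ → ℂ) : ℝ≥0∞ :=
  ⨅ (s : ℝ≥0) (_ : ∃ μ : Measure ℂ, IsLFConformal F s μ ∧
    ∀ U : Set ℂ, IsOpen U → (U ∩ JuliaSet F).Nonempty → μ U ≠ 0), (s : ℝ≥0∞)

/-- The variant of the conformal dimension in which only conformal measures are admitted which give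
no mass to the set of poles. -/
noncomputable def confDimNP (F : ℂ → ℂ) : ℝ≥0∞ :=
  ⨅ (s : ℝ≥0) (_ : ∃ μ : Measure ℂ, IsLFConformal F s μ ∧ μ {z | IsPole F z} = 0), (s : ℝ≥0∞)

end Pool.Agent.Work.MP_0a8b43_nt
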