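import Mathlib

set_option autoImplicit false

open Complex Set Filter Topology MeasureTheory
open scoped ENNReal NNReal

namespace Pool.Agent.Work.MP_0a8b43_nt

/-- cylinder-metric derivative of the `n`-th iterate -/
noncomputable def cylN (F : ℂ → ℂ) (n : ℕ) (w : ℂ) : ℝ := ‖w‖ * ‖deriv F^[n] w‖ / ‖F^[n] w‖

/-- cylinder-metric derivative -/
noncomputable def cyl (F : ℂ → ℂ) (w : ℂ) : ℝ := ‖w‖ * ‖deriv F w‖ / ‖F w‖

/-- weights of the transfer operator -/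
noncomputable def wt (F : ℂ → ℂ) (s : ℝ) (w : ℂ) : ℝ≥0∞ := ENNReal.ofReal (cyl F w ^ (-s))

/-- iterates of the transfer operator applied to `g` -/
noncomputable def QQ (F : ℂ → ℂ) (s : ℝ) (g : ℂ → ℝ≥0∞) : ℕ → ℂ → ℝ≥0∞
  | 0, z => g z
  | n + 1, z => ∑' w : {w // F w = z}, wt F s w * QQ F s g n w

structure Good (F : ℂ → ℂ) (Z : Set ℂ) : Prop where
  zero : ∀ z ∈ Z, z ≠ 0
  back : ∀ w, F w ∈ Z → w ∈ Z
  an : ∀ w, F w ∈ Z → AnalyticAt ℂ F w
  der : ∀ w, F w ∈ Z → deriv F w ≠ 0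

def Super (F : ℂ → ℂ) (s : ℝ) (Z : Set ℂ) (g ht : ℂ → ℝ≥0∞) : Prop :=
  ∀ z ∈ Z, g z + ∑' w : {w // F w = z}, wt F s w * ht w ≤ ht z

lemma green {F : ℂ → ℂ} {s : ℝ} {Z : Set ℂ} {g ht : ℂ → ℝ≥0∞} (hG : Good F Z)
    (hS : Super F s Z g ht) (N : ℕ) :
    ∀ z ∈ Z, ∑ n ∈ Finset.range N, QQ F s g n z ≤ ht z := by
  induction N with
  | zero => intro z _; simp
  | succ N ih =>
    intro z hz
    rw [Finset.sum_range_succ']
    have h1 : ∑ n ∈ Finset.range N, QQ F s g (n + 1) z =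
        ∑' w : {w // F w = z}, wt F s w * ∑ n ∈ Finset.range N, QQ F s g n w := by
      simp_rw [Finset.mul_sum]
      rw [Summable.tsum_finsetSum (fun n _ => ENNReal.summable)]
      rfl
    rw [h1]
    have h2 : ∑' w : {w // F w = z}, wt F s w * ∑ n ∈ Finset.range N, QQ F s g n w ≤
        ∑' w : {w // F w = z}, wt F s w * ht w := by
      apply ENNReal.tsum_le_tsum
      intro w
      apply mul_le_mul_right
      exact ih w (hG.back w (by rw [w.2]; exact hz))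
    calc _ ≤ (∑' w : {w // F w = z}, wt F s w * ht w) + g z := by
          gcongr; exact le_refl _
      _ ≤ ht z := by rw [add_comm]; exact hS z hz

lemma iter_facts {F : ℂ → ℂ} {Z : Set ℂ} (hG : Good F Z) (n : ℕ) (w : ℂ) (h : F^[n] w ∈ Z) :
    w ∈ Z ∧ AnalyticAt ℂ F^[n] w ∧ deriv F^[n] w ≠ 0 := by
  induction n with
  | zero =>
    refine ⟨h, ?_, ?_⟩
    · simp only [Function.iterate_zero]; exact analyticAt_id
    · simp only [Function.iterate_zero]; rw [deriv_id]; exact one_ne_zero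
  | succ n ih =>
    rw [Function.iterate_succ_apply'] at h
    obtain ⟨h1, h2, h3⟩ := ih (hG.back _ h)
    have h4 := hG.an _ h
    refine ⟨h1, ?_, ?_⟩
    · rw [Function.iterate_succ']; exact h4.comp h2
    · rw [Function.iterate_succ', deriv_comp w h4.differentiableAt h2.differentiableAt]
      exact mul_ne_zero (hG.der _ h) h3

lemma cylN_succ {F : ℂ → ℂ} {Z : Set ℂ} (hG : Good F Z) (n : ℕ) (w : ℂ) (h : F^[n + 1] w ∈ Z) :
    cylN F (n + 1) w = cylN F n w * cyl F (F^[n] w) := by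
  rw [Function.iterate_succ_apply'] at h
  have h0 := hG.back _ h
  obtain ⟨h1, h2, h3⟩ := iter_facts hG n w h0
  have h4 := hG.an _ h
  have hn : ‖F^[n] w‖ ≠ 0 := norm_ne_zero_iff.mpr (hG.zero _ h0)
  unfold cylN cyl
  rw [Function.iterate_succ', deriv_comp w h4.differentiableAt h2.differentiableAt, norm_mul,
    Function.comp_apply]
  field_simp

lemma cyl_pos {F : ℂ → ℂ} {Z : Set ℂ} (hG : Good F Z) (w : ℂ) (h : F w ∈ Z) : 0 < cyl F w := by
  unfold cyl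
  have h1 := norm_pos_iff.mpr (hG.zero _ h)
  have h2 := norm_pos_iff.mpr (hG.der _ h)
  have h3 := norm_pos_iff.mpr (hG.zero _ (hG.back _ h))
  positivity

lemma cylN_pos {F : ℂ → ℂ} {Z : Set ℂ} (hG : Good F Z) (n : ℕ) (w : ℂ) (h : F^[n] w ∈ Z) :
    0 < cylN F n w := by
  obtain ⟨h1, h2, h3⟩ := iter_facts hG n w h
  unfold cylN
  have h1 := norm_pos_iff.mpr (hG.zero _ h1)
  have h2 := norm_pos_iff.mpr h3
  have h3 := norm_pos_iff.mpr (hG.zero _ h)
  positivity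

lemma finite_le {F : ℂ → ℂ} {s : ℝ} {Z : Set ℂ} (g : ℂ → ℝ≥0∞) (hG : Good F Z) (n : ℕ) :
    ∀ z ∈ Z, ∀ S : Finset ℂ, (∀ w ∈ S, F^[n] w = z) →
      ∑ w ∈ S, ENNReal.ofReal (cylN F n w ^ (-s)) * g w ≤ QQ F s g n z := by
  classical
  induction n with
  | zero =>
    intro z hz S hS
    have h1 : S ⊆ {z} := by
      intro w hw
      have := hS w hw
      simpa using this
    have h2 : cylN F 0 z = 1 := by
      unfold cylN
      simp only [Function.iterate_zero, deriv_id, norm_one, mul_one, id_eq]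
      exact div_self (norm_ne_zero_iff.mpr (hG.zero z hz))
    calc _ ≤ ∑ w ∈ {z}, ENNReal.ofReal (cylN F 0 w ^ (-s)) * g w :=
          Finset.sum_le_sum_of_subset h1
      _ = g z := by rw [Finset.sum_singleton, h2, Real.one_rpow]; simp
      _ ≤ _ := le_refl _
  | succ n ih =>
    intro z hz S hS
    set T := S.image F^[n] with hT
    have hTz : ∀ y ∈ T, F y = z := by
      intro y hy
      rw [hT, Finset.mem_image] at hy
      obtain ⟨w, hw, rfl⟩ := hy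
      have := hS w hw
      rwa [Function.iterate_succ_apply'] at this
    have h1 : ∑ w ∈ S, ENNReal.ofReal (cylN F (n + 1) w ^ (-s)) * g w =
        ∑ y ∈ T, ∑ w ∈ S with F^[n] w = y, ENNReal.ofReal (cylN F (n + 1) w ^ (-s)) * g w := by
      rw [Finset.sum_fiberwise_of_maps_to]
      intro w hw
      exact Finset.mem_image_of_mem _ hw
    rw [h1]
    have h2 : ∀ y ∈ T, ∑ w ∈ S with F^[n] w = y, ENNReal.ofReal (cylN F (n + 1) w ^ (-s)) * g w ≤
        wt F s y * QQ F s g n y := by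
      intro y hy
      have hyZ : y ∈ Z := hG.back y (by rw [hTz y hy]; exact hz)
      have h3 := ih y hyZ (S.filter (fun w => F^[n] w = y)) (by
        intro w hw; exact (Finset.mem_filter.mp hw).2)
      calc _ = ∑ w ∈ S with F^[n] w = y, wt F s y * (ENNReal.ofReal (cylN F n w ^ (-s)) * g w) := by
            apply Finset.sum_congr rfl
            intro w hw
            obtain ⟨hw1, hw2⟩ := Finset.mem_filter.mp hw
            have hwZ : F^[n + 1] w ∈ Z := by rw [hS w hw1]; exact hz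
            rw [cylN_succ hG n w hwZ, hw2]
            have hp1 : 0 < cylN F n w := cylN_pos hG n w (by rw [hw2]; exact hyZ)
            have hp2 : 0 < cyl F y := cyl_pos hG y (by rw [hTz y hy]; exact hz)
            rw [Real.mul_rpow hp1.le hp2.le, ENNReal.ofReal_mul (by positivity)]
            unfold wt
            ring
        _ = wt F s y * ∑ w ∈ S with F^[n] w = y, ENNReal.ofReal (cylN F n w ^ (-s)) * g w := by
            rw [Finset.mul_sum]
        _ ≤ _ := by gcongr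
    calc _ ≤ ∑ y ∈ T, wt F s y * QQ F s g n y := Finset.sum_le_sum h2
      _ = ∑ y ∈ T.attach, wt F s y * QQ F s g n y := (Finset.sum_attach T _).symm
      _ = ∑ y ∈ T.subtype (fun y => F y = z), wt F s y * QQ F s g n y := by
          rw [Finset.sum_attach T (fun y => wt F s y * QQ F s g n y)]
          rw [Finset.sum_subtype_of_mem (fun y => wt F s y * QQ F s g n y) hTz]
      _ ≤ ∑' w : {w // F w = z}, wt F s w * QQ F s g n w := ENNReal.sum_le_tsum _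
      _ = _ := rfl

/-- Cauchy estimate of the derivative on the half disc by the circle mean -/
lemma cauchy_bound {G : ℂ → ℂ} {R : ℝ} (hR : 1 < R) (hG : DifferentiableOn ℂ G (Metric.ball 0 R))
    {ζ : ℂ} (hζ : ‖ζ‖ ≤ 1 / 2) :
    ‖deriv G ζ‖ ≤ Real.pi⁻¹ * ∫ θ in (0 : ℝ)..2 * Real.pi, ‖deriv G (circleMap 0 1 θ)‖ := by
  have hd : DifferentiableOn ℂ (deriv G) (Metric.ball 0 R) := hG.deriv Metric.isOpen_ball
  have hsub : Metric.closedBall (0 : ℂ) 1 ⊆ Metric.ball 0 R := Metric.closedBall_subset_ball hR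
  have hcl : DiffContOnCl ℂ (deriv G) (Metric.ball 0 1) :=
    (hd.mono hsub).diffContOnCl_ball (le_refl _)
  have hζ1 : ζ ∈ Metric.ball (0 : ℂ) 1 := by simp; linarith
  have h1 := hcl.two_pi_i_inv_smul_circleIntegral_sub_inv_smul hζ1
  have hmem : ∀ θ : ℝ, circleMap 0 1 θ ∈ Metric.ball (0 : ℂ) R := by
    intro θ; apply hsub; simp
  have hc : Continuous (fun θ : ℝ => deriv G (circleMap 0 1 θ)) :=
    hd.continuousOn.comp_continuous (continuous_circleMap 0 1) hmem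
  have hlow : ∀ θ : ℝ, 1 / 2 ≤ ‖circleMap 0 1 θ - ζ‖ := by
    intro θ
    have h3 : ‖circleMap 0 1 θ‖ = 1 := by simp
    have h4 := norm_sub_norm_le (circleMap 0 1 θ) ζ
    linarith
  have hinv : Continuous (fun θ : ℝ => (circleMap 0 1 θ - ζ)⁻¹) := by
    apply Continuous.inv₀
    · fun_prop
    · intro θ h
      have := hlow θ
      rw [h, norm_zero] at this
      norm_num at this
  have hcc : Continuous (fun θ : ℝ => deriv (circleMap 0 1) θ •
      ((circleMap 0 1 θ - ζ)⁻¹ • deriv G (circleMap 0 1 θ))) := by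
    simp only [deriv_circleMap, smul_eq_mul]
    exact (by fun_prop : Continuous (fun θ : ℝ => circleMap 0 1 θ * I)).mul (hinv.mul hc)
  rw [← h1, norm_smul]
  have h2 : ‖∮ z in C(0, 1), (z - ζ)⁻¹ • deriv G z‖ ≤
      ∫ θ in (0 : ℝ)..2 * Real.pi, 2 * ‖deriv G (circleMap 0 1 θ)‖ := by
    unfold circleIntegral
    refine (intervalIntegral.norm_integral_le_integral_norm Real.two_pi_pos.le).trans ?_
    apply intervalIntegral.integral_mono_on Real.two_pi_pos.le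
    · exact hcc.norm.intervalIntegrable _ _
    · exact (hc.norm.const_mul 2).intervalIntegrable _ _
    · intro θ _
      rw [norm_smul, norm_smul, norm_inv]
      have h5 : ‖deriv (circleMap 0 1) θ‖ = 1 := by simp [deriv_circleMap]
      rw [h5, one_mul]
      gcongr
      rw [inv_le_comm₀ (by linarith [hlow θ]) (by norm_num)]
      linarith [hlow θ]
  have h3 : ‖(2 * (Real.pi : ℂ) * I)⁻¹‖ = (2 * Real.pi)⁻¹ := by
    rw [norm_inv, norm_mul, norm_mul]; simp [abs_of_pos Real.pi_pos]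
  rw [h3]
  rw [intervalIntegral.integral_const_mul] at h2
  calc (2 * Real.pi)⁻¹ * ‖∮ z in C(0, 1), (z - ζ)⁻¹ • deriv G z‖
      ≤ (2 * Real.pi)⁻¹ * (2 * ∫ θ in (0 : ℝ)..2 * Real.pi, ‖deriv G (circleMap 0 1 θ)‖) := by
        gcongr
    _ = _ := by field_simp

/-- Jensen for the circle mean -/
lemma jensen {φ : ℝ → ℝ} (hφ : Continuous φ) (h0 : ∀ θ, 0 ≤ φ θ) {s : ℝ} (hs : 1 ≤ s) :
    ((2 * Real.pi)⁻¹ * ∫ θ in (0 : ℝ)..2 * Real.pi, φ θ) ^ s ≤
      (2 * Real.pi)⁻¹ * ∫ θ in (0 : ℝ)..2 * Real.pi, φ θ ^ s := by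
  have hpi := Real.two_pi_pos
  have h1 := (convexOn_rpow hs).map_set_average_le (μ := volume) (t := Ioc 0 (2 * Real.pi)) (f := φ)
    (by apply Continuous.continuousOn; exact Real.continuous_rpow_const (by linarith))
    isClosed_Ici (by simp [Real.pi_pos]) (by simp [ENNReal.mul_eq_top]) (by
      filter_upwards with x; exact h0 x)
    ((hφ.integrableOn_Icc).mono_set Ioc_subset_Icc_self)
    ((((Real.continuous_rpow_const (by linarith : (0 : ℝ) ≤ s)).comp hφ).integrableOn_Icc).mono_set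
      Ioc_subset_Icc_self)
  rw [setAverage_eq, setAverage_eq] at h1
  rw [intervalIntegral.integral_of_le hpi.le, intervalIntegral.integral_of_le hpi.le]
  have h2 : (volume : Measure ℝ).real (Ioc 0 (2 * Real.pi)) = 2 * Real.pi := by
    simp [Measure.real, Real.pi_pos.le]
  rw [h2] at h1
  simpa [smul_eq_mul] using h1

/-- a holomorphic map of a disc which is an inverse branch of `F^[n]` along the circle, in the
coordinate `ψ` -/
def Fam (F ψ : ℂ → ℂ) (n : ℕ) (G : ℂ → ℂ) : Prop :=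
  ∃ R : ℝ, 1 < R ∧ DifferentiableOn ℂ G (Metric.ball 0 R) ∧
    ∀ ζ ∈ Metric.ball (0 : ℂ) R, 1 / R < ‖ζ‖ → F^[n] (G ζ) = ψ ζ

lemma fam_eventually {F ψ : ℂ → ℂ} {n : ℕ} {G : ℂ → ℂ} (hG : Fam F ψ n G) {ζ : ℂ} (hζ : ‖ζ‖ = 1) :
    DifferentiableAt ℂ G ζ ∧ ∀ᶠ x in 𝓝 ζ, F^[n] (G x) = ψ x := by
  obtain ⟨R, hR, hd, hF⟩ := hG
  have h1 : ζ ∈ Metric.ball (0 : ℂ) R := by simp [hζ, hR]
  refine ⟨hd.differentiableAt (Metric.isOpen_ball.mem_nhds h1), ?_⟩
  have h2 : {x : ℂ | 1 / R < ‖x‖} ∈ 𝓝 ζ := by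
    apply (isOpen_lt continuous_const continuous_norm).mem_nhds
    show 1 / R < ‖ζ‖
    rw [hζ, div_lt_one (by linarith)]; exact hR
  filter_upwards [Metric.isOpen_ball.mem_nhds h1, h2] with x hx1 hx2 using hF x hx1 hx2

lemma fam_eq {F : ℂ → ℂ} {Z : Set ℂ} (hgood : Good F Z) {ψ : ℂ → ℂ}
    (hψ : ∀ ζ : ℂ, ‖ζ‖ = 1 → ψ ζ ∈ Z) {n : ℕ} {G₁ G₂ : ℂ → ℂ}
    (h₁ : Fam F ψ n G₁) (h₂ : Fam F ψ n G₂) {ζ₀ : ℂ} (hζ₀ : ‖ζ₀‖ = 1) (h : G₁ ζ₀ = G₂ ζ₀) :
    ∀ ζ : ℂ, ‖ζ‖ ≤ 1 → G₁ ζ = G₂ ζ := by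
  obtain ⟨hd1, he1⟩ := fam_eventually h₁ hζ₀
  obtain ⟨hd2, he2⟩ := fam_eventually h₂ hζ₀
  have hz : F^[n] (G₁ ζ₀) ∈ Z := by rw [he1.self_of_nhds]; exact hψ ζ₀ hζ₀
  obtain ⟨-, han, hder⟩ := iter_facts hgood n _ hz
  have hsd : HasStrictDerivAt F^[n] (deriv F^[n] (G₁ ζ₀)) (G₁ ζ₀) := han.hasStrictDerivAt
  obtain ⟨g, hg⟩ : ∃ g : ℂ → ℂ, ∀ᶠ x in 𝓝 (G₁ ζ₀), g (F^[n] x) = x :=
    ⟨_, hsd.eventually_left_inverse hder⟩
  have hev : G₁ =ᶠ[𝓝 ζ₀] G₂ := by
    have e1 : ∀ᶠ x in 𝓝 ζ₀, g (F^[n] (G₁ x)) = G₁ x := hd1.continuousAt.eventually hg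
    have hg2 : ∀ᶠ x in 𝓝 (G₂ ζ₀), g (F^[n] x) = x := by rw [← h]; exact hg
    have e2 : ∀ᶠ x in 𝓝 ζ₀, g (F^[n] (G₂ x)) = G₂ x := hd2.continuousAt.eventually hg2
    filter_upwards [e1, e2, he1, he2] with x h3 h4 h5 h6
    rw [← h3, ← h4, h5, h6]
  obtain ⟨R1, hR1, hD1, -⟩ := h₁
  obtain ⟨R2, hR2, hD2, -⟩ := h₂
  have hRR : 1 < min R1 R2 := lt_min hR1 hR2
  have a1 : AnalyticOnNhd ℂ G₁ (Metric.ball 0 (min R1 R2)) :=
    (hD1.mono (Metric.ball_subset_ball (min_le_left _ _))).analyticOnNhd Metric.isOpen_ball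
  have a2 : AnalyticOnNhd ℂ G₂ (Metric.ball 0 (min R1 R2)) :=
    (hD2.mono (Metric.ball_subset_ball (min_le_right _ _))).analyticOnNhd Metric.isOpen_ball
  have hmem : ζ₀ ∈ Metric.ball (0 : ℂ) (min R1 R2) := by simp [hζ₀, hR1, hR2]
  have := a1.eqOn_of_preconnected_of_eventuallyEq a2 (convex_ball 0 _).isPreconnected hmem hev
  intro ζ hζ
  apply this
  simp only [Metric.mem_ball, dist_zero_right]
  linarith

/-- the derivative of a branch in terms of the cylinder derivative -/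
lemma fam_deriv {F : ℂ → ℂ} {Z : Set ℂ} (hgood : Good F Z) {ψ : ℂ → ℂ}
    (hψ : ∀ ζ : ℂ, ‖ζ‖ = 1 → ψ ζ ∈ Z) {n : ℕ} {G : ℂ → ℂ} (hG : Fam F ψ n G) {ζ : ℂ}
    (hζ : ‖ζ‖ = 1) :
    ‖deriv G ζ‖ * (cylN F n (G ζ) * ‖ψ ζ‖) = ‖deriv ψ ζ‖ * ‖G ζ‖ := by
  obtain ⟨hd1, he1⟩ := fam_eventually hG hζ
  have hz : F^[n] (G ζ) ∈ Z := by rw [he1.self_of_nhds]; exact hψ ζ hζ
  obtain ⟨hGZ, han, hder⟩ := iter_facts hgood n _ hz
  have h1 : deriv (fun x => F^[n] (G x)) ζ = deriv ψ ζ := Filter.EventuallyEq.deriv_eq he1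
  have h2 : deriv (fun x => F^[n] (G x)) ζ = deriv F^[n] (G ζ) * deriv G ζ :=
    deriv_comp ζ han.differentiableAt hd1
  have h3 : ‖deriv ψ ζ‖ = ‖deriv F^[n] (G ζ)‖ * ‖deriv G ζ‖ := by rw [← h1, h2, norm_mul]
  have h4 : F^[n] (G ζ) = ψ ζ := he1.self_of_nhds
  have h5 : ‖ψ ζ‖ ≠ 0 := norm_ne_zero_iff.mpr (hgood.zero _ (hψ ζ hζ))
  unfold cylN
  rw [h4, h3]
  field_simp

/-- circle mean of the derivative -/
noncomputable def bm (G : ℂ → ℂ) : ℝ :=
  (2 * Real.pi)⁻¹ * ∫ θ in (0 : ℝ)..2 * Real.pi, ‖deriv G (circleMap 0 1 θ)‖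

lemma ediam_le {G : ℂ → ℂ} {R : ℝ} (hR : 1 < R) (hG : DifferentiableOn ℂ G (Metric.ball 0 R)) :
    Metric.ediam (G '' Metric.closedBall 0 (1 / 2)) ≤ ENNReal.ofReal (2 * bm G) := by
  have hb : ∀ ζ ∈ Metric.closedBall (0 : ℂ) (1 / 2), ‖deriv G ζ‖ ≤ 2 * bm G := by
    intro ζ hζ
    have h1 := cauchy_bound hR hG (ζ := ζ) (by simpa using hζ)
    unfold bm
    refine h1.trans (le_of_eq ?_)
    field_simp
  have hnn : 0 ≤ 2 * bm G := (norm_nonneg _).trans (hb 0 (by simp))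
  apply Metric.ediam_le
  rintro _ ⟨x, hx, rfl⟩ _ ⟨y, hy, rfl⟩
  rw [edist_dist, dist_eq_norm]
  apply ENNReal.ofReal_le_ofReal
  have h2 := (convex_closedBall (0 : ℂ) (1 / 2)).norm_image_sub_le_of_norm_deriv_le
    (f := G) (C := 2 * bm G) (fun z hz => hG.differentiableAt (Metric.isOpen_ball.mem_nhds
      (by simp at hz ⊢; linarith))) hb hy hx
  have h3 : ‖x - y‖ ≤ 1 := by
    have hx' : ‖x‖ ≤ 1 / 2 := by simpa using hx
    have hy' : ‖y‖ ≤ 1 / 2 := by simpa using hy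
    exact (norm_sub_le _ _).trans (by linarith)
  calc ‖G x - G y‖ ≤ 2 * bm G * ‖x - y‖ := h2
    _ ≤ 2 * bm G * 1 := by gcongr
    _ = _ := mul_one _

lemma contOn_circle {G : ℂ → ℂ} {R : ℝ} (hR : 1 < R) (hG : DifferentiableOn ℂ G (Metric.ball 0 R)) :
    Continuous (fun θ : ℝ => ‖deriv G (circleMap 0 1 θ)‖) := by
  have hd : DifferentiableOn ℂ (deriv G) (Metric.ball 0 R) := hG.deriv Metric.isOpen_ball
  have hsub : Metric.closedBall (0 : ℂ) 1 ⊆ Metric.ball 0 R := Metric.closedBall_subset_ball hR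
  exact (hd.continuousOn.comp_continuous (continuous_circleMap 0 1)
    (fun θ => hsub (by simp))).norm

theorem haus_zero {F : ℂ → ℂ} {s : ℝ} {Z : Set ℂ} {g ht : ℂ → ℝ≥0∞} (hgood : Good F Z)
    (hS : Super F s Z g ht) (hs : 1 ≤ s) {ψ : ℂ → ℂ} {E : Set ℂ} (𝒢 : ℕ → Set (ℂ → ℂ))
    (h𝒢 : ∀ n, ∀ G ∈ 𝒢 n, Fam F ψ n G) (hψZ : ∀ ζ : ℂ, ‖ζ‖ = 1 → ψ ζ ∈ Z)
    {Cψ cψ : ℝ} (hψd : ∀ ζ : ℂ, ‖ζ‖ = 1 → ‖deriv ψ ζ‖ ≤ Cψ)
    (hψ0 : ∀ ζ : ℂ, ‖ζ‖ = 1 → deriv ψ ζ ≠ 0)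
    (hcψ : 0 < cψ) (hψl : ∀ ζ : ℂ, ‖ζ‖ = 1 → cψ ≤ ‖ψ ζ‖) {H : ℝ≥0∞} (hH : H ≠ ⊤)
    (hψH : ∀ ζ : ℂ, ‖ζ‖ = 1 → ht (ψ ζ) ≤ H) {c1 : ℝ≥0∞} (hc1 : c1 ≠ 0) {C1 : ℝ} (hC1 : 0 < C1)
    (hgap : ∀ n, ∀ G ∈ 𝒢 n, ∀ ζ : ℂ, ‖ζ‖ = 1 → c1 ≤ g (G ζ) ∧ ‖G ζ‖ ≤ C1)
    (hE : ∀ z ∈ E, ∃ᶠ n in atTop, ∃ G ∈ 𝒢 n, z ∈ G '' Metric.closedBall 0 (1 / 2)) :
    Measure.hausdorffMeasure s E = 0 := by
  classical
  have hs0 : 0 < s := by linarith
  have hCψ : 0 < Cψ := lt_of_lt_of_le (norm_pos_iff.mpr (hψ0 1 (by simp))) (hψd 1 (by simp))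
  -- index sets
  let Idx : ℕ → Type := fun n => {w : ℂ // ∃ G ∈ 𝒢 n, G 1 = w}
  let Gf : (n : ℕ) → Idx n → (ℂ → ℂ) := fun n w => w.2.choose
  have hGf : ∀ n (w : Idx n), Gf n w ∈ 𝒢 n := fun n w => w.2.choose_spec.1
  have hGf1 : ∀ n (w : Idx n), Gf n w 1 = w.1 := fun n w => w.2.choose_spec.2
  have hinj : ∀ n (w w' : Idx n) (ζ : ℂ), ‖ζ‖ = 1 → Gf n w ζ = Gf n w' ζ → w = w' := by
    intro n w w' ζ hζ h
    have := fam_eq hgood hψZ (h𝒢 n _ (hGf n w)) (h𝒢 n _ (hGf n w')) hζ h 1 (by simp)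
    rw [hGf1, hGf1] at this
    exact Subtype.ext this
  -- derivative bound on circle
  set Kc : ℝ := (Cψ * C1 / cψ) ^ s with hKc
  have hKc0 : 0 < Kc := by positivity
  have hderb : ∀ n (w : Idx n) (ζ : ℂ), ‖ζ‖ = 1 → 0 < ‖deriv (Gf n w) ζ‖ ∧
      ‖deriv (Gf n w) ζ‖ ^ s ≤ Kc * cylN F n (Gf n w ζ) ^ (-s) := by
    intro n w ζ hζ
    have h1 := fam_deriv hgood hψZ (h𝒢 n _ (hGf n w)) hζ
    obtain ⟨-, he⟩ := fam_eventually (h𝒢 n _ (hGf n w)) hζ
    have hz : F^[n] (Gf n w ζ) ∈ Z := by rw [he.self_of_nhds]; exact hψZ ζ hζ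
    have hc := cylN_pos hgood n _ hz
    have hψp := norm_pos_iff.mpr (hψ0 ζ hζ)
    have hGp : 0 < ‖Gf n w ζ‖ := norm_pos_iff.mpr (hgood.zero _ (iter_facts hgood n _ hz).1)
    have hψn : 0 < ‖ψ ζ‖ := lt_of_lt_of_le hcψ (hψl ζ hζ)
    have h2 : ‖deriv (Gf n w) ζ‖ = ‖deriv ψ ζ‖ * ‖Gf n w ζ‖ / (cylN F n (Gf n w ζ) * ‖ψ ζ‖) := by
      rw [← h1]; field_simp
    constructor
    · rw [h2]; positivity
    · have h3 : ‖deriv (Gf n w) ζ‖ ≤ (Cψ * C1 / cψ) * (cylN F n (Gf n w ζ))⁻¹ := by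
        rw [h2]
        have e1 := hψd ζ hζ
        have e2 := (hgap n _ (hGf n w) ζ hζ).2
        have e3 := hψl ζ hζ
        calc ‖deriv ψ ζ‖ * ‖Gf n w ζ‖ / (cylN F n (Gf n w ζ) * ‖ψ ζ‖)
            ≤ Cψ * C1 / (cylN F n (Gf n w ζ) * cψ) := by gcongr
          _ = _ := by field_simp
      calc ‖deriv (Gf n w) ζ‖ ^ s ≤ ((Cψ * C1 / cψ) * (cylN F n (Gf n w ζ))⁻¹) ^ s := by
            apply Real.rpow_le_rpow (norm_nonneg _) h3 hs0.le
        _ = _ := by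
            rw [Real.mul_rpow (by positivity) (by positivity), Real.inv_rpow hc.le,
              Real.rpow_neg hc.le]
  -- sum bound at each circle point
  have hsumζ : ∀ (T : Finset (Σ n, Idx n)) (ζ : ℂ), ‖ζ‖ = 1 →
      ∑ p ∈ T, ENNReal.ofReal (‖deriv (Gf p.1 p.2) ζ‖ ^ s) ≤ ENNReal.ofReal Kc * (H / c1) := by
    intro T ζ hζ
    have hc1t : c1 ≠ ⊤ ∨ T = ∅ := by
      by_cases hT : T = ∅
      · right; exact hT
      · left
        obtain ⟨p, hp⟩ := Finset.nonempty_iff_ne_empty.mpr hT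
        intro hct
        have h1 := (hgap p.1 _ (hGf p.1 p.2) ζ hζ).1
        obtain ⟨-, he⟩ := fam_eventually (h𝒢 p.1 _ (hGf p.1 p.2)) hζ
        have hz : ψ ζ ∈ Z := hψZ ζ hζ
        have h2 := finite_le (s := s) g hgood p.1 (ψ ζ) hz {Gf p.1 p.2 ζ} (by
          intro w hw; rw [Finset.mem_singleton] at hw; rw [hw]; exact he.self_of_nhds)
        rw [Finset.sum_singleton] at h2
        have h3 := green hgood hS (p.1 + 1) (ψ ζ) hz
        have h4 : QQ F s g p.1 (ψ ζ) ≤ H := by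
          refine (Finset.single_le_sum (f := fun n => QQ F s g n (ψ ζ)) (fun _ _ => zero_le)
            (Finset.self_mem_range_succ p.1)).trans (h3.trans (hψH ζ hζ))
        have hzz : F^[p.1] (Gf p.1 p.2 ζ) ∈ Z := by rw [he.self_of_nhds]; exact hz
        have hc := cylN_pos hgood p.1 _ hzz
        rw [hct, top_le_iff] at h1
        rw [h1, ENNReal.mul_top] at h2
        · exact hH (top_le_iff.mp (h2.trans h4))
        · intro h0
          rw [ENNReal.ofReal_eq_zero] at h0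
          exact absurd h0 (not_le.mpr (Real.rpow_pos_of_pos hc _))
    rcases hc1t with hc1t | hT
    swap
    · rw [hT]; simp
    have hz : ψ ζ ∈ Z := hψZ ζ hζ
    have h1 : ∑ p ∈ T, ENNReal.ofReal (cylN F p.1 (Gf p.1 p.2 ζ) ^ (-s)) * g (Gf p.1 p.2 ζ) ≤ H := by
      obtain ⟨N, hN⟩ : ∃ N, ∀ p ∈ T, p.1 < N := by
        refine ⟨(T.sup fun p => p.1) + 1, fun p hp => ?_⟩
        exact Nat.lt_succ_of_le (Finset.le_sup (f := fun p : (Σ n, Idx n) => p.1) hp)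
      calc ∑ p ∈ T, ENNReal.ofReal (cylN F p.1 (Gf p.1 p.2 ζ) ^ (-s)) * g (Gf p.1 p.2 ζ)
          = ∑ n ∈ Finset.range N, ∑ p ∈ T with p.1 = n,
              ENNReal.ofReal (cylN F p.1 (Gf p.1 p.2 ζ) ^ (-s)) * g (Gf p.1 p.2 ζ) := by
            rw [Finset.sum_fiberwise_of_maps_to]
            intro p hp
            exact Finset.mem_range.mpr (hN p hp)
        _ ≤ ∑ n ∈ Finset.range N, QQ F s g n (ψ ζ) := by
            apply Finset.sum_le_sum
            intro n _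
            have h5 := finite_le (s := s) g hgood n (ψ ζ) hz
              ((T.filter (fun p => p.1 = n)).image (fun p => Gf p.1 p.2 ζ)) (by
                intro w hw
                obtain ⟨p, hp, rfl⟩ := Finset.mem_image.mp hw
                obtain ⟨hp1, hp2⟩ := Finset.mem_filter.mp hp
                obtain ⟨-, he⟩ := fam_eventually (h𝒢 p.1 _ (hGf p.1 p.2)) hζ
                rw [← hp2]; exact he.self_of_nhds)
            rw [Finset.sum_image] at h5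
            · refine le_trans (le_of_eq ?_) h5
              apply Finset.sum_congr rfl
              intro p hp
              obtain ⟨hp1, hp2⟩ := Finset.mem_filter.mp hp
              have hcc : cylN F p.1 = cylN F n := by rw [hp2]
              rw [hcc]
            · intro p hp p' hp' hpp
              obtain ⟨hp1, hp2⟩ := Finset.mem_filter.mp (Finset.mem_coe.mp hp)
              obtain ⟨hp1', hp2'⟩ := Finset.mem_filter.mp (Finset.mem_coe.mp hp')
              obtain ⟨k, w⟩ := p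
              obtain ⟨k', w'⟩ := p'
              simp only at hp2 hp2'
              subst hp2
              subst hp2'
              have := hinj _ w w' ζ hζ hpp
              rw [this]
        _ ≤ ht (ψ ζ) := green hgood hS N _ hz
        _ ≤ H := hψH ζ hζ
    have h2 : ∀ p ∈ T, ENNReal.ofReal (‖deriv (Gf p.1 p.2) ζ‖ ^ s) ≤
        ENNReal.ofReal Kc * ((ENNReal.ofReal (cylN F p.1 (Gf p.1 p.2 ζ) ^ (-s)) *
          g (Gf p.1 p.2 ζ)) / c1) := by
      intro p _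
      have h3 := (hderb p.1 p.2 ζ hζ).2
      have h4 := (hgap p.1 _ (hGf p.1 p.2) ζ hζ).1
      calc ENNReal.ofReal (‖deriv (Gf p.1 p.2) ζ‖ ^ s)
          ≤ ENNReal.ofReal (Kc * cylN F p.1 (Gf p.1 p.2 ζ) ^ (-s)) := ENNReal.ofReal_le_ofReal h3
        _ = ENNReal.ofReal Kc * ENNReal.ofReal (cylN F p.1 (Gf p.1 p.2 ζ) ^ (-s)) :=
            ENNReal.ofReal_mul hKc0.le
        _ ≤ _ := by
            gcongr
            rw [ENNReal.le_div_iff_mul_le (Or.inl hc1) (Or.inl hc1t)]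
            gcongr
    calc ∑ p ∈ T, ENNReal.ofReal (‖deriv (Gf p.1 p.2) ζ‖ ^ s)
        ≤ ∑ p ∈ T, ENNReal.ofReal Kc * ((ENNReal.ofReal (cylN F p.1 (Gf p.1 p.2 ζ) ^ (-s)) *
          g (Gf p.1 p.2 ζ)) / c1) := Finset.sum_le_sum h2
      _ = ENNReal.ofReal Kc * ((∑ p ∈ T, ENNReal.ofReal (cylN F p.1 (Gf p.1 p.2 ζ) ^ (-s)) *
          g (Gf p.1 p.2 ζ)) / c1) := by
            rw [← Finset.mul_sum]
            congr 1
            simp_rw [ENNReal.div_eq_inv_mul]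
            rw [← Finset.mul_sum]
      _ ≤ _ := by gcongr
  -- the total mass of the means
  set K : ℝ≥0∞ := ENNReal.ofReal Kc * (H / c1) with hK
  have hKtop : K ≠ ⊤ := by
    apply ENNReal.mul_ne_top ENNReal.ofReal_ne_top
    exact ENNReal.div_ne_top hH hc1
  have hRG : ∀ n (w : Idx n), ∃ R : ℝ, 1 < R ∧ DifferentiableOn ℂ (Gf n w) (Metric.ball 0 R) := by
    intro n w
    obtain ⟨R, h1, h2, -⟩ := h𝒢 n _ (hGf n w)
    exact ⟨R, h1, h2⟩
  have hcont : ∀ n (w : Idx n), Continuous (fun θ : ℝ => ‖deriv (Gf n w) (circleMap 0 1 θ)‖) := by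
    intro n w
    obtain ⟨R, h1, h2⟩ := hRG n w
    exact contOn_circle h1 h2
  have hbm : ∀ n (w : Idx n), 0 < bm (Gf n w) := by
    intro n w
    unfold bm
    apply mul_pos (by positivity)
    apply intervalIntegral.intervalIntegral_pos_of_pos
    · exact (hcont n w).intervalIntegrable _ _
    · intro θ; exact (hderb n w _ (by simp)).1
    · exact Real.two_pi_pos
  have hT : ∀ T : Finset (Σ n, Idx n), ∑ p ∈ T, ENNReal.ofReal (bm (Gf p.1 p.2) ^ s) ≤ K := by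
    intro T
    have hpt : ∀ θ : ℝ, ∑ p ∈ T, ‖deriv (Gf p.1 p.2) (circleMap 0 1 θ)‖ ^ s ≤ K.toReal := by
      intro θ
      have h1 := hsumζ T (circleMap 0 1 θ) (by simp)
      rw [← ENNReal.ofReal_sum_of_nonneg (fun _ _ => by positivity)] at h1
      exact (ENNReal.ofReal_le_iff_le_toReal hKtop).mp h1
    have h2 : ∑ p ∈ T, bm (Gf p.1 p.2) ^ s ≤ K.toReal := by
      calc ∑ p ∈ T, bm (Gf p.1 p.2) ^ s
          ≤ ∑ p ∈ T, (2 * Real.pi)⁻¹ *
              ∫ θ in (0 : ℝ)..2 * Real.pi, ‖deriv (Gf p.1 p.2) (circleMap 0 1 θ)‖ ^ s := by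
            apply Finset.sum_le_sum
            intro p _
            exact jensen (hcont p.1 p.2) (fun θ => norm_nonneg _) hs
        _ = (2 * Real.pi)⁻¹ * ∫ θ in (0 : ℝ)..2 * Real.pi,
              ∑ p ∈ T, ‖deriv (Gf p.1 p.2) (circleMap 0 1 θ)‖ ^ s := by
            rw [← Finset.mul_sum, intervalIntegral.integral_finset_sum]
            intro p _
            exact ((Real.continuous_rpow_const hs0.le).comp (hcont p.1 p.2)).intervalIntegrable _ _
        _ ≤ (2 * Real.pi)⁻¹ * ∫ θ in (0 : ℝ)..2 * Real.pi, K.toReal := by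
            gcongr
            apply intervalIntegral.integral_mono_on Real.two_pi_pos.le
            · apply Continuous.intervalIntegrable
              apply continuous_finset_sum
              intro p _
              exact (Real.continuous_rpow_const hs0.le).comp (hcont p.1 p.2)
            · simp
            · intro θ _; exact hpt θ
        _ = K.toReal := by
            rw [intervalIntegral.integral_const]
            simp
            field_simp
    rw [← ENNReal.ofReal_sum_of_nonneg (fun p _ => by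
      have := hbm p.1 p.2; positivity)]
    exact ENNReal.ofReal_le_of_le_toReal h2
  have htot : ∑' p : (Σ n, Idx n), ENNReal.ofReal (bm (Gf p.1 p.2) ^ s) ≤ K := by
    rw [ENNReal.tsum_eq_iSup_sum]
    exact iSup_le hT
  have hcount : Countable (Σ n, Idx n) := by
    have h1 := ENNReal.summable (f := fun p : (Σ n, Idx n) => ENNReal.ofReal (bm (Gf p.1 p.2) ^ s))
    have h2 := Summable.countable_support_ennreal
      (f := fun p : (Σ n, Idx n) => ENNReal.ofReal (bm (Gf p.1 p.2) ^ s))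
      (ne_top_of_le_ne_top hKtop htot)
    have h3 : Function.support (fun p : (Σ n, Idx n) => ENNReal.ofReal (bm (Gf p.1 p.2) ^ s)) =
        univ := by
      ext p
      simp only [Function.mem_support, mem_univ, iff_true]
      have := hbm p.1 p.2
      exact (ENNReal.ofReal_pos.mpr (by positivity)).ne'
    rw [h3] at h2
    exact countable_univ_iff.mp h2
  have hcountn : ∀ n, Countable (Idx n) := fun n =>
    Function.Injective.countable (f := fun w : Idx n => (⟨n, w⟩ : Σ n, Idx n))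
      (fun a b h => by simpa using h)
  set a : ℕ → ℝ≥0∞ := fun n => ∑' w : Idx n, ENNReal.ofReal ((2 * bm (Gf n w)) ^ s) with ha
  have hasum : ∑' n, a n ≠ ⊤ := by
    have h1 : ∀ n, a n = ENNReal.ofReal (2 ^ s) * ∑' w : Idx n, ENNReal.ofReal (bm (Gf n w) ^ s) := by
      intro n
      rw [ha, ← ENNReal.tsum_mul_left]
      apply tsum_congr
      intro w
      have := hbm n w
      rw [Real.mul_rpow (by norm_num) this.le, ENNReal.ofReal_mul (by positivity)]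
    simp_rw [h1]
    rw [ENNReal.tsum_mul_left, ← ENNReal.tsum_sigma (fun n w => ENNReal.ofReal (bm (Gf n w) ^ s))]
    exact ENNReal.mul_ne_top ENNReal.ofReal_ne_top (ne_top_of_le_ne_top hKtop htot)
  have htail := ENNReal.tendsto_sum_nat_add a hasum
  -- covers
  have hcov : ∀ N : ℕ, E ⊆ ⋃ p : (Σ k : ℕ, Idx (k + N)), Gf (p.1 + N) p.2 '' Metric.closedBall 0 (1 / 2) := by
    intro N z hz
    obtain ⟨n, hn, G, hG, hzG⟩ := (frequently_atTop.mp (hE z hz)) N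
    obtain ⟨k, rfl⟩ : ∃ k, n = k + N := ⟨n - N, by omega⟩
    rw [mem_iUnion]
    refine ⟨⟨k, ⟨G 1, G, hG, rfl⟩⟩, ?_⟩
    obtain ⟨x, hx, rfl⟩ := hzG
    refine ⟨x, hx, ?_⟩
    have hx1 : ‖x‖ ≤ 1 := by
      have : ‖x‖ ≤ 1 / 2 := by simpa using hx
      linarith
    exact fam_eq hgood hψZ (h𝒢 _ _ (hGf _ _)) (h𝒢 _ _ hG) (ζ₀ := 1) (by simp) (hGf1 _ _) x hx1
  have hdiam : ∀ (n : ℕ) (w : Idx n), Metric.ediam (Gf n w '' Metric.closedBall 0 (1 / 2)) ^ s ≤
      ENNReal.ofReal ((2 * bm (Gf n w)) ^ s) := by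
    intro n w
    obtain ⟨R, h1, h2⟩ := hRG n w
    have h3 := ediam_le h1 h2
    have h4 := hbm n w
    rw [← ENNReal.ofReal_rpow_of_pos (by positivity)]
    exact ENNReal.rpow_le_rpow h3 hs0.le
  have hsumN : ∀ N : ℕ, ∑' p : (Σ k : ℕ, Idx (k + N)),
      Metric.ediam (Gf (p.1 + N) p.2 '' Metric.closedBall 0 (1 / 2)) ^ s ≤ ∑' k, a (k + N) := by
    intro N
    calc _ ≤ ∑' p : (Σ k : ℕ, Idx (k + N)), ENNReal.ofReal ((2 * bm (Gf (p.1 + N) p.2)) ^ s) :=
          ENNReal.tsum_le_tsum (fun p => hdiam _ _)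
      _ = _ := ENNReal.tsum_sigma (fun k (w : Idx (k + N)) => ENNReal.ofReal ((2 * bm (Gf (k + N) w)) ^ s))
  have hsm : Tendsto (fun N => (∑' k, a (k + N)) ^ (1 / s)) atTop (𝓝 0) := by
    have h1 := (ENNReal.continuous_rpow_const (y := 1 / s)).tendsto 0
    rw [ENNReal.zero_rpow_of_pos (by positivity)] at h1
    exact h1.comp htail
  have hmain := Measure.hausdorffMeasure_le_liminf_tsum (ι := fun N => (Σ k : ℕ, Idx (k + N)))
    s E (l := atTop) (fun N => (∑' k, a (k + N)) ^ (1 / s)) hsm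
    (fun N p => Gf (p.1 + N) p.2 '' Metric.closedBall 0 (1 / 2))
    (Eventually.of_forall (fun N p => by
      have h1 : Metric.ediam (Gf (p.1 + N) p.2 '' Metric.closedBall 0 (1 / 2)) ^ s ≤
          ∑' k, a (k + N) := (ENNReal.le_tsum p).trans (hsumN N)
      have h2 := ENNReal.rpow_le_rpow h1 (z := 1 / s) (by positivity)
      rwa [← ENNReal.rpow_mul, mul_one_div_cancel hs0.ne', ENNReal.rpow_one] at h2))
    (Eventually.of_forall hcov)
  have hlim : liminf (fun N => ∑' p : (Σ k : ℕ, Idx (k + N)),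
      Metric.ediam (Gf (p.1 + N) p.2 '' Metric.closedBall 0 (1 / 2)) ^ s) atTop = 0 := by
    apply Tendsto.liminf_eq
    exact tendsto_of_tendsto_of_tendsto_of_le_of_le tendsto_const_nhds htail
      (fun _ => zero_le) hsumN
  rw [hlim] at hmain
  exact le_antisymm hmain zero_le

end Pool.Agent.Work.MP_0a8b43_nt
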