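import Mathlib

set_option autoImplicit false

open Complex Set Filter Topology MeasureTheory

namespace Pool.Agent.Work.MP_0a8b43_nt

/-- the solution formula of `E' = E * D` along a segment -/
lemma seg_exp {U : Set ℂ} (hU : IsOpen U) {E D : ℂ → ℂ}
    (hE : ∀ u ∈ U, HasDerivAt E (E u * D u) u) (hD : ContinuousOn D U) {a b : ℂ}
    (hseg : ∀ t : ℝ, t ∈ Icc (0 : ℝ) 1 → a + t * (b - a) ∈ U) :
    E b = E a * exp ((b - a) * ∫ t in (0 : ℝ)..1, D (a + t * (b - a))) := by
  set γ : ℝ → ℂ := fun t => a + t * (b - a) with hγ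
  have hγc : Continuous γ := by fun_prop
  have hV : IsOpen (γ ⁻¹' U) := hU.preimage hγc
  have hφ : ContinuousOn (fun t => D (γ t)) (γ ⁻¹' U) :=
    hD.comp hγc.continuousOn (fun t ht => ht)
  have hφ01 : ContinuousOn (fun t => D (γ t)) (uIcc 0 1) := by
    rw [uIcc_of_le zero_le_one]
    exact hφ.mono (fun t ht => hseg t ht)
  set Φ : ℝ → ℂ := fun t => ∫ s in (0 : ℝ)..t, D (γ s) with hΦ
  have hΦd : ∀ t ∈ Icc (0 : ℝ) 1, HasDerivAt Φ (D (γ t)) t := by
    intro t ht
    apply intervalIntegral.integral_hasDerivAt_right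
    · apply ContinuousOn.intervalIntegrable
      apply hφ01.mono
      rw [uIcc_of_le ht.1, uIcc_of_le zero_le_one]
      exact Icc_subset_Icc_right ht.2
    · exact ContinuousOn.stronglyMeasurableAtFilter hV hφ t (hseg t ht)
    · exact hφ.continuousAt (hV.mem_nhds (hseg t ht))
  have hγd : ∀ t : ℝ, HasDerivAt γ (b - a) t := by
    intro t
    have h1 : HasDerivAt (fun t : ℝ => (t : ℂ)) 1 t := Complex.ofRealCLM.hasDerivAt
    have h2 := (h1.mul_const (b - a)).const_add a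
    simpa [hγ] using h2
  have hEd : ∀ t ∈ Icc (0 : ℝ) 1, HasDerivAt (fun t => E (γ t)) (E (γ t) * D (γ t) * (b - a)) t := by
    intro t ht
    exact HasDerivAt.comp t (hE (γ t) (hseg t ht)) (hγd t)
  set ψ : ℝ → ℂ := fun t => E (γ t) * exp (-((b - a) * Φ t)) with hψ
  have hψd : ∀ t ∈ Icc (0 : ℝ) 1, HasDerivAt ψ 0 t := by
    intro t ht
    have h1 := ((hΦd t ht).const_mul (b - a)).neg.cexp
    have h2 := (hEd t ht).mul h1
    refine h2.congr_deriv ?_
    ring
  have hconst := constant_of_has_deriv_right_zero (f := ψ) (a := 0) (b := 1)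
    (fun t ht => (hψd t ht).continuousAt.continuousWithinAt)
    (fun t ht => (hψd t ⟨ht.1, ht.2.le⟩).hasDerivWithinAt) 1 ⟨zero_le_one, le_refl 1⟩
  have h0 : ψ 0 = E a := by simp [hψ, hγ, hΦ]
  have h1 : ψ 1 = E b * exp (-((b - a) * Φ 1)) := by simp [hψ, hγ]
  rw [h0, h1] at hconst
  have h2 : E b = E a * exp ((b - a) * Φ 1) := by
    rw [← hconst, mul_assoc, ← Complex.exp_add]
    simp
  simpa [hΦ, hγ] using h2

/-- average of `D` close to `M` -/
lemma norm_avg_sub_le {U : Set ℂ} {D : ℂ → ℂ} (hD : ContinuousOn D U) {a b : ℂ}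
    (hseg : ∀ t : ℝ, t ∈ Icc (0 : ℝ) 1 → a + t * (b - a) ∈ U) {M : ℂ} {ε : ℝ}
    (hM : ∀ t : ℝ, t ∈ Icc (0 : ℝ) 1 → ‖D (a + t * (b - a)) - M‖ ≤ ε) :
    ‖(∫ t in (0 : ℝ)..1, D (a + t * (b - a))) - M‖ ≤ ε := by
  have hc : ContinuousOn (fun t : ℝ => D (a + t * (b - a))) (uIcc 0 1) := by
    rw [uIcc_of_le zero_le_one]
    exact hD.comp (by fun_prop) (fun t ht => hseg t ht)
  have h1 : (∫ t in (0 : ℝ)..1, D (a + t * (b - a))) - M =
      ∫ t in (0 : ℝ)..1, (D (a + t * (b - a)) - M) := by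
    rw [intervalIntegral.integral_sub hc.intervalIntegrable (by simp)]
    simp
  rw [h1]
  have h2 := intervalIntegral.norm_integral_le_of_norm_le_const (a := 0) (b := 1) (C := ε)
    (f := fun t : ℝ => D (a + t * (b - a)) - M) (fun t ht => by
      rw [uIoc_of_le zero_le_one] at ht
      exact hM t ⟨ht.1.le, ht.2⟩)
  simpa using h2

/-- points of a set where the logarithmic derivative is close to `M` are separated vertically -/
lemma strip_inj {U : Set ℂ} (hU : IsOpen U) {E D : ℂ → ℂ}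
    (hE : ∀ u ∈ U, HasDerivAt E (E u * D u) u) (hD : ContinuousOn D U)
    (hE0 : ∀ u ∈ U, E u ≠ 0) {a b : ℂ}
    (hseg : ∀ t : ℝ, t ∈ Icc (0 : ℝ) 1 → a + t * (b - a) ∈ U) {M : ℝ} (hM0 : 0 < M)
    (hM : ∀ t : ℝ, t ∈ Icc (0 : ℝ) 1 → ‖D (a + t * (b - a)) - M‖ ≤ 11 / 100 * M)
    (hab : E a = E b) (him : |(b - a).im| < 9 / 2 / M) : a = b := by
  have h1 := seg_exp hU hE hD hseg
  set I := ∫ t in (0 : ℝ)..1, D (a + t * (b - a)) with hI
  have h2 : ‖I - M‖ ≤ 11 / 100 * M := norm_avg_sub_le hD hseg hM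
  have ha : a ∈ U := by simpa using hseg 0 ⟨le_refl 0, zero_le_one⟩
  have h3 : exp ((b - a) * I) = 1 := by
    rw [← hab] at h1
    have h4 : E a * exp ((b - a) * I) = E a * 1 := by rw [mul_one]; exact h1.symm
    exact mul_left_cancel₀ (hE0 a ha) h4
  obtain ⟨n, hn⟩ := Complex.exp_eq_one_iff.mp h3
  have hre : |I.re - M| ≤ 11 / 100 * M := by
    have := Complex.abs_re_le_norm (I - M)
    simp at this
    exact this.trans h2
  have hIre : 89 / 100 * M ≤ I.re := by
    have := (abs_le.mp hre).1; linarith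
  have hInorm : ‖I‖ ≤ 111 / 100 * M := by
    have h5 : ‖I‖ ≤ ‖I - M‖ + ‖(M : ℂ)‖ := by
      calc ‖I‖ = ‖(I - M) + M‖ := by ring_nf
        _ ≤ _ := norm_add_le _ _
    have h6 : ‖(M : ℂ)‖ = M := by simp [abs_of_pos hM0]
    rw [h6] at h5; linarith
  have hI0 : I ≠ 0 := by
    intro h; rw [h] at hIre; simp at hIre; linarith
  by_cases hn0 : n = 0
  · rw [hn0] at hn
    simp at hn
    rcases hn with h | h
    · exact (sub_eq_zero.mp h).symm
    · exact absurd h hI0
  · exfalso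
    have hd : (b - a) * (I * (starRingEnd ℂ) I) = n * (2 * Real.pi * Complex.I) * (starRingEnd ℂ) I := by
      rw [← mul_assoc, hn]
    rw [Complex.mul_conj] at hd
    have him2 : (b - a).im * Complex.normSq I = n * (2 * Real.pi) * I.re := by
      have := congrArg Complex.im hd
      simpa using this
    have hns : Complex.normSq I ≤ (111 / 100 * M) ^ 2 := by
      rw [Complex.normSq_eq_norm_sq]
      exact pow_le_pow_left₀ (norm_nonneg _) hInorm 2
    have hn1 : (1 : ℝ) ≤ |(n : ℝ)| := by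
      have : 1 ≤ |n| := Int.one_le_abs hn0
      exact_mod_cast this
    have hpi := Real.pi_gt_d2
    have h7 : |(b - a).im| * Complex.normSq I = |(n : ℝ)| * (2 * Real.pi) * I.re := by
      have h8 := congrArg abs him2
      rw [abs_mul, abs_mul, abs_mul, abs_of_nonneg (Complex.normSq_nonneg I),
        abs_of_pos (by positivity : (0 : ℝ) < 2 * Real.pi),
        abs_of_nonneg (by linarith : (0 : ℝ) ≤ I.re)] at h8
      exact h8
    have h9 : 2 * Real.pi * (89 / 100 * M) ≤ |(n : ℝ)| * (2 * Real.pi) * I.re := by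
      have : 1 * (2 * Real.pi) * (89 / 100 * M) ≤ |(n : ℝ)| * (2 * Real.pi) * I.re := by
        gcongr
      linarith
    have h10 : |(b - a).im| * Complex.normSq I ≤ 9 / 2 / M * (111 / 100 * M) ^ 2 := by
      have := him.le
      have := Complex.normSq_nonneg I
      gcongr
    have h11 : 9 / 2 / M * (111 / 100 * M) ^ 2 = 9 / 2 * (111 / 100) ^ 2 * M := by
      field_simp
    rw [h11, h7] at h10
    nlinarith

/-- at most `2 M` solutions in a strip -/
lemma strip_count {U : Set ℂ} (hU : IsOpen U) {E D : ℂ → ℂ}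
    (hE : ∀ u ∈ U, HasDerivAt E (E u * D u) u) (hD : ContinuousOn D U)
    (hE0 : ∀ u ∈ U, E u ≠ 0) {X : Set ℝ} (hX : Convex ℝ X)
    (hXU : ∀ u : ℂ, u.re ∈ X → u ∈ U) {M : ℝ} (hM0 : 2 ≤ M)
    (hM : ∀ u : ℂ, u.re ∈ X → ‖D u - M‖ ≤ 11 / 100 * M) (c : ℂ) (S : Finset ℂ)
    (hS : ∀ w ∈ S, w ≠ 0 ∧ Real.log ‖w‖ ∈ X ∧ E (Complex.log w) = c) :
    (S.card : ℝ) ≤ 2 * M := by
  classical
  set φ : ℂ → ℕ := fun w => ⌊(w.arg + Real.pi) * (M / (9 / 2))⌋₊ with hφ
  have hMp : 0 < M := by linarith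
  have hpi := Real.pi_lt_d2
  have hpi0 := Real.pi_pos
  have hmaps : ∀ w ∈ S, φ w ∈ Finset.range (⌊2 * Real.pi * (M / (9 / 2))⌋₊ + 1) := by
    intro w hw
    rw [Finset.mem_range, Nat.lt_succ_iff]
    apply Nat.floor_le_floor
    have h1 := Complex.arg_le_pi w
    have : w.arg + Real.pi ≤ 2 * Real.pi := by linarith
    gcongr
  have hinj : Set.InjOn φ S := by
    intro w hw w' hw' hww
    obtain ⟨h1, h2, h3⟩ := hS w hw
    obtain ⟨h1', h2', h3'⟩ := hS w' hw'
    have hre : (Complex.log w).re ∈ X := by rw [Complex.log_re]; exact h2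
    have hre' : (Complex.log w').re ∈ X := by rw [Complex.log_re]; exact h2'
    have hsegX : ∀ t : ℝ, t ∈ Icc (0 : ℝ) 1 →
        (Complex.log w + t * (Complex.log w' - Complex.log w)).re ∈ X := by
      intro t ht
      have h5 := hX hre hre' (a := 1 - t) (b := t) (by linarith [ht.2]) ht.1 (by ring)
      convert h5 using 1
      simp; ring
    have him : |(Complex.log w' - Complex.log w).im| < 9 / 2 / M := by
      have h6 : |(w'.arg + Real.pi) * (M / (9 / 2)) - (w.arg + Real.pi) * (M / (9 / 2))| < 1 := by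
        have ha : 0 ≤ (w'.arg + Real.pi) * (M / (9 / 2)) := by
          have := Complex.neg_pi_lt_arg w'
          have : 0 ≤ w'.arg + Real.pi := by linarith
          positivity
        have hb : 0 ≤ (w.arg + Real.pi) * (M / (9 / 2)) := by
          have := Complex.neg_pi_lt_arg w
          have : 0 ≤ w.arg + Real.pi := by linarith
          positivity
        have e1 := Nat.floor_le ha
        have e2 := Nat.lt_floor_add_one ((w'.arg + Real.pi) * (M / (9 / 2)))
        have e3 := Nat.floor_le hb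
        have e4 := Nat.lt_floor_add_one ((w.arg + Real.pi) * (M / (9 / 2)))
        have e5 : (⌊(w.arg + Real.pi) * (M / (9 / 2))⌋₊ : ℝ) =
          (⌊(w'.arg + Real.pi) * (M / (9 / 2))⌋₊ : ℝ) := by exact_mod_cast hww
        rw [abs_lt]; constructor <;> linarith
      rw [Complex.sub_im, Complex.log_im, Complex.log_im]
      have h7 : (w'.arg + Real.pi) * (M / (9 / 2)) - (w.arg + Real.pi) * (M / (9 / 2)) =
        (w'.arg - w.arg) * (M / (9 / 2)) := by ring
      rw [h7, abs_mul, abs_of_pos (by positivity : (0 : ℝ) < M / (9 / 2))] at h6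
      rw [lt_div_iff₀ hMp]
      have h8 : |w'.arg - w.arg| * (M / (9 / 2)) * (9 / 2) = |w'.arg - w.arg| * M := by
        field_simp
      nlinarith
    have h9 := strip_inj hU hE hD hE0 (a := Complex.log w) (b := Complex.log w')
      (fun t ht => hXU _ (hsegX t ht)) hMp (fun t ht => hM _ (hsegX t ht)) (by rw [h3, h3']) him
    rw [← Complex.exp_log h1, ← Complex.exp_log h1', h9]
  have hcard := Finset.card_le_card_of_injOn φ hmaps hinj
  rw [Finset.card_range] at hcard
  have h10 : (S.card : ℝ) ≤ ⌊2 * Real.pi * (M / (9 / 2))⌋₊ + 1 := by exact_mod_cast hcard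
  have h11 := Nat.floor_le (by positivity : 0 ≤ 2 * Real.pi * (M / (9 / 2)))
  have h12 : 2 * Real.pi * (M / (9 / 2)) ≤ 2 * 3.15 * (M / (9 / 2)) := by gcongr
  linarith

/-- the local model of the product near a circle is a small perturbation of `-v` -/
lemma circle_map {κ κ' : ℂ → ℂ} (hκ : ∀ v ∈ Metric.ball (0 : ℂ) (1 / 2), HasDerivAt κ (κ' v) v)
    (h0 : κ 0 = 0) (hκ' : ∀ v ∈ Metric.ball (0 : ℂ) (1 / 2), ‖κ' v‖ ≤ 1 / 100)
    {v v' : ℂ} (hv : ‖v‖ ≤ 1 / 3) (hv' : ‖v'‖ ≤ 1 / 3) :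
    ‖(exp (κ v) * (1 - exp v) + v) - (exp (κ v') * (1 - exp v') + v')‖ ≤ 1 / 2 * ‖v - v'‖ := by
  have hsub : Metric.closedBall (0 : ℂ) (1 / 3) ⊆ Metric.ball 0 (1 / 2) :=
    Metric.closedBall_subset_ball (by norm_num)
  have hκb : ∀ v ∈ Metric.closedBall (0 : ℂ) (1 / 3), ‖κ v‖ ≤ 1 / 300 := by
    intro v hv
    have h1 := (convex_closedBall (0 : ℂ) (1 / 3)).norm_image_sub_le_of_norm_hasDerivWithin_le
      (f := κ) (f' := κ') (C := 1 / 100) (fun x hx => (hκ x (hsub hx)).hasDerivWithinAt)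
      (fun x hx => hκ' x (hsub hx)) (Metric.mem_closedBall_self (by norm_num)) hv
    rw [h0, sub_zero, sub_zero] at h1
    have h2 : ‖v‖ ≤ 1 / 3 := by simpa using hv
    linarith
  have hder : ∀ x ∈ Metric.closedBall (0 : ℂ) (1 / 3),
      HasDerivWithinAt (fun v => exp (κ v) * (1 - exp v) + v)
        (exp (κ x) * κ' x * (1 - exp x) + exp (κ x) * (-exp x) + 1)
        (Metric.closedBall (0 : ℂ) (1 / 3)) x := by
    intro x hx
    have h1 := (hκ x (hsub hx)).cexp
    have h2 := (Complex.hasDerivAt_exp x).const_sub 1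
    exact ((h1.mul h2).add (hasDerivAt_id x)).hasDerivWithinAt
  apply (convex_closedBall (0 : ℂ) (1 / 3)).norm_image_sub_le_of_norm_hasDerivWithin_le hder
  · intro x hx
    have hx3 : ‖x‖ ≤ 1 / 3 := by simpa using hx
    have h1 : ‖exp x - 1‖ ≤ 4 / 10 := by
      have h2 := Complex.norm_exp_sub_sum_le_exp_norm_sub_sum x 1
      simp only [Finset.range_one, Finset.sum_singleton, pow_zero, Nat.factorial_zero,
        Nat.cast_one, div_one] at h2
      have h3 : Real.exp ‖x‖ ≤ Real.exp (1 / 3) := Real.exp_le_exp.mpr hx3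
      have h4 : Real.exp (1 / 3) ≤ 7 / 5 := by
        have h5 : Real.exp (1 / 3) ^ 3 = Real.exp 1 := by
          rw [← Real.exp_nat_mul]; norm_num
        have h6 := Real.exp_one_lt_d9
        have h7 : Real.exp (1 / 3) ^ 3 ≤ (7 / 5) ^ 3 := by rw [h5]; norm_num; linarith
        exact le_of_pow_le_pow_left₀ (by norm_num) (by norm_num) h7
      linarith
    have h4 : ‖exp (κ x) - 1‖ ≤ 1 / 150 := by
      have h5 := Complex.norm_exp_sub_one_le (x := κ x) (by linarith [hκb x hx])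
      linarith [hκb x hx]
    have h6 := hκ' x (hsub hx)
    have h7 : exp (κ x) * κ' x * (1 - exp x) + exp (κ x) * (-exp x) + 1 =
      -(exp (κ x) * κ' x * (exp x - 1)) - (exp (κ x) - 1) * (exp x - 1) - (exp (κ x) - 1)
        - (exp x - 1) := by ring
    rw [h7]
    have h8 : ‖exp (κ x)‖ ≤ 151 / 150 := by
      calc ‖exp (κ x)‖ = ‖(exp (κ x) - 1) + 1‖ := by ring_nf
        _ ≤ ‖exp (κ x) - 1‖ + ‖(1 : ℂ)‖ := norm_add_le _ _
        _ ≤ _ := by rw [norm_one]; linarith
    have h9 : ‖exp (κ x) * κ' x * (exp x - 1)‖ ≤ 151 / 150 * (1 / 100) * (4 / 10) := by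
      rw [norm_mul, norm_mul]; gcongr
    have h10 : ‖(exp (κ x) - 1) * (exp x - 1)‖ ≤ 1 / 150 * (4 / 10) := by
      rw [norm_mul]; gcongr
    calc _ ≤ ‖exp (κ x) * κ' x * (exp x - 1)‖ + ‖(exp (κ x) - 1) * (exp x - 1)‖
          + ‖exp (κ x) - 1‖ + ‖exp x - 1‖ := by
            refine (norm_sub_le _ _).trans ?_
            gcongr
            refine (norm_sub_le _ _).trans ?_
            gcongr
            refine (norm_sub_le _ _).trans ?_
            rw [norm_neg]
      _ ≤ 151 / 150 * (1 / 100) * (4 / 10) + 1 / 150 * (4 / 10) + 1 / 150 + 4 / 10 := by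
            gcongr
      _ ≤ 1 / 2 := by norm_num
  · simpa using hv'
  · simpa using hv

end Pool.Agent.Work.MP_0a8b43_nt
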