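import Mathlib

set_option autoImplicit false

namespace Pool.Agent.Work.MP_0a8b43_nt

/-- state (rho, slope, level) before circle `j` -/
def st : ℕ → ℕ × ℕ × ℕ
  | 0 => (1000, 32, 32000)
  | j + 1 =>
    (128 * (st j).2.2,
      (st j).2.1 + (if Even j then 1 else (st j).2.2 / 4) *
        (if Even j then 3 ^ (128 * (st j).2.2) else 33),
      (st j).2.2 + ((st j).2.1 + (if Even j then 1 else (st j).2.2 / 4) *
        (if Even j then 3 ^ (128 * (st j).2.2) else 33)) * (128 * (st j).2.2 - (st j).1))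

/-- log radius of circle `j` -/
def rho (j : ℕ) : ℕ := (st j).1
/-- slope before circle `j` -/
def sl (j : ℕ) : ℕ := (st j).2.1
/-- level at circle `j` -/
def lev (j : ℕ) : ℕ := (st j).2.2
/-- multiplicity at circle `j` -/
def kk (j : ℕ) : ℕ := if Even j then 1 else lev j / 4
/-- symmetry order at circle `j` -/
def NN (j : ℕ) : ℕ := if Even j then 3 ^ (128 * lev j) else 33
/-- number of zeros at circle `j` -/
def KK (j : ℕ) : ℕ := kk j * NN j

/-- lower ends of the critical windows -/
def ll : ℕ → ℕ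
  | 0 => 4000
  | j + 1 => sl (j + 1) * ll j

lemma rho_zero : rho 0 = 1000 := rfl
lemma sl_zero : sl 0 = 32 := rfl
lemma lev_zero : lev 0 = 32000 := rfl
lemma rho_succ (j : ℕ) : rho (j + 1) = 128 * lev j := rfl
lemma sl_succ (j : ℕ) : sl (j + 1) = sl j + KK j := rfl
lemma lev_succ (j : ℕ) : lev (j + 1) = lev j + sl (j + 1) * (rho (j + 1) - rho j) := rfl
lemma ll_succ (j : ℕ) : ll (j + 1) = sl (j + 1) * ll j := rfl

lemma kk_even {j : ℕ} (h : Even j) : kk j = 1 := by simp [kk, h]
lemma kk_odd {j : ℕ} (h : ¬ Even j) : kk j = lev j / 4 := by simp [kk, h]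
lemma NN_even {j : ℕ} (h : Even j) : NN j = 3 ^ (128 * lev j) := by simp [NN, h]
lemma NN_odd {j : ℕ} (h : ¬ Even j) : NN j = 33 := by simp [NN, h]

lemma basic (j : ℕ) : 32 * rho j ≤ lev j ∧ lev j ≤ sl j * rho j ∧ 32 ≤ sl j ∧ 1000 ≤ rho j ∧
    4 ∣ rho j ∧ 4 ∣ lev j := by
  induction j with
  | zero => simp [rho_zero, lev_zero, sl_zero]
  | succ j ih =>
    obtain ⟨h1, h2, h3, h4, h5, h6⟩ := ih
    have hs : 32 ≤ sl (j + 1) := by rw [sl_succ]; omega
    have hr : rho j ≤ rho (j + 1) := by rw [rho_succ]; omega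
    have hsl : sl j ≤ sl (j + 1) := by rw [sl_succ]; omega
    have hK : 1 ≤ KK j := by
      unfold KK
      apply Nat.mul_pos
      · unfold kk; split_ifs
        · exact one_pos
        · omega
      · unfold NN; split_ifs
        · positivity
        · norm_num
    refine ⟨?_, ?_, hs, by rw [rho_succ]; omega, ?_, ?_⟩
    · have h7 : 33 * (rho (j + 1) - rho j) ≤ sl (j + 1) * (rho (j + 1) - rho j) :=
        Nat.mul_le_mul_right _ (by rw [sl_succ]; omega)
      rw [lev_succ]
      have h8 : rho j * 33 ≤ rho (j + 1) := by rw [rho_succ]; omega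
      omega
    · rw [lev_succ]
      have : sl (j + 1) * (rho (j + 1) - rho j) + sl (j + 1) * rho j = sl (j + 1) * rho (j + 1) := by
        rw [← Nat.mul_add]; congr 1; omega
      have h7 : sl j * rho j ≤ sl (j + 1) * rho j := Nat.mul_le_mul_right _ hsl
      omega
    · rw [rho_succ]; exact Dvd.dvd.mul_right (by norm_num) _
    · rw [lev_succ]
      apply Nat.dvd_add h6
      apply Dvd.dvd.mul_left
      apply Nat.dvd_sub
      · rw [rho_succ]; exact Dvd.dvd.mul_right (by norm_num) _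
      · exact h5

lemma lev_ge (j : ℕ) : 32 * rho j ≤ lev j := (basic j).1
lemma lev_le (j : ℕ) : lev j ≤ sl j * rho j := (basic j).2.1
lemma sl_ge (j : ℕ) : 32 ≤ sl j := (basic j).2.2.1
lemma rho_ge (j : ℕ) : 1000 ≤ rho j := (basic j).2.2.2.1
lemma four_dvd_lev (j : ℕ) : 4 ∣ lev j := (basic j).2.2.2.2.2

lemma rho_step (j : ℕ) : 4096 * rho j ≤ rho (j + 1) := by
  rw [rho_succ]; have := lev_ge j; omega

lemma rho_lt_succ (j : ℕ) : rho j < rho (j + 1) := by
  have := rho_step j; have := rho_ge j; omega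

lemma rho_strictMono : StrictMono rho := strictMono_nat_of_lt_succ rho_lt_succ

lemma rho_mono {i j : ℕ} (h : i ≤ j) : rho i ≤ rho j := rho_strictMono.monotone h

lemma rho_ge_add (j : ℕ) : 1000 + j ≤ rho j := by
  induction j with
  | zero => simp [rho_zero]
  | succ j ih => have := rho_lt_succ j; omega

lemma kk_pos (j : ℕ) : 1 ≤ kk j := by
  unfold kk; split_ifs
  · exact le_refl 1
  · have := lev_ge j; have := rho_ge j; omega

lemma four_kk_le (j : ℕ) : 4 * kk j ≤ lev j := by
  unfold kk; split_ifs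
  · have := lev_ge j; have := rho_ge j; omega
  · omega

lemma four_kk_odd {j : ℕ} (h : ¬ Even j) : 4 * kk j = lev j := by
  rw [kk_odd h]; exact Nat.mul_div_cancel' (four_dvd_lev j)

lemma NN_ge (j : ℕ) : 33 ≤ NN j := by
  unfold NN; split_ifs
  · have h1 : 4 ≤ 128 * lev j := by have := lev_ge j; have := rho_ge j; omega
    calc 33 ≤ 3 ^ 4 := by norm_num
      _ ≤ 3 ^ (128 * lev j) := Nat.pow_le_pow_right (by norm_num) h1
  · exact le_refl _

lemma NN_pos (j : ℕ) : 0 < NN j := lt_of_lt_of_le (by norm_num) (NN_ge j)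

lemma KK_pos (j : ℕ) : 0 < KK j := Nat.mul_pos (kk_pos j) (NN_pos j)

lemma KK_even {j : ℕ} (h : Even j) : KK j = 3 ^ (rho (j + 1)) := by
  rw [KK, kk_even h, NN_even h, one_mul, rho_succ]

lemma KK_odd {j : ℕ} (h : ¬ Even j) : 4 * KK j = 33 * lev j := by
  rw [KK, NN_odd h]
  have := four_kk_odd h
  calc 4 * (kk j * 33) = 33 * (4 * kk j) := by ring
    _ = _ := by rw [this]

lemma KK_ge (j : ℕ) : 8 * lev j ≤ KK j := by
  by_cases h : Even j
  · rw [KK_even h, rho_succ]
    have h1 : 128 * lev j < 3 ^ (128 * lev j) := Nat.lt_pow_self (by norm_num)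
    omega
  · have := KK_odd h; omega

lemma kk_le_KK (j : ℕ) : kk j ≤ KK j := Nat.le_mul_of_pos_right _ (NN_pos j)

lemma kk33_le_KK (j : ℕ) : 33 * kk j ≤ KK j := by
  rw [KK, mul_comm]; exact Nat.mul_le_mul_left _ (NN_ge j)

/-- `lev j ≥ (4095/4096) sl j * rho j` -/
lemma lev_ge' (j : ℕ) : 4095 * (sl j * rho j) ≤ 4096 * lev j := by
  cases j with
  | zero => simp [rho_zero, lev_zero, sl_zero]
  | succ j =>
    rw [lev_succ]
    have h1 : 4095 * rho (j + 1) ≤ 4096 * (rho (j + 1) - rho j) := by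
      have := rho_step j; omega
    have h2 : sl (j + 1) * (4095 * rho (j + 1)) ≤ sl (j + 1) * (4096 * (rho (j + 1) - rho j)) :=
      Nat.mul_le_mul_left _ h1
    nlinarith

lemma sl_rho_le (j : ℕ) : sl j * rho j ≤ 2 * lev j := by
  have := lev_ge' j; omega

lemma sl_le_lev (j : ℕ) : 500 * sl j ≤ lev j := by
  have h1 := sl_rho_le j
  have h2 : sl j * 1000 ≤ sl j * rho j := Nat.mul_le_mul_left _ (rho_ge j)
  omega

lemma sl_le_KK (j : ℕ) : 4000 * sl j ≤ KK j := by
  have := sl_le_lev j; have := KK_ge j; omega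

lemma lev_le_sl_succ (j : ℕ) : 8 * lev j ≤ sl (j + 1) := by
  rw [sl_succ]; have := KK_ge j; omega

lemma lev_succ_ge (j : ℕ) : sl (j + 1) * (127 * lev j) ≤ lev (j + 1) := by
  rw [lev_succ]
  have h1 : 127 * lev j ≤ rho (j + 1) - rho j := by
    rw [rho_succ]; have := lev_ge j; have := rho_ge j; omega
  have := Nat.mul_le_mul_left (sl (j + 1)) h1
  omega

lemma lev_succ_big (j : ℕ) : 1000 * lev j ≤ lev (j + 1) := by
  have h1 := lev_succ_ge j
  have h2 : 32 * (127 * lev j) ≤ sl (j + 1) * (127 * lev j) := Nat.mul_le_mul_right _ (sl_ge _)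
  omega

lemma lev_mono : Monotone lev := monotone_nat_of_le_succ (fun j => by
  have := lev_succ_big j; omega)

lemma sl_mono : Monotone sl := monotone_nat_of_le_succ (fun j => by rw [sl_succ]; omega)

lemma ll_props (j : ℕ) : 8 * ll j ≤ lev j ∧ 4 * rho j ≤ ll j := by
  induction j with
  | zero => simp [ll, lev_zero, rho_zero]
  | succ j ih =>
    obtain ⟨h1, h2⟩ := ih
    constructor
    · rw [ll_succ]
      have := lev_succ_ge j
      have h3 : sl (j + 1) * (8 * ll j) ≤ sl (j + 1) * (127 * lev j) :=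
        Nat.mul_le_mul_left _ (by omega)
      nlinarith
    · rw [ll_succ, rho_succ]
      have h3 := lev_le_sl_succ j
      have h4 : 4000 ≤ ll j := by have := rho_ge j; omega
      have h5 : 8 * lev j * 4000 ≤ sl (j + 1) * ll j := Nat.mul_le_mul h3 h4
      omega

lemma ll_le (j : ℕ) : 8 * ll j ≤ lev j := (ll_props j).1
lemma ll_ge (j : ℕ) : 4 * rho j ≤ ll j := (ll_props j).2

/-- slopes are at most `2 * 3 ^ rho` -/
lemma sl_le_pow (j : ℕ) : sl j ≤ 2 * 3 ^ rho j := by
  cases j with
  | zero =>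
    rw [sl_zero]
    calc 32 ≤ 2 * 3 ^ 4 := by norm_num
      _ ≤ 2 * 3 ^ rho 0 := by
        apply Nat.mul_le_mul_left
        exact Nat.pow_le_pow_right (by norm_num) (by rw [rho_zero]; norm_num)
  | succ j =>
    rw [sl_succ]
    have h1 : sl j ≤ KK j := by have := sl_le_KK j; omega
    have h2 : KK j ≤ 3 ^ rho (j + 1) := by
      by_cases h : Even j
      · rw [KK_even h]
      · have h3 := KK_odd h
        have h4 : rho (j + 1) < 3 ^ rho (j + 1) := Nat.lt_pow_self (by norm_num)
        have h5 := rho_succ j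
        omega
    omega

/-- for odd `j` the slope before circle `j` is at least `3 ^ rho j` -/
lemma sl_ge_pow {j : ℕ} (h : ¬ Even j) : 3 ^ rho j ≤ sl j := by
  cases j with
  | zero => simp at h
  | succ j =>
    have h' : Even j := by
      by_contra h2
      exact h (Nat.even_add_one.mpr h2)
    rw [sl_succ, KK_even h']
    omega

/-- `∑_{i<j} k_i ≤ lev (j-1) / 3` in the form used later -/
lemma sum_kk_le (j : ℕ) : 3 * ∑ i ∈ Finset.range (j + 1), kk i ≤ lev j := by
  induction j with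
  | zero =>
    simp only [zero_add, Finset.range_one, Finset.sum_singleton]
    rw [kk_even (by simp), lev_zero]; norm_num
  | succ j ih =>
    rw [Finset.sum_range_succ]
    have h1 := four_kk_le (j + 1)
    have h2 := lev_succ_big j
    omega

end Pool.Agent.Work.MP_0a8b43_nt
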