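import Mathlib
import Pool.Agent.Work.MP_0a8b43_nt.Params

set_option autoImplicit false

open Complex Set Filter Topology

namespace Pool.Agent.Work.MP_0a8b43_nt

/-- radius of circle `j` -/
noncomputable def Rr (j : ℕ) : ℝ := Real.exp (rho j)
/-- the basic power -/
noncomputable def q (j : ℕ) (w : ℂ) : ℂ := (w / (Rr j : ℂ)) ^ NN j
/-- factor `j` of the product -/
noncomputable def fac (j : ℕ) (w : ℂ) : ℂ := (1 - q j w) ^ kk j
/-- tail of the product -/
noncomputable def tl (j : ℕ) (w : ℂ) : ℂ := ∏' i, fac (i + j) w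
/-- finite part of the product -/
noncomputable def AA (j : ℕ) (w : ℂ) : ℂ := (1 - w ^ 32) * ∏ i ∈ Finset.range j, fac i w
/-- the entire function `W` -/
noncomputable def W (w : ℂ) : ℂ := (1 - w ^ 32) * tl 0 w

lemma Rr_pos (j : ℕ) : 0 < Rr j := Real.exp_pos _

lemma norm_q (j : ℕ) (w : ℂ) : ‖q j w‖ = (‖w‖ / Rr j) ^ NN j := by
  rw [q, norm_pow, norm_div, Complex.norm_real, Real.norm_eq_abs, abs_of_pos (Rr_pos j)]

lemma kk_le_exp (j : ℕ) : (kk j : ℝ) ≤ Real.exp (2 * rho j) := by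
  have h1 : kk j ≤ 6 ^ rho j := by
    have h2 := four_kk_le j
    have h3 := lev_le j
    have h4 := sl_le_pow j
    have h5 : rho j < 2 ^ rho j := Nat.lt_pow_self (by norm_num)
    have h6 : sl j * rho j ≤ 2 * 3 ^ rho j * 2 ^ rho j := Nat.mul_le_mul h4 h5.le
    have h7 : 2 * 3 ^ rho j * 2 ^ rho j = 2 * 6 ^ rho j := by
      rw [mul_assoc, ← mul_pow]; norm_num
    rw [h7] at h6
    omega
  have h2 : (kk j : ℝ) ≤ (6 : ℝ) ^ rho j := by exact_mod_cast h1
  have h3 : (6 : ℝ) ≤ Real.exp 2 := by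
    have : Real.exp 2 = Real.exp 1 ^ 2 := by rw [← Real.exp_nat_mul]; norm_num
    rw [this]
    have := Real.exp_one_gt_d9
    nlinarith
  calc (kk j : ℝ) ≤ (6 : ℝ) ^ rho j := h2
    _ ≤ Real.exp 2 ^ rho j := pow_le_pow_left₀ (by norm_num) h3 _
    _ = Real.exp (2 * rho j) := by rw [← Real.exp_nat_mul]; ring_nf

lemma norm_q_le {j : ℕ} {w : ℂ} (hw : ‖w‖ ≤ Rr j) :
    ‖q j w‖ ≤ ‖w‖ ^ 33 * Real.exp (-(33 * rho j)) := by
  rw [norm_q]
  have h0 := Rr_pos j
  calc (‖w‖ / Rr j) ^ NN j ≤ (‖w‖ / Rr j) ^ 33 :=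
        pow_le_pow_of_le_one (by positivity) ((div_le_one h0).mpr hw) (NN_ge j)
    _ = ‖w‖ ^ 33 * Real.exp (-(33 * rho j)) := by
        rw [div_pow, div_eq_mul_inv, Rr, ← Real.exp_nat_mul, ← Real.exp_neg]
        norm_num

lemma half_le (j : ℕ) : Real.exp ((rho j : ℝ) / 2) ≤ Rr j := by
  unfold Rr
  apply Real.exp_le_exp.mpr
  have : (0 : ℝ) ≤ rho j := by positivity
  linarith

lemma rho_ge_real (j : ℕ) : (1000 : ℝ) ≤ rho j := by exact_mod_cast rho_ge j

lemma kq_le {j : ℕ} {w : ℂ} (hw : ‖w‖ ≤ Real.exp ((rho j : ℝ) / 2)) :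
    kk j * ‖q j w‖ ≤ ‖w‖ ^ 33 * Real.exp (-(31 * rho j)) := by
  have h1 := norm_q_le (hw.trans (half_le j))
  have h2 := kk_le_exp j
  calc (kk j : ℝ) * ‖q j w‖ ≤ Real.exp (2 * rho j) * (‖w‖ ^ 33 * Real.exp (-(33 * rho j))) := by
        gcongr
    _ = ‖w‖ ^ 33 * (Real.exp (2 * rho j) * Real.exp (-(33 * rho j))) := by ring
    _ = _ := by rw [← Real.exp_add]; ring_nf

lemma pow33_le {x a : ℝ} (hx0 : 0 ≤ x) (hx : x ≤ Real.exp (a / 2)) :
    x ^ 33 ≤ Real.exp (33 / 2 * a) := by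
  calc x ^ 33 ≤ Real.exp (a / 2) ^ 33 := pow_le_pow_left₀ hx0 hx _
    _ = _ := by rw [← Real.exp_nat_mul]; ring_nf

lemma kq_le' {j : ℕ} {w : ℂ} (hw : ‖w‖ ≤ Real.exp ((rho j : ℝ) / 2)) :
    kk j * ‖q j w‖ ≤ Real.exp (-(14 * rho j)) := by
  refine (kq_le hw).trans ?_
  calc ‖w‖ ^ 33 * Real.exp (-(31 * rho j)) ≤
      Real.exp (33 / 2 * rho j) * Real.exp (-(31 * rho j)) := by
        gcongr; exact pow33_le (norm_nonneg _) hw
    _ = Real.exp (33 / 2 * rho j + -(31 * rho j)) := (Real.exp_add _ _).symm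
    _ ≤ _ := by
        apply Real.exp_le_exp.mpr
        have := rho_ge_real j
        linarith

lemma fac_sub_one {j : ℕ} {w : ℂ} (h : kk j * ‖q j w‖ ≤ 1) :
    ‖fac j w - 1‖ ≤ 2 * (kk j * ‖q j w‖) := by
  have h1 := Finset.norm_prod_one_add_sub_one_le (Finset.range (kk j)) (fun _ => -q j w)
  simp only [Finset.prod_const, Finset.card_range, norm_neg, Finset.sum_const, nsmul_eq_mul,
    ← sub_eq_add_neg] at h1
  rw [fac]
  have h0 : 0 ≤ kk j * ‖q j w‖ := by positivity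
  have h2 := Real.abs_exp_sub_one_le (x := kk j * ‖q j w‖) (by rwa [abs_of_nonneg h0])
  rw [abs_of_nonneg h0] at h2
  exact h1.trans ((le_abs_self _).trans h2)

lemma exp_small {j : ℕ} : Real.exp (-(14 * rho j : ℝ)) ≤ 1 := by
  apply Real.exp_le_one_iff.mpr
  have := rho_ge_real j
  linarith

lemma fac_sub_one' {j : ℕ} {w : ℂ} (hw : ‖w‖ ≤ Real.exp ((rho j : ℝ) / 2)) :
    ‖fac j w - 1‖ ≤ 2 * (‖w‖ ^ 33 * Real.exp (-(31 * rho j))) :=
  (fac_sub_one ((kq_le' hw).trans exp_small)).trans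
    (mul_le_mul_of_nonneg_left (kq_le hw) (by norm_num))

lemma rho_add (i j : ℕ) : (rho j : ℝ) + i ≤ rho (i + j) := by
  have : rho j + i ≤ rho (i + j) := by
    induction i with
    | zero => simp
    | succ i ih =>
      have := rho_lt_succ (i + j)
      rw [show i + 1 + j = i + j + 1 by ring]
      omega
  exact_mod_cast this

lemma fac_add_bound {i j : ℕ} {w : ℂ} (hw : ‖w‖ ≤ Real.exp ((rho j : ℝ) / 2)) :
    ‖fac (i + j) w - 1‖ ≤ 2 * (‖w‖ ^ 33 * Real.exp (-(31 * rho j))) * (1 / 2) ^ i := by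
  have h1 := rho_add i j
  have hw' : ‖w‖ ≤ Real.exp ((rho (i + j) : ℝ) / 2) := by
    refine hw.trans (Real.exp_le_exp.mpr ?_)
    have : (0 : ℝ) ≤ i := by positivity
    linarith
  refine (fac_sub_one' hw').trans ?_
  have h2 : Real.exp (-(31 * rho (i + j))) ≤ Real.exp (-(31 * rho j)) * (1 / 2) ^ i := by
    have h3 : Real.exp (-(i : ℝ)) ≤ (1 / 2) ^ i := by
      have : Real.exp (-(i : ℝ)) = Real.exp (-1) ^ i := by rw [← Real.exp_nat_mul]; ring_nf
      rw [this]
      apply pow_le_pow_left₀ (Real.exp_pos _).le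
      rw [Real.exp_neg, one_div]
      apply inv_anti₀ (by norm_num)
      have := Real.exp_one_gt_d9
      linarith
    calc Real.exp (-(31 * rho (i + j))) ≤ Real.exp (-(31 * rho j) + -(i : ℝ)) := by
          apply Real.exp_le_exp.mpr
          have : (0 : ℝ) ≤ i := by positivity
          linarith
      _ = Real.exp (-(31 * rho j)) * Real.exp (-(i : ℝ)) := Real.exp_add _ _
      _ ≤ _ := by gcongr
  calc 2 * (‖w‖ ^ 33 * Real.exp (-(31 * rho (i + j)))) ≤
      2 * (‖w‖ ^ 33 * (Real.exp (-(31 * rho j)) * (1 / 2) ^ i)) := by gcongr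
    _ = _ := by ring

lemma summ_aux (C : ℝ) : Summable (fun i : ℕ => C * (1 / 2 : ℝ) ^ i) :=
  Summable.mul_left C summable_geometric_two

lemma fac_eq (j : ℕ) (w : ℂ) : fac j w = 1 + (fac j w - 1) := by ring

lemma tail_summ {j : ℕ} {w : ℂ} (hw : ‖w‖ ≤ Real.exp ((rho j : ℝ) / 2)) :
    Summable (fun i => ‖fac (i + j) w - 1‖) :=
  Summable.of_nonneg_of_le (fun _ => norm_nonneg _) (fun i => fac_add_bound (i := i) hw)
    (summ_aux _)

lemma exists_big (w : ℂ) : ∃ n, ‖w‖ ≤ Real.exp ((rho n : ℝ) / 2) := by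
  obtain ⟨n, hn⟩ := exists_nat_ge (2 * ‖w‖)
  refine ⟨n, ?_⟩
  have h1 : (n : ℝ) ≤ rho n := by
    have := rho_ge_add n
    have h2 : n ≤ rho n := by omega
    exact_mod_cast h2
  have h2 := Real.add_one_le_exp ((rho n : ℝ) / 2)
  linarith

lemma exists_big' (j : ℕ) (w : ℂ) : ∃ n, j ≤ n ∧ ‖w‖ ≤ Real.exp ((rho n : ℝ) / 2) := by
  obtain ⟨n, hn⟩ := exists_big w
  refine ⟨j + n, by omega, hn.trans (Real.exp_le_exp.mpr ?_)⟩
  have : rho n ≤ rho (j + n) := rho_mono (by omega)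
  have : (rho n : ℝ) ≤ rho (j + n) := by exact_mod_cast this
  linarith

lemma mult_tail (j : ℕ) (w : ℂ) : Multipliable (fun i => fac (i + j) w) := by
  have key : ∀ n, ‖w‖ ≤ Real.exp ((rho n : ℝ) / 2) → Multipliable (fun i => fac (i + n) w) := by
    intro n hn
    have h1 := multipliable_one_add_of_summable (tail_summ hn)
    refine h1.congr (fun i => ?_)
    ring
  obtain ⟨n, hjn, hn⟩ := exists_big' j w
  obtain ⟨k, rfl⟩ : ∃ k, n = j + k := ⟨n - j, by omega⟩
  clear hjn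
  induction k with
  | zero => exact key _ hn
  | succ k ih =>
    -- use the partial product formula
    have h1 := key _ hn
    have h2 : Multipliable (fun i => fac (i + (k + 1) + j) w) := by
      refine h1.congr (fun i => ?_)
      congr 1; ring
    have h3 := h2.hasProd.prod_range_mul (f := fun i => fac (i + j) w) (k := k + 1)
    exact h3.multipliable

lemma tl_succ (j : ℕ) (w : ℂ) : tl j w = fac j w * tl (j + 1) w := by
  unfold tl
  have h : Multipliable (fun n => fac (n + 1 + j) w) := by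
    refine (mult_tail (j + 1) w).congr (fun i => ?_)
    congr 1; ring
  have h1 := tprod_eq_zero_mul' (f := fun i => fac (i + j) w) h
  rw [h1, zero_add]
  congr 1
  apply tprod_congr
  intro i
  congr 1; ring

lemma tl_sub_one {j : ℕ} {w : ℂ} (hw : ‖w‖ ≤ Real.exp ((rho j : ℝ) / 2)) :
    ‖tl j w - 1‖ ≤ 8 * (‖w‖ ^ 33 * Real.exp (-(31 * rho j))) := by
  set C := 2 * (‖w‖ ^ 33 * Real.exp (-(31 * rho j))) with hC
  have hC0 : 0 ≤ C := by positivity
  have hC1 : 2 * C ≤ 1 := by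
    have h1 : ‖w‖ ^ 33 * Real.exp (-(31 * rho j)) ≤ Real.exp (-(14 * rho j)) := by
      calc ‖w‖ ^ 33 * Real.exp (-(31 * rho j)) ≤
          Real.exp (33 / 2 * rho j) * Real.exp (-(31 * rho j)) := by
            gcongr; exact pow33_le (norm_nonneg _) hw
        _ = Real.exp (33 / 2 * rho j + -(31 * rho j)) := (Real.exp_add _ _).symm
        _ ≤ _ := by
            apply Real.exp_le_exp.mpr
            have := rho_ge_real j
            linarith
    have h2 : Real.exp (-(14 * rho j : ℝ)) ≤ 1 / 4 := by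
      have h3 : Real.exp (-(14 * rho j : ℝ)) ≤ Real.exp (-2) := by
        apply Real.exp_le_exp.mpr
        have := rho_ge_real j
        linarith
      have h4 : Real.exp (-2) ≤ 1 / 4 := by
        rw [Real.exp_neg, one_div]
        apply inv_anti₀ (by norm_num)
        have : Real.exp 2 = Real.exp 1 ^ 2 := by rw [← Real.exp_nat_mul]; norm_num
        rw [this]
        have := Real.exp_one_gt_d9
        nlinarith
      linarith
    linarith
  have h1 : ∀ t : Finset ℕ, ‖∏ i ∈ t, fac (i + j) w - 1‖ ≤ 2 * (2 * C) := by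
    intro t
    have h2 := Finset.norm_prod_one_add_sub_one_le t (fun i => fac (i + j) w - 1)
    simp only [add_sub_cancel] at h2
    have h3 : ∑ i ∈ t, ‖fac (i + j) w - 1‖ ≤ 2 * C := by
      calc ∑ i ∈ t, ‖fac (i + j) w - 1‖ ≤ ∑ i ∈ t, C * (1 / 2) ^ i :=
            Finset.sum_le_sum (fun i _ => fac_add_bound hw)
        _ ≤ ∑' i : ℕ, C * (1 / 2) ^ i :=
            (summ_aux C).sum_le_tsum t (fun i _ => by positivity)
        _ = 2 * C := by rw [tsum_mul_left, tsum_geometric_two]; ring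
    have h0 : 0 ≤ ∑ i ∈ t, ‖fac (i + j) w - 1‖ := Finset.sum_nonneg (fun _ _ => norm_nonneg _)
    have h4 := Real.abs_exp_sub_one_le (x := ∑ i ∈ t, ‖fac (i + j) w - 1‖) (by
      rw [abs_of_nonneg h0]; linarith)
    rw [abs_of_nonneg h0] at h4
    linarith [le_abs_self (Real.exp (∑ i ∈ t, ‖fac (i + j) w - 1‖) - 1)]
  have h2 : Tendsto (fun t : Finset ℕ => ‖∏ i ∈ t, fac (i + j) w - 1‖) atTop (𝓝 ‖tl j w - 1‖) :=
    (((mult_tail j w).hasProd.sub_const 1).norm)
  have h3 := le_of_tendsto' h2 h1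
  linarith

lemma q_diff (j : ℕ) : Differentiable ℂ (q j) := by
  unfold q; fun_prop

lemma fac_diff (j : ℕ) : Differentiable ℂ (fac j) := by
  unfold fac
  exact ((q_diff j).const_sub 1).pow _

lemma tl_diffOn (j : ℕ) : DifferentiableOn ℂ (tl j) (Metric.ball 0 (Real.exp ((rho j : ℝ) / 2))) := by
  set B := Real.exp ((rho j : ℝ) / 2) with hB
  have h1 := (summ_aux (2 * (B ^ 33 * Real.exp (-(31 * rho j))))).hasProdLocallyUniformlyOn_nat_one_add
    (f := fun i w => fac (i + j) w - 1) (K := Metric.ball (0 : ℂ) B) Metric.isOpen_ball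
    (Eventually.of_forall (fun i w hw => by
      have hw' : ‖w‖ ≤ B := by
        have : ‖w‖ < B := by simpa using hw
        exact this.le
      refine (fac_add_bound hw').trans ?_
      gcongr))
    (fun i => ((fac_diff (i + j)).continuous.continuousOn).sub continuousOn_const)
  have h2 := h1.differentiableOn (Eventually.of_forall (fun t => by
      apply Differentiable.differentiableOn
      have : (fun w => ∏ i ∈ t, (1 + (fac (i + j) w - 1))) = fun w => ∏ i ∈ t, fac (i + j) w := by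
        ext w; simp
      rw [this]
      exact Differentiable.fun_finsetProd (fun i _ => fac_diff (i + j)))) Metric.isOpen_ball
  refine h2.congr (fun w _ => ?_)
  unfold tl
  apply tprod_congr
  intro i; ring

lemma tl_diff (j : ℕ) : Differentiable ℂ (tl j) := by
  intro w
  obtain ⟨n, hjn, hn⟩ := exists_big' j (w + 1)
  obtain ⟨n, hjn, hn⟩ := exists_big' j ((‖w‖ + 1 : ℝ) : ℂ)
  have hn' : ‖w‖ < Real.exp ((rho n : ℝ) / 2) := by
    have h1 : ‖((‖w‖ + 1 : ℝ) : ℂ)‖ = ‖w‖ + 1 := by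
      rw [Complex.norm_real, Real.norm_eq_abs, abs_of_pos (by positivity)]
    rw [h1] at hn; linarith
  obtain ⟨k, rfl⟩ : ∃ k, n = j + k := ⟨n - j, by omega⟩
  clear hjn hn
  have h1 : DifferentiableAt ℂ (tl (j + k)) w :=
    (tl_diffOn (j + k)).differentiableAt (Metric.isOpen_ball.mem_nhds (by simpa using hn'))
  clear hn'
  induction k with
  | zero => exact h1
  | succ k ih =>
    apply ih
    have h2 : tl (j + k) = fun w => fac (j + k) w * tl (j + k + 1) w := by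
      ext w; exact tl_succ (j + k) w
    rw [h2]
    exact (fac_diff _).differentiableAt.mul h1

lemma W_diff : Differentiable ℂ W := by
  unfold W
  exact (by fun_prop : Differentiable ℂ (fun w : ℂ => 1 - w ^ 32)).mul (tl_diff 0)

lemma AA_zero (w : ℂ) : AA 0 w = 1 - w ^ 32 := by simp [AA]

lemma AA_succ (j : ℕ) (w : ℂ) : AA (j + 1) w = AA j w * fac j w := by
  unfold AA
  rw [Finset.prod_range_succ, mul_assoc]

lemma AA_diff (j : ℕ) : Differentiable ℂ (AA j) := by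
  unfold AA
  exact (by fun_prop : Differentiable ℂ (fun w : ℂ => 1 - w ^ 32)).mul
    (Differentiable.fun_finsetProd (fun i _ => fac_diff i))

lemma W_eq' (j : ℕ) (w : ℂ) : W w = AA j w * tl j w := by
  induction j with
  | zero => rw [AA_zero, W]
  | succ j ih => rw [ih, tl_succ, AA_succ]; ring

lemma W_eq (j : ℕ) (w : ℂ) : W w = AA j w * fac j w * tl (j + 1) w := by
  rw [W_eq' (j + 1), AA_succ]

lemma tl_deriv {j : ℕ} {w : ℂ} (hw : 2 * ‖w‖ ≤ Real.exp ((rho j : ℝ) / 2)) :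
    ‖w * deriv (tl j) w‖ ≤ 8 * ((2 * ‖w‖) ^ 33 * Real.exp (-(31 * rho j))) := by
  rcases eq_or_ne w 0 with rfl | hw0
  · simp
  have hp : 0 < ‖w‖ := norm_pos_iff.mpr hw0
  have h1 : deriv (tl j) w = deriv (fun z => tl j z - 1) w := by
    rw [deriv_sub_const]
  have h2 := Complex.norm_deriv_le_of_forall_mem_sphere_norm_le (c := w) (R := ‖w‖)
    (C := 8 * ((2 * ‖w‖) ^ 33 * Real.exp (-(31 * rho j)))) (f := fun z => tl j z - 1) hp
    (((tl_diff j).sub_const 1).diffContOnCl) (by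
      intro z hz
      have hz1 : ‖z - w‖ = ‖w‖ := by simpa [dist_eq_norm] using hz
      have hz2 : ‖z‖ ≤ 2 * ‖w‖ := by
        calc ‖z‖ = ‖(z - w) + w‖ := by ring_nf
          _ ≤ ‖z - w‖ + ‖w‖ := norm_add_le _ _
          _ = _ := by rw [hz1]; ring
      refine (tl_sub_one (hz2.trans hw)).trans ?_
      gcongr)
  rw [norm_mul, h1]
  calc ‖w‖ * ‖deriv (fun z => tl j z - 1) w‖ ≤
      ‖w‖ * (8 * ((2 * ‖w‖) ^ 33 * Real.exp (-(31 * rho j))) / ‖w‖) := by gcongr
    _ = _ := by field_simp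

/-- the tail and its logarithmic derivative are tiny perturbations up to circle `j` and beyond -/
lemma tail_small {j : ℕ} {w : ℂ} (hw : ‖w‖ ≤ Real.exp ((rho j : ℝ) / 4)) :
    ‖tl j w - 1‖ ≤ Real.exp (-(10 * rho j)) ∧
    ‖w * deriv (tl j) w‖ ≤ Real.exp (-(10 * rho j)) := by
  have hr := rho_ge_real j
  have e2 : (2 : ℝ) ≤ Real.exp 1 := by have := Real.exp_one_gt_d9; linarith
  have e8 : (8 : ℝ) ≤ Real.exp 3 := by
    have : Real.exp 3 = Real.exp 1 ^ 3 := by rw [← Real.exp_nat_mul]; norm_num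
    rw [this]
    calc (8 : ℝ) = 2 ^ 3 := by norm_num
      _ ≤ Real.exp 1 ^ 3 := pow_le_pow_left₀ (by norm_num) e2 _
  have h2w : 2 * ‖w‖ ≤ Real.exp (1 + (rho j : ℝ) / 4) := by
    rw [Real.exp_add]; gcongr
  have h33 : (2 * ‖w‖) ^ 33 ≤ Real.exp (33 + 33 / 4 * rho j) := by
    calc (2 * ‖w‖) ^ 33 ≤ Real.exp (1 + (rho j : ℝ) / 4) ^ 33 := by gcongr
      _ = _ := by rw [← Real.exp_nat_mul]; ring_nf
  have hb : 8 * ((2 * ‖w‖) ^ 33 * Real.exp (-(31 * rho j))) ≤ Real.exp (-(10 * rho j)) := by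
    calc 8 * ((2 * ‖w‖) ^ 33 * Real.exp (-(31 * rho j))) ≤
        Real.exp 3 * (Real.exp (33 + 33 / 4 * rho j) * Real.exp (-(31 * rho j))) := by gcongr
      _ = Real.exp (3 + (33 + 33 / 4 * rho j + -(31 * rho j))) := by
          rw [← Real.exp_add, ← Real.exp_add]
      _ ≤ _ := by apply Real.exp_le_exp.mpr; linarith
  have hw2 : 2 * ‖w‖ ≤ Real.exp ((rho j : ℝ) / 2) := by
    refine h2w.trans (Real.exp_le_exp.mpr ?_)
    linarith
  refine ⟨?_, (tl_deriv hw2).trans hb⟩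
  refine (tl_sub_one (by linarith [norm_nonneg w])).trans (le_trans ?_ hb)
  gcongr
  linarith [norm_nonneg w]

end Pool.Agent.Work.MP_0a8b43_nt
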