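import Mathlib
import Pool.Agent.Work.MP_0a8b43_nt.Prod

set_option autoImplicit false

open Complex Set Filter Topology

namespace Pool.Agent.Work.MP_0a8b43_nt

/-- `w f'(w) = f(w) d` -/
def LD (f : ℂ → ℂ) (w d : ℂ) : Prop := HasDerivAt f (f w * d / w) w

lemma LD.mul {f g : ℂ → ℂ} {w a b : ℂ} (hf : LD f w a) (hg : LD g w b) :
    LD (fun z => f z * g z) w (a + b) := by
  have h := HasDerivAt.fun_mul hf hg
  refine h.congr_deriv ?_
  ring

lemma LD.pow {f : ℂ → ℂ} {w a : ℂ} (hf : LD f w a) (n : ℕ) :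
    LD (fun z => f z ^ n) w (n * a) := by
  have h := HasDerivAt.fun_pow hf n
  refine h.congr_deriv ?_
  rcases Nat.eq_zero_or_pos n with rfl | hn
  · simp
  · obtain ⟨m, rfl⟩ : ∃ m, n = m + 1 := ⟨n - 1, by omega⟩
    simp only [Nat.add_sub_cancel, pow_succ]
    ring

lemma LD.congr {f g : ℂ → ℂ} {w a : ℂ} (hf : LD f w a) (h : ∀ z, f z = g z) : LD g w a := by
  have : f = g := funext h
  rwa [← this]

lemma LD.eq {f : ℂ → ℂ} {w a : ℂ} (hf : LD f w a) (hw : w ≠ 0) (h : f w ≠ 0) :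
    w * deriv f w / f w = a := by
  have h1 : deriv f w = f w * a / w := HasDerivAt.deriv hf
  rw [h1]; field_simp

lemma LD_32 {w : ℂ} (hw : w ≠ 0) (h : w ^ 32 ≠ 1) :
    LD (fun z => 1 - z ^ 32) w (32 * (w ^ 32 / (w ^ 32 - 1))) := by
  have h1 := (hasDerivAt_pow 32 w).const_sub 1
  unfold LD
  refine h1.congr_deriv ?_
  have h2 : w ^ 32 - 1 ≠ 0 := sub_ne_zero.mpr h
  field_simp
  ring

lemma LD_q {j : ℕ} {w : ℂ} (hw : w ≠ 0) (h : q j w ≠ 1) :
    LD (fun z => 1 - q j z) w (NN j * (q j w / (q j w - 1))) := by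
  have hR : (Rr j : ℂ) ≠ 0 := by exact_mod_cast (Rr_pos j).ne'
  have h1 : HasDerivAt (fun z : ℂ => z / (Rr j : ℂ)) (1 / (Rr j : ℂ)) w :=
    (hasDerivAt_id w).div_const _
  have h2 := (HasDerivAt.fun_pow h1 (NN j)).const_sub 1
  unfold LD
  refine h2.congr_deriv ?_
  have h3 : q j w - 1 ≠ 0 := sub_ne_zero.mpr h
  have h4 : (w / (Rr j : ℂ)) ^ (NN j - 1) * w = q j w * Rr j := by
    have h5 : (w / (Rr j : ℂ)) ^ (NN j - 1) * (w / (Rr j : ℂ)) = q j w := by
      rw [← pow_succ, Nat.sub_add_cancel (NN_pos j)]; rfl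
    rw [← h5]; field_simp
  have h6 : (w / (Rr j : ℂ)) ^ (NN j - 1) = q j w * Rr j / w := by
    rw [← h4]; field_simp
  rw [h6]
  field_simp
  ring

lemma LD_fac {j : ℕ} {w : ℂ} (hw : w ≠ 0) (h : q j w ≠ 1) :
    LD (fac j) w (KK j * (q j w / (q j w - 1))) := by
  have h1 := (LD_q hw h).pow (kk j)
  have h2 : (KK j : ℂ) * (q j w / (q j w - 1)) = kk j * (NN j * (q j w / (q j w - 1))) := by
    rw [KK]; push_cast; ring
  rw [h2]
  exact h1

/-- logarithmic derivative of the finite part -/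
noncomputable def dA (j : ℕ) (w : ℂ) : ℂ :=
  32 * (w ^ 32 / (w ^ 32 - 1)) + ∑ i ∈ Finset.range j, KK i * (q i w / (q i w - 1))

/-- all earlier circles are far below `w` -/
def Far (j : ℕ) (w : ℂ) : Prop := 20 ≤ ‖w ^ 32‖ ∧ ∀ i < j, 20 ≤ ‖q i w‖

lemma Far.ne {j : ℕ} {w : ℂ} (h : Far j w) : w ≠ 0 := by
  rintro rfl
  have := h.1
  norm_num at this

lemma Far.mono {i j : ℕ} {w : ℂ} (h : Far j w) (hij : i ≤ j) : Far i w :=
  ⟨h.1, fun k hk => h.2 k (by omega)⟩

lemma ne_one_of_big {y : ℂ} (h : 20 ≤ ‖y‖) : y ≠ 1 := by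
  rintro rfl
  norm_num at h

lemma frac_big {y : ℂ} (h : 20 ≤ ‖y‖) : ‖y / (y - 1) - 1‖ ≤ 1 / 19 := by
  have h1 : y - 1 ≠ 0 := sub_ne_zero.mpr (ne_one_of_big h)
  have h2 : y / (y - 1) - 1 = 1 / (y - 1) := by field_simp; ring
  rw [h2, norm_div, norm_one]
  have h3 : 19 ≤ ‖y - 1‖ := by
    have := norm_sub_norm_le y 1
    rw [norm_one] at this; linarith
  exact one_div_le_one_div_of_le (by norm_num) h3

lemma LD_AA {j : ℕ} {w : ℂ} (h : Far j w) : LD (AA j) w (dA j w) := by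
  induction j with
  | zero =>
    have h1 := LD_32 h.ne (ne_one_of_big h.1)
    have h2 := h1.congr (g := AA 0) (fun z => (AA_zero z).symm)
    simpa [dA] using h2
  | succ j ih =>
    have h1 := (ih (h.mono (by omega))).mul
      (LD_fac h.ne (ne_one_of_big (h.2 j (by omega))))
    have h2 := h1.congr (g := AA (j + 1)) (fun z => (AA_succ j z).symm)
    unfold dA at h2 ⊢
    rw [Finset.sum_range_succ, ← add_assoc]
    exact h2

lemma sl_succ_real (j : ℕ) : (sl (j + 1) : ℝ) = sl j + KK j := by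
  rw [sl_succ]; push_cast; ring

lemma norm_dA {j : ℕ} {w : ℂ} (h : Far j w) : ‖dA j w - sl j‖ ≤ sl j / 19 := by
  induction j with
  | zero =>
    have h1 := frac_big h.1
    have h2 : dA 0 w - (sl 0 : ℂ) = 32 * (w ^ 32 / (w ^ 32 - 1) - 1) := by
      simp only [dA, Finset.range_zero, Finset.sum_empty, add_zero, sl_zero]
      push_cast; ring
    rw [h2, norm_mul, sl_zero]
    push_cast
    have : ‖(32 : ℂ)‖ = 32 := by norm_num
    rw [this]
    linarith
  | succ j ih =>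
    have h1 := frac_big (h.2 j (by omega))
    have h2 := ih (h.mono (by omega))
    have h3 : dA (j + 1) w - (sl (j + 1) : ℂ) =
        (dA j w - sl j) + KK j * (q j w / (q j w - 1) - 1) := by
      unfold dA
      rw [Finset.sum_range_succ, sl_succ]
      push_cast; ring
    rw [h3, sl_succ_real]
    refine (norm_add_le _ _).trans ?_
    rw [norm_mul, Complex.norm_natCast]
    have h4 : (KK j : ℝ) * ‖q j w / (q j w - 1) - 1‖ ≤ KK j * (1 / 19) := by gcongr
    linarith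

/-- the piecewise linear growth function -/
noncomputable def phi (j : ℕ) (x : ℝ) : ℝ := lev j + sl j * (x - rho j)

lemma phi_zero (x : ℝ) : phi 0 x = 32 * x := by
  simp only [phi, lev_zero, sl_zero, rho_zero]; push_cast; ring

lemma lev_succ_real (j : ℕ) :
    (lev (j + 1) : ℝ) = lev j + sl (j + 1) * (rho (j + 1) - rho j) := by
  rw [lev_succ]
  push_cast [Nat.cast_sub (rho_lt_succ j).le]
  ring

lemma phi_succ' (j : ℕ) (x : ℝ) : phi (j + 1) x = lev j + sl (j + 1) * (x - rho j) := by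
  unfold phi
  rw [lev_succ_real]; ring

lemma phi_succ (j : ℕ) (x : ℝ) : phi (j + 1) x = phi j x + KK j * (x - rho j) := by
  rw [phi_succ', sl_succ_real]
  unfold phi
  ring

lemma log_big {y : ℂ} (h : 20 ≤ ‖y‖) : |Real.log ‖1 - y‖ - Real.log ‖y‖| ≤ 1 / 19 := by
  have h0 : 0 < ‖y‖ := by linarith
  have h1 : ‖y‖ - 1 ≤ ‖1 - y‖ := by
    have := norm_sub_norm_le y 1
    rw [norm_one, norm_sub_rev] at this; exact this
  have h2 : ‖1 - y‖ ≤ ‖y‖ + 1 := by
    have := norm_sub_le 1 y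
    rw [norm_one] at this; linarith
  have h3 : 0 < ‖1 - y‖ := by linarith
  rw [← Real.log_div h3.ne' h0.ne', abs_le]
  constructor
  · have h4 : ‖y‖ / ‖1 - y‖ ≤ 20 / 19 := by
      rw [div_le_div_iff₀ h3 (by norm_num)]; linarith
    have h5 := Real.log_le_sub_one_of_pos (x := ‖y‖ / ‖1 - y‖) (by positivity)
    have h6 : Real.log (‖y‖ / ‖1 - y‖) = - Real.log (‖1 - y‖ / ‖y‖) := by
      rw [← Real.log_inv, inv_div]
    rw [h6] at h5
    linarith
  · have h4 : ‖1 - y‖ / ‖y‖ ≤ 21 / 20 := by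
      rw [div_le_div_iff₀ h0 (by norm_num)]; linarith
    have h5 := Real.log_le_sub_one_of_pos (x := ‖1 - y‖ / ‖y‖) (by positivity)
    linarith

lemma log_small {y : ℂ} (h : ‖y‖ ≤ 1 / 2) : |Real.log ‖1 - y‖| ≤ 2 * ‖y‖ := by
  have h1 : 1 - ‖y‖ ≤ ‖1 - y‖ := by
    have := norm_sub_norm_le 1 y
    rw [norm_one] at this; exact this
  have h2 : ‖1 - y‖ ≤ 1 + ‖y‖ := by
    have := norm_sub_le 1 y
    rw [norm_one] at this; exact this
  have h3 : 0 < ‖1 - y‖ := by linarith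
  have h0 := norm_nonneg y
  rw [abs_le]
  constructor
  · have h5 := Real.log_le_sub_one_of_pos (x := ‖1 - y‖⁻¹) (by positivity)
    rw [Real.log_inv] at h5
    have h4 : ‖1 - y‖⁻¹ ≤ 1 + 2 * ‖y‖ := by
      rw [inv_le_comm₀ h3 (by linarith), inv_eq_one_div, div_le_iff₀ (by linarith)]
      nlinarith
    linarith
  · have h5 := Real.log_le_sub_one_of_pos h3
    linarith

lemma log_q {j : ℕ} {w : ℂ} (hw : w ≠ 0) :
    Real.log ‖q j w‖ = NN j * (Real.log ‖w‖ - rho j) := by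
  rw [norm_q, Real.log_pow, Real.log_div (norm_ne_zero_iff.mpr hw) (Rr_pos j).ne', Rr, Real.log_exp]

lemma fac_ne {j : ℕ} {w : ℂ} (h : q j w ≠ 1) : fac j w ≠ 0 :=
  pow_ne_zero _ (sub_ne_zero.mpr (Ne.symm h))

lemma AA_ne {j : ℕ} {w : ℂ} (h : Far j w) : AA j w ≠ 0 := by
  induction j with
  | zero => rw [AA_zero]; exact sub_ne_zero.mpr (ne_one_of_big h.1).symm
  | succ j ih =>
    rw [AA_succ]
    exact mul_ne_zero (ih (h.mono (by omega))) (fac_ne (ne_one_of_big (h.2 j (by omega))))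

lemma KK_real (j : ℕ) : (KK j : ℝ) = kk j * NN j := by rw [KK]; push_cast; ring

lemma log_AA {j : ℕ} {w : ℂ} (h : Far j w) :
    |Real.log ‖AA j w‖ - phi j (Real.log ‖w‖)| ≤
      1 / 19 * (1 + ∑ i ∈ Finset.range j, (kk i : ℝ)) := by
  induction j with
  | zero =>
    rw [AA_zero, phi_zero]
    have h1 := log_big h.1
    rw [norm_pow, Real.log_pow] at h1
    push_cast at h1
    simpa using h1
  | succ j ih =>
    have h1 := ih (h.mono (by omega))
    have h2 := h.2 j (by omega)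
    have h3 := log_big h2
    rw [log_q h.ne] at h3
    have h4 : Real.log ‖AA (j + 1) w‖ = Real.log ‖AA j w‖ + kk j * Real.log ‖1 - q j w‖ := by
      rw [AA_succ, norm_mul, Real.log_mul (norm_ne_zero_iff.mpr (AA_ne (h.mono (by omega))))
        (norm_ne_zero_iff.mpr (fac_ne (ne_one_of_big h2))), fac, norm_pow, Real.log_pow]
    rw [h4, phi_succ, Finset.sum_range_succ, KK_real]
    have h5 : Real.log ‖AA j w‖ + kk j * Real.log ‖1 - q j w‖ -
        (phi j (Real.log ‖w‖) + kk j * NN j * (Real.log ‖w‖ - rho j)) =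
        (Real.log ‖AA j w‖ - phi j (Real.log ‖w‖)) +
        kk j * (Real.log ‖1 - q j w‖ - NN j * (Real.log ‖w‖ - rho j)) := by ring
    rw [h5]
    refine (abs_add_le _ _).trans ?_
    rw [abs_mul, Nat.abs_cast]
    have h6 : (kk j : ℝ) * |Real.log ‖1 - q j w‖ - NN j * (Real.log ‖w‖ - rho j)| ≤
      kk j * (1 / 19) := by gcongr
    linarith

/-- the part of `W` which does not vanish near circle `j` -/
noncomputable def VV (j : ℕ) (w : ℂ) : ℂ := AA j w * tl (j + 1) w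

lemma W_VV (j : ℕ) (w : ℂ) : W w = VV j w * fac j w := by
  rw [W_eq j, VV]; ring

lemma VV_diff (j : ℕ) : Differentiable ℂ (VV j) := (AA_diff j).mul (tl_diff _)

/-- real constants -/
lemma exp_tiny (j : ℕ) : Real.exp (-(10 * (rho j : ℝ))) ≤ 1 / 1000000 := by
  have hr := rho_ge_real j
  have h1 : Real.exp (-(10 * (rho j : ℝ))) ≤ Real.exp (-20) := by
    apply Real.exp_le_exp.mpr; linarith
  have h2 : Real.exp (-20) ≤ 1 / 1000000 := by
    rw [Real.exp_neg, one_div]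
    apply inv_anti₀ (by norm_num)
    have : Real.exp 20 = Real.exp 1 ^ 20 := by rw [← Real.exp_nat_mul]; norm_num
    rw [this]
    calc (1000000 : ℝ) ≤ (2 : ℝ) ^ 20 := by norm_num
      _ ≤ Real.exp 1 ^ 20 := by
        apply pow_le_pow_left₀ (by norm_num)
        have := Real.exp_one_gt_d9; linarith
  linarith

lemma tail_facts {j : ℕ} {w : ℂ} (hw : ‖w‖ ≤ Real.exp ((rho j : ℝ) / 4)) :
    tl j w ≠ 0 ∧ |Real.log ‖tl j w‖| ≤ 1 / 100000 ∧
      LD (tl j) w (w * deriv (tl j) w / tl j w) ∧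
      ‖w * deriv (tl j) w / tl j w‖ ≤ 1 / 100000 ∨ w = 0 := by
  rcases eq_or_ne w 0 with h0 | h0
  · right; exact h0
  left
  obtain ⟨h1, h2⟩ := tail_small hw
  have h3 := exp_tiny j
  have h4 : ‖1 - tl j w‖ ≤ 1 / 1000000 := by rw [norm_sub_rev]; linarith
  have h5 := log_small (y := 1 - tl j w) (by linarith)
  rw [sub_sub_cancel] at h5
  have hne : tl j w ≠ 0 := by
    intro h; rw [h] at h4; norm_num at h4
  have h6 : 1 / 2 ≤ ‖tl j w‖ := by
    have := norm_sub_norm_le 1 (1 - tl j w)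
    rw [norm_one, sub_sub_cancel] at this; linarith
  refine ⟨hne, by linarith, ?_, ?_⟩
  · unfold LD
    refine ((tl_diff j) w).hasDerivAt.congr_deriv ?_
    field_simp
  · rw [norm_div, div_le_iff₀ (by linarith)]
    linarith

lemma tail_facts' {j : ℕ} {w : ℂ} (hw : ‖w‖ ≤ Real.exp ((rho j : ℝ) / 4)) (h0 : w ≠ 0) :
    tl j w ≠ 0 ∧ |Real.log ‖tl j w‖| ≤ 1 / 100000 ∧
      LD (tl j) w (w * deriv (tl j) w / tl j w) ∧
      ‖w * deriv (tl j) w / tl j w‖ ≤ 1 / 100000 :=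
  (tail_facts hw).resolve_right h0

/-- logarithmic derivative -/
noncomputable def DD (w : ℂ) : ℂ := w * deriv W w / W w

/-- logarithmic derivative of the nonvanishing part -/
noncomputable def DV (j : ℕ) (w : ℂ) : ℂ := w * deriv (VV j) w / VV j w

lemma norm_le_of_log {w : ℂ} (hw : w ≠ 0) {x : ℝ} (h : Real.log ‖w‖ ≤ x) : ‖w‖ ≤ Real.exp x := by
  rwa [Real.log_le_iff_le_exp (norm_pos_iff.mpr hw)] at h

/-- below circle `j`, up to a constant factor, the tail after `j` is small -/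
lemma near_dom {j : ℕ} {w : ℂ} (hw : w ≠ 0) (h : Real.log ‖w‖ ≤ rho j + 1) :
    ‖w‖ ≤ Real.exp ((rho (j + 1) : ℝ) / 4) := by
  apply norm_le_of_log hw
  have h1 : (4096 * rho j : ℕ) ≤ rho (j + 1) := rho_step j
  have h2 : (4096 : ℝ) * rho j ≤ rho (j + 1) := by exact_mod_cast h1
  have := rho_ge_real j
  linarith

lemma VV_facts {j : ℕ} {w : ℂ} (hf : Far j w) (h : Real.log ‖w‖ ≤ rho j + 1) :
    VV j w ≠ 0 ∧ LD (VV j) w (DV j w) ∧ ‖DV j w - sl j‖ ≤ sl j / 19 + 1 / 100000 ∧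
    |Real.log ‖VV j w‖ - phi j (Real.log ‖w‖)| ≤
      1 / 19 * (1 + ∑ i ∈ Finset.range j, (kk i : ℝ)) + 1 / 100000 := by
  obtain ⟨h1, h2, h3, h4⟩ := tail_facts' (near_dom hf.ne h) hf.ne
  have h5 := AA_ne hf
  have hne : VV j w ≠ 0 := mul_ne_zero h5 h1
  have h6 : LD (VV j) w (dA j w + w * deriv (tl (j + 1)) w / tl (j + 1) w) := (LD_AA hf).mul h3
  have h7 : DV j w = dA j w + w * deriv (tl (j + 1)) w / tl (j + 1) w := h6.eq hf.ne hne
  refine ⟨hne, by rw [h7]; exact h6, ?_, ?_⟩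
  · rw [h7]
    have h8 := norm_dA hf
    calc _ = ‖(dA j w - sl j) + w * deriv (tl (j + 1)) w / tl (j + 1) w‖ := by congr 1; ring
      _ ≤ _ := norm_add_le _ _
      _ ≤ _ := by linarith
  · have h8 := log_AA hf
    rw [VV, norm_mul, Real.log_mul (norm_ne_zero_iff.mpr h5) (norm_ne_zero_iff.mpr h1)]
    calc _ = |(Real.log ‖AA j w‖ - phi j (Real.log ‖w‖)) + Real.log ‖tl (j + 1) w‖| := by
            congr 1; ring
      _ ≤ _ := abs_add_le _ _
      _ ≤ _ := by linarith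

/-- sum of the earlier multiplicities -/
lemma sum_kk_real (j : ℕ) : 3 * ∑ i ∈ Finset.range (j + 1), (kk i : ℝ) ≤ lev j := by
  exact_mod_cast sum_kk_le j

lemma kk_le_real (j : ℕ) : 4 * (kk j : ℝ) ≤ lev j := by exact_mod_cast four_kk_le j

lemma lev_ge_real (j : ℕ) : (32000 : ℝ) ≤ lev j := by
  have h1 := lev_ge j
  have h2 := rho_ge j
  have : 32000 ≤ lev j := by omega
  exact_mod_cast this

lemma lev_succ_big_real (j : ℕ) : (1000 : ℝ) * lev j ≤ lev (j + 1) := by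
  exact_mod_cast lev_succ_big j

lemma sl_le_KK_real (j : ℕ) : (4000 : ℝ) * sl j ≤ KK j := by exact_mod_cast sl_le_KK j

lemma sl_ge_real (j : ℕ) : (32 : ℝ) ≤ sl j := by exact_mod_cast sl_ge j

lemma KK_pos_real (j : ℕ) : (0 : ℝ) < KK j := by exact_mod_cast KK_pos j
lemma kk_pos_real (j : ℕ) : (1 : ℝ) ≤ kk j := by exact_mod_cast kk_pos j
lemma NN_ge_real (j : ℕ) : (33 : ℝ) ≤ NN j := by exact_mod_cast NN_ge j

/-- transition zone -/
def Trans (j : ℕ) (w : ℂ) : Prop :=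
  Far j w ∧ (sl j : ℝ) / (40 * KK j) ≤ ‖q j w‖ ∧ ‖q j w‖ ≤ 20

/-- radial zone -/
def Rad (j : ℕ) (w : ℂ) : Prop := Far j w ∧ ‖q j w‖ ≤ (sl j : ℝ) / (40 * KK j)

lemma log20 : Real.log 20 ≤ 3 := by
  rw [Real.log_le_iff_le_exp (by norm_num)]
  have : Real.exp 3 = Real.exp 1 ^ 3 := by rw [← Real.exp_nat_mul]; norm_num
  rw [this]
  have h := Real.exp_one_gt_d9
  calc (20 : ℝ) ≤ (2.7182 : ℝ) ^ 3 := by norm_num
    _ ≤ _ := pow_le_pow_left₀ (by norm_num) (by linarith) _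

lemma log20' : 299 / 100 ≤ Real.log 20 := by
  rw [Real.le_log_iff_exp_le (by norm_num)]
  have h1 : Real.exp (299 / 100) = Real.exp 1 ^ 3 * Real.exp (-(1 / 100)) := by
    rw [← Real.exp_nat_mul, ← Real.exp_add]; norm_num
  have h2 := Real.exp_one_lt_d9
  have h3 : Real.exp (-(1 / 100)) ≤ 100 / 101 := by
    rw [Real.exp_neg, inv_le_comm₀ (Real.exp_pos _) (by norm_num)]
    have := Real.add_one_le_exp (1 / 100 : ℝ)
    norm_num at this ⊢
    linarith
  rw [h1]
  calc Real.exp 1 ^ 3 * Real.exp (-(1 / 100)) ≤ (2.7182818286 : ℝ) ^ 3 * (100 / 101) := by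
        gcongr
    _ ≤ 20 := by norm_num

lemma trans_x {j : ℕ} {w : ℂ} (h : Trans j w) : Real.log ‖w‖ ≤ rho j + 1 / 10 := by
  obtain ⟨hf, -, h2⟩ := h
  by_cases h0 : ‖q j w‖ = 0
  · exfalso
    have : q j w = 0 := norm_eq_zero.mp h0
    have h3 : w = 0 := by
      unfold q at this
      have := pow_eq_zero_iff (NN_pos j).ne' |>.mp this
      have hR : (Rr j : ℂ) ≠ 0 := by exact_mod_cast (Rr_pos j).ne'
      rcases div_eq_zero_iff.mp this with h | h
      · exact h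
      · exact absurd h hR
    exact hf.ne h3
  have hq : 0 < ‖q j w‖ := lt_of_le_of_ne (norm_nonneg _) (Ne.symm h0)
  have h3 := Real.log_le_log hq h2
  rw [log_q hf.ne] at h3
  have h4 := log20
  have h5 := NN_ge_real j
  by_contra hcon
  push Not at hcon
  have h6 : 33 * (1 / 10) ≤ (NN j : ℝ) * (Real.log ‖w‖ - rho j) := by
    apply mul_le_mul h5 (by linarith) (by norm_num) (by linarith)
  linarith

/-- numeric: `log (40 y) / y ≤ 0.02` for `y ≥ 4000` -/
lemma log40 {y : ℝ} (hy : 4000 ≤ y) : Real.log (40 * y) ≤ 2 / 100 * y := by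
  have hy0 : 0 < y := by linarith
  -- log(40 y) = log (160000) + log (y/4000) ≤ 12 + (y/4000 - 1)
  have h1 : 40 * y = 160000 * (y / 4000) := by ring
  rw [h1, Real.log_mul (by norm_num) (by positivity)]
  have h2 := Real.log_le_sub_one_of_pos (x := y / 4000) (by positivity)
  have h3 : Real.log 160000 ≤ 12 := by
    rw [Real.log_le_iff_le_exp (by norm_num)]
    have : Real.exp 12 = Real.exp 1 ^ 12 := by rw [← Real.exp_nat_mul]; norm_num
    rw [this]
    have h := Real.exp_one_gt_d9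
    calc (160000 : ℝ) ≤ (2.7182 : ℝ) ^ 12 := by norm_num
      _ ≤ _ := pow_le_pow_left₀ (by norm_num) (by linarith) _
  linarith

lemma trans_phi {j : ℕ} {w : ℂ} (h : Trans j w) :
    |phi j (Real.log ‖w‖) - lev j| ≤ 1 / 200 * lev j := by
  obtain ⟨hf, h1, h2⟩ := h
  have hK := KK_pos_real j
  have hM := sl_ge_real j
  have hMK := sl_le_KK_real j
  have hq : 0 < ‖q j w‖ := lt_of_lt_of_le (by positivity) h1
  have hk := kk_pos_real j
  have hN := NN_ge_real j
  -- bounds of log q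
  have e1 : Real.log ‖q j w‖ ≤ 2 / 100 * (KK j / sl j) := by
    have h3 := (Real.log_le_log hq h2).trans log20
    have h4 : 4000 ≤ (KK j : ℝ) / sl j := by rw [le_div_iff₀ (by linarith)]; exact hMK
    linarith
  have e2 : -(2 / 100 * (KK j / sl j)) ≤ Real.log ‖q j w‖ := by
    have h3 := Real.log_le_log (by positivity) h1
    have h4 : 4000 ≤ (KK j : ℝ) / sl j := by rw [le_div_iff₀ (by linarith)]; exact hMK
    have h5 := log40 h4
    have h6 : (sl j : ℝ) / (40 * KK j) = ((40 : ℝ) * ((KK j : ℝ) / (sl j : ℝ)))⁻¹ := by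
      field_simp
    rw [h6, Real.log_inv] at h3
    linarith
  rw [log_q hf.ne] at e1 e2
  have h7 : phi j (Real.log ‖w‖) - lev j = sl j / NN j * (NN j * (Real.log ‖w‖ - rho j)) := by
    unfold phi; field_simp; ring
  rw [h7, abs_mul, abs_of_pos (by positivity : (0 : ℝ) < sl j / NN j)]
  have h8 : |(NN j : ℝ) * (Real.log ‖w‖ - rho j)| ≤ 2 / 100 * (KK j / sl j) := abs_le.mpr ⟨e2, e1⟩
  calc (sl j : ℝ) / NN j * |(NN j : ℝ) * (Real.log ‖w‖ - rho j)| ≤
      sl j / NN j * (2 / 100 * (KK j / sl j)) := by gcongr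
    _ = 2 / 100 * kk j := by rw [KK_real]; field_simp
    _ ≤ _ := by have := kk_le_real j; linarith

lemma sum_kk_small (j : ℕ) :
    1 / 19 * (1 + ∑ i ∈ Finset.range j, (kk i : ℝ)) + 1 / 100000 ≤ 1 / 1000 * lev j := by
  cases j with
  | zero => simp [lev_zero]; norm_num
  | succ j =>
    have h1 := sum_kk_real j
    have h2 := lev_succ_big_real j
    have h3 := lev_ge_real (j + 1)
    linarith

lemma trans_VV {j : ℕ} {w : ℂ} (h : Trans j w) :
    VV j w ≠ 0 ∧ LD (VV j) w (DV j w) ∧ ‖DV j w - sl j‖ ≤ sl j / 18 ∧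
    |Real.log ‖VV j w‖ - lev j| ≤ 1 / 100 * lev j := by
  obtain ⟨h1, h2, h3, h4⟩ := VV_facts h.1 (by linarith [trans_x h])
  refine ⟨h1, h2, ?_, ?_⟩
  · have := sl_ge_real j; linarith
  · have h5 := trans_phi h
    have h6 := sum_kk_small j
    calc _ = |(Real.log ‖VV j w‖ - phi j (Real.log ‖w‖)) + (phi j (Real.log ‖w‖) - lev j)| := by
            congr 1; ring
      _ ≤ _ := abs_add_le _ _
      _ ≤ _ := by
        have := lev_ge_real j
        linarith

lemma DV_le {j : ℕ} {w : ℂ} (h : Trans j w) : ‖DV j w‖ ≤ 19 / 18 * sl j := by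
  have h1 := (trans_VV h).2.2.1
  calc ‖DV j w‖ = ‖(DV j w - sl j) + sl j‖ := by congr 1; ring
    _ ≤ ‖DV j w - sl j‖ + ‖(sl j : ℂ)‖ := norm_add_le _ _
    _ ≤ _ := by rw [Complex.norm_natCast]; linarith

/-- bad part of the transition zone -/
lemma trans_bad {j : ℕ} {w : ℂ} (h : Trans j w) (h4 : 1 / 4 ≤ ‖1 - q j w‖) :
    62 / 100 * lev j ≤ Real.log ‖W w‖ ∧ Real.log ‖W w‖ ≤ 18 / 10 * lev j ∧ W w ≠ 0 := by
  obtain ⟨h1, -, -, h5⟩ := trans_VV h
  have h0 : 0 < ‖1 - q j w‖ := by linarith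
  have hne : 1 - q j w ≠ 0 := norm_pos_iff.mp h0
  have hW : W w ≠ 0 := by
    rw [W_VV j]; exact mul_ne_zero h1 (pow_ne_zero _ hne)
  have h6 : Real.log ‖W w‖ = Real.log ‖VV j w‖ + kk j * Real.log ‖1 - q j w‖ := by
    rw [W_VV j, norm_mul, fac, Real.log_mul (norm_ne_zero_iff.mpr h1)
      (norm_ne_zero_iff.mpr (pow_ne_zero _ hne)), norm_pow, Real.log_pow]
  have h7 : Real.log ‖1 - q j w‖ ≤ 305 / 100 := by
    have h8 : ‖1 - q j w‖ ≤ 21 := by
      have := norm_sub_le 1 (q j w)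
      rw [norm_one] at this
      linarith [h.2.2]
    have h9 := Real.log_le_log h0 h8
    have h10 : Real.log 21 ≤ 305 / 100 := by
      have e1 : (21 : ℝ) = 20 * (21 / 20) := by norm_num
      rw [e1, Real.log_mul (by norm_num) (by norm_num)]
      have e2 := Real.log_le_sub_one_of_pos (x := 21 / 20) (by norm_num)
      have e3 := log20
      linarith
    linarith
  have h8 : -(139 / 100) ≤ Real.log ‖1 - q j w‖ := by
    have h9 := Real.log_le_log (by norm_num) h4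
    have h10 : Real.log (1 / 4) = -(2 * Real.log 2) := by
      rw [one_div, Real.log_inv, show (4 : ℝ) = 2 ^ 2 by norm_num, Real.log_pow]
      push_cast; ring
    rw [h10] at h9
    have := Real.log_two_lt_d9
    linarith
  have h9 := kk_le_real j
  have h10 := kk_pos_real j
  have h11 := abs_le.mp h5
  have h12 : (kk j : ℝ) * Real.log ‖1 - q j w‖ ≤ kk j * (305 / 100) := by gcongr
  have h13 : (kk j : ℝ) * (-(139 / 100)) ≤ kk j * Real.log ‖1 - q j w‖ := by gcongr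
  rw [h6]
  refine ⟨by nlinarith [h11.1], by nlinarith [h11.2], hW⟩

/-- good part of the circle zone: logarithmic derivative -/
lemma circ_D {j : ℕ} {w : ℂ} (h : Trans j w) (h4 : ‖1 - q j w‖ < 1 / 4) (hq : q j w ≠ 1) :
    W w ≠ 0 ∧ LD W w (DD w) ∧ 7 / 10 * KK j / ‖1 - q j w‖ ≤ ‖DD w‖ ∧
      ‖DD w‖ ≤ 13 / 10 * KK j / ‖1 - q j w‖ := by
  obtain ⟨h1, h2, h3, h5⟩ := trans_VV h
  have hW : W w ≠ 0 := by
    rw [W_VV j]; exact mul_ne_zero h1 (fac_ne hq)
  have h6 : LD W w (DV j w + KK j * (q j w / (q j w - 1))) :=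
    (h2.mul (LD_fac h.1.ne hq)).congr (fun z => (W_VV j z).symm)
  have h7 : DD w = DV j w + KK j * (q j w / (q j w - 1)) := h6.eq h.1.ne hW
  have h0 : 0 < ‖1 - q j w‖ := norm_pos_iff.mpr (sub_ne_zero.mpr hq.symm)
  have h8 : ‖(KK j : ℂ) * (q j w / (q j w - 1))‖ = KK j * ‖q j w‖ / ‖1 - q j w‖ := by
    rw [norm_mul, Complex.norm_natCast, norm_div, norm_sub_rev]; ring
  have h9 := DV_le h
  have h10 := sl_le_KK_real j
  have hK := KK_pos_real j
  have h11 : ‖DV j w‖ ≤ 1 / 100 * KK j / ‖1 - q j w‖ := by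
    rw [le_div_iff₀ h0]
    nlinarith [norm_nonneg (DV j w)]
  have h12 : 3 / 4 ≤ ‖q j w‖ := by
    have := norm_sub_norm_le 1 (1 - q j w)
    rw [norm_one, sub_sub_cancel] at this
    linarith
  have h13 : ‖q j w‖ ≤ 5 / 4 := by
    have := norm_sub_le 1 (1 - q j w)
    rw [norm_one, sub_sub_cancel] at this
    linarith
  refine ⟨hW, by rw [h7]; exact h6, ?_, ?_⟩
  · rw [h7]
    have e1 : ‖(KK j : ℂ) * (q j w / (q j w - 1))‖ - ‖DV j w‖ ≤
        ‖DV j w + KK j * (q j w / (q j w - 1))‖ := by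
      have := norm_sub_norm_le ((KK j : ℂ) * (q j w / (q j w - 1))) (-DV j w)
      rw [norm_neg, sub_neg_eq_add, add_comm ((KK j : ℂ) * _)] at this
      exact this
    refine le_trans ?_ e1
    rw [h8]
    have e2 : KK j * (3 / 4) / ‖1 - q j w‖ ≤ KK j * ‖q j w‖ / ‖1 - q j w‖ := by gcongr
    have e3 : 7 / 10 * KK j / ‖1 - q j w‖ + 1 / 100 * KK j / ‖1 - q j w‖ ≤
        KK j * (3 / 4) / ‖1 - q j w‖ := by
      rw [← add_div]; gcongr; linarith
    linarith
  · rw [h7]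
    refine (norm_add_le _ _).trans ?_
    rw [h8]
    have e2 : KK j * ‖q j w‖ / ‖1 - q j w‖ ≤ KK j * (5 / 4) / ‖1 - q j w‖ := by gcongr
    have e3 : KK j * (5 / 4) / ‖1 - q j w‖ + 1 / 100 * KK j / ‖1 - q j w‖ ≤
        13 / 10 * KK j / ‖1 - q j w‖ := by
      rw [← add_div]; gcongr; linarith
    linarith

lemma q_ne {j : ℕ} {w : ℂ} (hw : w ≠ 0) : q j w ≠ 0 := by
  unfold q
  apply pow_ne_zero
  apply div_ne_zero hw
  exact_mod_cast (Rr_pos j).ne'

lemma rad_x {j : ℕ} {w : ℂ} (h : Rad j w) : Real.log ‖w‖ ≤ rho j := by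
  obtain ⟨hf, h2⟩ := h
  have hq : 0 < ‖q j w‖ := norm_pos_iff.mpr (q_ne hf.ne)
  have h3 : ‖q j w‖ ≤ 1 := by
    refine h2.trans ?_
    have := sl_le_KK_real j
    have := KK_pos_real j
    rw [div_le_one (by positivity)]; linarith [sl_ge_real j]
  have h4 := Real.log_nonpos hq.le h3
  rw [log_q hf.ne] at h4
  have h5 := NN_ge_real j
  by_contra hcon
  push Not at hcon
  have : 0 < (NN j : ℝ) * (Real.log ‖w‖ - rho j) := by
    apply mul_pos (by linarith); linarith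
  linarith

/-- in the radial zone `j` we are above circle `j-1` -/
lemma far_phi {j : ℕ} {w : ℂ} (h : Far j w) :
    299 / 100 ≤ phi j (Real.log ‖w‖) ∧ (∀ i < j, (rho i : ℝ) ≤ Real.log ‖w‖) ∧
      (∀ i, i + 1 = j → (lev i : ℝ) ≤ phi j (Real.log ‖w‖)) := by
  have h1 : ∀ i < j, (rho i : ℝ) ≤ Real.log ‖w‖ := by
    intro i hi
    have h2 := h.2 i hi
    have h3 := Real.log_le_log (by norm_num) h2
    rw [log_q h.ne] at h3
    have h4 := log20'
    have h5 := NN_ge_real i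
    by_contra hcon
    push Not at hcon
    have : (NN i : ℝ) * (Real.log ‖w‖ - rho i) < 0 := by
      apply mul_neg_of_pos_of_neg (by linarith); linarith
    linarith
  have h2 : ∀ i, i + 1 = j → (lev i : ℝ) ≤ phi j (Real.log ‖w‖) := by
    rintro i rfl
    rw [phi_succ']
    have := h1 i (by omega)
    have : 0 ≤ (sl (i + 1) : ℝ) * (Real.log ‖w‖ - rho i) := by
      apply mul_nonneg (by positivity); linarith
    linarith
  refine ⟨?_, h1, h2⟩
  cases j with
  | zero =>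
    rw [phi_zero]
    have h3 := Real.log_le_log (by norm_num) h.1
    rw [norm_pow, Real.log_pow] at h3
    push_cast at h3
    linarith [log20']
  | succ j => have := h2 j rfl; have := lev_ge_real j; linarith

/-- size in the radial zone -/
lemma rad_W {j : ℕ} {w : ℂ} (h : Rad j w) :
    W w ≠ 0 ∧ LD W w (DD w) ∧ ‖DD w - sl j‖ ≤ 8 / 100 * sl j ∧
    |Real.log ‖W w‖ - phi j (Real.log ‖w‖)| ≤ 2 / 100 * phi j (Real.log ‖w‖) + 6 / 100 ∧
    17 ≤ ‖W w‖ := by
  have hx := rad_x h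
  obtain ⟨hf, h2⟩ := h
  obtain ⟨e1, e2, e3, e4⟩ := VV_facts hf (by linarith)
  have hK := KK_pos_real j
  have hM := sl_ge_real j
  have hMK := sl_le_KK_real j
  have hk := kk_pos_real j
  have hN := NN_ge_real j
  obtain ⟨p1, p2, p3⟩ := far_phi hf
  have hqs : ‖q j w‖ ≤ 1 / 160000 := by
    refine h2.trans ?_
    rw [div_le_div_iff₀ (by positivity) (by norm_num)]
    linarith
  have hq1 : q j w ≠ 1 := by
    intro h; rw [h, norm_one] at hqs; norm_num at hqs
  have hW : W w ≠ 0 := by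
    rw [W_VV j]; exact mul_ne_zero e1 (fac_ne hq1)
  have h6 : LD W w (DV j w + KK j * (q j w / (q j w - 1))) :=
    (e2.mul (LD_fac hf.ne hq1)).congr (fun z => (W_VV j z).symm)
  have h7 : DD w = DV j w + KK j * (q j w / (q j w - 1)) := h6.eq hf.ne hW
  have hlogW : Real.log ‖W w‖ = Real.log ‖VV j w‖ + kk j * Real.log ‖1 - q j w‖ := by
    rw [W_VV j, norm_mul, Real.log_mul (norm_ne_zero_iff.mpr e1)
      (norm_ne_zero_iff.mpr (fac_ne hq1)), fac, norm_pow, Real.log_pow]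
  -- k_j log|1-q_j|
  have hkq : (kk j : ℝ) * |Real.log ‖1 - q j w‖| ≤
      1 / 100000 * phi j (Real.log ‖w‖) + 1 / 100000 := by
    have h8 := log_small (y := q j w) (by linarith)
    have h9 : (kk j : ℝ) * |Real.log ‖1 - q j w‖| ≤ 2 * (kk j * ‖q j w‖) := by
      calc (kk j : ℝ) * |Real.log ‖1 - q j w‖| ≤ kk j * (2 * ‖q j w‖) := by gcongr
        _ = _ := by ring
    rcases le_or_gt (Real.log ‖w‖) ((rho j : ℝ) / 2) with hc | hc
    · have h10 := kq_le' (norm_le_of_log hf.ne hc)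
      have h11 : Real.exp (-(14 * rho j)) ≤ Real.exp (-(10 * rho j)) := by
        apply Real.exp_le_exp.mpr; linarith [rho_ge_real j]
      have h12 := exp_tiny j
      linarith
    · have h10 : (kk j : ℝ) * ‖q j w‖ ≤ sl j / 1320 := by
        calc (kk j : ℝ) * ‖q j w‖ ≤ kk j * (sl j / (40 * KK j)) := by gcongr
          _ = sl j / (40 * NN j) := by rw [KK_real]; field_simp
          _ ≤ _ := by
            apply div_le_div_of_nonneg_left (by linarith) (by norm_num); linarith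
      have h11 : (4095 : ℝ) * (sl j * rho j) ≤ 4096 * lev j := by exact_mod_cast lev_ge' j
      have h12 : 400 * (sl j : ℝ) ≤ phi j (Real.log ‖w‖) := by
        unfold phi
        have h13 : (sl j : ℝ) * (rho j / 2) ≤ sl j * Real.log ‖w‖ := by gcongr
        have h14 : (sl j : ℝ) * 1000 ≤ sl j * rho j := by
          gcongr; exact rho_ge_real j
        linarith
      linarith
  have hphi : |Real.log ‖W w‖ - phi j (Real.log ‖w‖)| ≤
      2 / 100 * phi j (Real.log ‖w‖) + 6 / 100 := by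
    rw [hlogW]
    have h8 : |Real.log ‖VV j w‖ + kk j * Real.log ‖1 - q j w‖ - phi j (Real.log ‖w‖)| ≤
        |Real.log ‖VV j w‖ - phi j (Real.log ‖w‖)| + kk j * |Real.log ‖1 - q j w‖| := by
      calc _ = |(Real.log ‖VV j w‖ - phi j (Real.log ‖w‖)) + kk j * Real.log ‖1 - q j w‖| := by
            congr 1; ring
        _ ≤ _ := abs_add_le _ _
        _ = _ := by rw [abs_mul, Nat.abs_cast]
    have h9 : 1 / 19 * (1 + ∑ i ∈ Finset.range j, (kk i : ℝ)) ≤
        1 / 19 + 18 / 1000 * phi j (Real.log ‖w‖) := by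
      cases j with
      | zero => simp; linarith
      | succ j =>
        have := sum_kk_real j
        have := p3 j rfl
        linarith
    linarith
  refine ⟨hW, by rw [h7]; exact h6, ?_, hphi, ?_⟩
  · rw [h7]
    have h8 : ‖q j w / (q j w - 1)‖ ≤ 101 / 100 * ‖q j w‖ := by
      rw [norm_div, div_le_iff₀ (norm_pos_iff.mpr (sub_ne_zero.mpr hq1))]
      have : 99 / 100 * (101 / 100) ≤ ‖q j w - 1‖ := by
        have := norm_sub_norm_le 1 (q j w)
        rw [norm_one, norm_sub_rev] at this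
        linarith
      have h10 := norm_nonneg (q j w)
      nlinarith
    have h9 : ‖(KK j : ℂ) * (q j w / (q j w - 1))‖ ≤ 101 / 4000 * sl j := by
      rw [norm_mul, Complex.norm_natCast]
      calc (KK j : ℝ) * ‖q j w / (q j w - 1)‖ ≤ KK j * (101 / 100 * (sl j / (40 * KK j))) := by
            gcongr
            exact h8.trans (by gcongr)
        _ = _ := by field_simp; ring
    calc _ = ‖(DV j w - sl j) + KK j * (q j w / (q j w - 1))‖ := by congr 1; ring
      _ ≤ _ := norm_add_le _ _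
      _ ≤ _ := by linarith
  · have h8 := (abs_le.mp hphi).1
    have h9 : 286 / 100 ≤ Real.log ‖W w‖ := by linarith
    have h10 : Real.exp (286 / 100) ≤ ‖W w‖ := by
      rwa [Real.le_log_iff_exp_le (norm_pos_iff.mpr hW)] at h9
    have h11 : (17 : ℝ) ≤ Real.exp (286 / 100) := by
      have h1 : Real.exp (286 / 100) ^ 50 = Real.exp 1 ^ 143 := by
        rw [← Real.exp_nat_mul, ← Real.exp_nat_mul]; norm_num
      have h2 := Real.exp_one_gt_d9
      have h3 : (17 : ℝ) ^ 50 ≤ Real.exp (286 / 100) ^ 50 := by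
        rw [h1]
        calc (17 : ℝ) ^ 50 ≤ (2.7182818283 : ℝ) ^ 143 := by norm_num
          _ ≤ _ := pow_le_pow_left₀ (by norm_num) (by linarith) _
      exact le_of_pow_le_pow_left₀ (by norm_num) (by positivity) h3
    linarith

/-- classification of points outside the core -/
lemma classify (w : ℂ) : ‖w ^ 32‖ < 20 ∨ (∃ j, Rad j w) ∨
    (∃ j, Trans j w ∧ ‖1 - q j w‖ < 1 / 4) ∨ (∃ j, Trans j w ∧ 1 / 4 ≤ ‖1 - q j w‖) := by
  rcases lt_or_ge ‖w ^ 32‖ 20 with h | h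
  · left; exact h
  right
  have hex : ∃ j, ‖q j w‖ < 20 := by
    obtain ⟨n, hn⟩ := exists_big w
    refine ⟨n, ?_⟩
    have h1 := kq_le' hn
    have h2 := kk_pos_real n
    have h3 : Real.exp (-(14 * rho n : ℝ)) ≤ 1 := exp_small
    have h4 := norm_nonneg (q n w)
    nlinarith
  classical
  set j := Nat.find hex with hj
  have h1 : ‖q j w‖ < 20 := Nat.find_spec hex
  have h2 : ∀ i < j, 20 ≤ ‖q i w‖ := by
    intro i hi
    have := Nat.find_min hex hi
    push Not at this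
    exact this
  have hf : Far j w := ⟨h, h2⟩
  rcases le_or_gt ‖q j w‖ ((sl j : ℝ) / (40 * KK j)) with h3 | h3
  · left; exact ⟨j, hf, h3⟩
  · right
    have ht : Trans j w := ⟨hf, h3.le, h1.le⟩
    rcases lt_or_ge ‖1 - q j w‖ (1 / 4) with h4 | h4
    · left; exact ⟨j, ht, h4⟩
    · right; exact ⟨j, ht, h4⟩

end Pool.Agent.Work.MP_0a8b43_nt
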