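import Mathlib
import Pool.Agent.Work.MP_0a8b43_nt.Gen
import Pool.Agent.Work.MP_0a8b43_nt.DimAbs
import Pool.Agent.Work.MP_0a8b43_nt.Zones

set_option autoImplicit false

open Complex Set Filter Topology

namespace Pool.Agent.Work.MP_0a8b43_nt

/-- the map -/
noncomputable def FF (w : ℂ) : ℂ := (1 - W w)⁻¹

/-- logarithmic derivative of `1 - W` -/
noncomputable def DH (w : ℂ) : ℂ := w * deriv (fun z => 1 - W z) w / (1 - W w)

/-- a tiny constant -/
noncomputable def tau : ℝ := (1 / 10) ^ 20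

lemma tau_pos : 0 < tau := by unfold tau; positivity

lemma exp_le_pow {n : ℕ} {x : ℝ} (h : (n : ℝ) ≤ x) : Real.exp (-x) ≤ (1 / 2) ^ n := by
  have h1 : Real.exp (-x) ≤ Real.exp (-(n : ℝ)) := Real.exp_le_exp.mpr (by linarith)
  have h2 : Real.exp (-(n : ℝ)) = Real.exp (-1) ^ n := by
    rw [← Real.exp_nat_mul]; ring_nf
  rw [h2] at h1
  refine h1.trans (pow_le_pow_left₀ (Real.exp_pos _).le ?_ _)
  rw [Real.exp_neg, one_div]
  apply inv_anti₀ (by norm_num)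
  have := Real.exp_one_gt_d9
  linarith

lemma four_dom {w : ℂ} (hw : ‖w‖ ≤ 4) : 2 * ‖w‖ ≤ Real.exp ((rho 0 : ℝ) / 2) := by
  rw [rho_zero]
  have h := Real.add_one_le_exp ((1000 : ℕ) / 2 : ℝ)
  norm_num at h ⊢
  linarith

lemma core_e {w : ℂ} (hw : ‖w‖ ≤ 4) :
    ‖tl 0 w - 1‖ ≤ ‖w‖ ^ 33 * (1 / 2) ^ 30000 ∧
    ‖w * deriv (tl 0) w‖ ≤ ‖w‖ ^ 33 * (1 / 2) ^ 30000 := by
  have h1 := four_dom hw
  have h2 := tl_sub_one (j := 0) (w := w) (by linarith [norm_nonneg w])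
  have h3 := tl_deriv (j := 0) (w := w) h1
  rw [rho_zero] at h2 h3
  have h4 : Real.exp (-(31 * ((1000 : ℕ) : ℝ))) ≤ (1 / 2) ^ 31000 :=
    exp_le_pow (by norm_num)
  have h5 : (1 / 2 : ℝ) ^ 31000 = (1 / 2) ^ 30000 * (1 / 2) ^ 1000 := by
    rw [← pow_add]
  have h6 : (1 / 2 : ℝ) ^ 1000 ≤ (1 / 2) ^ 36 :=
    pow_le_pow_of_le_one (by norm_num) (by norm_num) (by norm_num)
  constructor
  · refine h2.trans ?_
    calc 8 * (‖w‖ ^ 33 * Real.exp (-(31 * ((1000 : ℕ) : ℝ)))) ≤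
        8 * (‖w‖ ^ 33 * ((1 / 2) ^ 30000 * (1 / 2) ^ 36)) := by
          gcongr; exact h4.trans (by rw [h5]; gcongr)
      _ = ‖w‖ ^ 33 * (1 / 2) ^ 30000 * (8 * (1 / 2) ^ 36) := by ring
      _ ≤ ‖w‖ ^ 33 * (1 / 2) ^ 30000 * 1 := by gcongr; norm_num
      _ = _ := mul_one _
  · refine h3.trans ?_
    calc 8 * ((2 * ‖w‖) ^ 33 * Real.exp (-(31 * ((1000 : ℕ) : ℝ)))) ≤
        8 * ((2 * ‖w‖) ^ 33 * ((1 / 2) ^ 30000 * (1 / 2) ^ 36)) := by
          gcongr; exact h4.trans (by rw [h5]; gcongr)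
      _ = ‖w‖ ^ 33 * (1 / 2) ^ 30000 * (8 * 2 ^ 33 * (1 / 2) ^ 36) := by
          rw [mul_pow]; ring
      _ ≤ ‖w‖ ^ 33 * (1 / 2) ^ 30000 * 1 := by gcongr; norm_num
      _ = _ := mul_one _

lemma half_tau : (4 : ℝ) * (100 * (4 ^ 32 + 1) + 1) * (1 / 2) ^ 30000 ≤ tau / 4 := by
  have h1 : (1 / 2 : ℝ) ^ 30000 ≤ (1 / 2) ^ 200 :=
    pow_le_pow_of_le_one (by norm_num) (by norm_num) (by norm_num)
  calc (4 : ℝ) * (100 * (4 ^ 32 + 1) + 1) * (1 / 2) ^ 30000 ≤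
      4 * (100 * (4 ^ 32 + 1) + 1) * (1 / 2) ^ 200 := by gcongr
    _ ≤ tau / 4 := by unfold tau; norm_num

lemma core_h {w : ℂ} (hw : ‖w‖ ≤ 4) :
    ‖(1 - W w) - w ^ 32‖ ≤ tau / 4 * ‖w‖ ^ 32 ∧
    ‖w * deriv (fun z => 1 - W z) w - 32 * (1 - W w)‖ ≤ tau / 4 * ‖w‖ ^ 32 := by
  obtain ⟨h1, h2⟩ := core_e hw
  have hW : W w = (1 - w ^ 32) * tl 0 w := rfl
  have h32 : ‖w ^ 32 - 1‖ ≤ 4 ^ 32 + 1 := by
    refine (norm_sub_le _ _).trans ?_
    rw [norm_pow, norm_one]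
    gcongr
  have h33 : ‖w‖ ^ 33 ≤ 4 * ‖w‖ ^ 32 := by
    rw [pow_succ]; nlinarith [pow_nonneg (norm_nonneg w) 32]
  have hp := pow_nonneg (norm_nonneg w) 32
  have hh := half_tau
  have hε : (0 : ℝ) < (1 / 2) ^ 30000 := by positivity
  constructor
  · have e1 : (1 - W w) - w ^ 32 = (w ^ 32 - 1) * (tl 0 w - 1) := by rw [hW]; ring
    rw [e1, norm_mul]
    calc ‖w ^ 32 - 1‖ * ‖tl 0 w - 1‖ ≤ (4 ^ 32 + 1) * (4 * ‖w‖ ^ 32 * (1 / 2) ^ 30000) := by
          gcongr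
          exact h1.trans (by gcongr)
      _ = (4 * (4 ^ 32 + 1) * (1 / 2) ^ 30000) * ‖w‖ ^ 32 := by ring
      _ ≤ (4 * (100 * (4 ^ 32 + 1) + 1) * (1 / 2) ^ 30000) * ‖w‖ ^ 32 := by
          gcongr; norm_num
      _ ≤ _ := by gcongr
  · have hd : HasDerivAt (fun z => 1 - W z)
        (-(-(32 * w ^ 31) * tl 0 w + (1 - w ^ 32) * deriv (tl 0) w)) w := by
      have e1 : HasDerivAt (fun z : ℂ => 1 - z ^ 32) (-(32 * w ^ 31)) w := by
        refine ((hasDerivAt_pow 32 w).const_sub 1).congr_deriv ?_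
        push_cast; ring
      have e2 : HasDerivAt (tl 0) (deriv (tl 0) w) w := ((tl_diff 0) w).hasDerivAt
      exact (HasDerivAt.fun_mul e1 e2).const_sub 1
    rw [hd.deriv]
    have e2 : w * -(-(32 * w ^ 31) * tl 0 w + (1 - w ^ 32) * deriv (tl 0) w) -
        32 * (1 - W w) = 32 * (tl 0 w - 1) + (w ^ 32 - 1) * (w * deriv (tl 0) w) := by
      rw [hW]; ring
    rw [e2]
    refine (norm_add_le _ _).trans ?_
    rw [norm_mul, norm_mul]
    have e3 : ‖(32 : ℂ)‖ = 32 := by norm_num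
    rw [e3]
    calc 32 * ‖tl 0 w - 1‖ + ‖w ^ 32 - 1‖ * ‖w * deriv (tl 0) w‖ ≤
        32 * (4 * ‖w‖ ^ 32 * (1 / 2) ^ 30000) +
          (4 ^ 32 + 1) * (4 * ‖w‖ ^ 32 * (1 / 2) ^ 30000) := by
          gcongr
          · exact h1.trans (by gcongr)
          · exact h2.trans (by gcongr)
      _ = (4 * (32 + (4 ^ 32 + 1)) * (1 / 2) ^ 30000) * ‖w‖ ^ 32 := by ring
      _ ≤ (4 * (100 * (4 ^ 32 + 1) + 1) * (1 / 2) ^ 30000) * ‖w‖ ^ 32 := by
          have e4 : (4 * (32 + (4 ^ 32 + 1)) : ℝ) ≤ 4 * (100 * (4 ^ 32 + 1) + 1) := by norm_num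
          exact mul_le_mul_of_nonneg_right (mul_le_mul_of_nonneg_right e4 hε.le) hp
      _ ≤ _ := by gcongr

lemma tau_small : tau ≤ 1 / 1000000000000 := by unfold tau; norm_num

lemma core_facts {w : ℂ} (hw : ‖w‖ ≤ 4) (h0 : w ≠ 0) :
    1 - W w ≠ 0 ∧ LD (fun z => 1 - W z) w (DH w) ∧ ‖DH w - 32‖ ≤ tau ∧
    |Real.log ‖1 - W w‖ - 32 * Real.log ‖w‖| ≤ tau ∧ ‖(1 - W w) / w ^ 32 - 1‖ ≤ tau / 4 := by
  obtain ⟨h1, h2⟩ := core_h hw
  have hp : 0 < ‖w‖ := norm_pos_iff.mpr h0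
  have hp32 : 0 < ‖w‖ ^ 32 := by positivity
  have ht := tau_small
  have ht0 := tau_pos
  have h3 : ‖(1 - W w) / w ^ 32 - 1‖ ≤ tau / 4 := by
    have e1 : (1 - W w) / w ^ 32 - 1 = ((1 - W w) - w ^ 32) / w ^ 32 := by field_simp
    rw [e1, norm_div, norm_pow, div_le_iff₀ hp32]; exact h1
  have h4 : (3 / 4) * ‖w‖ ^ 32 ≤ ‖1 - W w‖ := by
    have e1 := norm_sub_norm_le (w ^ 32) (w ^ 32 - (1 - W w))
    rw [sub_sub_cancel, norm_sub_rev (w ^ 32) (1 - W w), norm_pow] at e1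
    nlinarith
  have hne : 1 - W w ≠ 0 := by
    intro h; rw [h, norm_zero] at h4; linarith
  have hn : 0 < ‖1 - W w‖ := norm_pos_iff.mpr hne
  refine ⟨hne, ?_, ?_, ?_, h3⟩
  · unfold LD DH
    refine (((W_diff.const_sub 1) w).hasDerivAt).congr_deriv ?_
    field_simp
  · have e1 : DH w - 32 = (w * deriv (fun z => 1 - W z) w - 32 * (1 - W w)) / (1 - W w) := by
      unfold DH; field_simp
    rw [e1, norm_div, div_le_iff₀ hn]
    nlinarith
  · have e1 : 32 * Real.log ‖w‖ = Real.log ‖w ^ 32‖ := by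
      rw [norm_pow, Real.log_pow]; push_cast; ring
    have e2 : Real.log ‖1 - W w‖ - Real.log ‖w ^ 32‖ = Real.log ‖1 - (1 - (1 - W w) / w ^ 32)‖ := by
      rw [sub_sub_cancel, norm_div, Real.log_div hn.ne' (by rw [norm_pow]; exact hp32.ne')]
    rw [e1, e2]
    have e3 := log_small (y := 1 - (1 - W w) / w ^ 32) (by
      rw [norm_sub_rev]; linarith)
    rw [norm_sub_rev ((1 : ℂ)) ((1 - W w) / w ^ 32)] at e3
    linarith

lemma FF_ne {w : ℂ} (h : FF w ≠ 0) : 1 - W w ≠ 0 := by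
  intro h1; apply h; rw [FF, h1, inv_zero]

lemma FF_eq_iff {w z : ℂ} (hz : z ≠ 0) : FF w = z ↔ 1 - W w = z⁻¹ := by
  rw [FF]
  constructor
  · intro h; rw [← h, inv_inv]
  · intro h; rw [h, inv_inv]

lemma W_zero : W 0 = 1 := by
  have h1 := (core_h (w := 0) (by simp)).1
  simp at h1
  have h2 : 1 - W 0 = 0 := by simpa using h1
  exact (sub_eq_zero.mp h2).symm

lemma FF_zero : FF 0 = 0 := by rw [FF, W_zero]; simp

lemma FF_hasDeriv {w : ℂ} (h : 1 - W w ≠ 0) : HasDerivAt FF (deriv W w / (1 - W w) ^ 2) w := by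
  have h1 : HasDerivAt (fun z => 1 - W z) (-deriv W w) w := (W_diff w).hasDerivAt.const_sub 1
  have h2 := HasDerivAt.fun_inv h1 h
  have h3 : FF = fun i => (1 - W i)⁻¹ := rfl
  rw [h3]
  simpa using h2

lemma FF_an {w : ℂ} (h : 1 - W w ≠ 0) : AnalyticAt ℂ FF w := by
  have h1 : AnalyticAt ℂ W w := W_diff.analyticAt w
  exact (analyticAt_const.sub h1).inv h

lemma FF_sub_one {w : ℂ} (h : 1 - W w ≠ 0) : FF w - 1 = W w * FF w := by
  unfold FF; field_simp; ring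

/-- cylinder derivative through `DD` -/
lemma cyl_DD {w : ℂ} (h : 1 - W w ≠ 0) (hW : W w ≠ 0) : cyl FF w = ‖DD w‖ * ‖FF w - 1‖ := by
  unfold cyl
  rw [(FF_hasDeriv h).deriv, FF_sub_one h, DD, FF]
  rw [norm_div, norm_div, norm_mul, norm_mul, norm_inv, norm_pow]
  have h1 : ‖1 - W w‖ ≠ 0 := norm_ne_zero_iff.mpr h
  have h2 : ‖W w‖ ≠ 0 := norm_ne_zero_iff.mpr hW
  field_simp

/-- cylinder derivative through `DH` -/
lemma cyl_DH {w : ℂ} (h : 1 - W w ≠ 0) : cyl FF w = ‖DH w‖ := by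
  unfold cyl
  have h3 : deriv (fun z => 1 - W z) w = - deriv W w := by
    rw [deriv_const_sub]
  rw [(FF_hasDeriv h).deriv, DH, FF, h3]
  rw [norm_div, norm_div, norm_mul, norm_inv, norm_pow, norm_neg]
  have h1 : ‖1 - W w‖ ≠ 0 := norm_ne_zero_iff.mpr h
  field_simp

lemma exp_norm_log {w : ℂ} (hw : w ≠ 0) : Real.exp (Real.log ‖w‖) = ‖w‖ :=
  Real.exp_log (norm_pos_iff.mpr hw)

/-- the radii of the radial zone -/
def XR (j : ℕ) : Set ℝ := {x | 20 ≤ Real.exp (32 * x) ∧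
  (∀ i < j, 20 ≤ Real.exp (NN i * (x - rho i))) ∧
  Real.exp (NN j * (x - rho j)) ≤ (sl j : ℝ) / (40 * KK j)}

lemma norm_q_exp {j : ℕ} {w : ℂ} (hw : w ≠ 0) :
    ‖q j w‖ = Real.exp (NN j * (Real.log ‖w‖ - rho j)) := by
  rw [← log_q hw, Real.exp_log (norm_pos_iff.mpr (q_ne hw))]

lemma norm_32_exp {w : ℂ} (hw : w ≠ 0) : ‖w ^ 32‖ = Real.exp (32 * Real.log ‖w‖) := by
  have : 32 * Real.log ‖w‖ = Real.log (‖w‖ ^ 32) := by rw [Real.log_pow]; push_cast; ring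
  rw [this, norm_pow, Real.exp_log (pow_pos (norm_pos_iff.mpr hw) _)]

lemma rad_iff {j : ℕ} {w : ℂ} (hw : w ≠ 0) : Rad j w ↔ Real.log ‖w‖ ∈ XR j := by
  unfold Rad Far XR
  simp only [mem_ofPred_eq]
  rw [norm_32_exp hw, norm_q_exp (j := j) hw]
  constructor
  · rintro ⟨⟨h1, h2⟩, h3⟩
    refine ⟨h1, fun i hi => ?_, h3⟩
    rw [← norm_q_exp hw]; exact h2 i hi
  · rintro ⟨h1, h2, h3⟩
    refine ⟨⟨h1, fun i hi => ?_⟩, h3⟩
    rw [norm_q_exp hw]; exact h2 i hi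

lemma XR_convex (j : ℕ) : Convex ℝ (XR j) := by
  apply Set.OrdConnected.convex
  constructor
  rintro x ⟨h1, h2, -⟩ y ⟨-, -, h6⟩ z ⟨hxz, hzy⟩
  refine ⟨h1.trans (Real.exp_le_exp.mpr (by linarith)), fun i hi => ?_, ?_⟩
  · refine (h2 i hi).trans (Real.exp_le_exp.mpr ?_)
    have := NN_ge_real i
    have : (NN i : ℝ) * (x - rho i) ≤ NN i * (z - rho i) := by gcongr
    exact this
  · refine le_trans (Real.exp_le_exp.mpr ?_) h6
    have : (NN j : ℝ) * (z - rho j) ≤ NN j * (y - rho j) := by gcongr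
    exact this

lemma log_norm_exp (u : ℂ) : Real.log ‖Complex.exp u‖ = u.re := by
  rw [Complex.norm_exp, Real.log_exp]

lemma rad_count {j : ℕ} {c : ℂ} (S : Finset ℂ) (hS : ∀ w ∈ S, Rad j w ∧ W w = c) :
    (S.card : ℝ) ≤ 2 * sl j := by
  have hE : ∀ u ∈ {u : ℂ | W (exp u) ≠ 0},
      HasDerivAt (fun u => W (exp u)) (W (exp u) * DD (exp u)) u := by
    intro u hu
    have h1 : HasDerivAt W (deriv W (exp u)) (exp u) := (W_diff _).hasDerivAt
    have h2 := HasDerivAt.comp u h1 (Complex.hasDerivAt_exp u)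
    refine h2.congr_deriv ?_
    unfold DD
    have hu' : W (exp u) ≠ 0 := hu
    field_simp
  have hWc : Continuous (fun u => W (exp u)) := W_diff.continuous.comp Complex.continuous_exp
  refine strip_count (U := {u : ℂ | W (exp u) ≠ 0}) (isOpen_ne_fun hWc continuous_const)
    hE ?_ (fun u hu => hu) (XR_convex j) ?_ (M := sl j) (by linarith [sl_ge_real j]) ?_ c S ?_
  · have h1 : Continuous (fun u => deriv W (exp u)) := by
      have : Differentiable ℂ (deriv W) := by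
        have := W_diff.differentiableOn.deriv isOpen_univ
        exact differentiableOn_univ.mp this
      exact this.continuous.comp Complex.continuous_exp
    unfold DD
    exact ((Complex.continuous_exp.mul h1).continuousOn).div hWc.continuousOn (fun u hu => hu)
  · intro u hu
    have : Rad j (exp u) := by
      rw [rad_iff (Complex.exp_ne_zero u), log_norm_exp]; exact hu
    exact (rad_W this).1
  · intro u hu
    have : Rad j (exp u) := by
      rw [rad_iff (Complex.exp_ne_zero u), log_norm_exp]; exact hu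
    have h1 := (rad_W this).2.2.1
    have h2 := sl_ge_real j
    push_cast
    linarith
  · intro w hw
    obtain ⟨h1, h2⟩ := hS w hw
    have h0 : w ≠ 0 := h1.1.ne
    refine ⟨h0, (rad_iff h0).mp h1, ?_⟩
    show W (exp (log w)) = c
    rw [Complex.exp_log h0, h2]

lemma core_le_four {w : ℂ} (h : ‖w ^ 32‖ < 20) : ‖w‖ ≤ 4 := by
  by_contra hcon
  push Not at hcon
  rw [norm_pow] at h
  have : (4 : ℝ) ^ 32 ≤ ‖w‖ ^ 32 := pow_le_pow_left₀ (by norm_num) hcon.le _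
  norm_num at this
  linarith

lemma core_count {c : ℂ} (S : Finset ℂ) (hS : ∀ w ∈ S, w ≠ 0 ∧ ‖w ^ 32‖ < 20 ∧ 1 - W w = c) :
    (S.card : ℝ) ≤ 64 := by
  have hE : ∀ u ∈ {u : ℂ | 1 - W (exp u) ≠ 0},
      HasDerivAt (fun u => 1 - W (exp u)) ((1 - W (exp u)) * DH (exp u)) u := by
    intro u hu
    have h1 : HasDerivAt (fun z => 1 - W z) (deriv (fun z => 1 - W z) (exp u)) (exp u) :=
      ((W_diff.const_sub 1) _).hasDerivAt
    have h2 := HasDerivAt.comp u h1 (Complex.hasDerivAt_exp u)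
    refine h2.congr_deriv ?_
    unfold DH
    have hu' : 1 - W (exp u) ≠ 0 := hu
    field_simp
  have hWc : Continuous (fun u => 1 - W (exp u)) :=
    continuous_const.sub (W_diff.continuous.comp Complex.continuous_exp)
  have key : ∀ u : ℂ, u.re ∈ {x : ℝ | Real.exp (32 * x) < 20} → ‖exp u‖ ≤ 4 := by
    intro u hu
    apply core_le_four
    rw [norm_32_exp (Complex.exp_ne_zero u), log_norm_exp]
    exact hu
  have h64 : (64 : ℝ) = 2 * 32 := by norm_num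
  rw [h64]
  refine strip_count (U := {u : ℂ | 1 - W (exp u) ≠ 0}) (isOpen_ne_fun hWc continuous_const)
    hE ?_ (fun u hu => hu) (X := {x : ℝ | Real.exp (32 * x) < 20}) ?_ ?_ (M := 32) (by norm_num)
    ?_ c S ?_
  · have h1 : Continuous (fun u => deriv (fun z => 1 - W z) (exp u)) := by
      have : Differentiable ℂ (deriv (fun z => 1 - W z)) := by
        have := (W_diff.const_sub 1).differentiableOn.deriv isOpen_univ
        exact differentiableOn_univ.mp this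
      exact this.continuous.comp Complex.continuous_exp
    unfold DH
    exact ((Complex.continuous_exp.mul h1).continuousOn).div hWc.continuousOn (fun u hu => hu)
  · apply Set.OrdConnected.convex
    constructor
    rintro x _ y hy z ⟨_, hzy⟩
    have : Real.exp (32 * z) ≤ Real.exp (32 * y) := Real.exp_le_exp.mpr (by linarith)
    exact lt_of_le_of_lt this hy
  · intro u hu
    exact (core_facts (key u hu) (Complex.exp_ne_zero u)).1
  · intro u hu
    have h1 := (core_facts (key u hu) (Complex.exp_ne_zero u)).2.2.1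
    have h2 := tau_small
    push_cast
    linarith
  · intro w hw
    obtain ⟨h0, h1, h2⟩ := hS w hw
    refine ⟨h0, ?_, ?_⟩
    · show Real.exp (32 * Real.log ‖w‖) < 20
      rw [← norm_32_exp h0]; exact h1
    · show 1 - W (exp (log w)) = c
      rw [Complex.exp_log h0, h2]

end Pool.Agent.Work.MP_0a8b43_nt
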