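import Mathlib
import Pool.Agent.Work.MP_0a8b43_nt.Core

set_option autoImplicit false

open Complex Set Filter Topology

namespace Pool.Agent.Work.MP_0a8b43_nt

/-- parametrization near a circle -/
noncomputable def wm (j : ℕ) (ζ v : ℂ) : ℂ := Rr j * ζ * exp (v / NN j)

lemma NN_ne (j : ℕ) : (NN j : ℂ) ≠ 0 := by exact_mod_cast (NN_pos j).ne'
lemma Rr_ne (j : ℕ) : (Rr j : ℂ) ≠ 0 := by exact_mod_cast (Rr_pos j).ne'

lemma norm_zeta {j : ℕ} {ζ : ℂ} (hζ : ζ ^ NN j = 1) : ‖ζ‖ = 1 :=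
  norm_eq_one_of_pow_eq_one hζ (NN_pos j).ne'

lemma zeta_ne {j : ℕ} {ζ : ℂ} (hζ : ζ ^ NN j = 1) : ζ ≠ 0 := by
  intro h
  have := norm_zeta hζ
  rw [h, norm_zero] at this
  norm_num at this

lemma wm_ne {j : ℕ} {ζ : ℂ} (hζ : ζ ^ NN j = 1) (v : ℂ) : wm j ζ v ≠ 0 :=
  mul_ne_zero (mul_ne_zero (Rr_ne j) (zeta_ne hζ)) (Complex.exp_ne_zero _)

lemma q_wm {j : ℕ} {ζ : ℂ} (hζ : ζ ^ NN j = 1) (v : ℂ) : q j (wm j ζ v) = exp v := by
  have h1 : wm j ζ v / (Rr j : ℂ) = ζ * exp (v / NN j) := by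
    unfold wm; field_simp [Rr_ne j]
  rw [q, h1, mul_pow, hζ, one_mul, ← Complex.exp_nat_mul]
  congr 1
  field_simp [NN_ne j]

lemma log_wm {j : ℕ} {ζ : ℂ} (hζ : ζ ^ NN j = 1) (v : ℂ) :
    Real.log ‖wm j ζ v‖ = rho j + v.re / NN j := by
  have h1 : v / (NN j : ℂ) = ((1 / NN j : ℝ) : ℂ) * v := by push_cast; ring
  rw [wm, norm_mul, norm_mul, norm_zeta hζ, Complex.norm_real, Real.norm_eq_abs,
    abs_of_pos (Rr_pos j), Complex.norm_exp, mul_one, Real.log_mul (Rr_pos j).ne'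
    (Real.exp_pos _).ne', Real.log_exp, Rr, Real.log_exp, h1, Complex.re_ofReal_mul]
  ring

lemma far_near {j : ℕ} {w : ℂ} (hw : w ≠ 0) (h : (rho j : ℝ) - 1 ≤ Real.log ‖w‖) : Far j w := by
  have h1 := rho_ge_real j
  constructor
  · rw [norm_32_exp hw]
    have := Real.add_one_le_exp (32 * Real.log ‖w‖)
    linarith
  · intro i hi
    rw [norm_q_exp hw]
    have h2 : (rho i : ℝ) + 2000 ≤ rho j := by
      have h3 := rho_step i
      have h4 := rho_ge i
      have h5 : rho (i + 1) ≤ rho j := rho_mono hi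
      have : rho i + 2000 ≤ rho j := by omega
      exact_mod_cast this
    have h6 := NN_ge_real i
    have h7 : 33 * 1 ≤ (NN i : ℝ) * (Real.log ‖w‖ - rho i) :=
      mul_le_mul h6 (by linarith) (by norm_num) (by linarith)
    have := Real.add_one_le_exp ((NN i : ℝ) * (Real.log ‖w‖ - rho i))
    linarith

lemma slKK (j : ℕ) : (sl j : ℝ) / (40 * KK j) ≤ 1 / 160000 := by
  have := sl_le_KK_real j
  have := KK_pos_real j
  rw [div_le_div_iff₀ (by positivity) (by norm_num)]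
  linarith

lemma trans_wm {j : ℕ} {ζ : ℂ} (hζ : ζ ^ NN j = 1) {v : ℂ} (hv : ‖v‖ ≤ 1) :
    Trans j (wm j ζ v) := by
  have hre := abs_le.mp ((Complex.abs_re_le_norm v).trans hv)
  have hN := NN_ge_real j
  refine ⟨?_, ?_, ?_⟩
  · apply far_near (wm_ne hζ v)
    rw [log_wm hζ]
    have : -1 ≤ v.re / NN j := by
      rw [le_div_iff₀ (by linarith)]; linarith
    linarith
  · rw [q_wm hζ, Complex.norm_exp]
    have h1 := slKK j
    have h2 : Real.exp (-1) ≤ Real.exp v.re := Real.exp_le_exp.mpr hre.1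
    have h3 : (1 : ℝ) / 3 ≤ Real.exp (-1) := by
      rw [Real.exp_neg, one_div]
      apply inv_anti₀ (Real.exp_pos _)
      have := Real.exp_one_lt_d9; linarith
    linarith
  · rw [q_wm hζ, Complex.norm_exp]
    have h2 : Real.exp v.re ≤ Real.exp 1 := Real.exp_le_exp.mpr hre.2
    have := Real.exp_one_lt_d9; linarith

lemma wm_deriv (j : ℕ) (ζ v : ℂ) : HasDerivAt (wm j ζ) (wm j ζ v / NN j) v := by
  have h1 : HasDerivAt (fun v : ℂ => v / (NN j : ℂ)) (1 / NN j) v := (hasDerivAt_id v).div_const _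
  have h2 := (h1.cexp).const_mul ((Rr j : ℂ) * ζ)
  refine h2.congr_deriv ?_
  unfold wm; ring

/-- the local model near a zero on the circle -/
lemma model {j : ℕ} {ζ : ℂ} (hζ : ζ ^ NN j = 1) : ∃ κ κ' : ℂ → ℂ,
    (∀ v ∈ Metric.ball (0 : ℂ) (1 / 2), HasDerivAt κ (κ' v) v) ∧ κ 0 = 0 ∧
    (∀ v ∈ Metric.ball (0 : ℂ) (1 / 2), ‖κ' v‖ ≤ 1 / 100) ∧
    ∀ v ∈ Metric.ball (0 : ℂ) (1 / 2),
      W (wm j ζ v) = VV j (wm j ζ 0) * (exp (κ v) * (1 - exp v)) ^ kk j := by
  set B := Metric.ball (0 : ℂ) (1 / 2) with hB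
  have hT : ∀ v ∈ B, Trans j (wm j ζ v) := by
    intro v hv
    have : ‖v‖ < 1 / 2 := by simpa [hB] using hv
    exact trans_wm hζ (by linarith)
  set E : ℂ → ℂ := fun v => VV j (wm j ζ v) with hE
  set D : ℂ → ℂ := fun v => DV j (wm j ζ v) / NN j with hD
  have hEd : ∀ v ∈ B, HasDerivAt E (E v * D v) v := by
    intro v hv
    have h1 : HasDerivAt (VV j) (VV j (wm j ζ v) * DV j (wm j ζ v) / wm j ζ v) (wm j ζ v) :=
      (trans_VV (hT v hv)).2.1
    have h2 := HasDerivAt.comp v h1 (wm_deriv j ζ v)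
    refine h2.congr_deriv ?_
    have := wm_ne hζ v
    simp only [hE, hD]
    field_simp
  have hE0 : ∀ v ∈ B, E v ≠ 0 := fun v hv => (trans_VV (hT v hv)).1
  have hwd : Differentiable ℂ (wm j ζ) := fun v => (wm_deriv j ζ v).differentiableAt
  have hDd : DifferentiableOn ℂ D B := by
    have h1 : Differentiable ℂ (deriv (VV j)) :=
      differentiableOn_univ.mp ((VV_diff j).differentiableOn.deriv isOpen_univ)
    have h2 : DifferentiableOn ℂ (fun v => wm j ζ v * deriv (VV j) (wm j ζ v) / VV j (wm j ζ v)) B :=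
      ((hwd.mul (h1.comp hwd)).differentiableOn).div (((VV_diff j).comp hwd).differentiableOn) hE0
    exact h2.div_const _
  obtain ⟨Φ, hΦ0, hΦ⟩ := hDd.isExactOn_ball.with_val_at 0 0
  have h0B : (0 : ℂ) ∈ B := by simp [hB]
  have hconst : ∀ v ∈ B, E v * exp (-Φ v) = E 0 * exp (-Φ 0) := by
    intro v hv
    have hder : ∀ u ∈ B, HasDerivAt (fun u => E u * exp (-Φ u)) 0 u := by
      intro u hu
      refine (HasDerivAt.fun_mul (hEd u hu) ((hΦ u hu).neg.cexp)).congr_deriv ?_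
      simp only [Pi.neg_apply]
      ring
    exact Metric.isOpen_ball.is_const_of_deriv_eq_zero (f := fun u => E u * exp (-Φ u))
      (convex_ball _ _).isPreconnected (fun u hu => (hder u hu).differentiableAt.differentiableWithinAt)
      (fun u hu => (hder u hu).deriv) hv h0B
  have hEΦ : ∀ v ∈ B, E v = E 0 * exp (Φ v) := by
    intro v hv
    have h1 := hconst v hv
    rw [hΦ0, neg_zero, Complex.exp_zero, mul_one] at h1
    rw [← h1, mul_assoc, ← Complex.exp_add]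
    simp
  have hk : (kk j : ℂ) ≠ 0 := by
    have := kk_pos j
    exact_mod_cast (by omega : kk j ≠ 0)
  refine ⟨fun v => Φ v / kk j, fun v => D v / kk j, fun v hv => (hΦ v hv).div_const _, ?_, ?_, ?_⟩
  · simp [hΦ0]
  · intro v hv
    have h1 := DV_le (hT v hv)
    have h2 := sl_le_KK_real j
    have h3 := KK_pos_real j
    have h4 : D v / kk j = DV j (wm j ζ v) / KK j := by
      simp only [hD]; rw [KK]; push_cast
      rw [div_div, mul_comm (NN j : ℂ)]
    show ‖D v / kk j‖ ≤ 1 / 100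
    rw [h4, norm_div, Complex.norm_natCast, div_le_iff₀ h3]
    linarith
  · intro v hv
    rw [W_VV j]
    have h1 : VV j (wm j ζ v) = VV j (wm j ζ 0) * exp (Φ v) := hEΦ v hv
    rw [h1, fac, q_wm hζ, mul_pow, ← Complex.exp_nat_mul]
    have h2 : (kk j : ℂ) * (Φ v / kk j) = Φ v := by field_simp
    rw [h2]; ring

/-- `v` coordinate of a point near the circle -/
lemma log_q_small {j : ℕ} {w : ℂ} (h : ‖1 - q j w‖ < 1 / 4) : ‖log (q j w)‖ ≤ 3 / 10 := by
  have h1 : ‖q j w - 1‖ < 1 / 4 := by rwa [norm_sub_rev]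
  have h2 := Complex.norm_log_one_add_le (z := q j w - 1) (by linarith)
  rw [add_sub_cancel] at h2
  have h0 := norm_nonneg (q j w - 1)
  have h3 : (1 - ‖q j w - 1‖)⁻¹ ≤ 4 / 3 := by
    rw [inv_le_comm₀ (by linarith) (by norm_num)]; linarith
  have h4 : ‖q j w - 1‖ ^ 2 ≤ 1 / 16 := by nlinarith
  have h5 : ‖q j w - 1‖ ^ 2 * (1 - ‖q j w - 1‖)⁻¹ ≤ 1 / 16 * (4 / 3) := by
    apply mul_le_mul h4 h3 _ (by norm_num)
    apply inv_nonneg.mpr; linarith
  linarith

/-- root of unity attached to a point -/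
noncomputable def zt (j : ℕ) (w : ℂ) : ℂ := w / Rr j * exp (-(log (q j w) / NN j))

lemma zt_pow {j : ℕ} {w : ℂ} (hw : w ≠ 0) : zt j w ^ NN j = 1 := by
  have h1 : ((NN j : ℕ) : ℂ) * -(log (q j w) / NN j) = -log (q j w) := by
    field_simp [NN_ne j]
  rw [zt, mul_pow, ← Complex.exp_nat_mul, h1, Complex.exp_neg, Complex.exp_log (q_ne hw)]
  exact mul_inv_cancel₀ (q_ne hw)

lemma wm_zt {j : ℕ} {w : ℂ} : wm j (zt j w) (log (q j w)) = w := by
  have h1 : exp (-(log (q j w) / NN j)) * exp (log (q j w) / NN j) = 1 := by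
    rw [← Complex.exp_add]; simp
  calc wm j (zt j w) (log (q j w)) = (Rr j * (w / Rr j)) *
      (exp (-(log (q j w) / NN j)) * exp (log (q j w) / NN j)) := by
        unfold wm zt; ring
    _ = w := by rw [h1, mul_one]; field_simp [Rr_ne j]

lemma circle_inj {κ κ' : ℂ → ℂ} (hκ : ∀ v ∈ Metric.ball (0 : ℂ) (1 / 2), HasDerivAt κ (κ' v) v)
    (h0 : κ 0 = 0) (hκ' : ∀ v ∈ Metric.ball (0 : ℂ) (1 / 2), ‖κ' v‖ ≤ 1 / 100)
    {v v' : ℂ} (hv : ‖v‖ ≤ 1 / 3) (hv' : ‖v'‖ ≤ 1 / 3)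
    (h : exp (κ v) * (1 - exp v) = exp (κ v') * (1 - exp v')) : v = v' := by
  have h1 := circle_map hκ h0 hκ' hv hv'
  rw [h, add_sub_add_left_eq_sub] at h1
  have h2 : ‖v - v'‖ = 0 := by
    have := norm_nonneg (v - v'); linarith
  exact sub_eq_zero.mp (norm_eq_zero.mp h2)

lemma circ_count {j : ℕ} {c : ℂ} (S : Finset ℂ)
    (hS : ∀ w ∈ S, Trans j w ∧ ‖1 - q j w‖ < 1 / 4 ∧ W w = c) :
    (S.card : ℝ) ≤ KK j := by
  classical
  have hnat : S.card ≤ kk j * NN j := by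
    have h1 : S.card ≤ kk j * (S.image (zt j)).card := by
      apply Finset.card_le_mul_card_image
      intro ζ hζ
      obtain ⟨w0, hw0, rfl⟩ := Finset.mem_image.mp hζ
      have hz : zt j w0 ^ NN j = 1 := zt_pow (hS w0 hw0).1.1.ne
      set ζ := zt j w0
      obtain ⟨κ, κ', hκ, hκ0, hκb, hmod⟩ := model hz
      have hmaps : ∀ w ∈ S.filter (fun x => zt j x = ζ),
          exp (κ (log (q j w))) * (1 - exp (log (q j w))) ∈
            (Polynomial.nthRoots (kk j) (c / VV j (wm j ζ 0))).toFinset := by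
        intro w hw
        obtain ⟨hw1, hw2⟩ := Finset.mem_filter.mp hw
        obtain ⟨e1, e2, e3⟩ := hS w hw1
        have e4 := log_q_small e2
        rw [Multiset.mem_toFinset, Polynomial.mem_nthRoots (kk_pos j)]
        have e5 := hmod (log (q j w)) (by
          simp only [Metric.mem_ball, dist_zero_right]; linarith)
        rw [← hw2, wm_zt, hw2, e3] at e5
        have hV : VV j (wm j ζ 0) ≠ 0 := (trans_VV (trans_wm hz (by simp))).1
        rw [e5]; field_simp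
      have hinj : Set.InjOn (fun w => exp (κ (log (q j w))) * (1 - exp (log (q j w))))
          (S.filter (fun x => zt j x = ζ)) := by
        intro w hw w' hw' hww
        obtain ⟨hw1, hw2⟩ := Finset.mem_filter.mp (Finset.mem_coe.mp hw)
        obtain ⟨hw1', hw2'⟩ := Finset.mem_filter.mp (Finset.mem_coe.mp hw')
        have e4 := log_q_small (hS w hw1).2.1
        have e4' := log_q_small (hS w' hw1').2.1
        have e5 := circle_inj hκ hκ0 hκb (by linarith) (by linarith) hww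
        rw [← wm_zt (j := j) (w := w), ← wm_zt (j := j) (w := w'), hw2, hw2', e5]
      refine (Finset.card_le_card_of_injOn _ hmaps hinj).trans ?_
      exact (Multiset.toFinset_card_le _).trans (Polynomial.card_nthRoots _ _)
    have h2 : (S.image (zt j)).card ≤ NN j := by
      have h3 : S.image (zt j) ⊆ (Polynomial.nthRoots (NN j) (1 : ℂ)).toFinset := by
        intro ζ hζ
        obtain ⟨w0, hw0, rfl⟩ := Finset.mem_image.mp hζ
        rw [Multiset.mem_toFinset, Polynomial.mem_nthRoots (NN_pos j)]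
        exact zt_pow (hS w0 hw0).1.1.ne
      exact (Finset.card_le_card h3).trans
        ((Multiset.toFinset_card_le _).trans (Polynomial.card_nthRoots _ _))
    exact h1.trans (Nat.mul_le_mul_left _ h2)
  rw [KK]
  exact_mod_cast hnat

end Pool.Agent.Work.MP_0a8b43_nt
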