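import Mathlib
import Pool.Agent.Work.MP_0a8b43_nt.Circle

set_option autoImplicit false

open Complex Set Filter Topology

namespace Pool.Agent.Work.MP_0a8b43_nt

/-- radius of the special neighbourhood of the fixed point -/
noncomputable def r1 : ℝ := 1 / 10000000
lemma r1_pos : 0 < r1 := by unfold r1; norm_num

/-- multiplier of the fixed point -/
noncomputable def Lam : ℝ := ‖deriv FF 1‖

lemma W_one : W 1 = 0 := by simp [W]

lemma FF_one : FF 1 = 1 := by rw [FF, W_one]; simp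

lemma Lam_bound : |Lam - 32| ≤ tau := by
  have h1 := (core_facts (w := 1) (by simp) one_ne_zero)
  have h2 : cyl FF 1 = ‖DH 1‖ := cyl_DH h1.1
  have h3 : cyl FF 1 = Lam := by
    unfold cyl; rw [FF_one, Lam]; simp
  have h4 : Lam = ‖DH 1‖ := by rw [← h3, h2]
  rw [h4]
  have h5 := abs_norm_sub_norm_le (DH 1) 32
  have h6 : ‖(32 : ℂ)‖ = 32 := by norm_num
  rw [h6] at h5
  exact h5.trans h1.2.2.1

lemma Lam_ge : 31 ≤ Lam := by
  have := abs_le.mp Lam_bound
  have := tau_small; linarith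

lemma Lam_le : Lam ≤ 33 := by
  have := abs_le.mp Lam_bound
  have := tau_small; linarith

lemma norm_near {w : ℂ} {r : ℝ} (h : ‖w - 1‖ ≤ r) : 1 - r ≤ ‖w‖ ∧ ‖w‖ ≤ 1 + r := by
  constructor
  · have := norm_sub_norm_le 1 (1 - w)
    rw [norm_one, sub_sub_cancel, norm_sub_rev] at this; linarith
  · have := norm_add_le (w - 1) 1
    rw [norm_one, sub_add_cancel] at this; linarith

lemma near_h {w : ℂ} (h : ‖w - 1‖ ≤ 1 / 32) : 1 - W w ≠ 0 ∧ ‖FF w‖ ≤ 3 := by
  obtain ⟨h1, h2⟩ := norm_near h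
  have h0 : w ≠ 0 := by
    intro h; rw [h, norm_zero] at h1; norm_num at h1
  obtain ⟨e1, -, -, -, e5⟩ := core_facts (w := w) (by linarith) h0
  refine ⟨e1, ?_⟩
  have hp : (31 / 32 : ℝ) ^ 32 ≤ ‖w‖ ^ 32 := pow_le_pow_left₀ (by norm_num) (by linarith) _
  have ht := tau_small
  have h3 : (99 / 100) * ‖w‖ ^ 32 ≤ ‖1 - W w‖ := by
    have h4 : 1 - tau / 4 ≤ ‖(1 - W w) / w ^ 32‖ := by
      have := norm_sub_norm_le 1 (1 - (1 - W w) / w ^ 32)
      rw [norm_one, sub_sub_cancel, norm_sub_rev] at this; linarith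
    rw [norm_div, norm_pow, le_div_iff₀ (by positivity)] at h4
    nlinarith [pow_nonneg (norm_nonneg w) 32]
  rw [FF, norm_inv, inv_le_comm₀ (norm_pos_iff.mpr e1) (by norm_num)]
  have h5 : (3 : ℝ)⁻¹ ≤ 99 / 100 * (31 / 32) ^ 32 := by norm_num
  linarith

lemma FF_diffOn : DifferentiableOn ℂ FF (Metric.closedBall 1 (1 / 32)) := by
  intro w hw
  have h : ‖w - 1‖ ≤ 1 / 32 := by simpa [dist_eq_norm] using hw
  exact (FF_hasDeriv (near_h h).1).differentiableAt.differentiableWithinAt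

lemma FF_d1 {w : ℂ} (h : ‖w - 1‖ ≤ 1 / 64) : ‖deriv FF w‖ ≤ 192 := by
  have hsub : Metric.closedBall w (1 / 64) ⊆ Metric.closedBall 1 (1 / 32) := by
    intro z hz
    have h1 : ‖z - w‖ ≤ 1 / 64 := by simpa [dist_eq_norm] using hz
    have h2 : ‖z - 1‖ ≤ 1 / 32 := by
      calc ‖z - 1‖ = ‖(z - w) + (w - 1)‖ := by ring_nf
        _ ≤ _ := norm_add_le _ _
        _ ≤ _ := by linarith
    simpa [dist_eq_norm] using h2
  have h3 := Complex.norm_deriv_le_of_forall_mem_sphere_norm_le (c := w) (R := 1 / 64) (C := 3)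
    (f := FF) (by norm_num) ((FF_diffOn.mono hsub).diffContOnCl_ball (le_refl _)) (by
      intro z hz
      have hz' := hsub (Metric.sphere_subset_closedBall hz)
      have h : ‖z - 1‖ ≤ 1 / 32 := by simpa [dist_eq_norm] using hz'
      exact (near_h h).2)
  norm_num at h3 ⊢
  exact h3

lemma FFd_diffOn : DifferentiableOn ℂ (deriv FF) (Metric.ball 1 (1 / 32)) :=
  (FF_diffOn.mono Metric.ball_subset_closedBall).deriv Metric.isOpen_ball

lemma FF_d2 {w : ℂ} (h : ‖w - 1‖ ≤ 1 / 128) : ‖deriv (deriv FF) w‖ ≤ 24576 := by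
  have hsub : Metric.closedBall w (1 / 128) ⊆ Metric.closedBall 1 (1 / 64) := by
    intro z hz
    have h1 : ‖z - w‖ ≤ 1 / 128 := by simpa [dist_eq_norm] using hz
    have h2 : ‖z - 1‖ ≤ 1 / 64 := by
      calc ‖z - 1‖ = ‖(z - w) + (w - 1)‖ := by ring_nf
        _ ≤ _ := norm_add_le _ _
        _ ≤ _ := by linarith
    simpa [dist_eq_norm] using h2
  have hsub2 : Metric.closedBall (1 : ℂ) (1 / 64) ⊆ Metric.ball 1 (1 / 32) :=
    Metric.closedBall_subset_ball (by norm_num)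
  have h3 := Complex.norm_deriv_le_of_forall_mem_sphere_norm_le (c := w) (R := 1 / 128) (C := 192)
    (f := deriv FF) (by norm_num)
    ((FFd_diffOn.mono (hsub.trans hsub2)).diffContOnCl_ball (le_refl _)) (by
      intro z hz
      have hz' := hsub (Metric.sphere_subset_closedBall hz)
      have h : ‖z - 1‖ ≤ 1 / 64 := by simpa [dist_eq_norm] using hz'
      exact FF_d1 h)
  norm_num at h3 ⊢
  exact h3

lemma ball_sub32 {r : ℝ} (hr : r ≤ 1 / 128) : Metric.closedBall (1 : ℂ) r ⊆ Metric.ball 1 (1 / 32) :=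
  (Metric.closedBall_subset_closedBall hr).trans (Metric.closedBall_subset_ball (by norm_num))

lemma FFd_lip {w : ℂ} (h : ‖w - 1‖ ≤ 1 / 128) : ‖deriv FF w - deriv FF 1‖ ≤ 24576 * ‖w - 1‖ := by
  have hw : w ∈ Metric.closedBall (1 : ℂ) (1 / 128) := by simpa [dist_eq_norm] using h
  have h1 := (convex_closedBall (1 : ℂ) (1 / 128)).norm_image_sub_le_of_norm_deriv_le
    (f := deriv FF) (C := 24576) (fun z hz => FFd_diffOn.differentiableAt
      (Metric.isOpen_ball.mem_nhds (ball_sub32 (le_refl _) hz)))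
    (fun z hz => FF_d2 (by simpa [dist_eq_norm] using hz))
    (Metric.mem_closedBall_self (by norm_num)) hw
  exact h1

/-- quadratic approximation near the fixed point -/
lemma FF_quad {w w' : ℂ} {r : ℝ} (hr : r ≤ 1 / 128) (h : ‖w - 1‖ ≤ r) (h' : ‖w' - 1‖ ≤ r) :
    ‖FF w - FF w' - deriv FF 1 * (w - w')‖ ≤ 24576 * r * ‖w - w'‖ := by
  have hw : w ∈ Metric.closedBall (1 : ℂ) r := by simpa [dist_eq_norm] using h
  have hw' : w' ∈ Metric.closedBall (1 : ℂ) r := by simpa [dist_eq_norm] using h'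
  have hdiff : ∀ z ∈ Metric.closedBall (1 : ℂ) r, HasDerivWithinAt (fun z => FF z - deriv FF 1 * z)
      (deriv FF z - deriv FF 1) (Metric.closedBall (1 : ℂ) r) z := by
    intro z hz
    have h1 : DifferentiableAt ℂ FF z := FF_diffOn.differentiableAt
      (mem_of_superset (Metric.isOpen_ball.mem_nhds (ball_sub32 hr hz)) Metric.ball_subset_closedBall)
    have h2 := (hasDerivAt_id z).const_mul (deriv FF 1)
    have h3 := h1.hasDerivAt.sub h2
    refine (h3.congr_deriv ?_).hasDerivWithinAt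
    simp
  have h1 := (convex_closedBall (1 : ℂ) r).norm_image_sub_le_of_norm_hasDerivWithin_le
    (f := fun z => FF z - deriv FF 1 * z) (C := 24576 * r) hdiff (fun z hz => by
      have hz' : ‖z - 1‖ ≤ r := by simpa [dist_eq_norm] using hz
      refine (FFd_lip (hz'.trans hr)).trans ?_
      gcongr) hw' hw
  have h2 : FF w - FF w' - deriv FF 1 * (w - w') =
      (FF w - deriv FF 1 * w) - (FF w' - deriv FF 1 * w') := by ring
  rw [h2]; exact h1

lemma FF_lin {w w' : ℂ} {r : ℝ} (hr : r ≤ 1 / 128) (h : ‖w - 1‖ ≤ r) (h' : ‖w' - 1‖ ≤ r) :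
    (Lam - 24576 * r) * ‖w - w'‖ ≤ ‖FF w - FF w'‖ ∧
    ‖FF w - FF w'‖ ≤ (Lam + 24576 * r) * ‖w - w'‖ := by
  have h1 := FF_quad hr h h'
  have h2 : ‖deriv FF 1 * (w - w')‖ = Lam * ‖w - w'‖ := by rw [norm_mul, Lam]
  constructor
  · have h3 := norm_sub_norm_le (deriv FF 1 * (w - w')) (deriv FF 1 * (w - w') - (FF w - FF w'))
    rw [sub_sub_cancel, h2, norm_sub_rev (deriv FF 1 * (w - w')) (FF w - FF w')] at h3
    linarith
  · have h3 := norm_add_le (FF w - FF w' - deriv FF 1 * (w - w')) (deriv FF 1 * (w - w'))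
    rw [sub_add_cancel, h2] at h3
    linarith

/-- the size of `F w - 1` -/
lemma FF_one_bounds {w : ℂ} (h : ‖w - 1‖ ≤ 1 / 128) :
    (Lam - 24576 * ‖w - 1‖) * ‖w - 1‖ ≤ ‖FF w - 1‖ ∧
    ‖FF w - 1‖ ≤ (Lam + 24576 * ‖w - 1‖) * ‖w - 1‖ := by
  have := FF_lin (w := w) (w' := 1) h (le_refl _) (by simp)
  rwa [FF_one] at this

lemma near_cyl {w : ℂ} (h : ‖w - 1‖ ≤ 40 * r1) :
    Lam * (1 - 1000 * ‖w - 1‖) ≤ cyl FF w ∧
    ‖FF w - 1‖ ≤ Lam * ‖w - 1‖ * (1 + 1000 * ‖w - 1‖) ∧ 30 * ‖w - 1‖ ≤ ‖FF w - 1‖ := by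
  have hr : 40 * r1 ≤ 1 / 128 := by unfold r1; norm_num
  set t := ‖w - 1‖ with ht
  have ht0 : 0 ≤ t := norm_nonneg _
  have ht1 : t ≤ 1 / 200000 := by unfold r1 at h; linarith
  have hL1 := Lam_ge
  have hL2 := Lam_le
  obtain ⟨e1, e2⟩ := FF_one_bounds (w := w) (by linarith)
  rw [← ht] at e1 e2
  have e3 : ‖FF w - 1‖ ≤ Lam * t * (1 + 1000 * t) := by
    refine e2.trans ?_
    nlinarith [mul_nonneg ht0 ht0]
  refine ⟨?_, e3, ?_⟩
  · have hd := FFd_lip (w := w) (by linarith)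
    rw [← ht] at hd
    have hd2 : Lam - 24576 * t ≤ ‖deriv FF w‖ := by
      have := norm_sub_norm_le (deriv FF 1) (deriv FF 1 - deriv FF w)
      rw [sub_sub_cancel, norm_sub_rev] at this
      unfold Lam; linarith
    obtain ⟨n1, n2⟩ := norm_near (w := w) (r := t) (le_refl _)
    obtain ⟨n3, n4⟩ := norm_near (w := FF w) (r := 34 * t) (by nlinarith)
    have hFp : 0 < ‖FF w‖ := by linarith
    unfold cyl
    rw [le_div_iff₀ hFp]
    have e4 : (1 - t) * (Lam - 24576 * t) ≤ ‖w‖ * ‖deriv FF w‖ := by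
      apply mul_le_mul n1 hd2 (by nlinarith) (norm_nonneg _)
    have e5 : Lam * (1 - 1000 * t) * ‖FF w‖ ≤ Lam * (1 - 1000 * t) * (1 + 34 * t) := by
      apply mul_le_mul_of_nonneg_left n4
      apply mul_nonneg (by linarith); linarith
    have e6 : Lam * (1 - 1000 * t) * (1 + 34 * t) ≤ (1 - t) * (Lam - 24576 * t) := by
      nlinarith [mul_nonneg ht0 ht0, mul_nonneg (mul_nonneg ht0 ht0) (by linarith : 0 ≤ Lam)]
    linarith
  · refine le_trans ?_ e1
    apply mul_le_mul_of_nonneg_right _ ht0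
    linarith

/-- injectivity near the fixed point -/
lemma near_inj {w w' : ℂ} (h : ‖w - 1‖ ≤ 1 / 1000) (h' : ‖w' - 1‖ ≤ 1 / 1000) (he : FF w = FF w') :
    w = w' := by
  have h1 := (FF_lin (w := w) (w' := w') (r := 1 / 1000) (by norm_num) h h').1
  rw [he, sub_self, norm_zero] at h1
  have hL := Lam_ge
  have h2 := norm_nonneg (w - w')
  have h3 : ‖w - w'‖ = 0 := by nlinarith
  exact sub_eq_zero.mp (norm_eq_zero.mp h3)

/-- rpow comparison -/
lemma rp {x y : ℝ} (hx : 0 < x) (hy : 0 < y) (h : 1 ≤ x ^ 7 * y ^ 4) : x ^ (-(7 / 4 : ℝ)) ≤ y := by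
  have h1 : (x ^ (-(7 / 4 : ℝ))) ^ 4 = (x ^ 7)⁻¹ := by
    rw [← Real.rpow_natCast (x ^ (-(7 / 4 : ℝ))) 4, ← Real.rpow_mul hx.le]
    norm_num
  have h2 : (x ^ 7)⁻¹ ≤ y ^ 4 := by
    rw [inv_le_iff_one_le_mul₀ (by positivity)]; linarith
  rw [← h1] at h2
  exact le_of_pow_le_pow_left₀ (by norm_num) hy.le h2

/-- the exponent attached to a circle -/
noncomputable def aa (j : ℕ) : ℝ := 7 / 4 * (1 - 1 / kk j)

lemma aa_nonneg (j : ℕ) : 0 ≤ aa j := by
  have := kk_pos_real j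
  unfold aa
  have : 1 / (kk j : ℝ) ≤ 1 := by rw [div_le_one (by linarith)]; exact this
  nlinarith

lemma aa_le (j : ℕ) : aa j ≤ 7 / 4 := by
  have := kk_pos_real j
  unfold aa
  have : 0 ≤ 1 / (kk j : ℝ) := by positivity
  nlinarith

lemma Lam_exp : Real.exp 1 ≤ Lam ^ (7 / 4 : ℝ) := by
  have hL := Lam_ge
  have h1 : Lam ^ (1 : ℝ) ≤ Lam ^ (7 / 4 : ℝ) :=
    Real.rpow_le_rpow_of_exponent_le (by linarith) (by norm_num)
  rw [Real.rpow_one] at h1
  have := Real.exp_one_lt_d9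
  linarith

/-- `Λ^{-s/k} ≤ 1 - 1/(2k)` -/
lemma Lam_pow_le (j : ℕ) : Lam ^ (aa j - 7 / 4) ≤ 1 - 1 / (2 * kk j) := by
  have hk := kk_pos_real j
  have hL := Lam_ge
  have h1 : aa j - 7 / 4 = (7 / 4) * (-(1 / kk j)) := by unfold aa; ring
  rw [h1, Real.rpow_mul (by linarith)]
  have h2 : (Lam ^ (7 / 4 : ℝ)) ^ (-(1 / (kk j : ℝ))) ≤ Real.exp 1 ^ (-(1 / (kk j : ℝ))) := by
    apply Real.rpow_le_rpow_of_nonpos (Real.exp_pos _) Lam_exp
    have : 0 ≤ 1 / (kk j : ℝ) := by positivity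
    linarith
  refine h2.trans ?_
  rw [← Real.exp_mul, one_mul]
  have h3 : 1 / (kk j : ℝ) ≤ 1 := by rw [div_le_one (by linarith)]; exact hk
  have h4 : 0 ≤ 1 / (kk j : ℝ) := by positivity
  have h5 : 1 / (2 * (kk j : ℝ)) = (1 / kk j) / 2 := by field_simp
  rw [h5]
  set y := 1 / (kk j : ℝ) with hy
  rw [Real.exp_neg, inv_le_iff_one_le_mul₀ (Real.exp_pos _)]
  have h6 := Real.add_one_le_exp y
  nlinarith

/-- transport of the extra weight along the fixed branch -/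
lemma near_extra {w : ℂ} (hw : w ≠ 1) (h : ‖w - 1‖ ≤ 40 * r1) (j : ℕ) :
    cyl FF w ^ (-(7 / 4 : ℝ)) * (‖w - 1‖ ^ (-aa j) * Real.exp (1000 * ‖w - 1‖)) ≤
      (1 - 1 / (2 * kk j)) * (‖FF w - 1‖ ^ (-aa j) * Real.exp (1000 * ‖FF w - 1‖)) := by
  obtain ⟨h1, h2, h3⟩ := near_cyl h
  set t := ‖w - 1‖ with ht
  set T := ‖FF w - 1‖ with hT
  have ht0 : 0 < t := norm_pos_iff.mpr (sub_ne_zero.mpr hw)
  have ht1 : t ≤ 1 / 200000 := by unfold r1 at h; linarith
  have hL := Lam_ge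
  have hT0 : 0 < T := by linarith
  have ha := aa_nonneg j
  have ha2 := aa_le j
  -- cyl bound
  have e1 : cyl FF w ^ (-(7 / 4 : ℝ)) ≤ Lam ^ (-(7 / 4 : ℝ)) * Real.exp (3500 * t) := by
    have c0 : 0 < Lam * (1 - 1000 * t) := by nlinarith
    have c1 := Real.rpow_le_rpow_of_nonpos c0 h1 (by norm_num : -(7 / 4 : ℝ) ≤ 0)
    refine c1.trans ?_
    rw [Real.mul_rpow (by linarith) (by linarith)]
    gcongr
    have c2 : Real.exp (-(2000 * t)) ≤ 1 - 1000 * t := by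
      rw [Real.exp_neg, inv_le_iff_one_le_mul₀ (Real.exp_pos _)]
      have := Real.add_one_le_exp (2000 * t)
      nlinarith
    have c3 := Real.rpow_le_rpow_of_nonpos (Real.exp_pos _) c2 (by norm_num : -(7 / 4 : ℝ) ≤ 0)
    refine c3.trans (le_of_eq ?_)
    rw [← Real.exp_mul]; ring_nf
  -- t bound
  have e2 : t ^ (-aa j) ≤ Lam ^ (aa j) * T ^ (-aa j) * Real.exp (1750 * t) := by
    have c1 : T / (Lam * (1 + 1000 * t)) ≤ t := by
      rw [div_le_iff₀ (by positivity)]; linarith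
    have c2 := Real.rpow_le_rpow_of_nonpos (by positivity) c1 (by linarith : -aa j ≤ 0)
    refine c2.trans ?_
    rw [Real.div_rpow hT0.le (by positivity), Real.mul_rpow (by linarith) (by positivity),
      Real.rpow_neg (by linarith : 0 ≤ Lam), Real.rpow_neg (by positivity : 0 ≤ 1 + 1000 * t)]
    have c3 : (1 + 1000 * t) ^ aa j ≤ Real.exp (1750 * t) := by
      have d1 : 1 + 1000 * t ≤ Real.exp (1000 * t) := by
        have := Real.add_one_le_exp (1000 * t); linarith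
      calc (1 + 1000 * t) ^ aa j ≤ Real.exp (1000 * t) ^ aa j :=
            Real.rpow_le_rpow (by positivity) d1 ha
        _ = Real.exp (1000 * t * aa j) := by rw [← Real.exp_mul]
        _ ≤ _ := by apply Real.exp_le_exp.mpr; nlinarith
    have c4 : T ^ (-aa j) / ((Lam ^ aa j)⁻¹ * ((1 + 1000 * t) ^ aa j)⁻¹) =
        Lam ^ aa j * T ^ (-aa j) * (1 + 1000 * t) ^ aa j := by
      have : (0 : ℝ) < Lam ^ aa j := Real.rpow_pos_of_pos (by linarith) _
      have : (0 : ℝ) < (1 + 1000 * t) ^ aa j := Real.rpow_pos_of_pos (by linarith) _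
      field_simp
    rw [c4]
    have : 0 ≤ Lam ^ aa j * T ^ (-aa j) := by positivity
    gcongr
  have e3 : Lam ^ (-(7 / 4 : ℝ)) * Lam ^ (aa j) = Lam ^ (aa j - 7 / 4) := by
    rw [← Real.rpow_add (by linarith)]; ring_nf
  have e4 := Lam_pow_le j
  have hc0 : 0 ≤ cyl FF w := by unfold cyl; positivity
  calc cyl FF w ^ (-(7 / 4 : ℝ)) * (t ^ (-aa j) * Real.exp (1000 * t)) ≤
      (Lam ^ (-(7 / 4 : ℝ)) * Real.exp (3500 * t)) *
        ((Lam ^ (aa j) * T ^ (-aa j) * Real.exp (1750 * t)) * Real.exp (1000 * t)) := by gcongr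
    _ = (Lam ^ (-(7 / 4 : ℝ)) * Lam ^ (aa j)) * (T ^ (-aa j) *
        (Real.exp (3500 * t) * Real.exp (1750 * t) * Real.exp (1000 * t))) := by ring
    _ = Lam ^ (aa j - 7 / 4) * (T ^ (-aa j) * Real.exp (6250 * t)) := by
        rw [e3, ← Real.exp_add, ← Real.exp_add]; ring_nf
    _ ≤ (1 - 1 / (2 * kk j)) * (T ^ (-aa j) * Real.exp (1000 * T)) := by
        have hk := kk_pos_real j
        have e5 : 0 ≤ 1 - 1 / (2 * (kk j : ℝ)) := by
          have : 1 / (2 * (kk j : ℝ)) ≤ 1 := by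
            rw [div_le_one (by positivity)]; linarith
          linarith
        have e6 : Real.exp (6250 * t) ≤ Real.exp (1000 * T) :=
          Real.exp_le_exp.mpr (by linarith)
        apply mul_le_mul e4 _ (by positivity) e5
        gcongr

end Pool.Agent.Work.MP_0a8b43_nt
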