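import Mathlib
import Pool.Agent.Work.MP_0a8b43_nt.Near1

set_option autoImplicit false

open Complex Set Filter Topology

namespace Pool.Agent.Work.MP_0a8b43_nt

/-- the invariant open set -/
def Om (z : ℂ) : Prop := z ≠ 0 ∧ ∃ j,
  (288 / 10 * (ll j : ℝ) < Real.log ‖z‖ ∧ Real.log ‖z‖ < 672 / 10 * lev j) ∨
  ((ll j : ℝ) < -Real.log ‖z‖ ∧ -Real.log ‖z‖ < 2 * lev j)

/-- the smaller invariant open set -/
def Om2 (z : ℂ) : Prop := z ≠ 0 ∧ ∃ j,
  (304 / 10 * (ll j : ℝ) < Real.log ‖z‖ ∧ Real.log ‖z‖ < 656 / 10 * lev j) ∨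
  (2 * (ll j : ℝ) < -Real.log ‖z‖ ∧ -Real.log ‖z‖ < 19 / 10 * lev j)

/-- the complementary zones carrying the small weights -/
def InB (i : ℕ) (z : ℂ) : Prop := Even i ∧
  ((656 / 10 * (lev i : ℝ) ≤ Real.log ‖z‖ ∧ Real.log ‖z‖ ≤ 304 / 10 * ll (i + 1)) ∨
  (19 / 10 * (lev i : ℝ) ≤ -Real.log ‖z‖ ∧ -Real.log ‖z‖ ≤ 2 * ll (i + 1)))

lemma ll_pos_real (j : ℕ) : (4000 : ℝ) ≤ ll j := by
  have h1 := ll_ge j
  have h2 := rho_ge j
  have : 4000 ≤ ll j := by omega
  exact_mod_cast this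

lemma ll_le_real (j : ℕ) : 8 * (ll j : ℝ) ≤ lev j := by exact_mod_cast ll_le j
lemma ll_ge_real (j : ℕ) : 4 * (rho j : ℝ) ≤ ll j := by exact_mod_cast ll_ge j
lemma ll_succ_real (j : ℕ) : (ll (j + 1) : ℝ) = sl (j + 1) * ll j := by
  rw [ll_succ]; push_cast; ring
lemma rho_succ_real (j : ℕ) : (rho (j + 1) : ℝ) = 128 * lev j := by
  rw [rho_succ]; push_cast; ring
lemma lev_mono_real {i j : ℕ} (h : i ≤ j) : (lev i : ℝ) ≤ lev j := by exact_mod_cast lev_mono h
lemma lev_succ_ge_real (j : ℕ) : (sl (j + 1) : ℝ) * (127 * lev j) ≤ lev (j + 1) := by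
  exact_mod_cast lev_succ_ge j

lemma ll_mono : Monotone ll := monotone_nat_of_le_succ (fun j => by
  rw [ll_succ]; have := sl_ge (j + 1); nlinarith)

lemma ll_lev_real {i j : ℕ} (h : i ≤ j) : 8 * (ll i : ℝ) ≤ lev j :=
  (ll_le_real i).trans (lev_mono_real h)

lemma Om2_sub {z : ℂ} (h : Om2 z) : Om z := by
  obtain ⟨h0, j, h⟩ := h
  refine ⟨h0, j, ?_⟩
  have := ll_pos_real j
  have := lev_ge_real j
  rcases h with ⟨h1, h2⟩ | ⟨h1, h2⟩
  · left; constructor <;> linarith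
  · right; constructor <;> linarith

/-- `log |1 - W|` and `log |F|` -/
lemma log_FF {w : ℂ} : Real.log ‖FF w‖ = -Real.log ‖1 - W w‖ := by
  rw [FF, norm_inv, Real.log_inv]

lemma XR_of {j : ℕ} {x : ℝ} (h1 : 1 ≤ x) (h2 : ∀ i < j, (rho i : ℝ) + 1 ≤ x)
    (h3 : x ≤ 6 / 10 * rho j) : x ∈ XR j := by
  refine ⟨?_, ?_, ?_⟩
  · have := Real.add_one_le_exp (32 * x); linarith
  · intro i hi
    have h4 := h2 i hi
    have h6 := NN_ge_real i
    have h7 : 33 * 1 ≤ (NN i : ℝ) * (x - rho i) :=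
      mul_le_mul h6 (by linarith) (by norm_num) (by linarith)
    have := Real.add_one_le_exp ((NN i : ℝ) * (x - rho i))
    linarith
  · have hr := rho_ge_real j
    have hN := NN_ge_real j
    have hk := kk_le_exp j
    have hK := KK_pos_real j
    have hM := sl_ge_real j
    have e1 : Real.exp (NN j * (x - rho j)) ≤ Real.exp (-(2 * rho j) - 2 * NN j) := by
      apply Real.exp_le_exp.mpr
      have h8 : (NN j : ℝ) * (x - rho j) ≤ NN j * (-(4 / 10 * rho j)) := by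
        gcongr; linarith
      nlinarith
    have e2 : Real.exp (-(2 * rho j) - 2 * NN j) ≤ 1 / (40 * KK j) := by
      have h9 : 40 * (KK j : ℝ) ≤ Real.exp (2 * rho j + 2 * NN j) := by
        rw [Real.exp_add, KK_real]
        have h10 : 40 * (NN j : ℝ) ≤ Real.exp (2 * NN j) := by
          have e3 : Real.exp (2 * (NN j : ℝ)) = Real.exp (NN j) * Real.exp (NN j) := by
            rw [← Real.exp_add]; ring_nf
          rw [e3]
          have h11 := Real.add_one_le_exp (NN j : ℝ)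
          have h12 : (40 : ℝ) ≤ Real.exp (NN j) := by
            have : Real.exp 33 ≤ Real.exp (NN j) := Real.exp_le_exp.mpr hN
            have h13 : Real.exp 33 = Real.exp 16 * Real.exp 17 := by
              rw [← Real.exp_add]; norm_num
            have := Real.add_one_le_exp (16 : ℝ)
            have := Real.add_one_le_exp (17 : ℝ)
            nlinarith
          nlinarith
        calc 40 * ((kk j : ℝ) * NN j) = kk j * (40 * NN j) := by ring
          _ ≤ Real.exp (2 * rho j) * Real.exp (2 * NN j) := by gcongr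
      rw [show -(2 * (rho j : ℝ)) - 2 * NN j = -(2 * rho j + 2 * NN j) by ring, Real.exp_neg,
        one_div]
      exact inv_anti₀ (by positivity) h9
    refine e1.trans (e2.trans ?_)
    gcongr
    linarith

/-- the map sends the large part of `Om` into the small part of `Om2` -/
lemma om_large {z : ℂ} (hz : z ≠ 0) {j : ℕ} (h1 : 288 / 10 * (ll j : ℝ) < Real.log ‖z‖)
    (h2 : Real.log ‖z‖ < 672 / 10 * lev j) :
    Rad (j + 1) z ∧ 20 * (ll (j + 1) : ℝ) < -Real.log ‖FF z‖ ∧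
      -Real.log ‖FF z‖ < 19 / 10 * lev (j + 1) := by
  have hl := ll_pos_real j
  have hlr := ll_ge_real j
  have hR : Rad (j + 1) z := by
    rw [rad_iff hz]
    apply XR_of (by linarith)
    · intro i hi
      have : (rho i : ℝ) ≤ rho j := by exact_mod_cast rho_mono (by omega : i ≤ j)
      linarith
    · rw [rho_succ_real]
      have := lev_ge_real j
      linarith
  refine ⟨hR, ?_⟩
  obtain ⟨e1, e2, e3, e4, e5⟩ := rad_W hR
  have hM := sl_ge_real (j + 1)
  have hL := lev_succ_ge_real j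
  have hL2 := lev_succ_big_real j
  have hL3 := lev_ge_real j
  have hphi : phi (j + 1) (Real.log ‖z‖) = lev j + sl (j + 1) * (Real.log ‖z‖ - rho j) :=
    phi_succ' _ _
  have hlo : 285 / 10 * (ll (j + 1) : ℝ) ≤ phi (j + 1) (Real.log ‖z‖) := by
    rw [hphi, ll_succ_real]
    have : (sl (j + 1) : ℝ) * (285 / 10 * ll j) ≤ sl (j + 1) * (Real.log ‖z‖ - rho j) := by
      gcongr; linarith
    linarith
  have hhi : phi (j + 1) (Real.log ‖z‖) ≤ 54 / 100 * lev (j + 1) := by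
    rw [hphi]
    have : (sl (j + 1) : ℝ) * (Real.log ‖z‖ - rho j) ≤ sl (j + 1) * (672 / 10 * lev j) := by
      gcongr
      have := rho_ge_real j
      linarith
    linarith
  have hl1 := ll_pos_real (j + 1)
  have h20 : 20 ≤ ‖W z‖ := by
    have h6 := (abs_le.mp e4).1
    have h7 : 10 ≤ Real.log ‖W z‖ := by linarith
    rw [Real.le_log_iff_exp_le (norm_pos_iff.mpr e1)] at h7
    have : Real.exp 10 = Real.exp 5 * Real.exp 5 := by rw [← Real.exp_add]; norm_num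
    have := Real.add_one_le_exp (5 : ℝ)
    nlinarith
  have h8 := abs_le.mp (log_big h20)
  have h9 := abs_le.mp e4
  rw [log_FF, neg_neg]
  have hL4 := lev_ge_real (j + 1)
  constructor
  · linarith [h8.1, h9.1]
  · linarith [h8.2, h9.2]

lemma om_small {z : ℂ} (hz : z ≠ 0) {j : ℕ} (h1 : (ll j : ℝ) < -Real.log ‖z‖)
    (h2 : -Real.log ‖z‖ < 2 * lev j) :
    304 / 10 * (ll j : ℝ) < Real.log ‖FF z‖ ∧ Real.log ‖FF z‖ < 656 / 10 * lev j := by
  have hl := ll_pos_real j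
  have h4 : ‖z‖ ≤ 4 := by
    have := norm_le_of_log hz (x := 0) (by linarith)
    rw [Real.exp_zero] at this; linarith
  obtain ⟨e1, e2, e3, e4, e5⟩ := core_facts h4 hz
  have ht := tau_small
  have h5 := abs_le.mp e4
  have hL := lev_ge_real j
  rw [log_FF]
  constructor
  · linarith [h5.2]
  · linarith [h5.1]

lemma FF_ne_of_rad {z : ℂ} {j : ℕ} (h : Rad j z) : 1 - W z ≠ 0 ∧ FF z ≠ 0 := by
  have h5 := (rad_W h).2.2.2.2
  have h1 : 1 - W z ≠ 0 := by
    intro h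
    have : W z = 1 := (sub_eq_zero.mp h).symm
    rw [this, norm_one] at h5
    norm_num at h5
  exact ⟨h1, inv_ne_zero h1⟩

lemma om_step {z : ℂ} (h : Om z) : Om2 (FF z) ∧ 1 - W z ≠ 0 := by
  obtain ⟨h0, j, h | h⟩ := h
  · obtain ⟨e1, e2, e3⟩ := om_large h0 h.1 h.2
    obtain ⟨e4, e5⟩ := FF_ne_of_rad e1
    have := ll_pos_real (j + 1)
    exact ⟨⟨e5, j + 1, Or.inr ⟨by linarith, e3⟩⟩, e4⟩
  · obtain ⟨e1, e2⟩ := om_small h0 h.1 h.2
    have hl := ll_pos_real j
    have h4 : ‖z‖ ≤ 4 := by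
      have := norm_le_of_log h0 (x := 0) (by linarith [h.1])
      rw [Real.exp_zero] at this; linarith
    have e3 := (core_facts h4 h0).1
    exact ⟨⟨inv_ne_zero e3, j, Or.inl ⟨e1, e2⟩⟩, e3⟩

/-- the bad part of the transition zones is mapped into `Om2` -/
lemma bad_om {w : ℂ} {j : ℕ} (h : Trans j w) (h4 : 1 / 4 ≤ ‖1 - q j w‖) : Om2 (FF w) := by
  obtain ⟨e1, e2, e3⟩ := trans_bad h h4
  have hL := lev_ge_real j
  have h20 : 20 ≤ ‖W w‖ := by
    have h7 : 10 ≤ Real.log ‖W w‖ := by linarith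
    rw [Real.le_log_iff_exp_le (norm_pos_iff.mpr e3)] at h7
    have : Real.exp 10 = Real.exp 5 * Real.exp 5 := by rw [← Real.exp_add]; norm_num
    have := Real.add_one_le_exp (5 : ℝ)
    nlinarith
  have h8 := abs_le.mp (log_big h20)
  have hl := ll_le_real j
  have hne : 1 - W w ≠ 0 := by
    intro h
    have : W w = 1 := (sub_eq_zero.mp h).symm
    rw [this, norm_one] at h20
    norm_num at h20
  refine ⟨inv_ne_zero hne, j, Or.inr ?_⟩
  rw [log_FF, neg_neg]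
  constructor
  · linarith [h8.1]
  · linarith [h8.2]

/-- the set on which the transfer operator acts -/
def ZZ : Set ℂ := {z | z ≠ 0 ∧ z ≠ 1 ∧ ¬ Om2 z}

/-- preimages of points of `ZZ` -/
lemma pre_class {w z : ℂ} (hz : z ∈ ZZ) (h : FF w = z) : w ≠ 0 ∧ w ≠ 1 ∧ 1 - W w ≠ 0 ∧ W w ≠ 0 ∧
    (‖w ^ 32‖ < 20 ∨ (∃ j, Rad j w) ∨ (∃ j, Trans j w ∧ ‖1 - q j w‖ < 1 / 4)) := by
  obtain ⟨h1, h2, h3⟩ := hz
  have hne : 1 - W w ≠ 0 := FF_ne (by rw [h]; exact h1)
  have hw0 : w ≠ 0 := by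
    rintro rfl; rw [FF_zero] at h; exact h1 h.symm
  have hw1 : w ≠ 1 := by
    rintro rfl; rw [FF_one] at h; exact h2 h.symm
  have hW : W w ≠ 0 := by
    intro h5; apply h2; rw [← h, FF, h5]; simp
  refine ⟨hw0, hw1, hne, hW, ?_⟩
  rcases classify w with h4 | h4 | h4 | ⟨j, h4, h5⟩
  · left; exact h4
  · right; left; exact h4
  · right; right; exact h4
  · exfalso; apply h3; rw [← h]; exact bad_om h4 h5

lemma circ_q_ne {w : ℂ} {j : ℕ} (hW : W w ≠ 0) : q j w ≠ 1 := by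
  intro h
  apply hW
  rw [W_VV j, fac, h, sub_self, zero_pow (by have := kk_pos j; omega), mul_zero]

/-- cylinder derivative in the circle zone -/
lemma circ_cyl {w : ℂ} {j : ℕ} (ht : Trans j w) (h4 : ‖1 - q j w‖ < 1 / 4) (hW : W w ≠ 0)
    (hne : 1 - W w ≠ 0) : 28 / 10 * KK j * ‖FF w - 1‖ ≤ cyl FF w := by
  rw [cyl_DD hne hW]
  obtain ⟨e1, e2, e3, e4⟩ := circ_D ht h4 (circ_q_ne hW)
  have h0 : 0 < ‖1 - q j w‖ := norm_pos_iff.mpr (sub_ne_zero.mpr (circ_q_ne hW).symm)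
  have hK := KK_pos_real j
  have h5 : 28 / 10 * (KK j : ℝ) ≤ 7 / 10 * KK j / ‖1 - q j w‖ := by
    rw [le_div_iff₀ h0]; nlinarith
  have := norm_nonneg (FF w - 1)
  have h6 : 28 / 10 * (KK j : ℝ) ≤ ‖DD w‖ := h5.trans e3
  gcongr

/-- near the critical value `1` -/
lemma circ_cyl_near {w : ℂ} {j : ℕ} (ht : Trans j w) (h4 : ‖1 - q j w‖ < 1 / 4) (hW : W w ≠ 0)
    (hne : 1 - W w ≠ 0) (hz : ‖FF w - 1‖ ≤ 1 / 2) :
    KK j * ‖FF w - 1‖ ^ (1 - 1 / kk j : ℝ) ≤ cyl FF w := by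
  rw [cyl_DD hne hW]
  obtain ⟨e1, e2, e3, e4⟩ := circ_D ht h4 (circ_q_ne hW)
  obtain ⟨v1, v2, v3, v4⟩ := trans_VV ht
  have h0 : 0 < ‖1 - q j w‖ := norm_pos_iff.mpr (sub_ne_zero.mpr (circ_q_ne hW).symm)
  have hK := KK_pos_real j
  have hk := kk_pos_real j
  have hkn : kk j ≠ 0 := by have := kk_pos j; omega
  have hL := lev_ge_real j
  set T := ‖FF w - 1‖ with hT
  have hT0 : 0 < T := by
    rw [hT, FF_sub_one hne, norm_mul]
    exact mul_pos (norm_pos_iff.mpr hW) (norm_pos_iff.mpr (inv_ne_zero hne))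
  -- |W| ≤ 2 T
  have hF : 1 / 2 ≤ ‖FF w‖ := (norm_near hz).1.trans' (by norm_num)
  have hWT : ‖W w‖ ≤ 2 * T := by
    rw [hT, FF_sub_one hne, norm_mul]
    have := norm_nonneg (W w)
    nlinarith
  -- |1-q|^k = |W|/|V| ≤ T e^{-kk}
  have hVbig : Real.exp (3 * kk j) ≤ ‖VV j w‖ := by
    rw [← Real.le_log_iff_exp_le (norm_pos_iff.mpr v1)]
    have := (abs_le.mp v4).1
    have := kk_le_real j
    linarith
  have h5 : ‖1 - q j w‖ ^ kk j ≤ T * Real.exp (-1) ^ kk j := by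
    have h6 : ‖W w‖ = ‖VV j w‖ * ‖1 - q j w‖ ^ kk j := by
      rw [W_VV j, norm_mul, fac, norm_pow]
    have h7 : Real.exp (3 * kk j) * ‖1 - q j w‖ ^ kk j ≤ 2 * T := by
      calc _ ≤ ‖VV j w‖ * ‖1 - q j w‖ ^ kk j := by gcongr
        _ = ‖W w‖ := h6.symm
        _ ≤ _ := hWT
    have h8 : 2 ≤ Real.exp (2 * kk j) := by
      have := Real.add_one_le_exp (2 * (kk j : ℝ)); linarith
    have h9 : Real.exp (3 * kk j) = Real.exp (2 * kk j) * Real.exp (kk j) := by
      rw [← Real.exp_add]; ring_nf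
    have h10 : Real.exp (kk j) * ‖1 - q j w‖ ^ kk j ≤ T := by
      have h11 : 2 * (Real.exp (kk j) * ‖1 - q j w‖ ^ kk j) ≤ 2 * T := by
        refine le_trans ?_ h7
        rw [h9, mul_assoc]
        gcongr
      linarith
    have h12 : Real.exp (-1) ^ kk j = (Real.exp (kk j))⁻¹ := by
      rw [← Real.exp_nat_mul, ← Real.exp_neg]; ring_nf
    rw [h12, ← div_eq_mul_inv, le_div_iff₀ (Real.exp_pos _)]
    linarith
  have h6 : ‖1 - q j w‖ ≤ T ^ (1 / kk j : ℝ) * Real.exp (-1) := by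
    have h7 : (T ^ (1 / kk j : ℝ) * Real.exp (-1)) ^ kk j = T * Real.exp (-1) ^ kk j := by
      rw [mul_pow, ← Real.rpow_natCast (T ^ (1 / kk j : ℝ)), ← Real.rpow_mul hT0.le,
        one_div_mul_cancel (by positivity), Real.rpow_one]
    rw [← h7] at h5
    exact le_of_pow_le_pow_left₀ hkn (by positivity) h5
  have hTk : 0 < T ^ (1 / kk j : ℝ) := Real.rpow_pos_of_pos hT0 _
  have h7 : KK j / T ^ (1 / kk j : ℝ) ≤ ‖DD w‖ := by
    refine le_trans ?_ e3
    rw [div_le_div_iff₀ hTk h0]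
    have h8 : Real.exp (-1) ≤ 7 / 10 := by
      rw [Real.exp_neg, inv_le_comm₀ (Real.exp_pos _) (by norm_num)]
      have := Real.exp_one_gt_d9
      norm_num
      linarith
    calc (KK j : ℝ) * ‖1 - q j w‖ ≤ KK j * (T ^ (1 / kk j : ℝ) * Real.exp (-1)) := by gcongr
      _ ≤ KK j * (T ^ (1 / kk j : ℝ) * (7 / 10)) := by gcongr
      _ = _ := by ring
  calc KK j * T ^ (1 - 1 / kk j : ℝ) = KK j / T ^ (1 / kk j : ℝ) * T := by
        rw [Real.rpow_sub hT0, Real.rpow_one]; field_simp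
    _ ≤ ‖DD w‖ * T := by gcongr

/-- cylinder derivative in the radial zone -/
lemma rad_cyl {w : ℂ} {j : ℕ} (h : Rad j w) :
    8 / 10 * sl j ≤ cyl FF w ∧ ‖FF w‖ ≤ 1 / 16 ∧
    |(-Real.log ‖FF w‖) - phi j (Real.log ‖w‖)| ≤ 2 / 100 * phi j (Real.log ‖w‖) + 13 / 100 := by
  obtain ⟨e1, e2, e3, e4, e5⟩ := rad_W h
  obtain ⟨f1, f2⟩ := FF_ne_of_rad h
  have hM := sl_ge_real j
  have h1 : 16 ≤ ‖1 - W w‖ := by
    have := norm_sub_norm_le (W w) 1
    rw [norm_one, norm_sub_rev] at this; linarith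
  have h2 : ‖FF w‖ ≤ 1 / 16 := by
    rw [FF, norm_inv, inv_le_comm₀ (by linarith) (by norm_num)]
    norm_num; exact h1
  refine ⟨?_, h2, ?_⟩
  · rw [cyl_DD f1 e1]
    have h3 : 15 / 16 ≤ ‖FF w - 1‖ := by
      have := norm_sub_norm_le 1 (FF w)
      rw [norm_one, norm_sub_rev] at this; linarith
    have h4 : 92 / 100 * sl j ≤ ‖DD w‖ := by
      have := norm_sub_norm_le (sl j : ℂ) (sl j - DD w)
      rw [sub_sub_cancel, Complex.norm_natCast, norm_sub_rev] at this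
      linarith
    nlinarith [norm_nonneg (DD w)]
  · rw [log_FF, neg_neg]
    have h3 : |Real.log ‖1 - W w‖ - Real.log ‖W w‖| ≤ 7 / 100 := by
      -- ‖1 - W‖ / ‖W‖ within [16/17, 18/17]
      have hWp : 0 < ‖W w‖ := by linarith
      have hp : 0 < ‖1 - W w‖ := by linarith
      have g1 : ‖1 - W w‖ ≤ 1 + ‖W w‖ := by
        have := norm_sub_le 1 (W w)
        rwa [norm_one] at this
      have g2 : ‖W w‖ - 1 ≤ ‖1 - W w‖ := by
        have := norm_sub_norm_le (W w) 1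
        rwa [norm_one, norm_sub_rev] at this
      rw [← Real.log_div hp.ne' hWp.ne', abs_le]
      constructor
      · have k1 : ‖W w‖ / ‖1 - W w‖ ≤ 17 / 16 := by
          rw [div_le_div_iff₀ hp (by norm_num)]; linarith
        have k2 := Real.log_le_sub_one_of_pos (x := ‖W w‖ / ‖1 - W w‖) (by positivity)
        have k3 : Real.log (‖W w‖ / ‖1 - W w‖) = - Real.log (‖1 - W w‖ / ‖W w‖) := by
          rw [← Real.log_inv, inv_div]
        rw [k3] at k2
        linarith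
      · have k1 : ‖1 - W w‖ / ‖W w‖ ≤ 18 / 17 := by
          rw [div_le_div_iff₀ hWp (by norm_num)]; linarith
        have k2 := Real.log_le_sub_one_of_pos (x := ‖1 - W w‖ / ‖W w‖) (by positivity)
        linarith
    calc _ = |(Real.log ‖1 - W w‖ - Real.log ‖W w‖) + (Real.log ‖W w‖ - phi j (Real.log ‖w‖))| := by
          congr 1; ring
      _ ≤ _ := abs_add_le _ _
      _ ≤ _ := by linarith

/-- upper bound of `phi` in the radial zone -/
lemma rad_phi_le {w : ℂ} {j : ℕ} (h : Rad j w) : phi j (Real.log ‖w‖) ≤ lev j := by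
  have h1 := rad_x h
  unfold phi
  have : (sl j : ℝ) * (Real.log ‖w‖ - rho j) ≤ 0 := by
    apply mul_nonpos_of_nonneg_of_nonpos (by positivity); linarith
  linarith

/-- location of `z` having radial preimages in zone `j` -/
lemma rad_loc {w z : ℂ} {j : ℕ} (hz : z ∈ ZZ) (h : Rad j w) (he : FF w = z) :
    -Real.log ‖z‖ ≤ 2 * ll j ∧ (∀ i, i + 1 = j → 19 / 10 * (lev i : ℝ) ≤ -Real.log ‖z‖) := by
  obtain ⟨e1, e2, e3⟩ := rad_cyl h
  rw [he] at e3 e2
  have e4 := rad_phi_le h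
  obtain ⟨p1, p2, p3⟩ := far_phi h.1
  have hb := abs_le.mp e3
  have hz3 := hz.2.2
  constructor
  · by_contra hcon
    push Not at hcon
    apply hz3
    refine ⟨hz.1, j, Or.inr ⟨hcon, ?_⟩⟩
    have := lev_ge_real j
    linarith [hb.2]
  · intro i hi
    by_contra hcon
    push Not at hcon
    apply hz3
    refine ⟨hz.1, i, Or.inr ⟨?_, hcon⟩⟩
    have h5 := p3 i hi
    have h6 := ll_le_real i
    have := lev_ge_real i
    linarith [hb.1]

/-- at most one radial zone -/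
lemma rad_unique {w w' z : ℂ} {j j' : ℕ} (hz : z ∈ ZZ) (h : Rad j w) (he : FF w = z)
    (h' : Rad j' w') (he' : FF w' = z) : j = j' := by
  have key : ∀ {w w' : ℂ} {j j' : ℕ}, Rad j w → FF w = z → Rad j' w' → FF w' = z → ¬ j < j' := by
    intro w w' j j' h he h' he' hlt
    obtain ⟨i, rfl⟩ : ∃ i, j' = i + 1 := ⟨j' - 1, by omega⟩
    have h1 := (rad_loc hz h he).1
    have h2 := (rad_loc hz h' he').2 i rfl
    have h3 := ll_lev_real (i := j) (j := i) (by omega)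
    have := lev_ge_real i
    linarith
  rcases lt_trichotomy j j' with h1 | h1 | h1
  · exact absurd h1 (key h he h' he')
  · exact h1
  · exact absurd h1 (key h' he' h he)

end Pool.Agent.Work.MP_0a8b43_nt
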