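import Mathlib
import Pool.Agent.Work.MP_0a8b43_nt.Omega

set_option autoImplicit false

open Complex Set Filter Topology
open scoped ENNReal

namespace Pool.Agent.Work.MP_0a8b43_nt

/-- small weights -/
noncomputable def wB (i : ℕ) : ℝ := 8 * (sl (i + 1) : ℝ) ^ (-(3 / 4 : ℝ))

open Classical in
/-- weight function -/
noncomputable def om (z : ℂ) : ℝ := if h : ∃ i, InB i z then wB h.choose else 1

lemma rp3 {x y : ℝ} (hx : 0 < x) (hy : 0 < y) (h : 1 ≤ x ^ 3 * y ^ 4) : x ^ (-(3 / 4 : ℝ)) ≤ y := by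
  have h1 : (x ^ (-(3 / 4 : ℝ))) ^ 4 = (x ^ 3)⁻¹ := by
    rw [← Real.rpow_natCast (x ^ (-(3 / 4 : ℝ))) 4, ← Real.rpow_mul hx.le]
    norm_num
  have h2 : (x ^ 3)⁻¹ ≤ y ^ 4 := by
    rw [inv_le_iff_one_le_mul₀ (by positivity)]; linarith
  rw [← h1] at h2
  exact le_of_pow_le_pow_left₀ (by norm_num) hy.le h2

lemma sl_pow_le (j : ℕ) : (sl j : ℝ) ^ (-(3 / 4 : ℝ)) ≤ 75 / 1000 := by
  have h := sl_ge_real j
  have h1 : (sl j : ℝ) ^ (-(3 / 4 : ℝ)) ≤ (32 : ℝ) ^ (-(3 / 4 : ℝ)) :=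
    Real.rpow_le_rpow_of_nonpos (by norm_num) h (by norm_num)
  refine h1.trans (rp3 (by norm_num) (by norm_num) (by norm_num))

lemma wB_pos (i : ℕ) : 0 < wB i := by
  have := sl_ge_real (i + 1)
  unfold wB; positivity

lemma wB_le (i : ℕ) : wB i ≤ 1 := by
  have := sl_pow_le (i + 1)
  unfold wB; linarith

lemma InB_unique {i i' : ℕ} {z : ℂ} (h : InB i z) (h' : InB i' z) : i = i' := by
  have key : ∀ {i i' : ℕ}, InB i z → InB i' z → ¬ i < i' := by
    intro i i' h h' hlt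
    have h1 := ll_lev_real (i := i + 1) (j := i') (by omega)
    have h2 := ll_pos_real (i + 1)
    have h3 := lev_ge_real i
    rcases h.2 with ⟨a, b⟩ | ⟨a, b⟩ <;> rcases h'.2 with ⟨c, d⟩ | ⟨c, d⟩ <;> linarith
  rcases lt_trichotomy i i' with h1 | h1 | h1
  · exact absurd h1 (key h h')
  · exact h1
  · exact absurd h1 (key h' h)

lemma om_InB {i : ℕ} {z : ℂ} (h : InB i z) : om z = wB i := by
  have hex : ∃ i, InB i z := ⟨i, h⟩
  rw [om, dif_pos hex, InB_unique hex.choose_spec h]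

lemma om_one {z : ℂ} (h : ¬ ∃ i, InB i z) : om z = 1 := by
  rw [om, dif_neg h]

lemma om_le (z : ℂ) : om z ≤ 1 := by
  by_cases h : ∃ i, InB i z
  · obtain ⟨i, h⟩ := h; rw [om_InB h]; exact wB_le i
  · rw [om_one h]

lemma om_pos (z : ℂ) : 0 < om z := by
  by_cases h : ∃ i, InB i z
  · obtain ⟨i, h⟩ := h; rw [om_InB h]; exact wB_pos i
  · rw [om_one h]; norm_num

/-- circle weights -/
noncomputable def oc (j : ℕ) : ℝ := if Even j then 1 else 8 * (sl j : ℝ) ^ (-(3 / 4 : ℝ))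

lemma oc_odd {i : ℕ} (h : Even i) : oc (i + 1) = wB i := by
  have : ¬ Even (i + 1) := by
    rw [Nat.even_add_one]; exact not_not.mpr h
  rw [oc, if_neg this, wB]

lemma oc_nonneg (j : ℕ) : 0 ≤ oc j := by
  unfold oc; split_ifs
  · norm_num
  · positivity

lemma oc_le (j : ℕ) : oc j ≤ 1 := by
  have := sl_pow_le j
  unfold oc; split_ifs
  · norm_num
  · linarith

lemma trans_x_low {j : ℕ} {w : ℂ} (h : Trans j w) : 99 / 100 * rho j ≤ Real.log ‖w‖ := by
  have h1 := (abs_le.mp (trans_phi h)).1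
  unfold phi at h1
  have h2 : (lev j : ℝ) ≤ sl j * rho j := by exact_mod_cast lev_le j
  have h3 := sl_ge_real j
  have h4 := rho_ge_real j
  by_contra hcon
  push Not at hcon
  have h5 : (sl j : ℝ) * Real.log ‖w‖ < sl j * (99 / 100 * rho j) := by gcongr
  nlinarith

lemma om_circ {j : ℕ} {w : ℂ} (h : Trans j w) : om w ≤ oc j := by
  by_cases he : Even j
  · rw [oc, if_pos he]; exact om_le w
  · obtain ⟨i, rfl⟩ : ∃ i, j = i + 1 := by
      refine ⟨j - 1, ?_⟩
      have : j ≠ 0 := by rintro rfl; simp at he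
      omega
    have hi : Even i := by
      by_contra h2; exact he (Nat.even_add_one.mpr h2)
    have hB : InB i w := by
      refine ⟨hi, Or.inl ⟨?_, ?_⟩⟩
      · have h1 := trans_x_low h
        rw [rho_succ_real] at h1
        have := lev_ge_real i
        linarith
      · have h1 := trans_x h
        have h2 := ll_ge_real (i + 1)
        have := rho_ge_real (i + 1)
        linarith
    rw [om_InB hB, oc_odd hi]

/-- `α_j` -/
noncomputable def al (j : ℕ) : ℝ := (KK j : ℝ) ^ (-(3 / 4 : ℝ)) * oc j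

lemma al_nonneg (j : ℕ) : 0 ≤ al j := mul_nonneg (by positivity) (oc_nonneg j)

lemma eight_rho {ρ : ℝ} (h : 1000 ≤ ρ) : 8 * ρ ≤ Real.exp (ρ / 4) := by
  have h1 : Real.exp (ρ / 4) = Real.exp (ρ / 8) * Real.exp (ρ / 8) := by
    rw [← Real.exp_add]; ring_nf
  rw [h1]
  have h2 := Real.add_one_le_exp (ρ / 8)
  nlinarith

lemma kal (j : ℕ) : kk j * al j ≤ Real.exp (-(rho j / 4)) := by
  have hr := rho_ge_real j
  have hK := KK_pos_real j
  have hk := kk_pos_real j
  by_cases he : Even j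
  · rw [al, oc, if_pos he, kk_even he, KK_even he, mul_one, Nat.cast_one, one_mul]
    push_cast
    have h1 : Real.exp (rho (j + 1)) ≤ (3 : ℝ) ^ rho (j + 1) := by
      have : Real.exp (rho (j + 1)) = Real.exp 1 ^ rho (j + 1) := by
        rw [← Real.exp_nat_mul]; ring_nf
      rw [this]
      apply pow_le_pow_left₀ (Real.exp_pos _).le
      have := Real.exp_one_lt_d9; linarith
    have h2 := Real.rpow_le_rpow_of_nonpos (Real.exp_pos _) h1 (by norm_num : -(3 / 4 : ℝ) ≤ 0)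
    refine h2.trans ?_
    rw [← Real.exp_mul]
    apply Real.exp_le_exp.mpr
    have h3 : (rho j : ℝ) ≤ rho (j + 1) := by exact_mod_cast (rho_lt_succ j).le
    linarith
  · rw [al, oc, if_neg he]
    have hM := sl_ge_real j
    have h1 : (kk j : ℝ) ≤ KK j := by exact_mod_cast kk_le_KK j
    have h2 : (kk j : ℝ) * (KK j : ℝ) ^ (-(3 / 4 : ℝ)) ≤ (kk j : ℝ) ^ (1 / 4 : ℝ) := by
      have h3 := Real.rpow_le_rpow_of_nonpos (by linarith) h1 (by norm_num : -(3 / 4 : ℝ) ≤ 0)
      calc (kk j : ℝ) * (KK j : ℝ) ^ (-(3 / 4 : ℝ)) ≤ kk j * (kk j : ℝ) ^ (-(3 / 4 : ℝ)) := by gcongr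
        _ = (kk j : ℝ) ^ (1 : ℝ) * (kk j : ℝ) ^ (-(3 / 4 : ℝ)) := by rw [Real.rpow_one]
        _ = _ := by rw [← Real.rpow_add (by linarith)]; norm_num
    have h4 : (kk j : ℝ) ≤ sl j * rho j := by
      have e1 := kk_le_real j
      have e2 : (lev j : ℝ) ≤ sl j * rho j := by exact_mod_cast lev_le j
      nlinarith
    have h5 : (kk j : ℝ) ^ (1 / 4 : ℝ) ≤ (sl j : ℝ) ^ (1 / 4 : ℝ) * rho j := by
      calc (kk j : ℝ) ^ (1 / 4 : ℝ) ≤ ((sl j : ℝ) * rho j) ^ (1 / 4 : ℝ) := by gcongr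
        _ = (sl j : ℝ) ^ (1 / 4 : ℝ) * (rho j : ℝ) ^ (1 / 4 : ℝ) :=
            Real.mul_rpow (by linarith) (by linarith)
        _ ≤ (sl j : ℝ) ^ (1 / 4 : ℝ) * (rho j : ℝ) ^ (1 : ℝ) := by
            gcongr
            · linarith
            · norm_num
        _ = _ := by rw [Real.rpow_one]
    have h6 : (sl j : ℝ) ^ (1 / 4 : ℝ) * (sl j : ℝ) ^ (-(3 / 4 : ℝ)) = (sl j : ℝ) ^ (-(1 / 2 : ℝ)) := by
      rw [← Real.rpow_add (by linarith)]; norm_num
    have h7 : (sl j : ℝ) ^ (-(1 / 2 : ℝ)) ≤ Real.exp (-(rho j / 2)) := by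
      have e1 : Real.exp (rho j) ≤ (sl j : ℝ) := by
        have e2 : ((3 : ℝ)) ^ rho j ≤ sl j := by exact_mod_cast sl_ge_pow he
        refine le_trans ?_ e2
        have : Real.exp (rho j) = Real.exp 1 ^ rho j := by rw [← Real.exp_nat_mul]; ring_nf
        rw [this]
        apply pow_le_pow_left₀ (Real.exp_pos _).le
        have := Real.exp_one_lt_d9; linarith
      have e2 := Real.rpow_le_rpow_of_nonpos (Real.exp_pos _) e1 (by norm_num : -(1 / 2 : ℝ) ≤ 0)
      refine e2.trans (le_of_eq ?_)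
      rw [← Real.exp_mul]; ring_nf
    have h8 := eight_rho hr
    calc (kk j : ℝ) * ((KK j : ℝ) ^ (-(3 / 4 : ℝ)) * (8 * (sl j : ℝ) ^ (-(3 / 4 : ℝ)))) =
        (kk j * (KK j : ℝ) ^ (-(3 / 4 : ℝ))) * (8 * (sl j : ℝ) ^ (-(3 / 4 : ℝ))) := by ring
      _ ≤ ((sl j : ℝ) ^ (1 / 4 : ℝ) * rho j) * (8 * (sl j : ℝ) ^ (-(3 / 4 : ℝ))) :=
          mul_le_mul_of_nonneg_right (h2.trans h5) (by positivity)
      _ = 8 * rho j * ((sl j : ℝ) ^ (1 / 4 : ℝ) * (sl j : ℝ) ^ (-(3 / 4 : ℝ))) := by ring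
      _ ≤ Real.exp (rho j / 4) * Real.exp (-(rho j / 2)) := by
          rw [h6]; gcongr
      _ = _ := by rw [← Real.exp_add]; ring_nf

/-- a super tiny constant -/
noncomputable def tt : ℝ := (1 / 10) ^ 70

lemma tt_pos : 0 < tt := by unfold tt; positivity

/-- coefficients of the extra term -/
noncomputable def BB (j : ℕ) : ℝ := 2 * kk j * al j

lemma BB_nonneg (j : ℕ) : 0 ≤ BB j := by
  unfold BB; have := al_nonneg j; positivity

lemma BB_le (j : ℕ) : BB j ≤ (1 / 2) ^ 249 * (4 / 5) ^ j := by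
  have h1 := kal j
  have h2 : Real.exp (-(rho j / 4)) ≤ (1 / 2) ^ 250 * (4 / 5) ^ j := by
    have h3 : (1000 : ℝ) + j ≤ rho j := by exact_mod_cast rho_ge_add j
    have h4 : Real.exp (-(rho j / 4 : ℝ)) ≤ Real.exp (-250 + -(j / 4)) := by
      apply Real.exp_le_exp.mpr; linarith
    rw [Real.exp_add] at h4
    have h5 : Real.exp (-250) ≤ (1 / 2) ^ 250 := exp_le_pow (by norm_num)
    have h6 : Real.exp (-((j : ℝ) / 4)) ≤ (4 / 5) ^ j := by
      have e1 : Real.exp (-((j : ℝ) / 4)) = Real.exp (-(1 / 4)) ^ j := by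
        rw [← Real.exp_nat_mul]; ring_nf
      rw [e1]
      apply pow_le_pow_left₀ (Real.exp_pos _).le
      rw [Real.exp_neg, inv_le_comm₀ (Real.exp_pos _) (by norm_num)]
      have := Real.add_one_le_exp (1 / 4 : ℝ)
      norm_num at this ⊢
      linarith
    calc _ ≤ _ := h4
      _ ≤ _ := by gcongr
  unfold BB
  calc 2 * (kk j : ℝ) * al j = 2 * (kk j * al j) := by ring
    _ ≤ 2 * ((1 / 2) ^ 250 * (4 / 5) ^ j) :=
        mul_le_mul_of_nonneg_left (h1.trans h2) (by norm_num)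
    _ = _ := by ring

lemma sum_BB : ∑' j, ENNReal.ofReal (BB j) ≤ ENNReal.ofReal tt := by
  have hs : Summable (fun j : ℕ => (1 / 2 : ℝ) ^ 249 * (4 / 5) ^ j) :=
    Summable.mul_left _ (summable_geometric_of_lt_one (by norm_num) (by norm_num))
  calc ∑' j, ENNReal.ofReal (BB j) ≤ ∑' j : ℕ, ENNReal.ofReal ((1 / 2) ^ 249 * (4 / 5) ^ j) :=
        ENNReal.tsum_le_tsum (fun j => ENNReal.ofReal_le_ofReal (BB_le j))
    _ = ENNReal.ofReal (∑' j : ℕ, (1 / 2) ^ 249 * (4 / 5) ^ j) :=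
        (ENNReal.ofReal_tsum_of_nonneg (fun j => by positivity) hs).symm
    _ ≤ _ := by
        apply ENNReal.ofReal_le_ofReal
        rw [tsum_mul_left, tsum_geometric_of_lt_one (by norm_num) (by norm_num)]
        unfold tt
        norm_num

lemma al_le_BB (j : ℕ) : al j ≤ BB j := by
  have h1 := al_nonneg j
  have h2 := kk_pos_real j
  unfold BB
  nlinarith

lemma sum_al : ∑' j, ENNReal.ofReal (al j) ≤ ENNReal.ofReal tt :=
  (ENNReal.tsum_le_tsum (fun j => ENNReal.ofReal_le_ofReal (al_le_BB j))).trans sum_BB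

/-- extra series -/
noncomputable def Xs (t : ℝ) : ℝ≥0∞ := ∑' j, ENNReal.ofReal (BB j * t ^ (-aa j))

open Classical in
/-- extra term -/
noncomputable def ex (z : ℂ) : ℝ≥0∞ :=
  if ‖z - 1‖ < r1 then ENNReal.ofReal (Real.exp (1000 * ‖z - 1‖)) * Xs ‖z - 1‖ else 0

/-- the supersolution -/
noncomputable def hts (z : ℂ) : ℝ≥0∞ := ENNReal.ofReal (om z) + ex z

/-- the source term -/
noncomputable def gs (z : ℂ) : ℝ≥0∞ := ENNReal.ofReal (om z / 4)

lemma pow_aa_le {r t : ℝ} (hr : 0 < r) (hr1 : r ≤ 1) (h : r ≤ t) (j : ℕ) :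
    t ^ (-aa j) ≤ r ^ (-(7 / 4 : ℝ)) := by
  have h1 := aa_nonneg j
  have h2 := aa_le j
  calc t ^ (-aa j) ≤ r ^ (-aa j) := Real.rpow_le_rpow_of_nonpos hr h (by linarith)
    _ ≤ r ^ (-(7 / 4 : ℝ)) := Real.rpow_le_rpow_of_exponent_ge hr hr1 (by linarith)

lemma Xs_le {r t : ℝ} (hr : 0 < r) (hr1 : r ≤ 1) (h : r ≤ t) :
    Xs t ≤ ENNReal.ofReal (r ^ (-(7 / 4 : ℝ)) * tt) := by
  unfold Xs
  calc ∑' j, ENNReal.ofReal (BB j * t ^ (-aa j)) ≤
      ∑' j, ENNReal.ofReal (r ^ (-(7 / 4 : ℝ))) * ENNReal.ofReal (BB j) := by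
        apply ENNReal.tsum_le_tsum
        intro j
        rw [← ENNReal.ofReal_mul (by positivity), mul_comm]
        apply ENNReal.ofReal_le_ofReal
        have := BB_nonneg j
        have := pow_aa_le hr hr1 h j
        gcongr
    _ = ENNReal.ofReal (r ^ (-(7 / 4 : ℝ))) * ∑' j, ENNReal.ofReal (BB j) := ENNReal.tsum_mul_left
    _ ≤ ENNReal.ofReal (r ^ (-(7 / 4 : ℝ))) * ENNReal.ofReal tt := by gcongr; exact sum_BB
    _ = _ := (ENNReal.ofReal_mul (by positivity)).symm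

lemma r1_pow : r1 ^ (-(7 / 4 : ℝ)) ≤ 10 ^ 14 :=
  rp r1_pos (by norm_num) (by unfold r1; norm_num)

/-- pieces of the preimage set -/
def CoreS (z : ℂ) : Set ℂ := {w | w ≠ 0 ∧ ‖w ^ 32‖ < 20 ∧ FF w = z}
def RadS (j : ℕ) (z : ℂ) : Set ℂ := {w | Rad j w ∧ FF w = z}
def CircS (j : ℕ) (z : ℂ) : Set ℂ := {w | Trans j w ∧ ‖1 - q j w‖ < 1 / 4 ∧ FF w = z}

lemma tsum_cover {z : ℂ} (hz : z ∈ ZZ) (f : ℂ → ℝ≥0∞) :
    ∑' w : {w // FF w = z}, f w ≤ ∑' w : CoreS z, f w + ∑' j, ∑' w : RadS j z, f w +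
      ∑' j, ∑' w : CircS j z, f w := by
  have hsub : {w | FF w = z} ⊆ (CoreS z ∪ ⋃ j, RadS j z) ∪ ⋃ j, CircS j z := by
    intro w hw
    obtain ⟨h1, h2, h3, h4, h5⟩ := pre_class hz hw
    rcases h5 with h5 | ⟨j, h5⟩ | ⟨j, h5, h6⟩
    · left; left; exact ⟨h1, h5, hw⟩
    · left; right; exact mem_iUnion.mpr ⟨j, h5, hw⟩
    · right; exact mem_iUnion.mpr ⟨j, h5, h6, hw⟩
  calc ∑' w : {w // FF w = z}, f w = ∑' w : {w | FF w = z}, f w := rfl
    _ ≤ ∑' w : ↥((CoreS z ∪ ⋃ j, RadS j z) ∪ ⋃ j, CircS j z), f w :=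
        ENNReal.tsum_mono_subtype f hsub
    _ ≤ ∑' w : ↥(CoreS z ∪ ⋃ j, RadS j z), f w + ∑' w : ↥(⋃ j, CircS j z), f w :=
        ENNReal.tsum_union_le f _ _
    _ ≤ (∑' w : CoreS z, f w + ∑' w : ↥(⋃ j, RadS j z), f w) + ∑' w : ↥(⋃ j, CircS j z), f w := by
        gcongr; exact ENNReal.tsum_union_le f _ _
    _ ≤ _ := by
        gcongr
        · exact ENNReal.tsum_iUnion_le_tsum f _
        · exact ENNReal.tsum_iUnion_le_tsum f _

lemma tsum_card {A : Set ℂ} {f : ℂ → ℝ≥0∞} {n c : ℝ} (hn : 0 ≤ n)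
    (hcard : ∀ S : Finset ℂ, (∀ w ∈ S, w ∈ A) → (S.card : ℝ) ≤ n)
    (hf : ∀ w ∈ A, f w ≤ ENNReal.ofReal c) : ∑' w : A, f w ≤ ENNReal.ofReal (n * c) := by
  rw [ENNReal.tsum_eq_iSup_sum]
  apply iSup_le
  intro s
  have h1 : ((s.map (Function.Embedding.subtype _)).card : ℝ) ≤ n := by
    apply hcard
    intro w hw
    rw [Finset.mem_map] at hw
    obtain ⟨a, _, rfl⟩ := hw
    exact a.2
  rw [Finset.card_map] at h1
  calc ∑ a ∈ s, f a ≤ ∑ a ∈ s, ENNReal.ofReal c := Finset.sum_le_sum (fun a _ => hf a a.2)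
    _ = (s.card : ℝ≥0∞) * ENNReal.ofReal c := by rw [Finset.sum_const, nsmul_eq_mul]
    _ ≤ ENNReal.ofReal n * ENNReal.ofReal c := by
        gcongr
        rw [← ENNReal.ofReal_natCast]
        exact ENNReal.ofReal_le_ofReal h1
    _ = _ := (ENNReal.ofReal_mul hn).symm

lemma W_of_FF {w z : ℂ} (hz : z ≠ 0) (h : FF w = z) : W w = 1 - z⁻¹ := by
  have := (FF_eq_iff hz).mp h
  rw [← this]; ring

/-- core part -/
lemma core_om {w z : ℂ} (hw0 : w ≠ 0) (hw : ‖w ^ 32‖ < 20) (h : FF w = z) : om w ≤ om z := by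
  by_cases hB : ∃ i, InB i z
  · obtain ⟨i, hi⟩ := hB
    obtain ⟨e1, e2, e3, e4, e5⟩ := core_facts (core_le_four hw) hw0
    have h1 : Real.log ‖z‖ = -Real.log ‖1 - W w‖ := by rw [← h, log_FF]
    have h2 := abs_le.mp e4
    have h3 := tau_small
    have hL := lev_ge_real i
    rcases hi.2 with ⟨a, b⟩ | ⟨a, b⟩
    · have hB' : InB i w := by
        refine ⟨hi.1, Or.inr ⟨?_, ?_⟩⟩
        · linarith [h2.2]
        · have := ll_pos_real (i + 1)
          linarith [h2.1]
      rw [om_InB hi, om_InB hB']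
    · exfalso
      have h4 := Real.log_le_log (by rw [norm_pow]; exact pow_pos (norm_pos_iff.mpr hw0) _) hw.le
      rw [norm_pow, Real.log_pow] at h4
      push_cast at h4
      have := log20
      linarith [h2.2]
  · rw [om_one hB]; exact om_le w

lemma core_sum (z : ℂ) : ∑' w : CoreS z, wt FF (7 / 4) w * ENNReal.ofReal (om w) ≤
    ENNReal.ofReal (152 / 1000 * om z) := by
  have h1 := tsum_card (A := CoreS z)
    (f := fun w => wt FF (7 / 4) w * ENNReal.ofReal (om w)) (n := 64)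
    (c := 237 / 100000 * om z) (by norm_num) (by
      intro S hS
      apply core_count (c := z⁻¹) S
      intro w hw
      obtain ⟨a, b, c⟩ := hS w hw
      refine ⟨a, b, ?_⟩
      have hne := (core_facts (core_le_four b) a).1
      have hz : z ≠ 0 := by rw [← c]; exact inv_ne_zero hne
      exact (FF_eq_iff hz).mp c) (by
      intro w ⟨a, b, c⟩
      obtain ⟨e1, e2, e3, e4, e5⟩ := core_facts (core_le_four b) a
      have h2 : 319 / 10 ≤ cyl FF w := by
        rw [cyl_DH e1]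
        have := norm_sub_norm_le (32 : ℂ) (32 - DH w)
        rw [sub_sub_cancel, norm_sub_rev] at this
        have h3 : ‖(32 : ℂ)‖ = 32 := by norm_num
        rw [h3] at this
        have := tau_small
        linarith
      have h3 : cyl FF w ^ (-(7 / 4 : ℝ)) ≤ 237 / 100000 := by
        refine (Real.rpow_le_rpow_of_nonpos (by norm_num) h2 (by norm_num)).trans ?_
        exact rp (by norm_num) (by norm_num) (by norm_num)
      show wt FF (7 / 4) w * ENNReal.ofReal (om w) ≤ _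
      rw [wt, ENNReal.ofReal_mul (by norm_num)]
      gcongr
      exact core_om a b c)
  refine h1.trans (ENNReal.ofReal_le_ofReal ?_)
  have := om_pos z
  linarith

/-- radial part -/
lemma rad_sum {z : ℂ} (hz : z ∈ ZZ) :
    ∑' j, ∑' w : RadS j z, wt FF (7 / 4) w * ENNReal.ofReal (om w) ≤
      ENNReal.ofReal (37 / 100 * om z) := by
  by_cases hex : ∃ j, (RadS j z).Nonempty
  swap
  · push Not at hex
    have : ∀ j, ∑' w : RadS j z, wt FF (7 / 4) w * ENNReal.ofReal (om w) = 0 := by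
      intro j
      have : IsEmpty (RadS j z) := by
        rw [isEmpty_coe_sort]; exact hex j
      exact tsum_empty
    simp [this]
  obtain ⟨j, w₀, hw₀⟩ := hex
  rw [tsum_eq_single j (by
    intro j' hj'
    have : IsEmpty (RadS j' z) := by
      rw [isEmpty_coe_sort]
      by_contra hne
      obtain ⟨w', hw'⟩ := nonempty_iff_ne_empty.mpr hne
      exact hj' (rad_unique hz hw'.1 hw'.2 hw₀.1 hw₀.2)
    exact tsum_empty)]
  have hM := sl_ge_real j
  have h1 := tsum_card (A := RadS j z)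
    (f := fun w => wt FF (7 / 4) w * ENNReal.ofReal (om w)) (n := 2 * sl j)
    (c := (8 / 10 * sl j) ^ (-(7 / 4 : ℝ))) (by positivity) (by
      intro S hS
      apply rad_count (j := j) (c := 1 - z⁻¹) S
      intro w hw
      exact ⟨(hS w hw).1, W_of_FF hz.1 (hS w hw).2⟩) (by
      intro w ⟨a, b⟩
      have h2 := (rad_cyl a).1
      have h3 := Real.rpow_le_rpow_of_nonpos (by positivity) h2 (by norm_num : -(7 / 4 : ℝ) ≤ 0)
      show wt FF (7 / 4) w * ENNReal.ofReal (om w) ≤ _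
      calc wt FF (7 / 4) w * ENNReal.ofReal (om w) ≤
          ENNReal.ofReal ((8 / 10 * sl j) ^ (-(7 / 4 : ℝ))) * 1 := by
            rw [wt]
            gcongr
            rw [ENNReal.ofReal_le_one]; exact om_le w
        _ = _ := mul_one _)
  refine h1.trans (ENNReal.ofReal_le_ofReal ?_)
  have h2 : 2 * (sl j : ℝ) * (8 / 10 * sl j) ^ (-(7 / 4 : ℝ)) ≤ 296 / 100 * (sl j : ℝ) ^ (-(3 / 4 : ℝ)) := by
    rw [Real.mul_rpow (by norm_num) (by linarith)]
    have h3 : (8 / 10 : ℝ) ^ (-(7 / 4 : ℝ)) ≤ 148 / 100 := rp (by norm_num) (by norm_num) (by norm_num)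
    have h4 : (sl j : ℝ) * (sl j : ℝ) ^ (-(7 / 4 : ℝ)) = (sl j : ℝ) ^ (-(3 / 4 : ℝ)) := by
      nth_rewrite 1 [← Real.rpow_one (sl j : ℝ)]
      rw [← Real.rpow_add (by linarith)]; norm_num
    calc 2 * (sl j : ℝ) * ((8 / 10 : ℝ) ^ (-(7 / 4 : ℝ)) * (sl j : ℝ) ^ (-(7 / 4 : ℝ))) =
        2 * (8 / 10 : ℝ) ^ (-(7 / 4 : ℝ)) * ((sl j : ℝ) * (sl j : ℝ) ^ (-(7 / 4 : ℝ))) := by ring
      _ ≤ 2 * (148 / 100) * (sl j : ℝ) ^ (-(3 / 4 : ℝ)) := by
          rw [h4]; gcongr
      _ = _ := by ring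
  refine h2.trans ?_
  obtain ⟨l1, l2⟩ := rad_loc hz hw₀.1 hw₀.2
  by_cases he : Even j
  · -- z is in no small zone
    have hno : ¬ ∃ i, InB i z := by
      rintro ⟨i, hi⟩
      have hneg : 0 < -Real.log ‖z‖ := by
        have h3 := (rad_cyl hw₀.1).2.1
        rw [hw₀.2] at h3
        have h4 := Real.log_le_sub_one_of_pos (norm_pos_iff.mpr hz.1)
        linarith
      have hL := lev_ge_real i
      rcases hi.2 with ⟨a, b⟩ | ⟨a, b⟩
      · linarith
      · rcases le_or_gt j i with h3 | h3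
        · have := ll_lev_real h3
          linarith
        · have h4 : i + 1 ≠ j := by
            intro h5
            rw [← h5, Nat.even_add_one] at he
            exact he hi.1
          obtain ⟨j', rfl⟩ : ∃ j', j = j' + 1 := ⟨j - 1, by omega⟩
          have h5 := l2 j' rfl
          have h6 := ll_lev_real (i := i + 1) (j := j') (by omega)
          have := ll_pos_real (i + 1)
          linarith
    rw [om_one hno]
    have := sl_pow_le j
    linarith
  · obtain ⟨i, rfl⟩ : ∃ i, j = i + 1 := by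
      refine ⟨j - 1, ?_⟩
      have : j ≠ 0 := by rintro rfl; simp at he
      omega
    have hi : Even i := by
      by_contra h2; exact he (Nat.even_add_one.mpr h2)
    have hB : InB i z := ⟨hi, Or.inr ⟨l2 i rfl, l1⟩⟩
    rw [om_InB hB, wB]
    linarith

/-- circle parts -/
lemma circ_sum1 {z : ℂ} (hz : z ∈ ZZ) (j : ℕ) {T : ℝ} (hT0 : 0 < T) (hT : T ≤ 2 * ‖z - 1‖) :
    ∑' w : CircS j z, wt FF (7 / 4) w * ENNReal.ofReal (om w) ≤
      ENNReal.ofReal (T ^ (-(7 / 4 : ℝ)) * al j) := by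
  have hK := KK_pos_real j
  have h1 := tsum_card (A := CircS j z)
    (f := fun w => wt FF (7 / 4) w * ENNReal.ofReal (om w)) (n := KK j)
    (c := (KK j * T) ^ (-(7 / 4 : ℝ)) * oc j) (by positivity) (by
      intro S hS
      apply circ_count (j := j) (c := 1 - z⁻¹) S
      intro w hw
      exact ⟨(hS w hw).1, (hS w hw).2.1, W_of_FF hz.1 (hS w hw).2.2⟩) (by
      intro w ⟨a, b, c⟩
      obtain ⟨p1, p2, p3, p4, -⟩ := pre_class hz c
      have h2 := circ_cyl a b p4 p3
      rw [c] at h2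
      have h2' : KK j * T ≤ cyl FF w := by nlinarith [norm_nonneg (z - 1)]
      have h3 := Real.rpow_le_rpow_of_nonpos (by positivity) h2' (by norm_num : -(7 / 4 : ℝ) ≤ 0)
      show wt FF (7 / 4) w * ENNReal.ofReal (om w) ≤ _
      rw [wt, ENNReal.ofReal_mul (by positivity)]
      gcongr
      exact om_circ a)
  refine h1.trans (ENNReal.ofReal_le_ofReal (le_of_eq ?_))
  have h4 : (KK j : ℝ) * (KK j : ℝ) ^ (-(7 / 4 : ℝ)) = (KK j : ℝ) ^ (-(3 / 4 : ℝ)) := by
    nth_rewrite 1 [← Real.rpow_one (KK j : ℝ)]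
    rw [← Real.rpow_add hK]; norm_num
  rw [Real.mul_rpow hK.le hT0.le, al, ← h4]
  ring

lemma circ_sum2 {z : ℂ} (hz : z ∈ ZZ) (j : ℕ) (hT : ‖z - 1‖ ≤ 1 / 2) :
    ∑' w : CircS j z, wt FF (7 / 4) w * ENNReal.ofReal (om w) ≤
      ENNReal.ofReal (al j * ‖z - 1‖ ^ (-aa j)) := by
  have hK := KK_pos_real j
  set T := ‖z - 1‖ with hTT
  have hT0 : 0 < T := norm_pos_iff.mpr (sub_ne_zero.mpr hz.2.1)
  have h1 := tsum_card (A := CircS j z)
    (f := fun w => wt FF (7 / 4) w * ENNReal.ofReal (om w)) (n := KK j)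
    (c := (KK j * T ^ (1 - 1 / kk j : ℝ)) ^ (-(7 / 4 : ℝ)) * oc j) (by positivity) (by
      intro S hS
      apply circ_count (j := j) (c := 1 - z⁻¹) S
      intro w hw
      exact ⟨(hS w hw).1, (hS w hw).2.1, W_of_FF hz.1 (hS w hw).2.2⟩) (by
      intro w ⟨a, b, c⟩
      obtain ⟨p1, p2, p3, p4, -⟩ := pre_class hz c
      have h2 := circ_cyl_near a b p4 p3 (by rw [c]; exact hT)
      rw [c] at h2
      have h3 := Real.rpow_le_rpow_of_nonpos (by positivity) h2 (by norm_num : -(7 / 4 : ℝ) ≤ 0)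
      show wt FF (7 / 4) w * ENNReal.ofReal (om w) ≤ _
      rw [wt, ENNReal.ofReal_mul (by positivity)]
      gcongr
      exact om_circ a)
  refine h1.trans (ENNReal.ofReal_le_ofReal (le_of_eq ?_))
  have h4 : (KK j : ℝ) * (KK j : ℝ) ^ (-(7 / 4 : ℝ)) = (KK j : ℝ) ^ (-(3 / 4 : ℝ)) := by
    nth_rewrite 1 [← Real.rpow_one (KK j : ℝ)]
    rw [← Real.rpow_add hK]; norm_num
  have h5 : (T ^ (1 - 1 / kk j : ℝ)) ^ (-(7 / 4 : ℝ)) = T ^ (-aa j) := by
    rw [← Real.rpow_mul hT0.le]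
    unfold aa
    ring_nf
  rw [Real.mul_rpow hK.le (by positivity), h5, al, ← h4]
  ring

lemma sl_grow (i n : ℕ) : (4000 : ℝ) ^ n * sl (i + 1) ≤ sl (i + 1 + n) := by
  induction n with
  | zero => simp
  | succ n ih =>
    have h1 := sl_le_KK_real (i + 1 + n)
    have h2 := sl_succ_real (i + 1 + n)
    have h3 := sl_ge_real (i + 1 + n)
    rw [show i + 1 + (n + 1) = i + 1 + n + 1 by ring, h2, pow_succ]
    nlinarith

lemma al_grow {i : ℕ} (hi : Even i) (n : ℕ) : al (i + 1 + n) ≤ wB i * (1 / 100) * (1 / 2) ^ n := by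
  have hM := sl_ge_real (i + 1)
  have h1 : (4000 : ℝ) ^ (n + 1) * sl (i + 1) ≤ KK (i + 1 + n) := by
    have := sl_grow i n
    have := sl_le_KK_real (i + 1 + n)
    rw [pow_succ]; nlinarith
  have h4000 : (4000 : ℝ) ^ (-(3 / 4 : ℝ)) ≤ 1 / 200 := rp3 (by norm_num) (by norm_num) (by norm_num)
  have h2 : (KK (i + 1 + n) : ℝ) ^ (-(3 / 4 : ℝ)) ≤
      (1 / 200) ^ (n + 1) * (sl (i + 1) : ℝ) ^ (-(3 / 4 : ℝ)) := by
    refine (Real.rpow_le_rpow_of_nonpos (by positivity) h1 (by norm_num)).trans ?_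
    rw [Real.mul_rpow (by positivity) (by linarith)]
    gcongr
    calc ((4000 : ℝ) ^ (n + 1)) ^ (-(3 / 4 : ℝ)) = ((4000 : ℝ) ^ (-(3 / 4 : ℝ))) ^ (n + 1) := by
          rw [← Real.rpow_natCast, ← Real.rpow_mul (by norm_num), ← Real.rpow_natCast,
            ← Real.rpow_mul (by norm_num), mul_comm]
      _ ≤ _ := by gcongr
  cases n with
  | zero =>
    rw [al, add_zero, oc_odd hi]
    rw [add_zero] at h2
    have h3 := sl_pow_le (i + 1)
    have h4 := wB_pos i
    have h5 : (KK (i + 1) : ℝ) ^ (-(3 / 4 : ℝ)) ≤ 1 / 100 := by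
      refine h2.trans ?_
      norm_num
      linarith
    rw [pow_zero, mul_one, mul_comm]
    gcongr
  | succ n =>
    have h3 := oc_le (i + 1 + (n + 1))
    have h4 := oc_nonneg (i + 1 + (n + 1))
    rw [al]
    have h5 : (0 : ℝ) ≤ (sl (i + 1) : ℝ) ^ (-(3 / 4 : ℝ)) := by positivity
    calc (KK (i + 1 + (n + 1)) : ℝ) ^ (-(3 / 4 : ℝ)) * oc (i + 1 + (n + 1)) ≤
        ((1 / 200) ^ (n + 1 + 1) * (sl (i + 1) : ℝ) ^ (-(3 / 4 : ℝ))) * 1 := by gcongr
      _ ≤ ((1 / 2) ^ (n + 1) * (1 / 200) * (sl (i + 1) : ℝ) ^ (-(3 / 4 : ℝ))) * 1 := by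
          gcongr
          rw [pow_succ (1 / 200 : ℝ) (n + 1)]
          gcongr
          norm_num
      _ ≤ _ := by
          unfold wB
          have : (0 : ℝ) ≤ (1 / 2) ^ (n + 1) * (sl (i + 1) : ℝ) ^ (-(3 / 4 : ℝ)) := by positivity
          nlinarith

/-- size restriction for circle preimages of small points -/
lemma circ_small {z w : ℂ} {j : ℕ} (hz : z ≠ 0) (ht : Trans j w) (h4 : ‖1 - q j w‖ < 1 / 4)
    (h : FF w = z) (hs : 1 ≤ -Real.log ‖z‖) : -Real.log ‖z‖ ≤ 102 / 100 * lev j + 1 := by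
  have hW := W_of_FF hz h
  have hzp := norm_pos_iff.mpr hz
  have hz1 : ‖z‖ ≤ Real.exp (-1) := by
    rw [← Real.log_le_iff_le_exp hzp]; linarith
  have he : Real.exp (-1) ≤ 1 / 2 := by
    rw [Real.exp_neg, inv_le_comm₀ (Real.exp_pos _) (by norm_num)]
    have := Real.exp_one_gt_d9
    norm_num; linarith
  have h1 : ‖z‖⁻¹ / 2 ≤ ‖W w‖ := by
    rw [hW]
    have h2 := norm_sub_norm_le z⁻¹ 1
    rw [norm_one, norm_inv, norm_sub_rev] at h2
    have h3 : 2 ≤ ‖z‖⁻¹ := by
      rw [le_inv_comm₀ (by norm_num) hzp]; norm_num; linarith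
    linarith
  have hWp : 0 < ‖W w‖ := lt_of_lt_of_le (by positivity) h1
  have hWne : W w ≠ 0 := norm_pos_iff.mp hWp
  obtain ⟨v1, v2, v3, v5⟩ := trans_VV ht
  have h2 : ‖W w‖ ≤ ‖VV j w‖ := by
    rw [W_VV j, norm_mul, fac, norm_pow]
    have : ‖1 - q j w‖ ^ kk j ≤ 1 := pow_le_one₀ (norm_nonneg _) (by linarith)
    have := norm_nonneg (VV j w)
    nlinarith
  have h3 := Real.log_le_log (by positivity) (h1.trans h2)
  rw [Real.log_div (by positivity) (by norm_num), Real.log_inv] at h3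
  have h5 := (abs_le.mp v5).2
  have h6 := Real.log_two_lt_d9
  have := lev_ge_real j
  linarith

lemma three_exp : (3 : ℝ) ≤ Real.exp (11 / 10) := by
  have h1 : Real.exp (11 / 10) ^ 10 = Real.exp 1 ^ 11 := by
    rw [← Real.exp_nat_mul, ← Real.exp_nat_mul]; norm_num
  have h2 := Real.exp_one_gt_d9
  have h3 : (3 : ℝ) ^ 10 ≤ Real.exp (11 / 10) ^ 10 := by
    rw [h1]
    calc (3 : ℝ) ^ 10 ≤ (2.7182818283 : ℝ) ^ 11 := by norm_num
      _ ≤ _ := pow_le_pow_left₀ (by norm_num) (by linarith) _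
  exact le_of_pow_le_pow_left₀ (by norm_num) (by positivity) h3

lemma sl_le_exp (j : ℕ) : (sl j : ℝ) ≤ 2 * Real.exp (11 / 10 * rho j) := by
  have h1 : (sl j : ℝ) ≤ 2 * (3 : ℝ) ^ rho j := by exact_mod_cast sl_le_pow j
  have h2 : (3 : ℝ) ^ rho j ≤ Real.exp (11 / 10) ^ rho j :=
    pow_le_pow_left₀ (by norm_num) three_exp _
  rw [← Real.exp_nat_mul] at h2
  have h3 : (rho j : ℝ) * (11 / 10) = 11 / 10 * rho j := by ring
  rw [h3] at h2
  linarith

/-- large points in the small-weight zones -/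
lemma big_weight {i : ℕ} {z : ℂ} (hz : z ≠ 0) (h : 656 / 10 * (lev i : ℝ) ≤ Real.log ‖z‖) :
    ‖z‖ ^ (-(7 / 4 : ℝ)) ≤ wB i := by
  have hzp := norm_pos_iff.mpr hz
  have hL := lev_ge_real i
  have hM := sl_ge_real (i + 1)
  have h1 : Real.exp (656 / 10 * lev i) ≤ ‖z‖ := by
    rwa [← Real.le_log_iff_exp_le hzp]
  have h2 : ‖z‖ ^ (-(7 / 4 : ℝ)) ≤ Real.exp (-(1148 / 10 * lev i)) := by
    refine (Real.rpow_le_rpow_of_nonpos (Real.exp_pos _) h1 (by norm_num)).trans (le_of_eq ?_)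
    rw [← Real.exp_mul]; ring_nf
  have h3 := sl_le_exp (i + 1)
  rw [rho_succ_real] at h3
  have h4 : 2 * Real.exp (11 / 10 * (128 * (lev i : ℝ))) ≤ Real.exp (141 * lev i) := by
    have e1 : (141 : ℝ) * lev i = 1 / 5 * lev i + 11 / 10 * (128 * (lev i : ℝ)) := by ring
    rw [e1, Real.exp_add]
    gcongr
    have := Real.add_one_le_exp (1 / 5 * (lev i : ℝ))
    linarith
  have h5 : Real.exp (-(1058 / 10 * lev i)) ≤ (sl (i + 1) : ℝ) ^ (-(3 / 4 : ℝ)) := by
    have e1 := Real.rpow_le_rpow_of_nonpos (by linarith : 0 < (sl (i + 1) : ℝ)) (h3.trans h4)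
      (by norm_num : -(3 / 4 : ℝ) ≤ 0)
    refine le_trans ?_ e1
    rw [← Real.exp_mul]
    apply Real.exp_le_exp.mpr
    linarith
  unfold wB
  have h6 : Real.exp (-(1148 / 10 * lev i : ℝ)) ≤ Real.exp (-(1058 / 10 * lev i)) :=
    Real.exp_le_exp.mpr (by linarith)
  have h7 : (0 : ℝ) ≤ (sl (i + 1) : ℝ) ^ (-(3 / 4 : ℝ)) := by positivity
  linarith

lemma shift_sum (f : ℕ → ℝ≥0∞) (k : ℕ) (h : ∀ j < k, f j = 0) : ∑' j, f j = ∑' n, f (n + k) := by
  have h1 := Summable.sum_add_tsum_nat_add' (f := f) (k := k) ENNReal.summable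
  rw [← h1, Finset.sum_eq_zero (fun j hj => h j (Finset.mem_range.mp hj)), zero_add]

lemma circ_total {z : ℂ} (hz : z ∈ ZZ) (hr : r1 ≤ ‖z - 1‖) :
    ∑' j, ∑' w : CircS j z, wt FF (7 / 4) w * ENNReal.ofReal (om w) ≤
      ENNReal.ofReal (2 / 100 * om z) := by
  have htt := tt_pos
  by_cases hB : ∃ i, InB i z
  · obtain ⟨i, hi⟩ := hB
    rw [om_InB hi]
    have hw := wB_pos i
    have hL := lev_ge_real i
    rcases hi.2 with ⟨a, b⟩ | ⟨a, b⟩
    · -- large
      have hT : ‖z‖ ≤ 2 * ‖z - 1‖ := by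
        have h1 := norm_sub_norm_le z 1
        rw [norm_one] at h1
        have h2 : 2 ≤ ‖z‖ := by
          have h3 : Real.exp (656 / 10 * lev i) ≤ ‖z‖ := by
            rwa [← Real.le_log_iff_exp_le (norm_pos_iff.mpr hz.1)]
          have := Real.add_one_le_exp (656 / 10 * (lev i : ℝ))
          linarith
        linarith
      calc ∑' j, ∑' w : CircS j z, wt FF (7 / 4) w * ENNReal.ofReal (om w) ≤
          ∑' j, ENNReal.ofReal (‖z‖ ^ (-(7 / 4 : ℝ))) * ENNReal.ofReal (al j) := by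
            apply ENNReal.tsum_le_tsum
            intro j
            rw [← ENNReal.ofReal_mul (by positivity)]
            exact circ_sum1 hz j (norm_pos_iff.mpr hz.1) hT
        _ = ENNReal.ofReal (‖z‖ ^ (-(7 / 4 : ℝ))) * ∑' j, ENNReal.ofReal (al j) :=
            ENNReal.tsum_mul_left
        _ ≤ ENNReal.ofReal (wB i) * ENNReal.ofReal tt := by
            gcongr
            · exact big_weight hz.1 a
            · exact sum_al
        _ = ENNReal.ofReal (wB i * tt) := (ENNReal.ofReal_mul hw.le).symm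
        _ ≤ _ := by
            apply ENNReal.ofReal_le_ofReal
            have : tt ≤ 2 / 100 := by unfold tt; norm_num
            nlinarith
    · -- small
      have hzn : ‖z‖ ≤ 1 / 2 := by
        have h1 : ‖z‖ ≤ Real.exp (-1) := by
          rw [← Real.log_le_iff_le_exp (norm_pos_iff.mpr hz.1)]; linarith
        have he : Real.exp (-1) ≤ 1 / 2 := by
          rw [Real.exp_neg, inv_le_comm₀ (Real.exp_pos _) (by norm_num)]
          have := Real.exp_one_gt_d9
          norm_num; linarith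
        linarith
      have hT : (1 : ℝ) ≤ 2 * ‖z - 1‖ := by
        have h1 := norm_sub_norm_le 1 z
        rw [norm_one, norm_sub_rev] at h1
        linarith
      have hzero : ∀ j < i + 1, ∑' w : CircS j z, wt FF (7 / 4) w * ENNReal.ofReal (om w) = 0 := by
        intro j hj
        have : IsEmpty (CircS j z) := by
          rw [isEmpty_coe_sort]
          by_contra hne
          obtain ⟨w, hw1, hw2, hw3⟩ := nonempty_iff_ne_empty.mpr hne
          have h1 := circ_small hz.1 hw1 hw2 hw3 (by linarith)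
          have h2 := lev_mono_real (i := j) (j := i) (by omega)
          linarith
        exact tsum_empty
      have hshift := shift_sum (fun j => ∑' w : CircS j z, wt FF (7 / 4) w * ENNReal.ofReal (om w))
        (i + 1) hzero
      rw [hshift]
      calc ∑' n, ∑' w : CircS (n + (i + 1)) z, wt FF (7 / 4) w * ENNReal.ofReal (om w) ≤
          ∑' n : ℕ, ENNReal.ofReal (wB i * (1 / 100) * (1 / 2) ^ n) := by
            apply ENNReal.tsum_le_tsum
            intro n
            refine (circ_sum1 hz (n + (i + 1)) one_pos hT).trans ?_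
            apply ENNReal.ofReal_le_ofReal
            rw [Real.one_rpow, one_mul, add_comm n (i + 1)]
            exact al_grow hi.1 n
        _ = ENNReal.ofReal (∑' n : ℕ, wB i * (1 / 100) * (1 / 2) ^ n) :=
            (ENNReal.ofReal_tsum_of_nonneg (fun n => by positivity)
              (Summable.mul_left _ summable_geometric_two)).symm
        _ = _ := by rw [tsum_mul_left, tsum_geometric_two]; ring_nf
  · rw [om_one hB]
    have hT : r1 ≤ 2 * ‖z - 1‖ := by linarith [norm_nonneg (z - 1)]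
    calc ∑' j, ∑' w : CircS j z, wt FF (7 / 4) w * ENNReal.ofReal (om w) ≤
        ∑' j, ENNReal.ofReal (r1 ^ (-(7 / 4 : ℝ))) * ENNReal.ofReal (al j) := by
          apply ENNReal.tsum_le_tsum
          intro j
          have := r1_pos
          rw [← ENNReal.ofReal_mul (by positivity)]
          exact circ_sum1 hz j r1_pos hT
      _ = ENNReal.ofReal (r1 ^ (-(7 / 4 : ℝ))) * ∑' j, ENNReal.ofReal (al j) :=
          ENNReal.tsum_mul_left
      _ ≤ ENNReal.ofReal (10 ^ 14) * ENNReal.ofReal tt := by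
          gcongr
          · exact r1_pow
          · exact sum_al
      _ = ENNReal.ofReal (10 ^ 14 * tt) := (ENNReal.ofReal_mul (by norm_num)).symm
      _ ≤ _ := by
          apply ENNReal.ofReal_le_ofReal
          unfold tt; norm_num

/-- the extra sum reduces to at most one term -/
lemma extra_sum {z : ℂ} {c : ℝ≥0∞}
    (h : ∀ w, FF w = z → ‖w - 1‖ < r1 → wt FF (7 / 4) w * ex w ≤ c) :
    ∑' w : {w // FF w = z}, wt FF (7 / 4) w * ex w ≤ c := by
  classical
  by_cases hex : ∃ w, FF w = z ∧ ‖w - 1‖ < r1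
  · obtain ⟨w₀, h1, h2⟩ := hex
    rw [tsum_eq_single (⟨w₀, h1⟩ : {w // FF w = z}) (by
      rintro ⟨w, hw⟩ hne
      have h3 : ¬ ‖w - 1‖ < r1 := by
        intro h3
        apply hne
        have hr : r1 ≤ 1 / 1000 := by unfold r1; norm_num
        have := near_inj (w := w) (w' := w₀) (by linarith) (by linarith) (by rw [hw, h1])
        simp [this]
      show wt FF (7 / 4) w * ex w = 0
      rw [ex, if_neg h3, mul_zero])]
    exact h w₀ h1 h2
  · push Not at hex
    have : ∀ w : {w // FF w = z}, wt FF (7 / 4) w * ex w = 0 := by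
      rintro ⟨w, hw⟩
      show wt FF (7 / 4) w * ex w = 0
      rw [ex, if_neg (not_lt.mpr (hex w hw)), mul_zero]
    simp [this]

lemma extra_term {w : ℂ} (hw1 : w ≠ 1) (h : ‖w - 1‖ < r1) :
    wt FF (7 / 4) w * ex w ≤ ∑' j, ENNReal.ofReal ((1 - 1 / (2 * kk j)) *
      (Real.exp (1000 * ‖FF w - 1‖) * (BB j * ‖FF w - 1‖ ^ (-aa j)))) := by
  rw [ex, if_pos h, Xs, ← mul_assoc, ← ENNReal.tsum_mul_left]
  apply ENNReal.tsum_le_tsum
  intro j
  have hc : 0 ≤ cyl FF w := by unfold cyl; positivity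
  rw [wt, ← ENNReal.ofReal_mul (by positivity), ← ENNReal.ofReal_mul (by positivity)]
  apply ENNReal.ofReal_le_ofReal
  have hr := r1_pos
  have h1 := near_extra hw1 (by linarith) j
  have h2 := BB_nonneg j
  calc cyl FF w ^ (-(7 / 4 : ℝ)) * Real.exp (1000 * ‖w - 1‖) * (BB j * ‖w - 1‖ ^ (-aa j)) =
      BB j * (cyl FF w ^ (-(7 / 4 : ℝ)) * (‖w - 1‖ ^ (-aa j) * Real.exp (1000 * ‖w - 1‖))) := by ring
    _ ≤ BB j * ((1 - 1 / (2 * kk j)) * (‖FF w - 1‖ ^ (-aa j) * Real.exp (1000 * ‖FF w - 1‖))) := by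
        gcongr
    _ = _ := by ring

lemma not_InB_near {z : ℂ} (h : ‖z - 1‖ ≤ 1 / 2) : ¬ ∃ i, InB i z := by
  rintro ⟨i, hi⟩
  obtain ⟨h1, h2⟩ := norm_near h
  have hL := lev_ge_real i
  have hp : 0 < ‖z‖ := by linarith
  have h3 := Real.log_le_sub_one_of_pos hp
  have h4 := Real.log_le_sub_one_of_pos (inv_pos.mpr hp)
  rw [Real.log_inv] at h4
  have h5 : ‖z‖⁻¹ ≤ 2 := by
    rw [inv_le_comm₀ hp (by norm_num)]; linarith
  rcases hi.2 with ⟨a, b⟩ | ⟨a, b⟩ <;> linarith

theorem super_main : Super FF (7 / 4) ZZ gs hts := by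
  intro z hz
  have hom := om_pos z
  have hsplit : ∑' w : {w // FF w = z}, wt FF (7 / 4) w * hts w =
      ∑' w : {w // FF w = z}, wt FF (7 / 4) w * ENNReal.ofReal (om w) +
      ∑' w : {w // FF w = z}, wt FF (7 / 4) w * ex w := by
    rw [← ENNReal.tsum_add]
    apply tsum_congr
    intro w
    rw [hts, mul_add]
  have hcov := tsum_cover hz (fun w => wt FF (7 / 4) w * ENNReal.ofReal (om w))
  have hcore := core_sum z
  have hrad := rad_sum hz
  have hT0 : 0 < ‖z - 1‖ := norm_pos_iff.mpr (sub_ne_zero.mpr hz.2.1)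
  rw [hsplit]
  rcases lt_or_ge ‖z - 1‖ r1 with hT | hT
  · have hr : r1 ≤ 1 / 2 := by unfold r1; norm_num
    have hone : om z = 1 := om_one (not_InB_near (by linarith))
    have hcirc : ∑' j, ∑' w : CircS j z, wt FF (7 / 4) w * ENNReal.ofReal (om w) ≤
        ∑' j, ENNReal.ofReal (al j * ‖z - 1‖ ^ (-aa j)) :=
      ENNReal.tsum_le_tsum (fun j => circ_sum2 hz j (by linarith))
    have hex : ∑' w : {w // FF w = z}, wt FF (7 / 4) w * ex w ≤
        ∑' j, ENNReal.ofReal ((1 - 1 / (2 * kk j)) *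
          (Real.exp (1000 * ‖z - 1‖) * (BB j * ‖z - 1‖ ^ (-aa j)))) := by
      apply extra_sum
      intro w hw hw1
      have hne : w ≠ 1 := by rintro rfl; rw [FF_one] at hw; exact hz.2.1 hw.symm
      have := extra_term hne hw1
      rwa [hw] at this
    have hsum : ∑' j, ENNReal.ofReal (al j * ‖z - 1‖ ^ (-aa j)) +
        ∑' j, ENNReal.ofReal ((1 - 1 / (2 * kk j)) *
          (Real.exp (1000 * ‖z - 1‖) * (BB j * ‖z - 1‖ ^ (-aa j)))) ≤ ex z := by
      rw [ex, if_pos hT, Xs, ← ENNReal.tsum_mul_left, ← ENNReal.tsum_add]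
      apply ENNReal.tsum_le_tsum
      intro j
      have hk := kk_pos_real j
      have e0 : 0 ≤ al j * ‖z - 1‖ ^ (-aa j) := mul_nonneg (al_nonneg j) (by positivity)
      have e1 : 0 ≤ 1 - 1 / (2 * (kk j : ℝ)) := by
        have : 1 / (2 * (kk j : ℝ)) ≤ 1 := by
          rw [div_le_one (by positivity)]; linarith
        linarith
      have e2 := BB_nonneg j
      rw [← ENNReal.ofReal_add e0 (by positivity), ← ENNReal.ofReal_mul (by positivity)]
      apply ENNReal.ofReal_le_ofReal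
      have e3 : al j = BB j * (1 / (2 * kk j)) := by unfold BB; field_simp
      have e4 : (1 : ℝ) ≤ Real.exp (1000 * ‖z - 1‖) := Real.one_le_exp (by positivity)
      have e5 : 0 ≤ BB j * ‖z - 1‖ ^ (-aa j) := by positivity
      have e6 : 0 ≤ 1 / (2 * (kk j : ℝ)) := by positivity
      rw [e3]
      have e7 : BB j * (1 / (2 * kk j)) * ‖z - 1‖ ^ (-aa j) ≤
          1 / (2 * kk j) * (Real.exp (1000 * ‖z - 1‖) * (BB j * ‖z - 1‖ ^ (-aa j))) := by
        have e8 : BB j * ‖z - 1‖ ^ (-aa j) ≤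
            Real.exp (1000 * ‖z - 1‖) * (BB j * ‖z - 1‖ ^ (-aa j)) := by nlinarith
        calc BB j * (1 / (2 * kk j)) * ‖z - 1‖ ^ (-aa j) =
            1 / (2 * kk j) * (BB j * ‖z - 1‖ ^ (-aa j)) := by ring
          _ ≤ _ := by gcongr
      linarith
    rw [hone] at hcore hrad
    calc gs z + (∑' w : {w // FF w = z}, wt FF (7 / 4) w * ENNReal.ofReal (om w) +
          ∑' w : {w // FF w = z}, wt FF (7 / 4) w * ex w) ≤
        ENNReal.ofReal (1 / 4) + ((ENNReal.ofReal (152 / 1000 * 1) + ENNReal.ofReal (37 / 100 * 1) +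
          ∑' j, ENNReal.ofReal (al j * ‖z - 1‖ ^ (-aa j))) +
          ∑' j, ENNReal.ofReal ((1 - 1 / (2 * kk j)) *
          (Real.exp (1000 * ‖z - 1‖) * (BB j * ‖z - 1‖ ^ (-aa j))))) := by
          rw [gs, hone]
          gcongr
          refine hcov.trans ?_
          gcongr
      _ = (ENNReal.ofReal (1 / 4) + (ENNReal.ofReal (152 / 1000 * 1) + ENNReal.ofReal (37 / 100 * 1))) +
          (∑' j, ENNReal.ofReal (al j * ‖z - 1‖ ^ (-aa j)) +
          ∑' j, ENNReal.ofReal ((1 - 1 / (2 * kk j)) *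
          (Real.exp (1000 * ‖z - 1‖) * (BB j * ‖z - 1‖ ^ (-aa j))))) := by ring
      _ ≤ ENNReal.ofReal 1 + ex z := by
          gcongr
          rw [← ENNReal.ofReal_add (by norm_num) (by norm_num),
            ← ENNReal.ofReal_add (by norm_num) (by norm_num)]
          apply ENNReal.ofReal_le_ofReal
          norm_num
      _ = hts z := by rw [hts, hone]
  · have hcirc := circ_total hz hT
    have hex : ∑' w : {w // FF w = z}, wt FF (7 / 4) w * ex w ≤ ENNReal.ofReal (1 / 100 * om z) := by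
      apply extra_sum
      intro w hw hw1
      have hne : w ≠ 1 := by rintro rfl; rw [FF_one] at hw; exact hz.2.1 hw.symm
      have h1 := extra_term hne hw1
      rw [hw] at h1
      have hr0 := r1_pos
      have hr : r1 = 1 / 10000000 := rfl
      have h2 := (near_cyl (w := w) (by linarith)).2.1
      rw [hw] at h2
      have hL := Lam_le
      have hL' := Lam_ge
      have h3 : ‖z - 1‖ ≤ 1 / 1000 := by
        have h0 := norm_nonneg (w - 1)
        rw [hr] at hw1
        have h4 : Lam * ‖w - 1‖ ≤ 33 * (1 / 10000000) :=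
          mul_le_mul hL hw1.le h0 (by norm_num)
        have h5 : Lam * ‖w - 1‖ * (1 + 1000 * ‖w - 1‖) ≤ 33 * (1 / 10000000) * 2 :=
          mul_le_mul h4 (by linarith) (by linarith) (by norm_num)
        linarith
      rw [om_one (not_InB_near (by linarith))]
      refine h1.trans ?_
      calc ∑' j, ENNReal.ofReal ((1 - 1 / (2 * kk j)) *
            (Real.exp (1000 * ‖z - 1‖) * (BB j * ‖z - 1‖ ^ (-aa j)))) ≤
          ∑' j, ENNReal.ofReal (3 * r1 ^ (-(7 / 4 : ℝ))) * ENNReal.ofReal (BB j) := by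
            apply ENNReal.tsum_le_tsum
            intro j
            rw [← ENNReal.ofReal_mul (by positivity)]
            apply ENNReal.ofReal_le_ofReal
            have hk := kk_pos_real j
            have e1 : 1 - 1 / (2 * (kk j : ℝ)) ≤ 1 := by
              have : 0 ≤ 1 / (2 * (kk j : ℝ)) := by positivity
              linarith
            have e2 : Real.exp (1000 * ‖z - 1‖) ≤ 3 := by
              have : Real.exp (1000 * ‖z - 1‖) ≤ Real.exp 1 := Real.exp_le_exp.mpr (by linarith)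
              have := Real.exp_one_lt_d9
              linarith
            have e3 := pow_aa_le hr0 (by rw [hr]; norm_num) hT j
            have e4 := BB_nonneg j
            calc (1 - 1 / (2 * (kk j : ℝ))) * (Real.exp (1000 * ‖z - 1‖) *
                (BB j * ‖z - 1‖ ^ (-aa j))) ≤ 1 * (3 * (BB j * r1 ^ (-(7 / 4 : ℝ)))) := by
                  gcongr
              _ = _ := by ring
        _ = ENNReal.ofReal (3 * r1 ^ (-(7 / 4 : ℝ))) * ∑' j, ENNReal.ofReal (BB j) :=
            ENNReal.tsum_mul_left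
        _ ≤ ENNReal.ofReal (3 * 10 ^ 14) * ENNReal.ofReal tt := by
            gcongr
            · exact r1_pow
            · exact sum_BB
        _ = ENNReal.ofReal (3 * 10 ^ 14 * tt) := (ENNReal.ofReal_mul (by norm_num)).symm
        _ ≤ _ := by
            apply ENNReal.ofReal_le_ofReal
            unfold tt; norm_num
    calc gs z + (∑' w : {w // FF w = z}, wt FF (7 / 4) w * ENNReal.ofReal (om w) +
          ∑' w : {w // FF w = z}, wt FF (7 / 4) w * ex w) ≤
        ENNReal.ofReal (om z / 4) + ((ENNReal.ofReal (152 / 1000 * om z) +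
          ENNReal.ofReal (37 / 100 * om z) + ENNReal.ofReal (2 / 100 * om z)) +
          ENNReal.ofReal (1 / 100 * om z)) := by
          rw [gs]
          gcongr
          refine hcov.trans ?_
          gcongr
      _ ≤ ENNReal.ofReal (om z) := by
          rw [← ENNReal.ofReal_add (by positivity) (by positivity),
            ← ENNReal.ofReal_add (by positivity) (by positivity),
            ← ENNReal.ofReal_add (by positivity) (by positivity),
            ← ENNReal.ofReal_add (by positivity) (by positivity)]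
          apply ENNReal.ofReal_le_ofReal
          linarith
      _ ≤ hts z := le_self_add

/-- the abstract hypotheses hold -/
theorem good_main : Good FF ZZ := by
  constructor
  · intro z hz; exact hz.1
  · intro w hw
    obtain ⟨h1, h2, h3, h4, h5⟩ := pre_class hw rfl
    refine ⟨h1, h2, fun h => ?_⟩
    exact hw.2.2 (om_step (Om2_sub h)).1
  · intro w hw
    obtain ⟨h1, h2, h3, h4, h5⟩ := pre_class hw rfl
    exact FF_an h3
  · intro w hw
    obtain ⟨h1, h2, h3, h4, h5⟩ := pre_class hw rfl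
    have hcyl : 0 < cyl FF w := by
      rcases h5 with h5 | ⟨j, h5⟩ | ⟨j, h5, h6⟩
      · obtain ⟨e1, e2, e3, e4, e5⟩ := core_facts (core_le_four h5) h1
        rw [cyl_DH e1]
        have := norm_sub_norm_le (32 : ℂ) (32 - DH w)
        rw [sub_sub_cancel, norm_sub_rev] at this
        have h3 : ‖(32 : ℂ)‖ = 32 := by norm_num
        rw [h3] at this
        have := tau_small
        linarith
      · have := (rad_cyl h5).1
        have := sl_ge_real j
        linarith
      · have h7 := circ_cyl h5 h6 h4 h3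
        have h8 := KK_pos_real j
        have h9 : 0 < ‖FF w - 1‖ := norm_pos_iff.mpr (sub_ne_zero.mpr hw.2.1)
        have : 0 < 28 / 10 * KK j * ‖FF w - 1‖ := by positivity
        linarith
    intro h
    unfold cyl at hcyl
    rw [h] at hcyl
    simp at hcyl

end Pool.Agent.Work.MP_0a8b43_nt
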