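import Mathlib
import Pool.Agent.Work.MP_0a8b43_nt.Super
import Pool.Agent.Work.MP_0a8b43_nt.Defs

set_option autoImplicit false

open Complex Set Filter Topology
open scoped ENNReal OnePoint

namespace Pool.Agent.Work.MP_0a8b43_nt

lemma h_an : AnalyticOnNhd ℂ (fun z => 1 - W z) univ :=
  (W_diff.const_sub 1).differentiableOn.analyticOnNhd isOpen_univ

lemma FF_nf : MeromorphicNFOn FF univ := by
  have h1 : FF = (fun z => 1 - W z)⁻¹ := rfl
  rw [h1, meromorphicNFOn_inv]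
  exact h_an.meromorphicNFOn

lemma h_ne_punctured (z : ℂ) : ∀ᶠ x in 𝓝[≠] z, 1 - W x ≠ 0 := by
  by_contra hcon
  have h1 : ∃ᶠ x in 𝓝[≠] z, 1 - W x = 0 := by
    intro h; apply hcon
    filter_upwards [h] with x hx using hx
  have h2 := h_an.eqOn_zero_of_preconnected_of_frequently_eq_zero isPreconnected_univ
    (mem_univ z) h1
  have h3 := h2 (mem_univ (1 : ℂ))
  simp [W_one] at h3

lemma isPole_iff {z : ℂ} : IsPole FF z ↔ W z = 1 := by
  constructor
  · intro h
    by_contra hne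
    have h1 : 1 - W z ≠ 0 := fun h2 => hne (sub_eq_zero.mp h2).symm
    have h2 := (FF_an h1).meromorphicOrderAt_nonneg
    exact absurd h (not_lt.mpr h2)
  · intro h
    unfold IsPole
    by_contra hcon
    push Not at hcon
    have h1 := ((FF_nf (mem_univ z)).meromorphicOrderAt_nonneg_iff_analyticAt).mp hcon
    have hc : Tendsto (fun x => FF x * (1 - W x)) (𝓝[≠] z) (𝓝 (FF z * (1 - W z))) := by
      have e1 : ContinuousAt (fun x => FF x * (1 - W x)) z :=
        h1.continuousAt.mul (continuousAt_const.sub W_diff.continuous.continuousAt)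
      exact e1.tendsto.mono_left nhdsWithin_le_nhds
    have hd : Tendsto (fun x => FF x * (1 - W x)) (𝓝[≠] z) (𝓝 1) := by
      apply tendsto_const_nhds.congr'
      filter_upwards [h_ne_punctured z] with x hx
      rw [FF]; field_simp
    have := tendsto_nhds_unique hc hd
    rw [h] at this
    simp at this

lemma not_pole_iff {z : ℂ} : ¬ IsPole FF z ↔ 1 - W z ≠ 0 := by
  rw [isPole_iff, sub_ne_zero, ne_comm]

lemma val_coe {y x : ℂ} (h : val FF y = (x : OnePoint ℂ)) : 1 - W y ≠ 0 ∧ FF y = x := by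
  unfold val at h
  split_ifs at h with h1
  · exact absurd h (by simp)
  · exact ⟨not_pole_iff.mp h1, by simpa using h⟩

lemma val_eq {y : ℂ} (h : 1 - W y ≠ 0) : val FF y = (FF y : OnePoint ℂ) := by
  rw [val, if_neg (not_pole_iff.mpr h)]

/-- all earlier iterates are finite if the `n`-th one is -/
lemma itv_coe {n : ℕ} {y x : ℂ} (hd : DefdAt FF n y) (h : itv FF n y = (x : OnePoint ℂ)) :
    FF^[n] y = x ∧ ∀ k < n, 1 - W (FF^[k] y) ≠ 0 := by
  cases n with
  | zero =>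
    refine ⟨by simpa [itv] using h, fun k hk => absurd hk (by omega)⟩
  | succ n =>
    obtain ⟨h1, h2⟩ := val_coe (y := FF^[n] y) h
    refine ⟨by rw [Function.iterate_succ_apply']; exact h2, fun k hk => ?_⟩
    rcases Nat.lt_succ_iff_lt_or_eq.mp hk with h3 | h3
    · exact not_pole_iff.mp (hd k (by omega))
    · rw [h3]; exact h1

lemma itv_of {n : ℕ} {y : ℂ} (h : ∀ k < n, 1 - W (FF^[k] y) ≠ 0) :
    itv FF n y = (FF^[n] y : OnePoint ℂ) ∧ DefdAt FF n y := by
  refine ⟨?_, fun k hk => not_pole_iff.mpr (h k (by omega))⟩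
  cases n with
  | zero => rfl
  | succ n =>
    show val FF (FF^[n] y) = _
    rw [val_eq (h n (by omega)), Function.iterate_succ_apply']

lemma W_Rr (j : ℕ) : W (Rr j) = 0 := by
  have h1 : q j (Rr j) = 1 := by
    unfold q; rw [div_self (Rr_ne j), one_pow]
  rw [W_VV j, fac, h1, sub_self, zero_pow (by have := kk_pos j; omega), mul_zero]

lemma W_real_large {x : ℝ} (h1 : Real.exp (30 * ll 0) < x) (h2 : x < Real.exp (60 * lev 0)) :
    1 - W x ≠ 0 ∧ FF x ≠ 1 := by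
  have hx : 0 < x := (Real.exp_pos _).trans h1
  have hx0 : (x : ℂ) ≠ 0 := by exact_mod_cast hx.ne'
  have hn : ‖(x : ℂ)‖ = x := by rw [Complex.norm_real, Real.norm_eq_abs, abs_of_pos hx]
  have hl := ll_pos_real 0
  have hL := lev_ge_real 0
  have e1 : 30 * (ll 0 : ℝ) < Real.log x := by rwa [Real.lt_log_iff_exp_lt hx]
  have e2 : Real.log x < 60 * (lev 0 : ℝ) := by rwa [Real.log_lt_iff_lt_exp hx]
  have h3 := om_large hx0 (j := 0) (by rw [hn]; linarith) (by rw [hn]; linarith)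
  have h4 := FF_ne_of_rad h3.1
  refine ⟨h4.1, fun h5 => ?_⟩
  have h6 := (rad_cyl h3.1).2.1
  rw [h5, norm_one] at h6
  norm_num at h6

theorem FF_trans : TransMero FF := by
  refine ⟨FF_nf, ?_⟩
  rintro ⟨p, r, hr, h⟩
  -- at the radii
  have h1 : ∀ j, (p - r).eval (Rr j : ℂ) = 0 := by
    intro j
    have h2 := h (Rr j) (not_pole_iff.mpr (by rw [W_Rr]; simp))
    have h3 : FF (Rr j) = 1 := by rw [FF, W_Rr]; simp
    rw [h3, one_mul] at h2
    rw [Polynomial.eval_sub, h2, sub_self]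
  have hinj : Function.Injective (fun j => (Rr j : ℂ)) := by
    intro i j hij
    have hij' : (Rr i : ℂ) = Rr j := hij
    have h2 : Rr i = Rr j := by exact_mod_cast hij'
    have h3 : (rho i : ℝ) = rho j := Real.exp_injective h2
    exact rho_strictMono.injective (by exact_mod_cast h3)
  have h2 : p - r = 0 := by
    apply Polynomial.eq_zero_of_infinite_isRoot
    exact (Set.infinite_range_of_injective hinj).mono (by
      rintro _ ⟨j, rfl⟩; exact h1 j)
  have h3 : p = r := sub_eq_zero.mp h2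
  apply hr
  apply Polynomial.eq_zero_of_infinite_isRoot
  have hlt : Real.exp (30 * ll 0) < Real.exp (60 * lev 0) := by
    apply Real.exp_lt_exp.mpr
    have := ll_le_real 0
    have := ll_pos_real 0
    linarith
  have hinf : (Set.image (fun x : ℝ => (x : ℂ))
      (Ioo (Real.exp (30 * ll 0)) (Real.exp (60 * lev 0)))).Infinite :=
    (Set.Ioo_infinite hlt).image (Complex.ofReal_injective.injOn)
  refine hinf.mono ?_
  rintro _ ⟨x, ⟨hx1, hx2⟩, rfl⟩
  obtain ⟨e1, e2⟩ := W_real_large hx1 hx2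
  have h4 := h x (not_pole_iff.mpr e1)
  rw [h3] at h4
  have h5 : (FF x - 1) * r.eval (x : ℂ) = 0 := by rw [sub_mul, h4]; ring
  rcases mul_eq_zero.mp h5 with h6 | h6
  · exact absurd (sub_eq_zero.mp h6) e2
  · exact h6

/-! ### the Fatou set -/

/-- large pieces -/
def UL (j : ℕ) : Set ℂ := {z | z ≠ 0 ∧ 288 / 10 * (ll j : ℝ) < Real.log ‖z‖ ∧
  Real.log ‖z‖ < 672 / 10 * lev j}
/-- small pieces -/
def US (j : ℕ) : Set ℂ := {z | z ≠ 0 ∧ (ll j : ℝ) < -Real.log ‖z‖ ∧ -Real.log ‖z‖ < 2 * lev j}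

lemma ulus_open_aux (a b : ℝ) : IsOpen {z : ℂ | z ≠ 0 ∧ a < Real.log ‖z‖ ∧ Real.log ‖z‖ < b} := by
  have : {z : ℂ | z ≠ 0 ∧ a < Real.log ‖z‖ ∧ Real.log ‖z‖ < b} =
      {z : ℂ | Real.exp a < ‖z‖ ∧ ‖z‖ < Real.exp b} := by
    ext z
    constructor
    · rintro ⟨h0, h1, h2⟩
      have hp := norm_pos_iff.mpr h0
      exact ⟨by rwa [← Real.lt_log_iff_exp_lt hp], by rwa [← Real.log_lt_iff_lt_exp hp]⟩
    · rintro ⟨h1, h2⟩
      have hp : 0 < ‖z‖ := (Real.exp_pos _).trans h1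
      exact ⟨norm_pos_iff.mp hp, by rwa [Real.lt_log_iff_exp_lt hp],
        by rwa [Real.log_lt_iff_lt_exp hp]⟩
  rw [this]
  exact (isOpen_lt continuous_const continuous_norm).inter
    (isOpen_lt continuous_norm continuous_const)

lemma UL_open (j : ℕ) : IsOpen (UL j) := ulus_open_aux _ _

lemma US_open (j : ℕ) : IsOpen (US j) := by
  have : US j = {z : ℂ | z ≠ 0 ∧ -(2 * (lev j : ℝ)) < Real.log ‖z‖ ∧
      Real.log ‖z‖ < -(ll j : ℝ)} := by
    ext z
    constructor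
    · rintro ⟨h0, h1, h2⟩; exact ⟨h0, by linarith, by linarith⟩
    · rintro ⟨h0, h1, h2⟩; exact ⟨h0, by linarith, by linarith⟩
  rw [this]
  exact ulus_open_aux _ _

lemma UL_step {j : ℕ} {z : ℂ} (h : z ∈ UL j) : 1 - W z ≠ 0 ∧ FF z ∈ US (j + 1) := by
  obtain ⟨e1, e2, e3⟩ := om_large h.1 h.2.1 h.2.2
  obtain ⟨e4, e5⟩ := FF_ne_of_rad e1
  have := ll_pos_real (j + 1)
  have := lev_ge_real (j + 1)
  exact ⟨e4, e5, by linarith, by linarith⟩

lemma US_step {j : ℕ} {z : ℂ} (h : z ∈ US j) : 1 - W z ≠ 0 ∧ FF z ∈ UL j := by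
  obtain ⟨e1, e2⟩ := om_small h.1 h.2.1 h.2.2
  have hl := ll_pos_real j
  have hL := lev_ge_real j
  have h4 : ‖z‖ ≤ 4 := by
    have := norm_le_of_log h.1 (x := 0) (by linarith [h.2.1])
    rw [Real.exp_zero] at this; linarith
  have e3 := (core_facts h4 h.1).1
  exact ⟨e3, inv_ne_zero e3, by linarith, by linarith⟩

/-- the set containing the `n`-th iterate of a point of `UL j` -/
lemma UL_iter {j : ℕ} {z : ℂ} (h : z ∈ UL j) (n : ℕ) :
    FF^[2 * n] z ∈ UL (j + n) ∧ FF^[2 * n + 1] z ∈ US (j + n + 1) := by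
  induction n with
  | zero => exact ⟨h, (UL_step h).2⟩
  | succ n ih =>
    have h1 : FF^[2 * (n + 1)] z ∈ UL (j + (n + 1)) := by
      rw [show 2 * (n + 1) = (2 * n + 1) + 1 by ring, Function.iterate_succ_apply']
      exact (US_step ih.2).2
    refine ⟨h1, ?_⟩
    rw [Function.iterate_succ_apply']
    exact (UL_step h1).2

lemma US_iter {j : ℕ} {z : ℂ} (h : z ∈ US j) (n : ℕ) :
    FF^[2 * n] z ∈ US (j + n) ∧ FF^[2 * n + 1] z ∈ UL (j + n) := by
  induction n with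
  | zero => exact ⟨h, (US_step h).2⟩
  | succ n ih =>
    have h1 : FF^[2 * (n + 1)] z ∈ US (j + (n + 1)) := by
      rw [show 2 * (n + 1) = (2 * n + 1) + 1 by ring, Function.iterate_succ_apply']
      exact (UL_step ih.2).2
    refine ⟨h1, ?_⟩
    rw [Function.iterate_succ_apply']
    exact (US_step h1).2

lemma ll_ge_nat (j : ℕ) : (j : ℝ) ≤ ll j := by
  have h1 := ll_ge j
  have h2 := rho_ge_add j
  have : j ≤ ll j := by omega
  exact_mod_cast this

/-- a coarse description: either large or small, in a zone of index at least `n` -/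
lemma UL_far {j : ℕ} {z : ℂ} (h : z ∈ UL j) : (j : ℝ) < ‖z‖ := by
  have h1 := ll_ge_nat j
  have h2 := h.2.1
  have h3 := ll_pos_real j
  have h4 : (j : ℝ) < Real.log ‖z‖ := by linarith
  have h5 := Real.log_le_sub_one_of_pos (norm_pos_iff.mpr h.1)
  linarith

lemma US_near {j : ℕ} {z : ℂ} (h : z ∈ US j) : ‖z‖ < 1 / (j + 1) := by
  have h1 := ll_ge_nat j
  have h2 := h.2.1
  have hp := norm_pos_iff.mpr h.1
  have h5 := Real.log_le_sub_one_of_pos (inv_pos.mpr hp)
  rw [Real.log_inv] at h5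
  have h6 : (j : ℝ) + 1 < ‖z‖⁻¹ := by linarith
  rw [lt_inv_comm₀ (by positivity) hp] at h6
  rwa [one_div]

/-- parity form -/
lemma Om_iter {V : Set ℂ} (hV : (∃ j, V = UL j) ∨ (∃ j, V = US j)) :
    (∀ z ∈ V, ∀ n, 1 - W (FF^[n] z) ≠ 0) ∧
    ((∀ z ∈ V, ∀ n : ℕ, (n : ℝ) < ‖FF^[2 * n] z‖) ∧
      (∀ z ∈ V, ∀ n : ℕ, ‖FF^[2 * n + 1] z‖ < 1 / (n + 1)) ∨
    (∀ z ∈ V, ∀ n : ℕ, (n : ℝ) < ‖FF^[2 * n + 1] z‖) ∧
      (∀ z ∈ V, ∀ n : ℕ, ‖FF^[2 * n] z‖ < 1 / (n + 1))) := by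
  have hpar : ∀ n : ℕ, ∃ k, n = 2 * k ∨ n = 2 * k + 1 := by
    intro n
    refine ⟨n / 2, ?_⟩
    omega
  have hbound : ∀ j n : ℕ, (1 : ℝ) / (((j + n : ℕ) : ℝ) + 1) ≤ 1 / (n + 1) := by
    intro j n
    apply one_div_le_one_div_of_le (by positivity)
    push_cast
    have : (0 : ℝ) ≤ j := by positivity
    linarith
  rcases hV with ⟨j, rfl⟩ | ⟨j, rfl⟩
  · refine ⟨fun z hz n => ?_, Or.inl ⟨fun z hz n => ?_, fun z hz n => ?_⟩⟩
    · obtain ⟨k, rfl | rfl⟩ := hpar n
      · exact (UL_step (UL_iter hz k).1).1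
      · exact (US_step (UL_iter hz k).2).1
    · have h1 := UL_far (UL_iter hz n).1
      push_cast at h1
      have : (0 : ℝ) ≤ j := by positivity
      linarith
    · have h1 := US_near (UL_iter hz n).2
      have h2 := hbound (j + 1) n
      push_cast at h1 h2
      refine h1.trans_le (le_trans (le_of_eq ?_) h2)
      ring_nf
  · refine ⟨fun z hz n => ?_, Or.inr ⟨fun z hz n => ?_, fun z hz n => ?_⟩⟩
    · obtain ⟨k, rfl | rfl⟩ := hpar n
      · exact (US_step (US_iter hz k).1).1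
      · exact (UL_step (US_iter hz k).2).1
    · have h1 := UL_far (US_iter hz n).2
      push_cast at h1
      have : (0 : ℝ) ≤ j := by positivity
      linarith
    · have h1 := US_near (US_iter hz n).1
      exact h1.trans_le (hbound j n)

lemma chord_inf {z : ℂ} {R : ℝ} (hR : 0 < R) (h : R < ‖z‖) : chord (z : OnePoint ℂ) ∞ < 2 / R := by
  show 2 / √(1 + ‖z‖ ^ 2) < 2 / R
  apply div_lt_div_of_pos_left (by norm_num) hR
  apply Real.lt_sqrt_of_sq_lt
  nlinarith

lemma chord_coe_le (z w : ℂ) : chord (z : OnePoint ℂ) (w : OnePoint ℂ) ≤ 2 * ‖z - w‖ := by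
  show 2 * ‖z - w‖ / (√(1 + ‖z‖ ^ 2) * √(1 + ‖w‖ ^ 2)) ≤ 2 * ‖z - w‖
  apply div_le_self (by positivity)
  have h1 : 1 ≤ √(1 + ‖z‖ ^ 2) := Real.one_le_sqrt.mpr (by nlinarith [norm_nonneg z])
  have h2 : 1 ≤ √(1 + ‖w‖ ^ 2) := Real.one_le_sqrt.mpr (by nlinarith [norm_nonneg w])
  nlinarith

lemma chord_self (x : OnePoint ℂ) : chord x x = 0 := by
  cases x with
  | infty => rfl
  | coe z =>
    show 2 * ‖z - z‖ / (√(1 + ‖z‖ ^ 2) * √(1 + ‖z‖ ^ 2)) = 0
    simp

/-- subsequences: constant, or tending to infinity with constant parity -/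
lemma subseq_cases (m : ℕ → ℕ) (M : ℕ) : ∃ φ : ℕ → ℕ, StrictMono φ ∧
    ((∃ v, ∀ k, m (φ k) = v) ∨
      (∃ p : ℕ → ℕ, Tendsto p atTop atTop ∧ ((∀ k, m (φ k) = M + 2 * p k) ∨
        (∀ k, m (φ k) = M + (2 * p k + 1))))) := by
  by_cases h : ∃ v, ∃ᶠ k in atTop, m k = v
  · obtain ⟨v, hv⟩ := h
    obtain ⟨φ, hφ, hφ2⟩ := extraction_of_frequently_atTop hv
    exact ⟨φ, hφ, Or.inl ⟨v, hφ2⟩⟩
  · push Not at h
    have htend : Tendsto m atTop atTop := by
      rw [tendsto_atTop_atTop]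
      intro b
      have h1 : ∀ᶠ k in atTop, ∀ v ∈ Finset.range b, m k ≠ v := by
        rw [Filter.eventually_all_finset]
        intro v _
        exact h v
      obtain ⟨N, hN⟩ := eventually_atTop.mp h1
      refine ⟨N, fun k hk => ?_⟩
      by_contra hcon
      push Not at hcon
      exact hN k hk (m k) (Finset.mem_range.mpr hcon) rfl
    have key : ∀ e : ℕ, (∃ᶠ k in atTop, (m k + M) % 2 = e) → ∃ φ : ℕ → ℕ, StrictMono φ ∧
        (∀ k, M ≤ m (φ k)) ∧ (∀ k, (m (φ k) + M) % 2 = e) := by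
      intro e he
      have h1 : ∃ᶠ k in atTop, (m k + M) % 2 = e ∧ M ≤ m k :=
        he.and_eventually (htend.eventually_ge_atTop M)
      obtain ⟨φ, hφ, hφ2⟩ := extraction_of_frequently_atTop h1
      exact ⟨φ, hφ, fun k => (hφ2 k).2, fun k => (hφ2 k).1⟩
    by_cases h0 : ∃ᶠ k in atTop, (m k + M) % 2 = 0
    · obtain ⟨φ, hφ, h1, h2⟩ := key 0 h0
      refine ⟨φ, hφ, Or.inr ⟨fun k => (m (φ k) - M) / 2, ?_, Or.inl (fun k => ?_)⟩⟩
      rotate_left
      · have e1 := h1 k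
        have e2 := h2 k
        show m (φ k) = M + 2 * ((m (φ k) - M) / 2)
        omega
      · rw [tendsto_atTop_atTop]
        intro b
        obtain ⟨N, hN⟩ := (tendsto_atTop_atTop.mp (htend.comp hφ.tendsto_atTop)) (M + 2 * b)
        refine ⟨N, fun k hk => ?_⟩
        have := hN k hk
        simp only [Function.comp_apply] at this
        omega
    · have h0' : ∃ᶠ k in atTop, (m k + M) % 2 = 1 := by
        have : ∀ᶠ k in atTop, (m k + M) % 2 = 1 := by
          rw [not_frequently] at h0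
          filter_upwards [h0] with k hk
          omega
        exact this.frequently
      obtain ⟨φ, hφ, h1, h2⟩ := key 1 h0'
      refine ⟨φ, hφ, Or.inr ⟨fun k => (m (φ k) - M) / 2, ?_, Or.inr (fun k => ?_)⟩⟩
      rotate_left
      · have e1 := h1 k
        have e2 := h2 k
        show m (φ k) = M + (2 * ((m (φ k) - M) / 2) + 1)
        omega
      · rw [tendsto_atTop_atTop]
        intro b
        obtain ⟨N, hN⟩ := (tendsto_atTop_atTop.mp (htend.comp hφ.tendsto_atTop)) (M + 2 * b)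
        refine ⟨N, fun k hk => ?_⟩
        have := hN k hk
        simp only [Function.comp_apply] at this
        omega

lemma Om_mem {z : ℂ} (h : Om z) : ∃ V : Set ℂ, ((∃ j, V = UL j) ∨ (∃ j, V = US j)) ∧ z ∈ V := by
  obtain ⟨h0, j, h | h⟩ := h
  · exact ⟨UL j, Or.inl ⟨j, rfl⟩, h0, h.1, h.2⟩
  · exact ⟨US j, Or.inr ⟨j, rfl⟩, h0, h.1, h.2⟩

lemma iter_cont {M : ℕ} {z : ℂ} (h : ∀ k < M, 1 - W (FF^[k] z) ≠ 0) :
    ∀ k ≤ M, ContinuousAt (FF^[k]) z := by
  intro k
  induction k with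
  | zero => intro _; exact continuousAt_id
  | succ k ih =>
    intro hk
    rw [Function.iterate_succ']
    exact ContinuousAt.comp (FF_an (h k (by omega))).continuousAt (ih (by omega))

/-- points some iterate of which lies in `Om` are in the Fatou set -/
theorem fatou_of {M : ℕ} {z : ℂ} (h : ∀ k < M, 1 - W (FF^[k] z) ≠ 0) (hO : Om (FF^[M] z)) :
    z ∈ FatouSet FF := by
  obtain ⟨V, hV, hzV⟩ := Om_mem hO
  have hVo : IsOpen V := by
    rcases hV with ⟨j, rfl⟩ | ⟨j, rfl⟩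
    · exact UL_open j
    · exact US_open j
  obtain ⟨hV1, hV2⟩ := Om_iter hV
  have hc := iter_cont h
  have hev : ∀ᶠ w in 𝓝 z, (∀ k ∈ Finset.range M, 1 - W (FF^[k] w) ≠ 0) ∧ FF^[M] w ∈ V := by
    apply Filter.Eventually.and
    · rw [Filter.eventually_all_finset]
      intro k hk
      have hk' := Finset.mem_range.mp hk
      have h1 : ContinuousAt (fun w => 1 - W (FF^[k] w)) z :=
        continuousAt_const.sub (W_diff.continuous.continuousAt.comp (hc k hk'.le))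
      exact h1.eventually_ne (h k hk')
    · exact (hc M le_rfl).eventually_mem (hVo.mem_nhds hzV)
  obtain ⟨U, hU, hUo, hzU⟩ := eventually_nhds_iff.mp hev
  have hnp : ∀ w ∈ U, ∀ n, 1 - W (FF^[n] w) ≠ 0 := by
    intro w hw n
    rcases lt_or_ge n M with h1 | h1
    · exact (hU w hw).1 n (Finset.mem_range.mpr h1)
    · obtain ⟨k, rfl⟩ : ∃ k, n = k + M := ⟨n - M, by omega⟩
      rw [Function.iterate_add_apply]
      exact hV1 _ (hU w hw).2 k
  have hitv : ∀ w ∈ U, ∀ n, itv FF n w = (FF^[n] w : OnePoint ℂ) := by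
    intro w hw n
    exact (itv_of (fun k _ => hnp w hw k)).1
  refine ⟨U, hUo, hzU, fun n w hw => (itv_of (fun k _ => hnp w hw k)).2, ?_⟩
  intro m
  obtain ⟨φ, hφ, hφ2⟩ := subseq_cases m M
  refine ⟨φ, hφ, ?_⟩
  have hinf : ∀ p : ℕ → ℕ, Tendsto p atTop atTop → (∀ w ∈ U, ∀ k, ((p k : ℕ) : ℝ) < ‖FF^[m (φ k)] w‖) →
      ∃ g : ℂ → OnePoint ℂ, ∀ K : Set ℂ, K ⊆ U → IsCompact K → ∀ ε : ℝ, 0 < ε →
        ∀ᶠ k in atTop, ∀ w ∈ K, chord (itv FF (m (φ k)) w) (g w) < ε := by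
    intro p hp hb
    refine ⟨fun _ => ∞, fun K hKU _ ε hε => ?_⟩
    obtain ⟨N, hN⟩ := exists_nat_gt (2 / ε)
    filter_upwards [hp.eventually_ge_atTop (N + 1)] with k hk w hw
    rw [hitv w (hKU hw)]
    have h1 := hb w (hKU hw) k
    have h2 : ((N + 1 : ℕ) : ℝ) ≤ p k := by exact_mod_cast hk
    push_cast at h2
    have h4 : 0 < (p k : ℝ) := by
      have : (0 : ℝ) ≤ N := by positivity
      linarith
    have h3 := chord_inf h4 h1
    refine h3.trans ?_
    rw [div_lt_iff₀ h4]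
    have h5 : 2 / ε < p k := by linarith
    rw [div_lt_iff₀ hε] at h5
    linarith
  have hzero : ∀ p : ℕ → ℕ, Tendsto p atTop atTop →
      (∀ w ∈ U, ∀ k, ‖FF^[m (φ k)] w‖ < 1 / ((p k : ℕ) + 1)) →
      ∃ g : ℂ → OnePoint ℂ, ∀ K : Set ℂ, K ⊆ U → IsCompact K → ∀ ε : ℝ, 0 < ε →
        ∀ᶠ k in atTop, ∀ w ∈ K, chord (itv FF (m (φ k)) w) (g w) < ε := by
    intro p hp hb
    refine ⟨fun _ => ((0 : ℂ) : OnePoint ℂ), fun K hKU _ ε hε => ?_⟩
    obtain ⟨N, hN⟩ := exists_nat_gt (2 / ε)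
    filter_upwards [hp.eventually_ge_atTop (N + 1)] with k hk w hw
    rw [hitv w (hKU hw)]
    have h1 := hb w (hKU hw) k
    have h2 : ((N + 1 : ℕ) : ℝ) ≤ p k := by exact_mod_cast hk
    push_cast at h2
    refine (chord_coe_le _ _).trans_lt ?_
    rw [sub_zero]
    have h4 : 0 < (p k : ℝ) + 1 := by positivity
    rw [lt_div_iff₀ h4] at h1
    rw [div_lt_iff₀ hε] at hN
    have h5 := norm_nonneg (FF^[m (φ k)] w)
    by_contra hcon
    push Not at hcon
    have h6 : (N : ℝ) * ε ≤ (p k + 1) * (2 * ‖FF^[m (φ k)] w‖) := by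
      apply mul_le_mul (by linarith) hcon hε.le (by positivity)
    linarith
  rcases hφ2 with ⟨v, hv⟩ | ⟨p, hp, hp2⟩
  · refine ⟨fun w => itv FF v w, fun K hKU _ ε hε => ?_⟩
    filter_upwards with k w hw
    rw [hv k, chord_self]; exact hε
  · rcases hV2 with ⟨a1, a2⟩ | ⟨a1, a2⟩
    · rcases hp2 with hp2 | hp2
      · apply hinf p hp
        intro w hw k
        rw [hp2 k, add_comm, Function.iterate_add_apply]
        exact a1 _ (hU w hw).2 _
      · apply hzero p hp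
        intro w hw k
        rw [hp2 k, add_comm, Function.iterate_add_apply]
        exact a2 _ (hU w hw).2 _
    · rcases hp2 with hp2 | hp2
      · apply hzero p hp
        intro w hw k
        rw [hp2 k, add_comm, Function.iterate_add_apply]
        exact a2 _ (hU w hw).2 _
      · apply hinf p hp
        intro w hw k
        rw [hp2 k, add_comm, Function.iterate_add_apply]
        exact a1 _ (hU w hw).2 _

end Pool.Agent.Work.MP_0a8b43_nt
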