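import Mathlib
import Pool.Agent.Work.MP_0a8b43_nt.Mero

set_option autoImplicit false

open Complex Set Filter Topology MeasureTheory
open scoped ENNReal NNReal OnePoint

namespace Pool.Agent.Work.MP_0a8b43_nt

/-- points of the plane at the level of the barriers lie in `Om2` -/
lemma barrier_hi {y : ℂ} (hy : y ≠ 0) (j : ℕ) : Real.log ‖y‖ = 40 * lev j → Om2 y := by
  intro h
  have h1 := ll_le_real j
  have h2 := lev_ge_real j
  exact ⟨hy, j, Or.inl ⟨by rw [h]; linarith, by rw [h]; linarith⟩⟩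

lemma barrier_lo {y : ℂ} (hy : y ≠ 0) (j : ℕ) : Real.log ‖y‖ = -(lev j : ℝ) → Om2 y := by
  intro h
  have h1 := ll_le_real j
  have h2 := lev_ge_real j
  exact ⟨hy, j, Or.inr ⟨by rw [h]; linarith, by rw [h]; linarith⟩⟩

/-- the gap lemma -/
lemma gap {G : ℂ → ℂ} {R : ℝ} (hR : 1 < R) (hG : DifferentiableOn ℂ G (Metric.ball 0 R))
    (hG0 : ∀ ζ ∈ Metric.ball (0 : ℂ) R, G ζ ≠ 0) {ζ₀ : ℂ} (hζ₀ : ‖ζ₀‖ ≤ 1 / 2) {j : ℕ}
    (hj : |Real.log ‖G ζ₀‖| < lev j) (hZ : ∀ ζ : ℂ, ‖ζ‖ = 1 → ¬ Om2 (G ζ)) :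
    ∀ ζ : ℂ, ‖ζ‖ = 1 → -(lev j : ℝ) < Real.log ‖G ζ‖ ∧ Real.log ‖G ζ‖ < 40 * lev j := by
  have hsub : Metric.closedBall (0 : ℂ) 1 ⊆ Metric.ball 0 R := Metric.closedBall_subset_ball hR
  have hmem : ∀ θ : ℝ, circleMap 0 1 θ ∈ Metric.ball (0 : ℂ) R := fun θ => hsub (by simp)
  have hcl : DiffContOnCl ℂ G (Metric.ball 0 1) := (hG.mono hsub).diffContOnCl_ball (le_refl _)
  have hclinv : DiffContOnCl ℂ (fun ζ => (G ζ)⁻¹) (Metric.ball 0 1) := by
    have : DifferentiableOn ℂ (fun ζ => (G ζ)⁻¹) (Metric.closedBall 0 1) :=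
      (hG.mono hsub).inv (fun ζ hζ => hG0 ζ (hsub hζ))
    exact this.diffContOnCl_ball (le_refl _)
  have hu : Continuous (fun θ : ℝ => Real.log ‖G (circleMap 0 1 θ)‖) := by
    have h1 : Continuous (fun θ : ℝ => ‖G (circleMap 0 1 θ)‖) :=
      (hG.continuousOn.comp_continuous (continuous_circleMap 0 1) hmem).norm
    exact h1.log (fun θ => (norm_pos_iff.mpr (hG0 _ (hmem θ))).ne')
  have hL := lev_ge_real j
  have habs := abs_lt.mp hj
  have hζc : ζ₀ ∈ closure (Metric.ball (0 : ℂ) 1) := by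
    rw [closure_ball (0 : ℂ) one_ne_zero]
    simp; linarith
  have hζp : 0 < ‖G ζ₀‖ := norm_pos_iff.mpr (hG0 _ (hsub (by simp; linarith)))
  have hA : ∃ θ : ℝ, Real.log ‖G (circleMap 0 1 θ)‖ ≤ 40 * lev j := by
    by_contra hcon
    push Not at hcon
    have h1 := Complex.norm_le_of_forall_mem_frontier_norm_le (U := Metric.ball (0 : ℂ) 1)
      Metric.isBounded_ball hclinv (C := Real.exp (-(40 * lev j))) (by
        intro ζ hζ
        rw [frontier_ball (0 : ℂ) one_ne_zero] at hζ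
        have hζ1 : ‖ζ‖ = 1 := by simpa using hζ
        obtain ⟨θ, hθ⟩ : ∃ θ : ℝ, circleMap 0 1 θ = ζ := by
          refine ⟨ζ.arg, ?_⟩
          rw [circleMap, zero_add, Complex.ofReal_one, one_mul]
          have := Complex.norm_mul_exp_arg_mul_I ζ
          rw [hζ1, Complex.ofReal_one, one_mul] at this
          exact this
        have h2 := (hcon θ).le
        rw [hθ] at h2
        have hp : 0 < ‖G ζ‖ := norm_pos_iff.mpr (hG0 _ (hsub (by simp [hζ1])))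
        rw [Real.le_log_iff_exp_le hp] at h2
        rw [norm_inv, Real.exp_neg]
        exact inv_anti₀ (Real.exp_pos _) h2) hζc
    rw [norm_inv, Real.exp_neg, inv_le_inv₀ hζp (Real.exp_pos _), ← Real.le_log_iff_exp_le hζp] at h1
    linarith
  have hB : ∃ θ : ℝ, -(lev j : ℝ) ≤ Real.log ‖G (circleMap 0 1 θ)‖ := by
    by_contra hcon
    push Not at hcon
    have h1 := Complex.norm_le_of_forall_mem_frontier_norm_le (U := Metric.ball (0 : ℂ) 1)
      Metric.isBounded_ball hcl (C := Real.exp (-(lev j : ℝ))) (by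
        intro ζ hζ
        rw [frontier_ball (0 : ℂ) one_ne_zero] at hζ
        have hζ1 : ‖ζ‖ = 1 := by simpa using hζ
        obtain ⟨θ, hθ⟩ : ∃ θ : ℝ, circleMap 0 1 θ = ζ := by
          refine ⟨ζ.arg, ?_⟩
          rw [circleMap, zero_add, Complex.ofReal_one, one_mul]
          have := Complex.norm_mul_exp_arg_mul_I ζ
          rw [hζ1, Complex.ofReal_one, one_mul] at this
          exact this
        have h2 := (hcon θ).le
        rw [hθ] at h2
        have hp : 0 < ‖G ζ‖ := norm_pos_iff.mpr (hG0 _ (hsub (by simp [hζ1])))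
        rwa [Real.log_le_iff_le_exp hp] at h2) hζc
    rw [← Real.log_le_iff_le_exp hζp] at h1
    linarith
  have havoid : ∀ θ : ℝ, Real.log ‖G (circleMap 0 1 θ)‖ ≠ 40 * lev j ∧
      Real.log ‖G (circleMap 0 1 θ)‖ ≠ -(lev j : ℝ) := by
    intro θ
    have h0 := hG0 _ (hmem θ)
    exact ⟨fun h => hZ _ (by simp) (barrier_hi h0 j h), fun h => hZ _ (by simp) (barrier_lo h0 j h)⟩
  intro ζ hζ
  obtain ⟨θ, hθ⟩ : ∃ θ : ℝ, circleMap 0 1 θ = ζ := by
    refine ⟨ζ.arg, ?_⟩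
    rw [circleMap, zero_add, Complex.ofReal_one, one_mul]
    have := Complex.norm_mul_exp_arg_mul_I ζ
    rw [hζ, Complex.ofReal_one, one_mul] at this
    exact this
  rw [← hθ]
  constructor
  · by_contra hcon
    push Not at hcon
    obtain ⟨θ', hθ'⟩ := mem_range_of_exists_le_of_exists_ge hu ⟨θ, hcon⟩ hB
    exact (havoid θ').2 hθ'
  · by_contra hcon
    push Not at hcon
    obtain ⟨θ', hθ'⟩ := mem_range_of_exists_le_of_exists_ge hu hA ⟨θ, hcon⟩
    exact (havoid θ').1 hθ'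

lemma wB_anti {i j : ℕ} (h : i ≤ j) : wB j ≤ wB i := by
  unfold wB
  have h1 : (sl (i + 1) : ℝ) ≤ sl (j + 1) := by exact_mod_cast sl_mono (by omega : i + 1 ≤ j + 1)
  have h2 := sl_ge_real (i + 1)
  have := Real.rpow_le_rpow_of_nonpos (by linarith) h1 (by norm_num : -(3 / 4 : ℝ) ≤ 0)
  linarith

lemma om_lower {y : ℂ} {j : ℕ} (h1 : -(lev j : ℝ) < Real.log ‖y‖) (h2 : Real.log ‖y‖ < 40 * lev j) :
    wB j ≤ om y := by
  by_cases hB : ∃ i, InB i y
  · obtain ⟨i, hi⟩ := hB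
    rw [om_InB hi]
    apply wB_anti
    by_contra hcon
    push Not at hcon
    have h3 := lev_succ_big_real j
    have h4 := lev_mono_real (i := j + 1) (j := i) hcon
    have h5 := lev_ge_real j
    rcases hi.2 with ⟨a, b⟩ | ⟨a, b⟩ <;> linarith
  · rw [om_one hB]; exact wB_le j

/-- families of branches -/
def GG (ψ : ℂ → ℂ) (j n : ℕ) : Set (ℂ → ℂ) :=
  {G | Fam FF ψ n G ∧ ∀ ζ : ℂ, ‖ζ‖ = 1 → ENNReal.ofReal (wB j / 4) ≤ gs (G ζ) ∧
    ‖G ζ‖ ≤ Real.exp (40 * lev j)}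

/-- limsup sets -/
def EE (ψ : ℂ → ℂ) (j : ℕ) : Set ℂ :=
  {z | ∃ᶠ n in atTop, ∃ G ∈ GG ψ j n, z ∈ G '' Metric.closedBall 0 (1 / 2)}

lemma haus_EE {ψ : ℂ → ℂ} (hψc : ContinuousOn ψ (Metric.sphere 0 1))
    (hψZ : ∀ ζ : ℂ, ‖ζ‖ = 1 → ψ ζ ∈ ZZ) {C : ℝ} (hψd : ∀ ζ : ℂ, ‖ζ‖ = 1 → ‖deriv ψ ζ‖ ≤ C)
    (hψ0 : ∀ ζ : ℂ, ‖ζ‖ = 1 → deriv ψ ζ ≠ 0) (j : ℕ) :
    Measure.hausdorffMeasure (7 / 4) (EE ψ j) = 0 := by
  have hcomp : IsCompact (Metric.sphere (0 : ℂ) 1) := isCompact_sphere 0 1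
  have hne : (Metric.sphere (0 : ℂ) 1).Nonempty := ⟨1, by simp⟩
  obtain ⟨ζ₁, hζ₁, hmin₁⟩ := hcomp.exists_isMinOn hne hψc.norm
  have hψc2 : ContinuousOn (fun ζ => ‖ψ ζ - 1‖) (Metric.sphere 0 1) :=
    (hψc.sub continuousOn_const).norm
  obtain ⟨ζ₂, hζ₂, hmin₂⟩ := hcomp.exists_isMinOn hne hψc2
  have hs : ∀ ζ : ℂ, ‖ζ‖ = 1 → ζ ∈ Metric.sphere (0 : ℂ) 1 := fun ζ h => by simpa using h
  have hs' : ∀ ζ ∈ Metric.sphere (0 : ℂ) 1, ‖ζ‖ = 1 := fun ζ h => by simpa using h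
  have hp1 : 0 < ‖ψ ζ₁‖ := norm_pos_iff.mpr (hψZ ζ₁ (hs' _ hζ₁)).1
  have hp2 : 0 < ‖ψ ζ₂ - 1‖ := norm_pos_iff.mpr (sub_ne_zero.mpr (hψZ ζ₂ (hs' _ hζ₂)).2.1)
  set ε := min ‖ψ ζ₂ - 1‖ 1 with hε
  have hε0 : 0 < ε := lt_min hp2 one_pos
  have hε1 : ε ≤ 1 := min_le_right _ _
  have hw := wB_pos j
  refine haus_zero good_main super_main (by norm_num) (GG ψ j) (fun n G hG => hG.1) hψZ hψd hψ0
    (cψ := ‖ψ ζ₁‖) hp1 (fun ζ hζ => hmin₁ (hs ζ hζ))
    (H := ENNReal.ofReal 1 + ENNReal.ofReal (Real.exp (1000 * r1)) *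
      ENNReal.ofReal (ε ^ (-(7 / 4 : ℝ)) * tt)) ?_ ?_
    (c1 := ENNReal.ofReal (wB j / 4)) ?_ (C1 := Real.exp (40 * lev j)) (Real.exp_pos _)
    (fun n G hG ζ hζ => hG.2 ζ hζ) (fun z hz => hz)
  · exact ENNReal.add_ne_top.mpr ⟨ENNReal.ofReal_ne_top,
      ENNReal.mul_ne_top ENNReal.ofReal_ne_top ENNReal.ofReal_ne_top⟩
  · intro ζ hζ
    rw [hts]
    gcongr
    · exact om_le _
    · rw [ex]
      split_ifs with h
      · gcongr
        apply Xs_le hε0 hε1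
        exact (min_le_left _ _).trans (hmin₂ (hs ζ hζ))
      · exact zero_le
  · exact (ENNReal.ofReal_pos.mpr (by positivity)).ne'

/-- the circle maps -/
def psiC (c : ℂ) (ρ : ℝ) (ζ : ℂ) : ℂ := c + ρ * ζ

/-- the caps -/
noncomputable def psiI (i : ℕ) (ζ : ℂ) : ℂ := Rr i / ζ

lemma psiC_deriv (c : ℂ) (ρ : ℝ) (ζ : ℂ) : HasDerivAt (psiC c ρ) (ρ : ℂ) ζ := by
  have := ((hasDerivAt_id ζ).const_mul (ρ : ℂ)).const_add c
  rw [mul_one] at this
  exact this

lemma haus_psiC {c : ℂ} {ρ : ℝ} (hρ : 0 < ρ) (hZ : ∀ ζ : ℂ, ‖ζ‖ = 1 → psiC c ρ ζ ∈ ZZ) (j : ℕ) :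
    Measure.hausdorffMeasure (7 / 4) (EE (psiC c ρ) j) = 0 := by
  refine haus_EE (C := ρ) ?_ hZ ?_ ?_ j
  · unfold psiC; fun_prop
  · intro ζ _
    rw [(psiC_deriv c ρ ζ).deriv, Complex.norm_real, Real.norm_eq_abs, abs_of_pos hρ]
  · intro ζ _
    rw [(psiC_deriv c ρ ζ).deriv]
    exact_mod_cast hρ.ne'

lemma psiI_ZZ (i : ℕ) {ζ : ℂ} (hζ : ‖ζ‖ = 1) : psiI i ζ ∈ ZZ := by
  have hn : ‖psiI i ζ‖ = Rr i := by
    rw [psiI, norm_div, hζ, div_one, Complex.norm_real, Real.norm_eq_abs, abs_of_pos (Rr_pos i)]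
  have hl : Real.log ‖psiI i ζ‖ = rho i := by rw [hn, Rr, Real.log_exp]
  have hr := rho_ge_real i
  refine ⟨?_, ?_, ?_⟩
  · intro h; rw [h, norm_zero, Real.log_zero] at hl; linarith
  · intro h; rw [h, norm_one, Real.log_one] at hl; linarith
  · rintro ⟨h0, k, ⟨h1, h2⟩ | ⟨h1, h2⟩⟩
    · rw [hl] at h1 h2
      rcases le_or_gt i k with h3 | h3
      · have h4 : (ll i : ℝ) ≤ ll k := by exact_mod_cast ll_mono h3
        have := ll_ge_real i
        linarith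
      · obtain ⟨i', rfl⟩ : ∃ i', i = i' + 1 := ⟨i - 1, by omega⟩
        rw [rho_succ_real] at h2
        have h4 := lev_mono_real (i := k) (j := i') (by omega)
        have := lev_ge_real k
        linarith
    · rw [hl] at h1
      have := ll_pos_real k
      linarith

lemma haus_psiI (i j : ℕ) : Measure.hausdorffMeasure (7 / 4) (EE (psiI i) j) = 0 := by
  have hne : ∀ ζ : ℂ, ‖ζ‖ = 1 → ζ ≠ 0 := by
    intro ζ h h0; rw [h0, norm_zero] at h; norm_num at h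
  have hd : ∀ ζ : ℂ, ‖ζ‖ = 1 → HasDerivAt (psiI i) (-(Rr i : ℂ) / ζ ^ 2) ζ := by
    intro ζ h
    have := (hasDerivAt_inv (hne ζ h)).const_mul (Rr i : ℂ)
    refine (this.congr_deriv ?_).congr_of_eventuallyEq (Eventually.of_forall (fun x => ?_))
    · ring
    · simp [psiI, div_eq_mul_inv]
  refine haus_EE (C := Rr i) ?_ (fun ζ hζ => psiI_ZZ i hζ) ?_ ?_ j
  · unfold psiI
    exact continuousOn_const.div continuousOn_id (fun ζ hζ => hne ζ (by simpa using hζ))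
  · intro ζ h
    rw [(hd ζ h).deriv, norm_div, norm_pow, h, norm_neg, Complex.norm_real, Real.norm_eq_abs,
      abs_of_pos (Rr_pos i)]
    simp
  · intro ζ h
    rw [(hd ζ h).deriv]
    exact div_ne_zero (neg_ne_zero.mpr (Rr_ne i)) (pow_ne_zero _ (hne ζ h))

/-- an inverse branch along a disc produces a member of the family -/
lemma branch_mem {ψ : ℂ → ℂ} {p : ℂ → OnePoint ℂ} {B : Set (OnePoint ℂ)} {Gn : OnePoint ℂ → ℂ}
    {n j : ℕ} {z ζ₀ : ℂ} (hn : 2 ≤ n)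
    (hinv : ∀ x ∈ B, DefdAt FF n (Gn x) ∧ itv FF n (Gn x) = x)
    (hpB : ∀ ζ ∈ Metric.ball (0 : ℂ) 2, p ζ ∈ B)
    (hp : ∀ ζ : ℂ, 1 / 2 < ‖ζ‖ → p ζ = (ψ ζ : OnePoint ℂ))
    (hψZ : ∀ ζ : ℂ, ‖ζ‖ = 1 → ψ ζ ∈ ZZ)
    (hd : DifferentiableOn ℂ (fun ζ => Gn (p ζ)) (Metric.ball 0 2))
    (hζ₀ : ‖ζ₀‖ ≤ 1 / 2) (hz : Gn (p ζ₀) = z) (hj : |Real.log ‖z‖| < lev j) :
    ∃ G ∈ GG ψ j n, z ∈ G '' Metric.closedBall 0 (1 / 2) := by
  have hF : ∀ ζ ∈ Metric.ball (0 : ℂ) 2, 1 / 2 < ‖ζ‖ → FF^[n] (Gn (p ζ)) = ψ ζ := by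
    intro ζ hζ h2
    obtain ⟨e1, e2⟩ := hinv _ (hpB ζ hζ)
    rw [hp ζ h2] at e2 e1 ⊢
    exact (itv_coe e1 e2).1
  have hG0 : ∀ ζ ∈ Metric.ball (0 : ℂ) 2, Gn (p ζ) ≠ 0 := by
    intro ζ hζ h0
    have h1 := (hinv _ (hpB ζ hζ)).1 0 (by omega)
    rw [Function.iterate_zero, id_eq, not_pole_iff, h0, W_zero] at h1
    simp at h1
  have hsph : ∀ ζ : ℂ, ‖ζ‖ = 1 → ζ ∈ Metric.ball (0 : ℂ) 2 := by
    intro ζ h; simp [h]
  have hGZ : ∀ ζ : ℂ, ‖ζ‖ = 1 → Gn (p ζ) ∈ ZZ := by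
    intro ζ h
    have h1 := hF ζ (hsph ζ h) (by rw [h]; norm_num)
    exact (iter_facts good_main n _ (by rw [h1]; exact hψZ ζ h)).1
  have hgap := gap (G := fun ζ => Gn (p ζ)) (R := 2) (by norm_num) hd hG0 hζ₀
    (j := j) (by rw [hz]; exact hj) (fun ζ h => (hGZ ζ h).2.2)
  refine ⟨fun ζ => Gn (p ζ), ⟨⟨2, by norm_num, hd, fun ζ hζ h2 => hF ζ hζ h2⟩, ?_⟩,
    ζ₀, by simpa using hζ₀, hz⟩
  intro ζ h
  obtain ⟨g1, g2⟩ := hgap ζ h
  constructor
  · rw [gs]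
    apply ENNReal.ofReal_le_ofReal
    have := om_lower g1 g2
    linarith
  · have hp : 0 < ‖Gn (p ζ)‖ := norm_pos_iff.mpr (hG0 ζ (hsph ζ h))
    rw [← Real.log_le_iff_le_exp hp]
    exact g2.le

lemma chord_bound {x y : ℂ} (hx : x ≠ 0) (hy : y ≠ 0) :
    chord (x : OnePoint ℂ) (y : OnePoint ℂ) ≤ 2 / ‖x‖ + 2 / ‖y‖ := by
  show 2 * ‖x - y‖ / (√(1 + ‖x‖ ^ 2) * √(1 + ‖y‖ ^ 2)) ≤ _
  have hxp := norm_pos_iff.mpr hx
  have hyp := norm_pos_iff.mpr hy
  have h1 : ‖x‖ ≤ √(1 + ‖x‖ ^ 2) := by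
    apply Real.le_sqrt_of_sq_le; linarith
  have h2 : ‖y‖ ≤ √(1 + ‖y‖ ^ 2) := by
    apply Real.le_sqrt_of_sq_le; linarith
  have h3 : ‖x - y‖ ≤ ‖x‖ + ‖y‖ := norm_sub_le _ _
  calc 2 * ‖x - y‖ / (√(1 + ‖x‖ ^ 2) * √(1 + ‖y‖ ^ 2)) ≤ 2 * (‖x‖ + ‖y‖) / (‖x‖ * ‖y‖) := by
        gcongr
    _ = _ := by field_simp; ring

lemma exists_lev (a : ℝ) : ∃ j, a < lev j := by
  obtain ⟨n, hn⟩ := exists_nat_gt a
  refine ⟨n, hn.trans_le ?_⟩
  have h1 := lev_ge n
  have h2 := rho_ge_add n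
  have : n ≤ lev n := by omega
  exact_mod_cast this

/-- the main covering statement -/
lemma cover {z : ℂ} (hz : z ∈ RadialJulia FF) :
    (∃ p : ℚ × ℚ × ℚ, 0 < (p.2.2 : ℝ) ∧
      (∀ ζ : ℂ, ‖ζ‖ = 1 → psiC ((p.1 : ℂ) + p.2.1 * I) p.2.2 ζ ∈ ZZ) ∧
      ∃ j, z ∈ EE (psiC ((p.1 : ℂ) + p.2.1 * I) p.2.2) j) ∨
    ∃ i j, z ∈ EE (psiI i) j := by
  obtain ⟨hJ, δ, hδ, hfreq⟩ := hz
  -- the orbit is finite
  have horb : ∀ n, 1 - W (FF^[n] z) ≠ 0 := by
    intro n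
    obtain ⟨m, hm, hm2⟩ := (frequently_atTop.mp hfreq) (n + 2)
    exact not_pole_iff.mp (hm2.1 n (by omega))
  have hx0 : ∀ n, FF^[n] z ≠ 0 := by
    intro n h
    have := horb n
    rw [h, W_zero] at this
    simp at this
  have hitv : ∀ n, itv FF n z = (FF^[n] z : OnePoint ℂ) := fun n => (itv_of (fun k _ => horb k)).1
  have hnOm : ∀ n, ¬ Om (FF^[n] z) := by
    intro n h
    exact hJ (fatou_of (M := n) (fun k _ => horb k) h)
  obtain ⟨j, hj⟩ := exists_lev |Real.log ‖z‖|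
  set P : ℕ → Prop := fun n => 2 ≤ n ∧ ∃ G : OnePoint ℂ → ℂ, SphAnalytic G (cball (FF^[n] z : ℂ) δ) ∧
    G (FF^[n] z : ℂ) = z ∧ ∀ x ∈ cball (FF^[n] z : ℂ) δ, DefdAt FF n (G x) ∧ itv FF n (G x) = x
    with hP
  have hfP : ∃ᶠ n in atTop, P n := by
    have h1 := hfreq.and_eventually (eventually_ge_atTop 2)
    refine h1.mono (fun n hn => ⟨hn.2, ?_⟩)
    obtain ⟨G, hG⟩ := hn.1.2
    rw [hitv n] at hG
    exact ⟨G, hG⟩
  -- circle case: general statement
  have hcircle : ∀ (c : ℂ) (ρ : ℝ), 0 < ρ → (∀ ζ : ℂ, ‖ζ‖ = 1 → psiC c ρ ζ ∈ ZZ) →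
      (∃ᶠ n in atTop, P n ∧ ‖FF^[n] z - c‖ ≤ ρ / 2 ∧ 5 * ρ < δ) → z ∈ EE (psiC c ρ) j := by
    intro c ρ hρ hZ hf
    refine hf.mono ?_
    rintro n ⟨⟨hn2, G, hGa, hGz, hGi⟩, hd, hδρ⟩
    have hρ0 : (ρ : ℂ) ≠ 0 := by exact_mod_cast hρ.ne'
    have hpB : ∀ ζ ∈ Metric.ball (0 : ℂ) 2, ((psiC c ρ ζ : ℂ) : OnePoint ℂ) ∈ cball (FF^[n] z : ℂ) δ := by
      intro ζ hζ
      have hζ2 : ‖ζ‖ < 2 := by simpa using hζ
      refine (chord_coe_le _ _).trans_lt ?_
      have h1 : psiC c ρ ζ - FF^[n] z = ρ * ζ - (FF^[n] z - c) := by unfold psiC; ring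
      rw [h1]
      have h2 : ‖(ρ : ℂ) * ζ‖ ≤ ρ * 2 := by
        rw [norm_mul, Complex.norm_real, Real.norm_eq_abs, abs_of_pos hρ]; gcongr
      have h3 := norm_sub_le ((ρ : ℂ) * ζ) (FF^[n] z - c)
      linarith
    refine branch_mem (p := fun ζ => ((psiC c ρ ζ : ℂ) : OnePoint ℂ)) (Gn := G)
      (ζ₀ := (FF^[n] z - c) / ρ) hn2 hGi hpB (fun ζ _ => rfl) hZ ?_ ?_ ?_ hj
    · intro ζ hζ
      have h1 := hGa.1 _ (hpB ζ hζ)
      have h2 : AnalyticAt ℂ (psiC c ρ) ζ := by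
        have : Differentiable ℂ (psiC c ρ) := fun x => (psiC_deriv c ρ x).differentiableAt
        exact this.analyticAt ζ
      exact (h1.comp h2).differentiableAt.differentiableWithinAt
    · rw [norm_div, Complex.norm_real, Real.norm_eq_abs, abs_of_pos hρ, div_le_iff₀ hρ]
      linarith
    · have : psiC c ρ ((FF^[n] z - c) / ρ) = FF^[n] z := by unfold psiC; field_simp; ring
      rw [this]; exact hGz
  by_cases hbdd : ∃ R₀ : ℝ, ∃ᶠ n in atTop, P n ∧ FF^[n] z ∈ Metric.closedBall (0 : ℂ) R₀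
  · left
    obtain ⟨R₀, hR₀⟩ := hbdd
    -- cluster point
    obtain ⟨u, hu⟩ : ∃ u : ℂ, ∀ ε : ℝ, 0 < ε → ∃ᶠ n in atTop, P n ∧ ‖FF^[n] z - u‖ < ε := by
      have hNB : (atTop ⊓ 𝓟 {n | P n ∧ FF^[n] z ∈ Metric.closedBall (0 : ℂ) R₀} : Filter ℕ).NeBot :=
        frequently_mem_iff_neBot.mp hR₀
      obtain ⟨u, -, hu⟩ := (isCompact_closedBall (0 : ℂ) R₀).exists_mapClusterPt
        (f := atTop ⊓ 𝓟 {n | P n ∧ FF^[n] z ∈ Metric.closedBall (0 : ℂ) R₀}) (u := fun n => FF^[n] z) (by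
          rw [Filter.le_principal_iff]
          exact mem_map.mpr (mem_of_superset (mem_inf_of_right (mem_principal_self _))
            (fun n hn => hn.2)))
      refine ⟨u, fun ε hε => ?_⟩
      have h1 := hu.frequently (Metric.ball_mem_nhds u hε)
      rw [frequently_inf_principal] at h1
      refine h1.mono ?_
      rintro n ⟨⟨h2, -⟩, h3⟩
      exact ⟨h2, by simpa [dist_eq_norm] using h3⟩
    by_cases hu0 : u = 0
    · -- small circles around zero
      subst hu0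
      obtain ⟨i, hi⟩ : ∃ i : ℕ, 5 / δ < ll (i + 1) := by
        obtain ⟨n, hn⟩ := exists_nat_gt (5 / δ)
        refine ⟨n, hn.trans_le ?_⟩
        have := ll_ge_nat (n + 1)
        push_cast at this
        linarith
      have hl := ll_pos_real (i + 1)
      obtain ⟨ρ, hρ1, hρ2⟩ := exists_rat_btwn (Real.exp_lt_exp.mpr
        (by linarith : -(2 * (ll (i + 1) : ℝ)) < -(ll (i + 1) : ℝ)))
      have hρ : (0 : ℝ) < ρ := (Real.exp_pos _).trans hρ1
      have hlog1 : -(2 * (ll (i + 1) : ℝ)) < Real.log ρ := by rwa [Real.lt_log_iff_exp_lt hρ]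
      have hlog2 : Real.log ρ < -(ll (i + 1) : ℝ) := by rwa [Real.log_lt_iff_lt_exp hρ]
      have hZ : ∀ ζ : ℂ, ‖ζ‖ = 1 → psiC (((0 : ℚ) : ℂ) + (0 : ℚ) * I) ρ ζ ∈ ZZ := by
        intro ζ hζ
        have hn : ‖psiC (((0 : ℚ) : ℂ) + (0 : ℚ) * I) ρ ζ‖ = ρ := by
          rw [psiC]
          simp only [Rat.cast_zero, zero_mul, add_zero, zero_add]
          rw [norm_mul, hζ, mul_one, Complex.norm_real, Real.norm_eq_abs, abs_of_pos hρ]
        refine ⟨?_, ?_, ?_⟩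
        · intro h; rw [h, norm_zero] at hn; linarith
        · intro h; rw [h, norm_one] at hn
          rw [← hn, Real.log_one] at hlog2; linarith
        · rintro ⟨-, k, ⟨h1, h2⟩ | ⟨h1, h2⟩⟩
          · rw [hn] at h1
            have := ll_pos_real k
            linarith
          · rw [hn] at h1 h2
            have hk : k ≤ i := by
              by_contra hcon
              push Not at hcon
              have : (ll (i + 1) : ℝ) ≤ ll k := by exact_mod_cast ll_mono hcon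
              linarith
            have h3 := lev_mono_real hk
            have h4 : 4000 * (8 * lev i) ≤ (ll (i + 1) : ℝ) := by
              rw [ll_succ_real]
              have e1 : 8 * (lev i : ℝ) ≤ sl (i + 1) := by exact_mod_cast lev_le_sl_succ i
              have e2 := ll_pos_real i
              have e3 := lev_ge_real i
              nlinarith
            have := lev_ge_real i
            linarith
      refine ⟨(0, 0, ρ), hρ, hZ, j, hcircle _ _ hρ hZ ?_⟩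
      refine (hu ((ρ : ℝ) / 2) (by positivity)).mono ?_
      rintro n ⟨h1, h2⟩
      refine ⟨h1, by simpa using h2.le, ?_⟩
      -- 5 ρ < δ
      have h3 : (ρ : ℝ) * ll (i + 1) ≤ 1 := by
        have h4 := Real.add_one_le_exp (ll (i + 1) : ℝ)
        have h5 : (ρ : ℝ) * Real.exp (ll (i + 1)) ≤ 1 := by
          rw [Real.exp_neg] at hρ2
          calc (ρ : ℝ) * Real.exp (ll (i + 1)) ≤ (Real.exp (ll (i + 1)))⁻¹ * Real.exp (ll (i + 1)) := by
                gcongr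
            _ = 1 := inv_mul_cancel₀ (Real.exp_pos _).ne'
        nlinarith
      rw [div_lt_iff₀ hδ] at hi
      show 5 * (ρ : ℝ) < δ
      nlinarith
    · -- generic point
      have hnu : ¬ Om u := by
        intro hO
        obtain ⟨V, hV, huV⟩ := Om_mem hO
        have hVo : IsOpen V := by
          rcases hV with ⟨j, rfl⟩ | ⟨j, rfl⟩
          · exact UL_open j
          · exact US_open j
        obtain ⟨ε, hε, hball⟩ := Metric.isOpen_iff.mp hVo u huV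
        obtain ⟨n, -, h2⟩ := (hu ε hε).exists
        have h3 : FF^[n] z ∈ V := hball (by simpa [dist_eq_norm] using h2)
        apply hnOm n
        rcases hV with ⟨j, rfl⟩ | ⟨j, rfl⟩
        · exact ⟨h3.1, j, Or.inl h3.2⟩
        · exact ⟨h3.1, j, Or.inr h3.2⟩
      have hup := norm_pos_iff.mpr hu0
      obtain ⟨d₁, hd₁, hd₁'⟩ : ∃ d : ℝ, 0 < d ∧ (u = 1 ∨ d ≤ ‖u - 1‖) := by
        by_cases h1 : u = 1
        · exact ⟨1, one_pos, Or.inl h1⟩
        · exact ⟨‖u - 1‖, norm_pos_iff.mpr (sub_ne_zero.mpr h1), Or.inr le_rfl⟩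
      set ε₀ := min (‖u‖ / 10) (min (δ / 20) (d₁ / 10)) with hε₀
      have hε₀0 : 0 < ε₀ := lt_min (by positivity) (lt_min (by positivity) (by positivity))
      have b1 : ε₀ ≤ ‖u‖ / 10 := min_le_left _ _
      have b2 : ε₀ ≤ δ / 20 := (min_le_right _ _).trans (min_le_left _ _)
      have b3 : ε₀ ≤ d₁ / 10 := (min_le_right _ _).trans (min_le_right _ _)
      obtain ⟨ρ, hρ1, hρ2⟩ := exists_rat_btwn (by linarith : ε₀ / 2 < ε₀)
      have hρ : (0 : ℝ) < ρ := by linarith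
      obtain ⟨a, ha1, ha2⟩ := exists_rat_btwn (by linarith : u.re - (ρ : ℝ) / 8 < u.re)
      obtain ⟨b, hb1, hb2⟩ := exists_rat_btwn (by linarith : u.im - (ρ : ℝ) / 8 < u.im)
      set c : ℂ := (a : ℂ) + b * I with hc
      have hcu : ‖c - u‖ ≤ ρ / 4 := by
        have h1 : c - u = (((a : ℝ) - u.re : ℝ) : ℂ) + (((b : ℝ) - u.im : ℝ) : ℂ) * I := by
          apply Complex.ext <;> simp [hc]
        rw [h1]
        refine (norm_add_le _ _).trans ?_
        rw [norm_mul, Complex.norm_I, mul_one, Complex.norm_real, Complex.norm_real,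
          Real.norm_eq_abs, Real.norm_eq_abs, abs_of_neg (by linarith), abs_of_neg (by linarith)]
        linarith
      have hZ : ∀ ζ : ℂ, ‖ζ‖ = 1 → psiC c ρ ζ ∈ ZZ := by
        intro ζ hζ
        set x := psiC c ρ ζ with hx
        have hxc : ‖x - c‖ = ρ := by
          have : x - c = ((ρ : ℝ) : ℂ) * ζ := by rw [hx, psiC]; ring
          rw [this, norm_mul, hζ, mul_one, Complex.norm_real, Real.norm_eq_abs, abs_of_pos hρ]
        have hxu1 : ‖x - u‖ ≤ 5 / 4 * ρ := by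
          have : x - u = (x - c) + (c - u) := by ring
          rw [this]; exact (norm_add_le _ _).trans (by linarith)
        have hxu2 : 3 / 4 * ρ ≤ ‖x - u‖ := by
          have h1 := norm_sub_norm_le (x - c) (u - c)
          rw [sub_sub_sub_cancel_right, norm_sub_rev u c] at h1
          linarith
        have hxn1 : ‖x‖ ≤ 9 / 8 * ‖u‖ := by
          have h1 := norm_sub_norm_le x u
          linarith
        have hxn2 : 7 / 8 * ‖u‖ ≤ ‖x‖ := by
          have h1 := norm_sub_norm_le u x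
          rw [norm_sub_rev] at h1
          linarith
        have hxp : 0 < ‖x‖ := by linarith
        refine ⟨norm_pos_iff.mp hxp, ?_, ?_⟩
        · intro h1
          rcases hd₁' with h2 | h2
          · rw [h1, h2] at hxu2
            simp at hxu2
            linarith
          · rw [h1, norm_sub_rev] at hxu1
            linarith
        · intro hO
          apply hnu
          have l1 : Real.log ‖x‖ ≤ Real.log ‖u‖ + 1 := by
            have h1 := Real.log_le_log hxp hxn1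
            rw [Real.log_mul (by norm_num) hup.ne'] at h1
            have := Real.log_le_sub_one_of_pos (x := 9 / 8) (by norm_num)
            linarith
          have l2 : Real.log ‖u‖ - 1 ≤ Real.log ‖x‖ := by
            have h1 := Real.log_le_log (by positivity) hxn2
            rw [Real.log_mul (by norm_num) hup.ne'] at h1
            have h3 := Real.log_le_sub_one_of_pos (x := 8 / 7) (by norm_num)
            have h4 : Real.log (7 / 8) = - Real.log (8 / 7) := by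
              rw [← Real.log_inv]; norm_num
            linarith
          obtain ⟨-, k, ⟨h1, h2⟩ | ⟨h1, h2⟩⟩ := hO
          · have := ll_pos_real k
            have := lev_ge_real k
            exact ⟨hu0, k, Or.inl ⟨by linarith, by linarith⟩⟩
          · have := ll_pos_real k
            have := lev_ge_real k
            exact ⟨hu0, k, Or.inr ⟨by linarith, by linarith⟩⟩
      refine ⟨(a, b, ρ), hρ, hZ, j, hcircle _ _ hρ hZ ?_⟩
      refine (hu ((ρ : ℝ) / 4) (by positivity)).mono ?_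
      rintro n ⟨h1, h2⟩
      refine ⟨h1, ?_, by show 5 * (ρ : ℝ) < δ; linarith⟩
      have h3 : FF^[n] z - c = (FF^[n] z - u) - (c - u) := by ring
      have h4 : ‖FF^[n] z - c‖ ≤ (ρ : ℝ) / 2 := by
        rw [h3]
        exact (norm_sub_le _ _).trans (by linarith)
      exact h4
  · right
    push Not at hbdd
    obtain ⟨i, hi⟩ : ∃ i : ℕ, 5 / δ < Rr i := by
      obtain ⟨n, hn⟩ := exists_nat_gt (5 / δ)
      refine ⟨n, hn.trans_le ?_⟩
      have h1 := rho_ge_add n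
      have h2 : (n : ℝ) ≤ rho n := by
        have : n ≤ rho n := by omega
        exact_mod_cast this
      have := Real.add_one_le_exp (rho n : ℝ)
      rw [Rr]; linarith
    refine ⟨i, j, ?_⟩
    have hRp := Rr_pos i
    have hfar : ∃ᶠ n in atTop, P n ∧ 2 * Rr i < ‖FF^[n] z‖ := by
      have h1 := hbdd (2 * Rr i)
      refine (hfP.and_eventually h1).mono ?_
      rintro n ⟨h2, h3⟩
      refine ⟨h2, ?_⟩
      have h4 := h3 h2
      simp only [Metric.mem_closedBall, dist_zero_right] at h4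
      push Not at h4
      exact h4
    refine hfar.mono ?_
    rintro n ⟨⟨hn2, G, hGa, hGz, hGi⟩, hbig⟩
    classical
    set p : ℂ → OnePoint ℂ := fun ζ => if ζ = 0 then ∞ else ((psiI i ζ : ℂ) : OnePoint ℂ) with hp
    have hxn := hx0 n
    have hxp : 0 < ‖FF^[n] z‖ := norm_pos_iff.mpr hxn
    have hsmall : 2 / ‖FF^[n] z‖ < 1 / Rr i := by
      rw [div_lt_div_iff₀ hxp hRp]; linarith
    have hδR : 5 / Rr i < δ := by
      rw [div_lt_iff₀ hδ] at hi
      rw [div_lt_iff₀ hRp]; linarith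
    have hinfB : (∞ : OnePoint ℂ) ∈ cball (FF^[n] z : ℂ) δ := by
      show 2 / √(1 + ‖FF^[n] z‖ ^ 2) < δ
      have h1 : ‖FF^[n] z‖ ≤ √(1 + ‖FF^[n] z‖ ^ 2) := by
        apply Real.le_sqrt_of_sq_le; linarith
      have h2 : 2 / √(1 + ‖FF^[n] z‖ ^ 2) ≤ 2 / ‖FF^[n] z‖ := by gcongr
      have h3 : 1 / Rr i ≤ 5 / Rr i := by gcongr; norm_num
      linarith
    have hpB : ∀ ζ ∈ Metric.ball (0 : ℂ) 2, p ζ ∈ cball (FF^[n] z : ℂ) δ := by
      intro ζ hζ
      have hζ2 : ‖ζ‖ < 2 := by simpa using hζ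
      by_cases h0 : ζ = 0
      · rw [hp]; simp only [h0, if_true]; exact hinfB
      · rw [hp]; simp only [h0, if_false]
        have hζp := norm_pos_iff.mpr h0
        have hψ : psiI i ζ ≠ 0 := div_ne_zero (Rr_ne i) h0
        have hψn : ‖psiI i ζ‖ = Rr i / ‖ζ‖ := by
          rw [psiI, norm_div, Complex.norm_real, Real.norm_eq_abs, abs_of_pos hRp]
        show chord _ _ < δ
        refine (chord_bound hψ hxn).trans_lt ?_
        rw [hψn]
        have h1 : 2 / (Rr i / ‖ζ‖) ≤ 4 / Rr i := by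
          rw [div_div_eq_mul_div]; gcongr; linarith
        have h2 : 4 / Rr i + 1 / Rr i = 5 / Rr i := by ring
        linarith
    have hpψ : ∀ ζ : ℂ, 1 / 2 < ‖ζ‖ → p ζ = (psiI i ζ : OnePoint ℂ) := by
      intro ζ h
      have h0 : ζ ≠ 0 := by
        intro h0; rw [h0, norm_zero] at h; norm_num at h
      rw [hp]; simp only [h0, if_false]
    refine branch_mem (p := p) (Gn := G) (ζ₀ := Rr i / FF^[n] z) hn2 hGi hpB hpψ
      (fun ζ hζ => psiI_ZZ i hζ) ?_ ?_ ?_ hj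
    · intro ζ hζ
      by_cases h0 : ζ = 0
      · have h1 := hGa.2 hinfB
        have h2 : AnalyticAt ℂ (fun ζ : ℂ => ζ / (Rr i : ℂ)) ζ := by
          have : Differentiable ℂ (fun ζ : ℂ => ζ / (Rr i : ℂ)) := by fun_prop
          exact this.analyticAt ζ
        have h3 : (fun ζ => G (p ζ)) = (fun u : ℂ => G (if u = 0 then ∞ else ((u⁻¹ : ℂ) : OnePoint ℂ))) ∘
            (fun ζ : ℂ => ζ / (Rr i : ℂ)) := by
          ext ζ
          simp only [Function.comp_apply, hp]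
          by_cases h4 : ζ = 0
          · simp [h4]
          · have h5 : ζ / (Rr i : ℂ) ≠ 0 := div_ne_zero h4 (Rr_ne i)
            rw [if_neg h4, if_neg h5, psiI, inv_div]
        rw [h3]
        have h4 : AnalyticAt ℂ (fun u : ℂ => G (if u = 0 then ∞ else ((u⁻¹ : ℂ) : OnePoint ℂ)))
            ((fun ζ : ℂ => ζ / (Rr i : ℂ)) ζ) := by
          simp only [h0, zero_div]; exact h1
        exact (AnalyticAt.comp (g := fun u : ℂ => G (if u = 0 then ∞ else ((u⁻¹ : ℂ) : OnePoint ℂ)))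
          (f := fun ζ : ℂ => ζ / (Rr i : ℂ)) h4 h2).differentiableAt.differentiableWithinAt
      · have h1 : ((psiI i ζ : ℂ) : OnePoint ℂ) ∈ cball (FF^[n] z : ℂ) δ := by
          have := hpB ζ hζ
          rw [hp] at this
          simpa only [h0, if_false] using this
        have h2 := hGa.1 _ h1
        have h3 : AnalyticAt ℂ (psiI i) ζ := by
          unfold psiI
          exact analyticAt_const.div analyticAt_id h0
        have h4 : DifferentiableAt ℂ (fun ζ => G ((psiI i ζ : ℂ) : OnePoint ℂ)) ζ :=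
          (h2.comp h3).differentiableAt
        have h5 : (fun ζ => G (p ζ)) =ᶠ[𝓝 ζ] (fun ζ => G ((psiI i ζ : ℂ) : OnePoint ℂ)) := by
          filter_upwards [isOpen_ne.mem_nhds h0] with x hx
          rw [hp]
          have hx' : x ≠ 0 := hx
          simp only [hx', if_false]
        exact (h4.congr_of_eventuallyEq h5).differentiableWithinAt
    · rw [norm_div, Complex.norm_real, Real.norm_eq_abs, abs_of_pos hRp, div_le_iff₀ hxp]
      linarith
    · have h0 : (Rr i : ℂ) / FF^[n] z ≠ 0 := div_ne_zero (Rr_ne i) hxn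
      rw [hp]
      simp only [h0, if_false]
      have : psiI i (Rr i / FF^[n] z) = FF^[n] z := by
        rw [psiI]
        field_simp [Rr_ne i]
      rw [this]; exact hGz

/-- the upper bound of the dynamical dimension -/
theorem dim_le : dynDim FF ≤ 7 / 4 := by
  have hnull : Measure.hausdorffMeasure (7 / 4) (RadialJulia FF) = 0 := by
    have hsub : RadialJulia FF ⊆
        (⋃ p : ℚ × ℚ × ℚ, ⋃ j : ℕ, {z | (0 < (p.2.2 : ℝ) ∧
          (∀ ζ : ℂ, ‖ζ‖ = 1 → psiC ((p.1 : ℂ) + p.2.1 * I) p.2.2 ζ ∈ ZZ)) ∧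
          z ∈ EE (psiC ((p.1 : ℂ) + p.2.1 * I) p.2.2) j}) ∪
        ⋃ i : ℕ, ⋃ j : ℕ, EE (psiI i) j := by
      intro z hz
      rcases cover hz with ⟨p, h1, h2, j, h3⟩ | ⟨i, j, h⟩
      · left
        exact mem_iUnion.mpr ⟨p, mem_iUnion.mpr ⟨j, ⟨h1, h2⟩, h3⟩⟩
      · right
        exact mem_iUnion.mpr ⟨i, mem_iUnion.mpr ⟨j, h⟩⟩
    refine measure_mono_null hsub (measure_union_null ?_ ?_)
    · refine measure_iUnion_null (fun p => measure_iUnion_null (fun j => ?_))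
      by_cases hc : 0 < (p.2.2 : ℝ) ∧
          (∀ ζ : ℂ, ‖ζ‖ = 1 → psiC ((p.1 : ℂ) + p.2.1 * I) p.2.2 ζ ∈ ZZ)
      · refine measure_mono_null (fun z hz => hz.2) (haus_psiC hc.1 hc.2 j)
      · have : {z | (0 < (p.2.2 : ℝ) ∧
          (∀ ζ : ℂ, ‖ζ‖ = 1 → psiC ((p.1 : ℂ) + p.2.1 * I) p.2.2 ζ ∈ ZZ)) ∧
          z ∈ EE (psiC ((p.1 : ℂ) + p.2.1 * I) p.2.2) j} = ∅ := by
          ext z; constructor
          · rintro ⟨h1, -⟩; exact absurd h1 hc
          · intro h; exact absurd h (notMem_empty z)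
        rw [this]; exact measure_empty
    · exact measure_iUnion_null (fun i => measure_iUnion_null (fun j => haus_psiI i j))
  have h1 : Measure.hausdorffMeasure (((7 / 4 : ℝ≥0) : ℝ)) (RadialJulia FF) ≠ ⊤ := by
    have : ((7 / 4 : ℝ≥0) : ℝ) = 7 / 4 := by push_cast; rfl
    rw [this, hnull]
    exact ENNReal.zero_ne_top
  have h2 := dimH_le_of_hausdorffMeasure_ne_top h1
  refine h2.trans (le_of_eq ?_)
  rw [ENNReal.coe_div (by norm_num)]
  norm_num

end Pool.Agent.Work.MP_0a8b43_nt
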