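import Mathlib
import Pool.Agent.Work.MP_0a8b43_nt.Mero

set_option autoImplicit false

open Complex Set Filter Topology MeasureTheory
open scoped ENNReal NNReal

namespace Pool.Agent.Work.MP_0a8b43_nt

/-- quantitative surjectivity of perturbations of linear maps -/
lemma lin_surj {f : ℂ → ℂ} {a D : ℂ} {ρ ε : ℝ} (hρ : 0 ≤ ρ) (hε : 0 ≤ ε) (hD : ε < ‖D‖)
    (h : ∀ w ∈ Metric.closedBall a ρ, ∀ w' ∈ Metric.closedBall a ρ,
      ‖f w - f w' - D * (w - w')‖ ≤ ε * ‖w - w'‖)
    {z : ℂ} (hz : ‖z - f a‖ ≤ (‖D‖ - ε) * ρ) : ∃ w ∈ Metric.closedBall a ρ, f w = z := by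
  have hDp : 0 < ‖D‖ := by linarith
  have hD0 : D ≠ 0 := norm_pos_iff.mp hDp
  have haa : a ∈ Metric.closedBall a ρ := Metric.mem_closedBall_self hρ
  set φ : ℂ → ℂ := fun w => w - (f w - z) / D with hφ
  have hlip : ∀ w ∈ Metric.closedBall a ρ, ∀ w' ∈ Metric.closedBall a ρ,
      ‖φ w - φ w'‖ ≤ ε / ‖D‖ * ‖w - w'‖ := by
    intro w hw w' hw'
    have e1 : φ w - φ w' = -(f w - f w' - D * (w - w')) / D := by
      simp only [hφ]; field_simp; ring
    rw [e1, norm_div, norm_neg, div_le_iff₀ hDp]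
    refine (h w hw w' hw').trans (le_of_eq ?_)
    field_simp
  have hmaps : MapsTo φ (Metric.closedBall a ρ) (Metric.closedBall a ρ) := by
    intro w hw
    have h1 := hlip w hw a haa
    have h2 : ‖φ a - a‖ ≤ (‖D‖ - ε) / ‖D‖ * ρ := by
      have e1 : φ a - a = (z - f a) / D := by simp only [hφ]; field_simp; ring
      rw [e1, norm_div, div_le_iff₀ hDp]
      refine hz.trans (le_of_eq ?_)
      field_simp
    have h3 : ‖w - a‖ ≤ ρ := by simpa [dist_eq_norm] using hw
    have h4 : ε / ‖D‖ * ‖w - a‖ ≤ ε / ‖D‖ * ρ := by gcongr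
    have h5 : φ w - a = (φ w - φ a) + (φ a - a) := by ring
    have h6 : ε / ‖D‖ * ρ + (‖D‖ - ε) / ‖D‖ * ρ = ρ := by field_simp; ring
    rw [Metric.mem_closedBall, dist_eq_norm, h5]
    exact (norm_add_le _ _).trans (by linarith)
  have hK : ε / ‖D‖ < 1 := by rw [div_lt_one hDp]; exact hD
  have hcontr : ContractingWith (Real.toNNReal (ε / ‖D‖))
      (hmaps.restrict φ (Metric.closedBall a ρ) (Metric.closedBall a ρ)) := by
    constructor
    · rw [Real.toNNReal_lt_one]; exact hK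
    · apply LipschitzWith.of_dist_le_mul
      rintro ⟨x, hx⟩ ⟨y, hy⟩
      rw [Real.coe_toNNReal _ (by positivity)]
      show dist (φ x) (φ y) ≤ ε / ‖D‖ * dist x y
      rw [dist_eq_norm, dist_eq_norm]
      exact hlip x hx y hy
  obtain ⟨y, hy, hfix, -⟩ := hcontr.exists_fixedPoint' Metric.isClosed_closedBall.isComplete hmaps
    haa (edist_ne_top _ _)
  refine ⟨y, hy, ?_⟩
  have h1 : y - (f y - z) / D = y := hfix
  have h2 : (f y - z) / D = 0 := by
    have : y - (f y - z) / D - y = 0 := by rw [h1, sub_self]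
    have h3 : y - (f y - z) / D - y = -((f y - z) / D) := by ring
    rw [h3] at this
    exact neg_eq_zero.mp this
  rcases div_eq_zero_iff.mp h2 with h3 | h3
  · exact sub_eq_zero.mp h3
  · exact absurd h3 hD0

/-- surjectivity of the local model near a circle -/
lemma circle_surj {κ κ' : ℂ → ℂ} (hκ : ∀ v ∈ Metric.ball (0 : ℂ) (1 / 2), HasDerivAt κ (κ' v) v)
    (h0 : κ 0 = 0) (hκ' : ∀ v ∈ Metric.ball (0 : ℂ) (1 / 2), ‖κ' v‖ ≤ 1 / 100)
    {ξ : ℂ} (hξ : ‖ξ‖ ≤ 1 / 6) :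
    ∃ v : ℂ, ‖v‖ ≤ 1 / 3 ∧ ‖v‖ ≤ 2 * ‖ξ‖ ∧ exp (κ v) * (1 - exp v) = ξ := by
  obtain ⟨v, hv, hv2⟩ := lin_surj (f := fun v => exp (κ v) * (1 - exp v)) (a := 0) (D := -1)
    (ρ := 1 / 3) (ε := 1 / 2) (by norm_num) (by norm_num) (by norm_num) (by
      intro w hw w' hw'
      have h1 := circle_map hκ h0 hκ' (v := w) (v' := w') (by simpa using hw) (by simpa using hw')
      refine le_trans (le_of_eq ?_) h1
      congr 1; ring) (z := ξ) (by
      simp only [Complex.exp_zero, sub_self, mul_zero, sub_zero, norm_neg, norm_one]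
      linarith)
  have hv3 : ‖v‖ ≤ 1 / 3 := by simpa using hv
  refine ⟨v, hv3, ?_, hv2⟩
  have h1 := circle_map hκ h0 hκ' (v := v) (v' := 0) hv3 (by simp)
  simp only [Complex.exp_zero, sub_self, mul_zero, add_zero, sub_zero] at h1
  have h3 : exp (κ v) * (1 - exp v) = ξ := hv2
  rw [h3] at h1
  have h2 := norm_sub_norm_le v (-ξ)
  rw [norm_neg, sub_neg_eq_add, add_comm] at h2
  linarith

/-- size of the derivative-free quantities in the local model -/
lemma kappa_small {κ κ' : ℂ → ℂ} (hκ : ∀ v ∈ Metric.ball (0 : ℂ) (1 / 2), HasDerivAt κ (κ' v) v)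
    (h0 : κ 0 = 0) (hκ' : ∀ v ∈ Metric.ball (0 : ℂ) (1 / 2), ‖κ' v‖ ≤ 1 / 100)
    {v : ℂ} (hv : ‖v‖ ≤ 1 / 3) : ‖κ v‖ ≤ 1 / 300 := by
  have hsub : Metric.closedBall (0 : ℂ) (1 / 3) ⊆ Metric.ball 0 (1 / 2) :=
    Metric.closedBall_subset_ball (by norm_num)
  have h1 := (convex_closedBall (0 : ℂ) (1 / 3)).norm_image_sub_le_of_norm_hasDerivWithin_le
    (f := κ) (f' := κ') (C := 1 / 100) (fun x hx => (hκ x (hsub hx)).hasDerivWithinAt)
    (fun x hx => hκ' x (hsub hx)) (Metric.mem_closedBall_self (by norm_num)) (y := v)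
    (by simpa using hv)
  rw [h0, sub_zero, sub_zero] at h1
  linarith

/-! ### logarithmic model of the core -/

/-- correction term -/
noncomputable def Qc (u : ℂ) : ℂ := log ((1 - W (exp u)) / exp u ^ 32)

lemma half_dom {u : ℂ} (h : u.re < 5 / 4) : ‖exp u‖ ≤ 4 := by
  rw [Complex.norm_exp]
  have h1 : Real.exp u.re ≤ Real.exp (5 / 4) := Real.exp_le_exp.mpr h.le
  have h2 : Real.exp (5 / 4) ≤ 4 := by
    have h3 : Real.exp (5 / 4) ^ 4 = Real.exp 1 ^ 5 := by
      rw [← Real.exp_nat_mul, ← Real.exp_nat_mul]; norm_num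
    have h4 := Real.exp_one_lt_d9
    have h5 : Real.exp (5 / 4) ^ 4 ≤ 4 ^ 4 := by
      rw [h3]
      calc Real.exp 1 ^ 5 ≤ (2.7182818286 : ℝ) ^ 5 := by gcongr
        _ ≤ 4 ^ 4 := by norm_num
    exact le_of_pow_le_pow_left₀ (by norm_num) (by norm_num) h5
  linarith

lemma Qc_facts {u : ℂ} (h : u.re < 5 / 4) :
    1 - W (exp u) = exp (32 * u + Qc u) ∧ ‖Qc u‖ ≤ tau ∧
      HasDerivAt Qc (DH (exp u) - 32) u ∧ ‖DH (exp u) - 32‖ ≤ tau := by
  obtain ⟨e1, e2, e3, e4, e5⟩ := core_facts (half_dom h) (Complex.exp_ne_zero u)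
  have ht := tau_small
  have ht0 := tau_pos
  have hne : (1 - W (exp u)) / exp u ^ 32 ≠ 0 :=
    div_ne_zero e1 (pow_ne_zero _ (Complex.exp_ne_zero u))
  refine ⟨?_, ?_, ?_, e3⟩
  · rw [Complex.exp_add, Qc, Complex.exp_log hne]
    have h1 : exp (32 * u) = exp u ^ 32 := by rw [← Complex.exp_nat_mul]; norm_num
    rw [h1]
    field_simp [Complex.exp_ne_zero u]
  · rw [Qc]
    have h1 := Complex.norm_log_one_add_le (z := (1 - W (exp u)) / exp u ^ 32 - 1)
      (by linarith)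
    rw [add_sub_cancel] at h1
    set x := ‖(1 - W (exp u)) / exp u ^ 32 - 1‖ with hx
    have hx0 : 0 ≤ x := norm_nonneg _
    have h3 : (1 - x)⁻¹ ≤ 2 := by
      rw [inv_le_comm₀ (by linarith) (by norm_num)]; linarith
    have h4 : x ^ 2 * (1 - x)⁻¹ / 2 ≤ x ^ 2 * 2 / 2 := by gcongr
    nlinarith
  · have hslit : (1 - W (exp u)) / exp u ^ 32 ∈ Complex.slitPlane := by
      have h1 : ‖(1 - W (exp u)) / exp u ^ 32 - 1‖ < 1 := by linarith
      exact Complex.mem_slitPlane_of_norm_lt_one h1 |> (fun h => by simpa using h)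
    have h1 : HasDerivAt (fun z => 1 - W z) (deriv (fun z => 1 - W z) (exp u)) (exp u) :=
      ((W_diff.const_sub 1) _).hasDerivAt
    have h2 := HasDerivAt.comp u h1 (Complex.hasDerivAt_exp u)
    have h3 : HasDerivAt (fun u : ℂ => exp u ^ 32) (32 * exp u ^ 31 * exp u) u := by
      have := (Complex.hasDerivAt_exp u).fun_pow 32
      refine this.congr_deriv ?_
      push_cast; ring
    have h4 := (h2.div h3 (pow_ne_zero _ (Complex.exp_ne_zero u))).clog hslit
    refine h4.congr_deriv ?_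
    simp only [Pi.div_apply, Function.comp_apply]
    unfold DH
    have hex := Complex.exp_ne_zero u
    field_simp

lemma Qc_lip {u u' : ℂ} (h : u.re < 5 / 4) (h' : u'.re < 5 / 4) :
    ‖Qc u - Qc u'‖ ≤ tau * ‖u - u'‖ := by
  have hconv : Convex ℝ {u : ℂ | u.re < 5 / 4} := convex_halfSpace_re_lt _
  exact hconv.norm_image_sub_le_of_norm_hasDerivWithin_le (f := Qc)
    (f' := fun u => DH (exp u) - 32) (fun x hx => (Qc_facts hx).2.2.1.hasDerivWithinAt)
    (fun x hx => (Qc_facts hx).2.2.2) h' h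

/-- inverse branches in the core -/
lemma core_inv {y : ℂ} (h : -y.re / 32 ≤ 6 / 5) :
    ∃ u : ℂ, ‖u + y / 32‖ ≤ tau ∧ FF (exp u) = exp y := by
  have ht := tau_small
  have ht0 := tau_pos
  have hre : ∀ w ∈ Metric.closedBall (-y / 32) tau, w.re < 5 / 4 := by
    intro w hw
    have h1 : ‖w - -y / 32‖ ≤ tau := by simpa [dist_eq_norm] using hw
    have h2 := (abs_le.mp ((Complex.abs_re_le_norm _).trans h1)).2
    have h3 : (w - -y / 32).re = w.re + y.re / 32 := by
      simp [neg_div]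
    rw [h3] at h2
    linarith
  have h32 : ‖(32 : ℂ)‖ = 32 := by norm_num
  obtain ⟨u, hu, hu2⟩ := lin_surj (f := fun u => 32 * u + Qc u) (a := -y / 32) (D := 32)
    (ρ := tau) (ε := tau) ht0.le ht0.le (by rw [h32]; linarith) (by
      intro w hw w' hw'
      have h1 := Qc_lip (hre w hw) (hre w' hw')
      refine le_trans (le_of_eq ?_) h1
      congr 1; ring) (z := -y) (by
      have h1 : -y - (32 * (-y / 32) + Qc (-y / 32)) = -Qc (-y / 32) := by ring
      show ‖-y - (32 * (-y / 32) + Qc (-y / 32))‖ ≤ _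
      rw [h1, norm_neg, h32]
      have h2 := (Qc_facts (hre (-y / 32) (Metric.mem_closedBall_self ht0.le))).2.1
      nlinarith)
  refine ⟨u, ?_, ?_⟩
  · have h1 : ‖u - -y / 32‖ ≤ tau := by simpa [dist_eq_norm] using hu
    have h2 : u - -y / 32 = u + y / 32 := by ring
    rwa [h2] at h1
  · have h1 := (Qc_facts (hre u hu)).1
    have h2 : 32 * u + Qc u = -y := hu2
    rw [h2] at h1
    rw [FF, h1, Complex.exp_neg, inv_inv]

lemma core_inj {u u' : ℂ} (h : u.re < 5 / 4) (h' : u'.re < 5 / 4) (hd : ‖u - u'‖ ≤ 1 / 8)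
    (he : FF (exp u) = FF (exp u')) : u = u' := by
  obtain ⟨e1, e2, e3, e4⟩ := Qc_facts h
  obtain ⟨f1, f2, f3, f4⟩ := Qc_facts h'
  have hl := Qc_lip h h'
  have ht := tau_small
  have ht0 := tau_pos
  have h1 : 1 - W (exp u) = 1 - W (exp u') := by
    have : (1 - W (exp u))⁻¹ = (1 - W (exp u'))⁻¹ := he
    exact inv_injective this
  rw [e1, f1, Complex.exp_eq_exp_iff_exists_int] at h1
  obtain ⟨n, hn⟩ := h1
  have h2 : ‖(32 * u + Qc u) - (32 * u' + Qc u')‖ ≤ 33 / 8 := by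
    have h3 : (32 * u + Qc u) - (32 * u' + Qc u') = 32 * (u - u') + (Qc u - Qc u') := by ring
    rw [h3]
    refine (norm_add_le _ _).trans ?_
    rw [norm_mul]
    have h32 : ‖(32 : ℂ)‖ = 32 := by norm_num
    rw [h32]
    nlinarith [norm_nonneg (u - u')]
  have hn0 : n = 0 := by
    by_contra hne
    have h3 : (32 * u + Qc u) - (32 * u' + Qc u') = n * (2 * Real.pi * I) := by rw [hn]; ring
    rw [h3, norm_mul, Complex.norm_intCast] at h2
    have h4 : ‖(2 * Real.pi * I : ℂ)‖ = 2 * Real.pi := by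
      rw [norm_mul, Complex.norm_I, mul_one]
      have : (2 * (Real.pi : ℂ)) = ((2 * Real.pi : ℝ) : ℂ) := by push_cast; ring
      rw [this, Complex.norm_real, Real.norm_eq_abs, abs_of_pos (by positivity)]
    rw [h4] at h2
    have h5 : (1 : ℝ) ≤ |(n : ℝ)| := by
      have : 1 ≤ |n| := Int.one_le_abs hne
      exact_mod_cast this
    have := Real.pi_gt_three
    nlinarith
  rw [hn0] at hn
  have h6 : 32 * (u - u') = -(Qc u - Qc u') := by
    have : 32 * u + Qc u = 32 * u' + Qc u' := by rw [hn]; push_cast; ring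
    linear_combination this
  have h7 : 32 * ‖u - u'‖ ≤ tau * ‖u - u'‖ := by
    have h8 := congrArg norm h6
    rw [norm_mul, norm_neg] at h8
    have h32 : ‖(32 : ℂ)‖ = 32 := by norm_num
    rw [h32] at h8
    rw [h8]; exact hl
  have h9 : ‖u - u'‖ = 0 := by
    have := norm_nonneg (u - u'); nlinarith
  exact sub_eq_zero.mp (norm_eq_zero.mp h9)

/-- logarithmic discs -/
def Dl (c r : ℝ) : Set ℂ := {w | w ≠ 0 ∧ ‖log w - c‖ ≤ r}

lemma Dl_meas (c r : ℝ) : MeasurableSet (Dl c r) := by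
  have h1 : MeasurableSet {w : ℂ | w ≠ 0} := (measurableSet_singleton 0).compl
  have h2 : MeasurableSet {w : ℂ | ‖log w - c‖ ≤ r} :=
    measurableSet_le ((Complex.measurable_log.sub_const _).norm) measurable_const
  exact h1.inter h2

lemma log_exp_small {u : ℂ} {c : ℝ} (h : ‖u - c‖ ≤ 3) : log (exp u) = u := by
  have h1 := abs_le.mp ((Complex.abs_im_le_norm (u - c)).trans h)
  rw [Complex.sub_im, Complex.ofReal_im, sub_zero] at h1
  have := Real.pi_gt_three
  exact Complex.log_exp (by linarith) (by linarith)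

/-- `F` maps a small logarithmic disc over a given one -/
lemma Dl_surj {c r r' : ℝ} (hc : -c / 32 ≤ 11 / 10) (hr : r ≤ 3) (hr' : r / 32 + tau ≤ r')
    (hr'' : r' ≤ 3) : Dl c r ⊆ FF '' Dl (-c / 32) r' := by
  rintro z ⟨hz0, hz⟩
  have hre := abs_le.mp ((Complex.abs_re_le_norm (log z - c)).trans hz)
  rw [Complex.sub_re, Complex.ofReal_re] at hre
  obtain ⟨u, hu, hu2⟩ := core_inv (y := log z) (by linarith [hre.1])
  rw [Complex.exp_log hz0] at hu2
  have h1 : ‖u - ((-c / 32 : ℝ) : ℂ)‖ ≤ r' := by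
    have h2 : u - ((-c / 32 : ℝ) : ℂ) = (u + log z / 32) - (log z - c) / 32 := by
      push_cast; ring
    rw [h2]
    refine (norm_sub_le _ _).trans ?_
    have h3 : ‖(log z - c) / 32‖ ≤ r / 32 := by
      rw [norm_div]
      have h32 : ‖(32 : ℂ)‖ = 32 := by norm_num
      rw [h32]; gcongr
    linarith
  refine ⟨exp u, ⟨Complex.exp_ne_zero u, ?_⟩, hu2⟩
  rw [log_exp_small (h1.trans hr'')]
  exact h1

lemma Dl_inj {c r : ℝ} (hc : c ≤ 11 / 10) (hr : r ≤ 1 / 16) : InjOn FF (Dl c r) := by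
  rintro w ⟨hw0, hw⟩ w' ⟨hw0', hw'⟩ he
  have h1 := abs_le.mp ((Complex.abs_re_le_norm (log w - c)).trans hw)
  have h2 := abs_le.mp ((Complex.abs_re_le_norm (log w' - c)).trans hw')
  rw [Complex.sub_re, Complex.ofReal_re] at h1 h2
  have h3 : log w = log w' := by
    apply core_inj (by linarith [h1.2]) (by linarith [h2.2])
    · have : log w - log w' = (log w - c) - (log w' - c) := by ring
      rw [this]
      exact (norm_sub_le _ _).trans (by linarith)
    · rw [Complex.exp_log hw0, Complex.exp_log hw0', he]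
  rw [← Complex.exp_log hw0, ← Complex.exp_log hw0', h3]

/-- surjectivity near the fixed point -/
lemma near_surj {z : ℂ} (hz : ‖z - 1‖ ≤ 6 / 1000) : ∃ w, ‖w - 1‖ ≤ 1 / 1000 ∧ FF w = z := by
  have hL := Lam_ge
  obtain ⟨w, hw, hw2⟩ := lin_surj (f := FF) (a := 1) (D := deriv FF 1) (ρ := 1 / 1000)
    (ε := 24576 * (1 / 1000)) (by norm_num) (by norm_num) (by
      show 24576 * (1 / 1000) < Lam
      linarith) (by
      intro w hw w' hw'
      exact FF_quad (by norm_num) (by simpa [dist_eq_norm] using hw)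
        (by simpa [dist_eq_norm] using hw')) (z := z) (by
      rw [FF_one]
      show ‖z - 1‖ ≤ (Lam - 24576 * (1 / 1000)) * (1 / 1000)
      linarith)
  exact ⟨w, by simpa [dist_eq_norm] using hw, hw2⟩

end Pool.Agent.Work.MP_0a8b43_nt
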