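import Mathlib
import Pool.Agent.Work.MP_0a8b43_nt.Branch

set_option autoImplicit false

open Complex Set Filter Topology MeasureTheory
open scoped ENNReal NNReal

namespace Pool.Agent.Work.MP_0a8b43_nt

lemma FF_meas : Measurable FF := (measurable_const.sub W_diff.continuous.measurable).inv

lemma conf_eq {s : ℝ} {μ : Measure ℂ} (hμ : IsLFConformal FF s μ) {S T : Set ℂ}
    (hS : MeasurableSet S) (hT : MeasurableSet T) (h0 : (0 : ℂ) ∉ T) (hsurj : T ⊆ FF '' S)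
    (hinj : InjOn FF (S ∩ FF ⁻¹' T)) :
    μ T = ∫⁻ z in S ∩ FF ⁻¹' T, ENNReal.ofReal (‖deriv FF z‖ ^ s) ∂μ := by
  have h1 : FF '' (S ∩ FF ⁻¹' T) = T := by
    ext z
    constructor
    · rintro ⟨w, ⟨-, hw⟩, rfl⟩; exact hw
    · intro hz
      obtain ⟨w, hw, rfl⟩ := hsurj hz
      exact ⟨w, ⟨hw, hz⟩, rfl⟩
  have h2 := hμ.conf (S ∩ FF ⁻¹' T) (hS.inter (FF_meas hT)) (by
    rintro w ⟨-, hw⟩
    apply not_pole_iff.mpr
    apply FF_ne
    intro h
    exact h0 (by rw [← h]; exact hw)) hinj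
  rw [h1] at h2
  exact h2

lemma transport {s : ℝ} {μ : Measure ℂ} (hμ : IsLFConformal FF s μ) (hs : 0 ≤ s) {S T : Set ℂ}
    (hS : MeasurableSet S) (hT : MeasurableSet T) (h0 : (0 : ℂ) ∉ T) (hsurj : T ⊆ FF '' S)
    (hinj : InjOn FF (S ∩ FF ⁻¹' T)) {C : ℝ} (hd : ∀ w ∈ S ∩ FF ⁻¹' T, ‖deriv FF w‖ ≤ C) :
    μ T ≤ ENNReal.ofReal (C ^ s) * μ (S ∩ FF ⁻¹' T) := by
  rw [conf_eq hμ hS hT h0 hsurj hinj]
  calc ∫⁻ z in S ∩ FF ⁻¹' T, ENNReal.ofReal (‖deriv FF z‖ ^ s) ∂μ ≤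
      ∫⁻ z in S ∩ FF ⁻¹' T, ENNReal.ofReal (C ^ s) ∂μ := by
        apply setLIntegral_mono' (hS.inter (FF_meas hT))
        intro z hz
        apply ENNReal.ofReal_le_ofReal
        exact Real.rpow_le_rpow (norm_nonneg _) (hd z hz) hs
    _ = _ := by rw [setLIntegral_const]

lemma pos_transport {s : ℝ} {μ : Measure ℂ} (hμ : IsLFConformal FF s μ) {S T : Set ℂ}
    (hS : MeasurableSet S) (hT : MeasurableSet T) (h0 : (0 : ℂ) ∉ T) (hsurj : T ⊆ FF '' S)
    (hinj : InjOn FF (S ∩ FF ⁻¹' T)) (hpos : μ T ≠ 0) : μ S ≠ 0 := by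
  intro h
  apply hpos
  rw [conf_eq hμ hS hT h0 hsurj hinj]
  have : μ (S ∩ FF ⁻¹' T) = 0 := measure_mono_null inter_subset_left h
  rw [Measure.restrict_eq_zero.mpr this, lintegral_zero_measure]

/-- neighbourhood of the positive zero on circle `j` -/
def Sj (j : ℕ) : Set ℂ := {w | w ≠ 0 ∧ zt j w = 1 ∧ ‖log (q j w)‖ ≤ 1 / 3}

lemma q_meas (j : ℕ) : Measurable (q j) := (q_diff j).continuous.measurable

lemma Sj_meas (j : ℕ) : MeasurableSet (Sj j) := by
  have h1 : MeasurableSet {w : ℂ | w ≠ 0} := (measurableSet_singleton 0).compl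
  have hlog : Measurable (fun w => log (q j w)) := Complex.measurable_log.comp (q_meas j)
  have h2 : MeasurableSet {w : ℂ | zt j w = 1} := by
    have : Measurable (zt j) := by
      unfold zt
      exact (measurable_id.div_const _).mul (Complex.measurable_exp.comp (hlog.div_const _).neg)
    exact this (measurableSet_singleton 1)
  have h3 : MeasurableSet {w : ℂ | ‖log (q j w)‖ ≤ 1 / 3} :=
    measurableSet_le hlog.norm measurable_const
  exact h1.inter (h2.inter h3)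

lemma Sj_eq {j : ℕ} {w : ℂ} (h : w ∈ Sj j) : wm j 1 (log (q j w)) = w := by
  have := wm_zt (j := j) (w := w)
  rwa [h.2.1] at this

lemma log_exp_third {v : ℂ} (hv : ‖v‖ ≤ 1 / 3) : log (exp v) = v :=
  log_exp_small (c := 0) (by simp; linarith)

lemma wm_Sj {j : ℕ} {v : ℂ} (hv : ‖v‖ ≤ 1 / 3) : wm j 1 v ∈ Sj j ∧ log (q j (wm j 1 v)) = v := by
  have h1 : log (q j (wm j 1 v)) = v := by
    rw [q_wm (one_pow _), log_exp_third hv]
  refine ⟨⟨wm_ne (one_pow _) v, ?_, by rw [h1]; exact hv⟩, h1⟩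
  rw [zt, h1, wm]
  have h2 : exp (v / (NN j : ℂ)) * exp (-(v / NN j)) = 1 := by
    rw [← Complex.exp_add]; simp
  have h3 : (Rr j : ℂ) * 1 * exp (v / NN j) / Rr j = exp (v / NN j) := by
    field_simp [Rr_ne j]
  rw [h3, h2]

lemma Sj_trans {j : ℕ} {w : ℂ} (h : w ∈ Sj j) : Trans j w := by
  rw [← Sj_eq h]
  exact trans_wm (one_pow _) (by linarith [h.2.2])

lemma Sj_Dl (j : ℕ) : Sj j ⊆ Dl (rho j) (1 / 99) := by
  intro w hw
  refine ⟨hw.1, ?_⟩
  have hN := NN_ge_real j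
  have h1 : w = exp (rho j + log (q j w) / NN j) := by
    have h2 := Sj_eq hw
    rw [wm, mul_one, Rr] at h2
    rw [Complex.exp_add]
    push_cast at h2
    exact h2.symm
  have h3 : ‖log (q j w) / (NN j : ℂ)‖ ≤ 1 / 99 := by
    rw [norm_div, Complex.norm_natCast, div_le_iff₀ (by linarith)]
    have := hw.2.2
    linarith
  have h4 : log w = rho j + log (q j w) / NN j := by
    nth_rewrite 1 [h1]
    apply log_exp_small (c := (rho j : ℝ))
    push_cast
    rw [add_sub_cancel_left]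
    linarith
  rw [h4]
  push_cast
  rw [add_sub_cancel_left]
  exact h3

/-- facts on `V_j(R_j)` -/
lemma V_facts (j : ℕ) : VV j (wm j 1 0) ≠ 0 ∧ 99 / 100 * (lev j : ℝ) ≤ Real.log ‖VV j (wm j 1 0)‖ ∧
    Real.log ‖VV j (wm j 1 0)‖ ≤ 101 / 100 * lev j := by
  obtain ⟨h1, h2, h3, h4⟩ := trans_VV (trans_wm (j := j) (ζ := 1) (one_pow _) (v := 0) (by simp))
  have := abs_le.mp h4
  exact ⟨h1, by linarith [this.1], by linarith [this.2]⟩

/-- surjectivity at the circles of even index -/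
lemma typeA_surj {j : ℕ} (hj : Even j) {z : ℂ} (hz : z ≠ 0)
    (h : ‖1 - z⁻¹‖ ≤ Real.exp (9 / 10 * lev j)) : ∃ w ∈ Sj j, FF w = z := by
  obtain ⟨κ, κ', hκ, hκ0, hκb, hmod⟩ := model (j := j) (ζ := 1) (one_pow _)
  obtain ⟨v1, v2, v3⟩ := V_facts j
  have hL := lev_ge_real j
  have hVp : 0 < ‖VV j (wm j 1 0)‖ := norm_pos_iff.mpr v1
  have hV : 6 * Real.exp (9 / 10 * lev j) ≤ ‖VV j (wm j 1 0)‖ := by
    rw [Real.le_log_iff_exp_le hVp] at v2
    refine le_trans ?_ v2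
    have h1 : 99 / 100 * (lev j : ℝ) = 9 / 100 * lev j + 9 / 10 * lev j := by ring
    rw [h1, Real.exp_add]
    gcongr
    have := Real.add_one_le_exp (9 / 100 * (lev j : ℝ))
    linarith
  obtain ⟨v, hv, -, hv2⟩ := circle_surj hκ hκ0 hκb (ξ := (1 - z⁻¹) / VV j (wm j 1 0)) (by
    rw [norm_div, div_le_iff₀ hVp]; linarith)
  obtain ⟨e1, e2⟩ := wm_Sj (j := j) hv
  refine ⟨wm j 1 v, e1, ?_⟩
  rw [FF_eq_iff hz, hmod v (by simp only [Metric.mem_ball, dist_zero_right]; linarith),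
    kk_even hj, pow_one, hv2]
  field_simp
  ring

lemma typeA_inj {j : ℕ} (hj : Even j) {T : Set ℂ} (h0 : (0 : ℂ) ∉ T) :
    InjOn FF (Sj j ∩ FF ⁻¹' T) := by
  rintro w ⟨hw, hwT⟩ w' ⟨hw', hwT'⟩ he
  obtain ⟨κ, κ', hκ, hκ0, hκb, hmod⟩ := model (j := j) (ζ := 1) (one_pow _)
  obtain ⟨v1, v2, v3⟩ := V_facts j
  have hz : FF w ≠ 0 := by
    intro h; exact h0 (by rw [← h]; exact hwT)
  have h1 := (FF_eq_iff (w := w) hz).mp rfl
  have h2 := (FF_eq_iff (w := w') hz).mp he.symm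
  have h3 : W w = W w' := by
    have : 1 - W w = 1 - W w' := by rw [h1, h2]
    linear_combination -this
  have hb : log (q j w) ∈ Metric.ball (0 : ℂ) (1 / 2) := by
    simp only [Metric.mem_ball, dist_zero_right]; linarith [hw.2.2]
  have hb' : log (q j w') ∈ Metric.ball (0 : ℂ) (1 / 2) := by
    simp only [Metric.mem_ball, dist_zero_right]; linarith [hw'.2.2]
  have h4 := hmod _ hb
  have h5 := hmod _ hb'
  rw [Sj_eq hw, kk_even hj, pow_one] at h4
  rw [Sj_eq hw', kk_even hj, pow_one] at h5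
  rw [h4, h5] at h3
  have h6 := mul_left_cancel₀ v1 h3
  have h7 := circle_inj hκ hκ0 hκb hw.2.2 hw'.2.2 h6
  rw [← Sj_eq hw, ← Sj_eq hw', h7]

lemma zero_notMem_Sj (j : ℕ) : (0 : ℂ) ∉ Sj j := fun h => h.1 rfl

lemma pos_S0 {s : ℝ} {μ : Measure ℂ} (hμ : IsLFConformal FF s μ) (hpos : μ {0}ᶜ ≠ 0) :
    μ (Sj 0) ≠ 0 := by
  -- some even circle
  have h1 : ∃ n, μ (Sj (2 * n)) ≠ 0 := by
    have hcov : ({0}ᶜ : Set ℂ) ⊆ ⋃ n : ℕ, {z : ℂ | z ≠ 0 ∧ ‖1 - z⁻¹‖ ≤ Real.exp (9 / 10 * lev (2 * n))} := by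
      intro z hz
      obtain ⟨n, hn⟩ := exists_nat_gt (2 * ‖1 - z⁻¹‖)
      refine mem_iUnion.mpr ⟨n, hz, ?_⟩
      have h2 : (n : ℝ) ≤ lev (2 * n) := by
        have e1 := lev_ge (2 * n)
        have e2 := rho_ge_add (2 * n)
        have : n ≤ lev (2 * n) := by omega
        exact_mod_cast this
      have h3 := Real.add_one_le_exp (9 / 10 * (lev (2 * n) : ℝ))
      have := norm_nonneg (1 - z⁻¹)
      linarith
    by_contra hcon
    push Not at hcon
    apply hpos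
    refine measure_mono_null hcov (measure_iUnion_null (fun n => ?_))
    by_contra hne
    refine pos_transport hμ (Sj_meas (2 * n)) ?_ (fun h => h.1 rfl) ?_
      (typeA_inj (even_two_mul n) (fun h => h.1 rfl)) hne (hcon n)
    · exact ((measurableSet_singleton (0 : ℂ)).compl).inter
        (measurableSet_le ((measurable_const.sub measurable_inv).norm) measurable_const)
    · rintro z ⟨hz0, hz⟩
      obtain ⟨w, hw, rfl⟩ := typeA_surj (even_two_mul n) hz0 hz
      exact ⟨w, hw, rfl⟩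
  obtain ⟨n, hn⟩ := h1
  refine pos_transport hμ (Sj_meas 0) (Sj_meas (2 * n)) (zero_notMem_Sj _) ?_
    (typeA_inj (by simp) (zero_notMem_Sj _)) hn
  intro z hz
  have hlog := (Sj_Dl (2 * n) hz).2
  have hre := (abs_le.mp ((Complex.abs_re_le_norm _).trans hlog)).1
  rw [Complex.sub_re, Complex.log_re, Complex.ofReal_re] at hre
  have hr := rho_ge_real (2 * n)
  have h2 : 1 ≤ ‖z‖ := by
    have h3 : 0 ≤ Real.log ‖z‖ := by linarith
    rwa [Real.le_log_iff_exp_le (norm_pos_iff.mpr hz.1), Real.exp_zero] at h3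
  obtain ⟨w, hw, rfl⟩ := typeA_surj (j := 0) (by simp) hz.1 (by
    have h3 := norm_sub_le 1 z⁻¹
    rw [norm_one, norm_inv] at h3
    have h4 : ‖z‖⁻¹ ≤ 1 := inv_le_one_of_one_le₀ h2
    have h5 := Real.add_one_le_exp (9 / 10 * (lev 0 : ℝ))
    have h6 := lev_ge_real 0
    linarith)
  exact ⟨w, hw, rfl⟩

lemma pos_Dl {s : ℝ} {μ : Measure ℂ} (hμ : IsLFConformal FF s μ) {c r r' : ℝ}
    (hc : -c / 32 ≤ 11 / 10) (hr : r ≤ 3) (hr' : r / 32 + tau ≤ r') (hr'' : r' ≤ 1 / 16)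
    (h : μ (Dl c r) ≠ 0) : μ (Dl (-c / 32) r') ≠ 0 :=
  pos_transport hμ (Dl_meas _ _) (Dl_meas _ _) (fun h => h.1 rfl)
    (Dl_surj hc hr hr' (by linarith)) ((Dl_inj hc hr'').mono inter_subset_left) h

/-- contraction chain towards the fixed point -/
lemma pos_chain {s : ℝ} {μ : Measure ℂ} (hμ : IsLFConformal FF s μ) (hpos : μ {0}ᶜ ≠ 0) :
    ∀ n ≤ 8, μ (Dl (1000 / (-32) ^ n) (1 / 50 * (1 / 30) ^ n)) ≠ 0 := by
  intro n
  induction n with
  | zero =>
    intro _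
    intro h
    apply pos_S0 hμ hpos
    refine measure_mono_null ?_ h
    intro w hw
    obtain ⟨h1, h2⟩ := Sj_Dl 0 hw
    refine ⟨h1, ?_⟩
    rw [rho_zero] at h2
    norm_num at h2 ⊢
    linarith
  | succ n ih =>
    intro hn
    have h1 := ih (by omega)
    have h2 : (1000 : ℝ) / (-32) ^ (n + 1) = -(1000 / (-32) ^ n) / 32 := by
      rw [pow_succ]; field_simp
    rw [h2]
    have hp30 : (1 / 30 : ℝ) ^ n ≤ 1 := pow_le_one₀ (by norm_num) (by norm_num)
    have hp30' : (1 / 30 : ℝ) ^ 8 ≤ (1 / 30) ^ n :=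
      pow_le_pow_of_le_one (by norm_num) (by norm_num) (by omega)
    refine pos_Dl hμ ?_ (by linarith) ?_ ?_ h1
    · rw [← h2]
      have habs : |(1000 : ℝ) / (-32) ^ (n + 1)| ≤ 1000 / 32 ^ (n + 1) := by
        rw [abs_div, abs_pow]; norm_num
      rcases Nat.eq_zero_or_pos n with rfl | hn0
      · norm_num
      · have h3 : (1000 : ℝ) / 32 ^ (n + 1) ≤ 1000 / 32 ^ 2 := by
          apply div_le_div_of_nonneg_left (by norm_num) (by norm_num)
          exact pow_le_pow_right₀ (by norm_num) (by omega)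
        have := (abs_le.mp habs).2
        norm_num at h3 ⊢
        linarith
    · rw [pow_succ]
      have : tau ≤ 1 / 50 * (1 / 30) ^ 8 / 480 := by unfold tau; norm_num
      nlinarith
    · rw [pow_succ]
      nlinarith [pow_pos (by norm_num : (0 : ℝ) < 1 / 30) n]

/-- radius of the starting annulus -/
noncomputable def a0 : ℝ := 9 / 10 * (1000 / 32 ^ 8)

lemma a0_pos : 0 < a0 := by unfold a0; norm_num
lemma a0_le : a0 ≤ 1 / 1000000000 := by unfold a0; norm_num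

/-- the starting set -/
noncomputable def A0 : Set ℂ := Dl (1000 / (-32) ^ 8) (1 / 50 * (1 / 30) ^ 8)

lemma A0_meas : MeasurableSet A0 := Dl_meas _ _

lemma A0_sub {w : ℂ} (h : w ∈ A0) : a0 ≤ ‖w - 1‖ ∧ ‖w - 1‖ ≤ 2 * a0 := by
  obtain ⟨h0, h1⟩ := h
  set ℓ := log w with hℓ
  have hw : exp ℓ = w := Complex.exp_log h0
  set c : ℝ := 1000 / (-32) ^ 8 with hc
  have hcv : c = 1000 / 32 ^ 8 := by rw [hc]; norm_num
  have hcn : ‖(c : ℂ)‖ = 1000 / 32 ^ 8 := by
    rw [Complex.norm_real, Real.norm_eq_abs, hcv, abs_of_pos (by norm_num)]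
  have h2 : ‖ℓ‖ ≤ 1000 / 32 ^ 8 + 1 / 50 * (1 / 30) ^ 8 := by
    have := norm_add_le (ℓ - c) c
    rw [sub_add_cancel, hcn] at this
    linarith
  have h3 : 1000 / 32 ^ 8 - 1 / 50 * (1 / 30) ^ 8 ≤ ‖ℓ‖ := by
    have := norm_sub_norm_le (c : ℂ) (c - ℓ)
    rw [sub_sub_cancel, hcn, norm_sub_rev] at this
    linarith
  have h4 : ‖exp ℓ - 1 - ℓ‖ ≤ ‖ℓ‖ ^ 2 := Complex.norm_exp_sub_one_sub_id_le (by
    refine h2.trans ?_; norm_num)
  rw [hw] at h4
  have h5 : ‖ℓ‖ ^ 2 ≤ 1 / 1000 * ‖ℓ‖ := by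
    have : ‖ℓ‖ ≤ 1 / 1000 := by refine h2.trans ?_; norm_num
    nlinarith [norm_nonneg ℓ]
  have h6 := norm_sub_norm_le (w - 1) (w - 1 - ℓ)
  rw [sub_sub_cancel] at h6
  have h7 := norm_add_le (w - 1 - ℓ) ℓ
  rw [sub_add_cancel] at h7
  have h8 := norm_sub_norm_le ℓ (ℓ - (w - 1))
  rw [sub_sub_cancel, norm_sub_rev ℓ (w - 1)] at h8
  unfold a0
  constructor
  · have : 9 / 10 * (1000 / 32 ^ 8 : ℝ) ≤ 999 / 1000 * (1000 / 32 ^ 8 - 1 / 50 * (1 / 30) ^ 8) := by
      norm_num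
    nlinarith
  · have : 1001 / 1000 * (1000 / 32 ^ 8 + 1 / 50 * (1 / 30) ^ 8 : ℝ) ≤
        2 * (9 / 10 * (1000 / 32 ^ 8)) := by norm_num
    nlinarith

lemma pos_A0 {s : ℝ} {μ : Measure ℂ} (hμ : IsLFConformal FF s μ) (hpos : μ {0}ᶜ ≠ 0) :
    μ A0 ≠ 0 := pos_chain hμ hpos 8 le_rfl

/-! ### sets converging to the fixed point -/

/-- successive preimages near the fixed point -/
noncomputable def AL : ℕ → Set ℂ
  | 0 => A0
  | l + 1 => Metric.closedBall 1 (1 / 1000) ∩ FF ⁻¹' (AL l)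

lemma AL_meas (l : ℕ) : MeasurableSet (AL l) := by
  induction l with
  | zero => exact A0_meas
  | succ l ih => exact Metric.isClosed_closedBall.measurableSet.inter (FF_meas ih)

lemma AL_six {l : ℕ} {w : ℂ} (h : w ∈ AL l) : ‖w - 1‖ ≤ 2 * a0 / 6 ^ l ∧ w ≠ 1 := by
  induction l generalizing w with
  | zero =>
    obtain ⟨h1, h2⟩ := A0_sub h
    refine ⟨by simpa using h2, ?_⟩
    rintro rfl
    have := a0_pos
    simp at h1
    linarith
  | succ l ih =>
    obtain ⟨h1, h2⟩ := h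
    have h1' : ‖w - 1‖ ≤ 1 / 1000 := by simpa [dist_eq_norm] using h1
    obtain ⟨h3, h4⟩ := ih h2
    refine ⟨?_, ?_⟩
    · have h5 := (FF_one_bounds (w := w) (by linarith)).1
      have hL := Lam_ge
      have h6 : 6 * ‖w - 1‖ ≤ ‖FF w - 1‖ := by
        refine le_trans ?_ h5
        apply mul_le_mul_of_nonneg_right _ (norm_nonneg _)
        linarith
      rw [pow_succ, ← div_div, le_div_iff₀ (by norm_num)]
      linarith
    · rintro rfl
      exact h4 FF_one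

lemma two_le_six (l : ℕ) : 2 * a0 / 6 ^ l ≤ 2 * a0 := by
  apply div_le_self (by have := a0_pos; linarith)
  exact one_le_pow₀ (by norm_num)

lemma half_six (l : ℕ) : 4000 * (a0 / 6 ^ l) ≤ (1 / 2) ^ l := by
  have h1 := a0_le
  have h2 := a0_pos
  have h3 : a0 / 6 ^ l ≤ 1 / 1000000000 * (1 / 2) ^ l := by
    rw [div_le_iff₀ (by positivity)]
    have h4 : (1 : ℝ) ≤ (1 / 2) ^ l * 6 ^ l := by
      rw [← mul_pow]; exact one_le_pow₀ (by norm_num)
    nlinarith
  have h5 : (0 : ℝ) < (1 / 2) ^ l := by positivity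
  nlinarith

lemma AL_size {l : ℕ} {w : ℂ} (h : w ∈ AL l) :
    Lam ^ l * ‖w - 1‖ ≤ 2 * a0 * Real.exp (1 - (1 / 2) ^ l) := by
  induction l generalizing w with
  | zero =>
    have := (A0_sub h).2
    simpa using this
  | succ l ih =>
    have hx := (AL_six h).1
    have hx2 := two_le_six (l + 1)
    have ha := a0_le
    have ha0 := a0_pos
    obtain ⟨h1, h2⟩ := h
    have h3 := ih h2
    have hL := Lam_ge
    set x := ‖w - 1‖ with hxd
    have hx0 : 0 ≤ x := norm_nonneg _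
    have h5 := (FF_one_bounds (w := w) (by rw [← hxd]; linarith)).1
    rw [← hxd] at h5
    have h6 : Lam * (1 - 1000 * x) * x ≤ ‖FF w - 1‖ := by
      refine le_trans ?_ h5
      apply mul_le_mul_of_nonneg_right _ hx0
      nlinarith
    have h7 : Real.exp (-(1 / 2) ^ (l + 1)) ≤ 1 - 1000 * x := by
      have h8 := half_six (l + 1)
      have h9 : 2000 * x ≤ (1 / 2) ^ (l + 1) := by
        have : 2 * a0 / 6 ^ (l + 1) = 2 * (a0 / 6 ^ (l + 1)) := by ring
        linarith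
      have h10 : Real.exp (-(1 / 2) ^ (l + 1)) ≤ Real.exp (-(2000 * x)) :=
        Real.exp_le_exp.mpr (by linarith)
      refine h10.trans ?_
      rw [Real.exp_neg, inv_le_iff_one_le_mul₀ (Real.exp_pos _)]
      have := Real.add_one_le_exp (2000 * x)
      have : x ≤ 1 / 100000 := by linarith
      nlinarith
    have h8 : Lam * x ≤ Real.exp ((1 / 2) ^ (l + 1)) * ‖FF w - 1‖ := by
      have h9 : Real.exp (-(1 / 2) ^ (l + 1)) * (Lam * x) ≤ ‖FF w - 1‖ := by
        refine le_trans ?_ h6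
        have : 0 ≤ Lam * x := by positivity
        nlinarith
      calc Lam * x = Real.exp ((1 / 2) ^ (l + 1)) * (Real.exp (-(1 / 2) ^ (l + 1)) * (Lam * x)) := by
            rw [← mul_assoc, ← Real.exp_add]; simp
        _ ≤ _ := by gcongr
    calc Lam ^ (l + 1) * x = Lam ^ l * (Lam * x) := by ring
      _ ≤ Lam ^ l * (Real.exp ((1 / 2) ^ (l + 1)) * ‖FF w - 1‖) := by gcongr
      _ = Real.exp ((1 / 2) ^ (l + 1)) * (Lam ^ l * ‖FF w - 1‖) := by ring
      _ ≤ Real.exp ((1 / 2) ^ (l + 1)) * (2 * a0 * Real.exp (1 - (1 / 2) ^ l)) := by gcongr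
      _ = 2 * a0 * (Real.exp ((1 / 2) ^ (l + 1)) * Real.exp (1 - (1 / 2) ^ l)) := by ring
      _ = _ := by rw [← Real.exp_add, pow_succ]; ring_nf

lemma exp_le_three (l : ℕ) : Real.exp (1 - (1 / 2) ^ l) ≤ 3 := by
  have h1 : Real.exp (1 - (1 / 2) ^ l) ≤ Real.exp 1 := by
    apply Real.exp_le_exp.mpr
    have : (0 : ℝ) < (1 / 2) ^ l := by positivity
    linarith
  have := Real.exp_one_lt_d9
  linarith

lemma AL_disj {l l' : ℕ} (h : l < l') : Disjoint (AL l) (AL l') := by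
  rw [Set.disjoint_left]
  induction l generalizing l' with
  | zero =>
    intro w hw hw'
    obtain ⟨m, rfl⟩ : ∃ m, l' = m + 1 := ⟨l' - 1, by omega⟩
    have h1 := (A0_sub hw).1
    have h2 := (AL_six hw').1
    have ha := a0_pos
    have h3 : 2 * a0 / 6 ^ (m + 1) ≤ 2 * a0 / 6 := by
      apply div_le_div_of_nonneg_left (by linarith) (by norm_num)
      rw [pow_succ]
      have : (1 : ℝ) ≤ 6 ^ m := one_le_pow₀ (by norm_num)
      linarith
    linarith
  | succ l ih =>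
    intro w hw hw'
    obtain ⟨m, rfl⟩ : ∃ m, l' = m + 1 := ⟨l' - 1, by omega⟩
    exact ih (l' := m) (by omega) hw.2 hw'.2

lemma AL_zero_notMem (l : ℕ) : (0 : ℂ) ∉ AL l := by
  intro h
  have h1 := (AL_six h).1
  have h2 := two_le_six l
  have := a0_le
  rw [zero_sub, norm_neg, norm_one] at h1
  linarith

lemma AL_mass {s : ℝ} {μ : Measure ℂ} (hμ : IsLFConformal FF s μ) (hs : 0 ≤ s) (l : ℕ) :
    μ A0 ≤ ENNReal.ofReal ((Lam ^ l * Real.exp (1 - (1 / 2) ^ l)) ^ s) * μ (AL l) := by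
  have hL := Lam_ge
  induction l with
  | zero =>
    simp only [pow_zero, sub_self, Real.exp_zero, mul_one, Real.one_rpow, ENNReal.ofReal_one, one_mul]
    exact le_refl _
  | succ l ih =>
    have h1 := transport hμ hs (S := Metric.closedBall 1 (1 / 1000)) (T := AL l)
      Metric.isClosed_closedBall.measurableSet (AL_meas l) (AL_zero_notMem l) (by
        intro z hz
        have h2 := (AL_six hz).1
        have h3 := two_le_six l
        have := a0_le
        obtain ⟨w, hw, hw2⟩ := near_surj (z := z) (by linarith)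
        exact ⟨w, by simpa [dist_eq_norm] using hw, hw2⟩) (by
        rintro w ⟨hw, -⟩ w' ⟨hw', -⟩ he
        exact near_inj (by simpa [dist_eq_norm] using hw) (by simpa [dist_eq_norm] using hw') he)
      (C := Lam * Real.exp ((1 / 2) ^ (l + 1))) (by
        intro w hw
        have h2 := (AL_six (l := l + 1) hw).1
        have h3 := two_le_six (l + 1)
        have ha := a0_le
        have h4 := FFd_lip (w := w) (by linarith)
        have h5 : ‖deriv FF w‖ ≤ Lam + 24576 * ‖w - 1‖ := by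
          have := norm_add_le (deriv FF w - deriv FF 1) (deriv FF 1)
          rw [sub_add_cancel] at this
          unfold Lam; linarith
        have h6 := half_six (l + 1)
        have h7 : 1000 * ‖w - 1‖ ≤ (1 / 2) ^ (l + 1) := by
          have : 2 * a0 / 6 ^ (l + 1) = 2 * (a0 / 6 ^ (l + 1)) := by ring
          have := norm_nonneg (w - 1)
          linarith
        have h8 := Real.add_one_le_exp ((1 / 2 : ℝ) ^ (l + 1))
        have h9 : Lam + 24576 * ‖w - 1‖ ≤ Lam * (1 + 1000 * ‖w - 1‖) := by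
          nlinarith [norm_nonneg (w - 1)]
        have h10 : Lam * (1 + 1000 * ‖w - 1‖) ≤ Lam * Real.exp ((1 / 2) ^ (l + 1)) := by
          gcongr; linarith
        linarith)
    have h2 : Metric.closedBall 1 (1 / 1000) ∩ FF ⁻¹' (AL l) = AL (l + 1) := rfl
    rw [h2] at h1
    calc μ A0 ≤ ENNReal.ofReal ((Lam ^ l * Real.exp (1 - (1 / 2) ^ l)) ^ s) * μ (AL l) := ih
      _ ≤ ENNReal.ofReal ((Lam ^ l * Real.exp (1 - (1 / 2) ^ l)) ^ s) *
          (ENNReal.ofReal ((Lam * Real.exp ((1 / 2) ^ (l + 1))) ^ s) * μ (AL (l + 1))) := by gcongr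
      _ = _ := by
          rw [← mul_assoc, ← ENNReal.ofReal_mul (by positivity), ← Real.mul_rpow (by positivity)
            (by positivity)]
          congr 3
          have h3 : Real.exp (1 - (1 / 2) ^ l) * Real.exp ((1 / 2) ^ (l + 1)) =
              Real.exp (1 - (1 / 2) ^ (l + 1)) := by
            rw [← Real.exp_add, pow_succ]; ring_nf
          calc Lam ^ l * Real.exp (1 - (1 / 2) ^ l) * (Lam * Real.exp ((1 / 2) ^ (l + 1))) =
              Lam ^ (l + 1) * (Real.exp (1 - (1 / 2) ^ l) * Real.exp ((1 / 2) ^ (l + 1))) := by ring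
            _ = _ := by rw [h3]

lemma AL_mass' {s : ℝ} {μ : Measure ℂ} (hμ : IsLFConformal FF s μ) (hs : 0 ≤ s) (l : ℕ) :
    μ A0 ≤ ENNReal.ofReal ((3 * Lam ^ l) ^ s) * μ (AL l) := by
  refine (AL_mass hμ hs l).trans ?_
  have hL := Lam_ge
  have := exp_le_three l
  have hp : 0 < Lam ^ l := by positivity
  gcongr ENNReal.ofReal (?_ ^ s) * _
  nlinarith

end Pool.Agent.Work.MP_0a8b43_nt
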