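import Mathlib
import Pool.Agent.Work.MP_0a8b43_nt.Conf1

set_option autoImplicit false

open Complex Set Filter Topology MeasureTheory
open scoped ENNReal NNReal

namespace Pool.Agent.Work.MP_0a8b43_nt

/-- sector index -/
noncomputable def sec (k : ℕ) (ξ : ℂ) : ℕ := ⌊(Real.pi - ξ.arg) * (k / (2 * Real.pi))⌋₊

lemma sec_meas (k : ℕ) : Measurable (sec k) := by
  unfold sec
  exact Nat.measurable_floor.comp ((measurable_const.sub Complex.measurable_arg).mul_const _)

/-- a point is determined by its `k`-th power and its sector -/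
lemma sec_inj {k : ℕ} (hk : 0 < k) {ξ ξ' : ℂ} (h0 : ξ ≠ 0) (hpow : ξ ^ k = ξ' ^ k)
    (hs : sec k ξ = sec k ξ') : ξ = ξ' := by
  have hkR : (0 : ℝ) < k := by exact_mod_cast hk
  have hpi := Real.pi_pos
  have hnorm : ‖ξ‖ = ‖ξ'‖ := by
    have := congrArg norm hpow
    rw [norm_pow, norm_pow] at this
    exact (pow_left_inj₀ (norm_nonneg _) (norm_nonneg _) hk.ne').mp this
  have h0' : ξ' ≠ 0 := by
    rw [← norm_pos_iff, ← hnorm]; exact norm_pos_iff.mpr h0
  -- the arguments
  have harg : |ξ.arg - ξ'.arg| < 2 * Real.pi / k := by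
    have hc : 0 < (k : ℝ) / (2 * Real.pi) := by positivity
    have e0 : ∀ x : ℂ, 0 ≤ (Real.pi - x.arg) * (k / (2 * Real.pi)) := by
      intro x
      have := Complex.arg_le_pi x
      exact mul_nonneg (by linarith) hc.le
    have e1 := Nat.floor_le (e0 ξ)
    have e2 := Nat.lt_floor_add_one ((Real.pi - ξ.arg) * (k / (2 * Real.pi)))
    have e3 := Nat.floor_le (e0 ξ')
    have e4 := Nat.lt_floor_add_one ((Real.pi - ξ'.arg) * (k / (2 * Real.pi)))
    have e5 : (⌊(Real.pi - ξ.arg) * (k / (2 * Real.pi))⌋₊ : ℝ) =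
        ⌊(Real.pi - ξ'.arg) * (k / (2 * Real.pi))⌋₊ := by
      have : sec k ξ = sec k ξ' := hs
      unfold sec at this
      exact_mod_cast this
    have e6 : |(ξ.arg - ξ'.arg) * (k / (2 * Real.pi))| < 1 := by
      rw [abs_lt]; constructor <;> nlinarith
    rw [abs_mul, abs_of_pos hc] at e6
    rw [lt_div_iff₀ hkR]
    have e7 : |ξ.arg - ξ'.arg| * (k / (2 * Real.pi)) * (2 * Real.pi) = |ξ.arg - ξ'.arg| * k := by
      field_simp
    nlinarith
  have h1 := Complex.norm_mul_exp_arg_mul_I ξ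
  have h2 := Complex.norm_mul_exp_arg_mul_I ξ'
  have hN : (‖ξ‖ : ℂ) ≠ 0 := by exact_mod_cast (norm_pos_iff.mpr h0).ne'
  have h3 : exp (k * (ξ.arg * I)) = exp (k * (ξ'.arg * I)) := by
    rw [← h1, ← h2, mul_pow, mul_pow, ← hnorm] at hpow
    have := mul_left_cancel₀ (pow_ne_zero k hN) hpow
    rwa [← Complex.exp_nat_mul, ← Complex.exp_nat_mul] at this
  rw [Complex.exp_eq_exp_iff_exists_int] at h3
  obtain ⟨n, hn⟩ := h3
  have h4 : (k : ℝ) * (ξ.arg - ξ'.arg) = n * (2 * Real.pi) := by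
    have h5 : ((k : ℂ) * (ξ.arg * I)) - (k * (ξ'.arg * I)) = n * (2 * Real.pi * I) := by
      rw [hn]; ring
    have h6 : (((k : ℝ) * (ξ.arg - ξ'.arg) : ℝ) : ℂ) * I = ((n * (2 * Real.pi) : ℝ) : ℂ) * I := by
      push_cast
      linear_combination h5
    have h7 := mul_right_cancel₀ Complex.I_ne_zero h6
    exact_mod_cast h7
  have hn0 : n = 0 := by
    by_contra hne
    have h5 : (1 : ℝ) ≤ |(n : ℝ)| := by
      have : 1 ≤ |n| := Int.one_le_abs hne
      exact_mod_cast this
    have h6 := congrArg abs h4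
    rw [abs_mul, abs_mul, abs_of_pos hkR, abs_of_pos (by positivity : (0 : ℝ) < 2 * Real.pi)] at h6
    rw [lt_div_iff₀ hkR] at harg
    nlinarith
  rw [hn0] at h4
  have h5 : ξ.arg = ξ'.arg := by
    have : (k : ℝ) * (ξ.arg - ξ'.arg) = 0 := by rw [h4]; simp
    rcases mul_eq_zero.mp this with h | h
    · exact absurd h hkR.ne'
    · linarith
  rw [← h1, ← h2, hnorm, h5]

/-- each sector contains a `k`-th root -/
lemma sec_surj {k : ℕ} (hk : 0 < k) {c : ℂ} (hc : c ≠ 0) {i : ℕ} (hi : i < k) :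
    ∃ ξ : ℂ, ξ ^ k = c ∧ sec k ξ = i := by
  have hkR : (0 : ℝ) < k := by exact_mod_cast hk
  have hpi := Real.pi_pos
  set x : ℝ := (k * Real.pi - c.arg) / (2 * Real.pi) with hx
  set t : ℝ := Int.fract x with ht
  have ht0 : 0 ≤ t := Int.fract_nonneg x
  have ht1 : t < 1 := Int.fract_lt_one x
  have hti : t = x - ⌊x⌋ := rfl
  set θ : ℝ := Real.pi - 2 * Real.pi * (i + t) / k with hθ
  have hiR : (i : ℝ) + 1 ≤ k := by exact_mod_cast hi
  have hi0 : (0 : ℝ) ≤ i := by positivity
  have hfrac : (i + t) / k < 1 := by rw [div_lt_one hkR]; linarith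
  have hfrac0 : 0 ≤ (i + t) / k := by positivity
  have hθ' : θ = Real.pi - 2 * Real.pi * ((i + t) / k) := by rw [hθ]; ring
  have hθ1 : -Real.pi < θ := by rw [hθ']; nlinarith
  have hθ2 : θ ≤ Real.pi := by rw [hθ']; nlinarith
  set r : ℝ := ‖c‖ ^ (1 / (k : ℝ)) with hr
  have hcp := norm_pos_iff.mpr hc
  have hr0 : 0 < r := Real.rpow_pos_of_pos hcp _
  have hrk : r ^ k = ‖c‖ := by
    rw [hr, ← Real.rpow_natCast, ← Real.rpow_mul hcp.le, one_div_mul_cancel hkR.ne', Real.rpow_one]
  have harg : ((r : ℂ) * exp (θ * I)).arg = θ := by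
    rw [Complex.exp_mul_I]
    exact Complex.arg_mul_cos_add_sin_mul_I hr0 ⟨hθ1, hθ2⟩
  refine ⟨r * exp (θ * I), ?_, ?_⟩
  · rw [mul_pow, ← Complex.exp_nat_mul]
    have h1 : ((r : ℂ)) ^ k = (‖c‖ : ℂ) := by rw [← Complex.ofReal_pow, hrk]
    have h2 : exp (k * (θ * I)) = exp (c.arg * I) := by
      rw [Complex.exp_eq_exp_iff_exists_int]
      refine ⟨⌊x⌋ - i, ?_⟩
      have h3 : (k : ℝ) * θ = c.arg + (⌊x⌋ - i) * (2 * Real.pi) := by
        rw [hθ, hti, hx]
        field_simp
        ring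
      have h4 : (k : ℂ) * θ = c.arg + (⌊x⌋ - i) * (2 * Real.pi) := by
        exact_mod_cast congrArg (fun x : ℝ => (x : ℂ)) h3
      push_cast
      calc (k : ℂ) * (θ * I) = (k * θ) * I := by ring
        _ = _ := by rw [h4]; ring
    rw [h1, h2]
    exact Complex.norm_mul_exp_arg_mul_I c
  · rw [sec, harg]
    have h1 : (Real.pi - θ) * (k / (2 * Real.pi)) = i + t := by
      rw [hθ]; field_simp; ring
    rw [h1, Nat.floor_eq_iff (by positivity)]
    constructor <;> linarith

lemma kk_odd_real {j : ℕ} (h : ¬ Even j) : 4 * (kk j : ℝ) = lev j := by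
  exact_mod_cast four_kk_odd h

/-- `‖V‖` compared with powers, for odd circles -/
lemma V_odd {j : ℕ} (h : ¬ Even j) : Real.exp (396 / 100) ^ kk j ≤ ‖VV j (wm j 1 0)‖ ∧
    ‖VV j (wm j 1 0)‖ ≤ 60 ^ kk j := by
  obtain ⟨v1, v2, v3⟩ := V_facts j
  have hk := kk_odd_real h
  have hVp : 0 < ‖VV j (wm j 1 0)‖ := norm_pos_iff.mpr v1
  constructor
  · rw [← Real.exp_nat_mul, ← Real.le_log_iff_exp_le hVp]
    linarith
  · have h1 : (60 : ℝ) ^ kk j = Real.exp (kk j * Real.log 60) := by
      rw [Real.exp_nat_mul, Real.exp_log (by norm_num)]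
    rw [h1, ← Real.log_le_iff_le_exp hVp]
    have h2 : 404 / 100 ≤ Real.log 60 := by
      rw [Real.le_log_iff_exp_le (by norm_num)]
      have h3 : Real.exp (404 / 100) ^ 25 = Real.exp 1 ^ 101 := by
        rw [← Real.exp_nat_mul, ← Real.exp_nat_mul]; norm_num
      have h4 := Real.exp_one_lt_d9
      have h5 : Real.exp (404 / 100) ^ 25 ≤ 60 ^ 25 := by
        rw [h3]
        calc Real.exp 1 ^ 101 ≤ (2.7182818286 : ℝ) ^ 101 := by gcongr
          _ ≤ 60 ^ 25 := by norm_num
      exact le_of_pow_le_pow_left₀ (by norm_num) (by norm_num) h5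
    have hk0 : (0 : ℝ) ≤ kk j := by positivity
    nlinarith

lemma exp396 : (50 : ℝ) ≤ Real.exp (396 / 100) := by
  have h3 : Real.exp (396 / 100) ^ 25 = Real.exp 1 ^ 99 := by
    rw [← Real.exp_nat_mul, ← Real.exp_nat_mul]; norm_num
  have h4 := Real.exp_one_gt_d9
  have h5 : (50 : ℝ) ^ 25 ≤ Real.exp (396 / 100) ^ 25 := by
    rw [h3]
    calc (50 : ℝ) ^ 25 ≤ (2.7182818283 : ℝ) ^ 99 := by norm_num
      _ ≤ _ := pow_le_pow_left₀ (by norm_num) (by linarith) _
  exact le_of_pow_le_pow_left₀ (by norm_num) (by positivity) h5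

/-- the estimate of the derivative at the level `l`, algebraic part -/
lemma ratio_bound {k l : ℕ} (hl : l ≤ k) {x g V : ℝ} (hk : 0 < k) (hx : 0 < x) (hg : 0 < g)
    (hV : V ≤ 60 ^ k) (hxl : Lam ^ l * x ≤ 1) (h : x / 2 ≤ V * g ^ k) :
    x / g ≤ 3960 / Lam ^ l := by
  have hL := Lam_ge
  have hL' := Lam_le
  have hLp : 0 < Lam ^ l := by positivity
  rw [div_le_div_iff₀ hg hLp]
  -- (x Λ^l / 3960)^k ≤ g^k
  have h1 : (x * Lam ^ l / 3960) ^ k ≤ g ^ k := by
    have h2 : (x * Lam ^ l) ^ k ≤ x * Lam ^ l := by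
      have h3 : x * Lam ^ l ≤ 1 := by linarith
      calc (x * Lam ^ l) ^ k ≤ (x * Lam ^ l) ^ 1 :=
            pow_le_pow_of_le_one (by positivity) h3 hk
        _ = _ := pow_one _
    have h4 : x ≤ 2 * 60 ^ k * g ^ k := by
      have : V * g ^ k ≤ 60 ^ k * g ^ k := by gcongr
      linarith
    have h5 : Lam ^ l ≤ 33 ^ k := by
      calc Lam ^ l ≤ 33 ^ l := pow_le_pow_left₀ (by linarith) hL' _
        _ ≤ 33 ^ k := pow_le_pow_right₀ (by norm_num) hl
    have h6 : (2 : ℝ) ≤ 2 ^ k := by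
      calc (2 : ℝ) = 2 ^ 1 := by norm_num
        _ ≤ 2 ^ k := pow_le_pow_right₀ (by norm_num) hk
    rw [div_pow, div_le_iff₀ (by positivity)]
    calc (x * Lam ^ l) ^ k ≤ x * Lam ^ l := h2
      _ ≤ (2 * 60 ^ k * g ^ k) * 33 ^ k := by gcongr
      _ ≤ (2 ^ k * 60 ^ k * g ^ k) * 33 ^ k := by gcongr
      _ = g ^ k * (2 * 60 * 33) ^ k := by rw [mul_pow, mul_pow]; ring
      _ = g ^ k * 3960 ^ k := by norm_num
  have h2 := le_of_pow_le_pow_left₀ hk.ne' hg.le h1
  linarith

/-- main estimate: the mass near the circle of odd index -/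
lemma mass_odd {s : ℝ} {μ : Measure ℂ} (hμ : IsLFConformal FF s μ) (hs : 0 ≤ s) {j : ℕ}
    (hj : ¬ Even j) :
    ((kk j * kk j : ℕ) : ℝ≥0∞) * μ A0 ≤
      ENNReal.ofReal ((6000000 * kk j / Rr j) ^ s) * μ (Sj j) := by
  classical
  obtain ⟨κ, κ', hκ, hκ0, hκb, hmod⟩ := model (j := j) (ζ := 1) (one_pow _)
  obtain ⟨v1, v2, v3⟩ := V_facts j
  obtain ⟨V1, V2⟩ := V_odd hj
  have hk := kk_pos j
  have hk0 : 0 < kk j := by omega
  have hkR := kk_pos_real j
  have hVp : 0 < ‖VV j (wm j 1 0)‖ := norm_pos_iff.mpr v1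
  have hRp := Rr_pos j
  set V := VV j (wm j 1 0) with hV
  -- a measurable version of κ
  set κt : ℂ → ℂ := (Metric.ball (0 : ℂ) (1 / 2)).piecewise κ (fun _ => 0) with hκt
  have hκtm : Measurable κt := by
    apply ContinuousOn.measurable_piecewise _ continuousOn_const Metric.isOpen_ball.measurableSet
    intro v hv
    exact (hκ v hv).continuousAt.continuousWithinAt
  have hκte : ∀ v : ℂ, ‖v‖ ≤ 1 / 3 → κt v = κ v := by
    intro v hv
    apply Set.piecewise_eq_of_mem
    simp only [Metric.mem_ball, dist_zero_right]; linarith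
  set gg : ℂ → ℂ := fun w => exp (κt (log (q j w))) * (1 - exp (log (q j w))) with hgg
  have hlogm : Measurable (fun w => log (q j w)) := Complex.measurable_log.comp (q_meas j)
  have hggm : Measurable gg :=
    (Complex.measurable_exp.comp (hκtm.comp hlogm)).mul
      (measurable_const.sub (Complex.measurable_exp.comp hlogm))
  have hggW : ∀ w ∈ Sj j, W w = V * gg w ^ kk j := by
    intro w hw
    have h1 := hmod (log (q j w)) (by
      simp only [Metric.mem_ball, dist_zero_right]; linarith [hw.2.2])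
    rw [Sj_eq hw] at h1
    rw [h1, hgg]
    simp only
    rw [hκte _ hw.2.2]
  set E : ℕ → Set ℂ := fun i => Sj j ∩ {w | sec (kk j) (gg w) = i} with hE
  have hEm : ∀ i, MeasurableSet (E i) := by
    intro i
    exact (Sj_meas j).inter (((sec_meas _).comp hggm) (measurableSet_singleton i))
  have hVbig : ∀ c : ℂ, ‖c‖ ≤ 1 → ∀ g : ℝ, 0 ≤ g → ‖V‖ * g ^ kk j = ‖c‖ → g ≤ 1 / 50 := by
    intro c hc g hg h
    have h1 : (50 * g) ^ kk j ≤ 1 ^ kk j := by
      rw [one_pow, mul_pow]
      calc 50 ^ kk j * g ^ kk j ≤ Real.exp (396 / 100) ^ kk j * g ^ kk j := by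
            gcongr; exact exp396
        _ ≤ ‖V‖ * g ^ kk j := by gcongr
        _ ≤ 1 := by rw [h]; exact hc
    have h2 := le_of_pow_le_pow_left₀ (by omega : kk j ≠ 0) (by norm_num) h1
    linarith
  -- points of `AL l`
  have hALz : ∀ l, ∀ z ∈ AL l, ‖z - 1‖ ≤ 1 / 1000 := by
    intro l z hz
    have h1 := (AL_six hz).1
    have h2 := two_le_six l
    have := a0_le
    linarith
  have hc1 : ∀ l, ∀ z ∈ AL l, z ≠ 0 ∧ 1 - z⁻¹ ≠ 0 ∧ ‖1 - z⁻¹‖ ≤ 1 ∧ ‖z - 1‖ / 2 ≤ ‖1 - z⁻¹‖ ∧
      ‖z‖ ≤ 2 := by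
    intro l z hz
    have h1 := hALz l z hz
    obtain ⟨h2, h3⟩ := norm_near h1
    have hz0 : z ≠ 0 := by
      intro h; rw [h, norm_zero] at h2; norm_num at h2
    have hzp : 0 < ‖z‖ := norm_pos_iff.mpr hz0
    have h4 : 1 - z⁻¹ = (z - 1) / z := by field_simp
    have hne := (AL_six hz).2
    refine ⟨hz0, ?_, ?_, ?_, by linarith⟩
    · rw [h4]; exact div_ne_zero (sub_ne_zero.mpr hne) hz0
    · rw [h4, norm_div, div_le_one hzp]; linarith
    · rw [h4, norm_div]
      exact div_le_div_of_nonneg_left (norm_nonneg _) hzp (by linarith)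
  have key : ∀ i < kk j, ∀ l < kk j, μ A0 ≤
      ENNReal.ofReal ((6000000 * kk j / Rr j) ^ s) * μ (E i ∩ FF ⁻¹' (AL l)) := by
    intro i hi l hl
    have hL := Lam_ge
    have hLp : 0 < Lam ^ l := by positivity
    have h1 := transport hμ hs (S := E i) (T := AL l) (hEm i) (AL_meas l) (AL_zero_notMem l) (by
      intro z hz
      obtain ⟨z0, z1, z2, z3, z4⟩ := hc1 l z hz
      obtain ⟨ξ, hξ, hsec⟩ := sec_surj hk0 (c := (1 - z⁻¹) / V) (div_ne_zero z1 v1) hi
      have hξn : ‖V‖ * ‖ξ‖ ^ kk j = ‖1 - z⁻¹‖ := by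
        rw [← norm_pow, hξ, norm_div]; field_simp
      have hξ50 := hVbig _ z2 ‖ξ‖ (norm_nonneg _) hξn
      obtain ⟨v, hv, -, hv2⟩ := circle_surj hκ hκ0 hκb (ξ := ξ) (by linarith)
      obtain ⟨e1, e2⟩ := wm_Sj (j := j) hv
      have hggv : gg (wm j 1 v) = ξ := by
        rw [hgg]; simp only; rw [e2, hκte v hv]; exact hv2
      refine ⟨wm j 1 v, ⟨e1, ?_⟩, ?_⟩
      · show sec (kk j) (gg (wm j 1 v)) = i
        rw [hggv]; exact hsec
      · rw [FF_eq_iff z0, hggW _ e1, hggv, hξ]
        field_simp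
        ring) (by
      rintro w ⟨⟨hw, hws⟩, hwT⟩ w' ⟨⟨hw', hws'⟩, hwT'⟩ he
      obtain ⟨z0, z1, z2, z3, z4⟩ := hc1 l _ hwT
      have h2 := W_of_FF z0 (rfl : FF w = FF w)
      have h3 := W_of_FF z0 (he.symm : FF w' = FF w)
      have h4 : gg w ^ kk j = gg w' ^ kk j := by
        have : V * gg w ^ kk j = V * gg w' ^ kk j := by
          rw [← hggW w hw, ← hggW w' hw', h2, h3]
        exact mul_left_cancel₀ v1 this
      have h5 : gg w ≠ 0 := by
        intro h
        rw [hggW w hw, h, zero_pow (by omega), mul_zero] at h2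
        exact z1 h2.symm
      have h6 := sec_inj hk0 h5 h4 (by
        have e1 : sec (kk j) (gg w) = i := hws
        have e2 : sec (kk j) (gg w') = i := hws'
        rw [e1, e2])
      rw [hgg] at h6
      simp only at h6
      rw [hκte _ hw.2.2, hκte _ hw'.2.2] at h6
      have h7 := circle_inj hκ hκ0 hκb hw.2.2 hw'.2.2 h6
      rw [← Sj_eq hw, ← Sj_eq hw', h7]) (C := 2000000 * kk j / Rr j / Lam ^ l) (by
      rintro w ⟨⟨hw, hws⟩, hwT⟩
      obtain ⟨z0, z1, z2, z3, z4⟩ := hc1 l _ hwT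
      have hWw := W_of_FF z0 (rfl : FF w = FF w)
      have hne : 1 - W w ≠ 0 := FF_ne z0
      have hW0 : W w ≠ 0 := by rw [hWw]; exact z1
      have hgn : ‖V‖ * ‖gg w‖ ^ kk j = ‖1 - (FF w)⁻¹‖ := by
        rw [← hWw, hggW w hw]
        have e1 := norm_mul V (gg w ^ kk j)
        have e2 := norm_pow (gg w) (kk j)
        rw [e2] at e1
        exact e1.symm
      have hg50 := hVbig _ z2 ‖gg w‖ (norm_nonneg _) hgn
      have hggp : 0 < ‖gg w‖ := by
        rw [norm_pos_iff]
        intro h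
        rw [h, norm_zero, zero_pow (by omega), mul_zero] at hgn
        exact (norm_pos_iff.mpr z1).ne hgn
      -- 1 - q
      have hT := Sj_trans hw
      have hexp : exp (log (q j w)) = q j w := Complex.exp_log (q_ne hw.1)
      have hggq : gg w = exp (κ (log (q j w))) * (1 - q j w) := by
        rw [hgg]; simp only; rw [hκte _ hw.2.2, hexp]
      have hκs := kappa_small hκ hκ0 hκb hw.2.2
      have hexk : ‖exp (κ (log (q j w)))‖ ≤ 2 := by
        rw [Complex.norm_exp]
        have h5 : (κ (log (q j w))).re ≤ 1 / 300 := (Complex.re_le_norm _).trans hκs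
        have h6 : Real.exp (κ (log (q j w))).re ≤ Real.exp (1 / 300) := Real.exp_le_exp.mpr h5
        have h7 : Real.exp (1 / 300) ≤ 2 := by
          have h8 : Real.exp (1 / 300) ≤ Real.exp (Real.log 2) := by
            apply Real.exp_le_exp.mpr
            have := Real.log_two_gt_d9
            linarith
          rwa [Real.exp_log (by norm_num)] at h8
        linarith
      have hexk' : 1 / 2 ≤ ‖exp (κ (log (q j w)))‖ := by
        rw [Complex.norm_exp]
        have h5 : -(1 / 300) ≤ (κ (log (q j w))).re :=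
          (abs_le.mp ((Complex.abs_re_le_norm _).trans hκs)).1
        have h6 := Real.add_one_le_exp (κ (log (q j w))).re
        linarith
      have hq1 : ‖gg w‖ / 2 ≤ ‖1 - q j w‖ := by
        rw [hggq, norm_mul]
        have := norm_nonneg (1 - q j w)
        nlinarith
      have hq2 : ‖1 - q j w‖ < 1 / 4 := by
        have h5 : 1 / 2 * ‖1 - q j w‖ ≤ ‖gg w‖ := by
          rw [hggq, norm_mul]; gcongr
        linarith
      obtain ⟨d1, d2, d3, d4⟩ := circ_D hT hq2 (circ_q_ne hW0)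
      -- cylinder derivative
      set x := ‖FF w - 1‖ with hx
      have hxp : 0 < x := norm_pos_iff.mpr (sub_ne_zero.mpr (AL_six hwT).2)
      have hxl : Lam ^ l * x ≤ 1 := by
        have h5 := AL_size hwT
        have h6 := exp_le_three l
        have := a0_le
        have := a0_pos
        rw [← hx] at h5
        nlinarith [Real.exp_pos (1 - (1 / 2 : ℝ) ^ l)]
      have hrb := ratio_bound hl.le (g := ‖gg w‖) (V := ‖V‖) hk0 hxp hggp V2 hxl (by
        rw [hgn]; exact z3)
      have hcyl : cyl FF w ≤ 340000 * kk j / Lam ^ l := by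
        rw [cyl_DD hne hW0]
        have hKK : (KK j : ℝ) = 33 * kk j := by
          rw [KK_real, NN_odd hj]; push_cast; ring
        have h5 : 13 / 10 * KK j / ‖1 - q j w‖ ≤ 13 / 10 * KK j / (‖gg w‖ / 2) := by
          have := KK_pos_real j
          gcongr
        calc ‖DD w‖ * ‖FF w - 1‖ ≤ (13 / 10 * KK j / (‖gg w‖ / 2)) * x := by
              gcongr; exact d4.trans h5
          _ = 26 / 10 * KK j * (x / ‖gg w‖) := by field_simp; ring
          _ ≤ 26 / 10 * KK j * (3960 / Lam ^ l) := by gcongr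
          _ = 339768 * kk j / Lam ^ l := by rw [hKK]; ring
          _ ≤ _ := by gcongr; norm_num
      have hwn : Rr j / 2 ≤ ‖w‖ := by
        have h5 := (Sj_Dl j hw).2
        have h6 := (abs_le.mp ((Complex.abs_re_le_norm _).trans h5)).1
        rw [Complex.sub_re, Complex.log_re, Complex.ofReal_re] at h6
        have h7 : Real.exp (rho j - 1 / 99) ≤ ‖w‖ := by
          rw [← Real.le_log_iff_exp_le (norm_pos_iff.mpr hw.1)]; linarith
        refine le_trans ?_ h7
        rw [Real.exp_sub, Rr]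
        apply div_le_div_of_nonneg_left (Real.exp_pos _).le (Real.exp_pos _)
        have h8 : Real.exp (1 / 99) ≤ Real.exp (Real.log 2) := by
          apply Real.exp_le_exp.mpr
          have := Real.log_two_gt_d9
          linarith
        rwa [Real.exp_log (by norm_num)] at h8
      have hwp : 0 < ‖w‖ := norm_pos_iff.mpr hw.1
      have hFp : 0 < ‖FF w‖ := norm_pos_iff.mpr z0
      have hder : ‖deriv FF w‖ = cyl FF w * ‖FF w‖ / ‖w‖ := by
        unfold cyl; field_simp
      rw [hder]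
      calc cyl FF w * ‖FF w‖ / ‖w‖ ≤ (340000 * kk j / Lam ^ l) * 2 / (Rr j / 2) := by
            gcongr
        _ = 1360000 * kk j / Rr j / Lam ^ l := by field_simp; ring
        _ ≤ _ := by gcongr; norm_num)
    have h2 := AL_mass' hμ hs l
    calc μ A0 ≤ ENNReal.ofReal ((3 * Lam ^ l) ^ s) * μ (AL l) := h2
      _ ≤ ENNReal.ofReal ((3 * Lam ^ l) ^ s) *
          (ENNReal.ofReal ((2000000 * kk j / Rr j / Lam ^ l) ^ s) * μ (E i ∩ FF ⁻¹' (AL l))) := by
            gcongr
      _ = _ := by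
          rw [← mul_assoc, ← ENNReal.ofReal_mul (by positivity), ← Real.mul_rpow (by positivity)
            (by positivity)]
          congr 3
          field_simp
          ring
  -- sum over the pairs
  set P : Finset (ℕ × ℕ) := Finset.range (kk j) ×ˢ Finset.range (kk j) with hP
  have hcard : P.card = kk j * kk j := by rw [hP, Finset.card_product, Finset.card_range]
  have hdisj : (P : Set (ℕ × ℕ)).PairwiseDisjoint (fun p => E p.1 ∩ FF ⁻¹' (AL p.2)) := by
    rintro ⟨i, l⟩ _ ⟨i', l'⟩ _ hne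
    rw [Function.onFun, Set.disjoint_left]
    rintro w ⟨⟨-, hw1⟩, hw2⟩ ⟨⟨-, hw1'⟩, hw2'⟩
    have e1 : sec (kk j) (gg w) = i := hw1
    have e2 : sec (kk j) (gg w) = i' := hw1'
    have hi : i = i' := by rw [← e1, e2]
    have hl : l ≠ l' := by
      intro h; apply hne; rw [hi, h]
    rcases lt_or_gt_of_ne hl with h | h
    · exact Set.disjoint_left.mp (AL_disj h) hw2 hw2'
    · exact Set.disjoint_left.mp (AL_disj h) hw2' hw2
  have hsum : ∑ p ∈ P, μ (E p.1 ∩ FF ⁻¹' (AL p.2)) ≤ μ (Sj j) := by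
    rw [← measure_biUnion_finset hdisj (fun p _ => (hEm p.1).inter (FF_meas (AL_meas p.2)))]
    apply measure_mono
    apply iUnion₂_subset
    rintro p _ w ⟨⟨hw, -⟩, -⟩
    exact hw
  calc ((kk j * kk j : ℕ) : ℝ≥0∞) * μ A0 = ∑ p ∈ P, μ A0 := by
        rw [Finset.sum_const, hcard, nsmul_eq_mul]
    _ ≤ ∑ p ∈ P, ENNReal.ofReal ((6000000 * kk j / Rr j) ^ s) * μ (E p.1 ∩ FF ⁻¹' (AL p.2)) := by
        apply Finset.sum_le_sum
        intro p hp
        rw [hP, Finset.mem_product, Finset.mem_range, Finset.mem_range] at hp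
        exact key p.1 hp.1 p.2 hp.2
    _ = ENNReal.ofReal ((6000000 * kk j / Rr j) ^ s) * ∑ p ∈ P, μ (E p.1 ∩ FF ⁻¹' (AL p.2)) := by
        rw [Finset.mul_sum]
    _ ≤ _ := by gcongr

/-- pulling the mass back to the unit disc -/
lemma mass_back {s : ℝ} {μ : Measure ℂ} (hμ : IsLFConformal FF s μ) (hs : 0 ≤ s) (j : ℕ) :
    μ (Sj j) ≤ ENNReal.ofReal ((132 * Real.exp (33 / 32 * rho j)) ^ s) *
      μ (Metric.closedBall 0 1) := by
  have hr := rho_ge_real j
  have ht := tau_small
  have h1 := transport hμ hs (S := Dl (-rho j / 32) (1 / 1000)) (T := Sj j) (Dl_meas _ _)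
    (Sj_meas j) (zero_notMem_Sj j)
    ((Sj_Dl j).trans (Dl_surj (by linarith) (by norm_num) (by linarith) (by norm_num)))
    ((Dl_inj (by linarith) (by norm_num)).mono inter_subset_left)
    (C := 132 * Real.exp (33 / 32 * rho j)) (by
      rintro w ⟨⟨hw0, hw⟩, hwT⟩
      have h2 := abs_le.mp ((Complex.abs_re_le_norm _).trans hw)
      rw [Complex.sub_re, Complex.log_re, Complex.ofReal_re] at h2
      have hwp : 0 < ‖w‖ := norm_pos_iff.mpr hw0
      have hw1 : ‖w‖ ≤ 1 := by
        rw [← Real.log_nonpos_iff hwp.le]; linarith [h2.2]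
      obtain ⟨e1, e2, e3, e4, e5⟩ := core_facts (w := w) (by linarith) hw0
      have hcyl : cyl FF w ≤ 33 := by
        rw [cyl_DH e1]
        have := norm_add_le (DH w - 32) 32
        rw [sub_add_cancel] at this
        have h32 : ‖(32 : ℂ)‖ = 32 := by norm_num
        rw [h32] at this
        linarith
      have hexp2 : ∀ y : ℝ, y ≤ 1 / 2 → Real.exp y ≤ 2 := by
        intro y hy
        have h8 : Real.exp y ≤ Real.exp (Real.log 2) := by
          apply Real.exp_le_exp.mpr
          have := Real.log_two_gt_d9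
          linarith
        rwa [Real.exp_log (by norm_num)] at h8
      have hwlow : Real.exp (-rho j / 32) / 2 ≤ ‖w‖ := by
        have h7 : Real.exp (-rho j / 32 - 1 / 1000) ≤ ‖w‖ := by
          rw [← Real.le_log_iff_exp_le hwp]; linarith [h2.1]
        refine le_trans ?_ h7
        rw [Real.exp_sub]
        apply div_le_div_of_nonneg_left (Real.exp_pos _).le (Real.exp_pos _)
        exact hexp2 _ (by norm_num)
      have hz : ‖FF w‖ ≤ 2 * Real.exp (rho j) := by
        have h5 := (Sj_Dl j hwT)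
        have h6 := (abs_le.mp ((Complex.abs_re_le_norm _).trans h5.2)).2
        rw [Complex.sub_re, Complex.log_re, Complex.ofReal_re] at h6
        have h7 : ‖FF w‖ ≤ Real.exp (1 / 99 + rho j) := by
          rw [← Real.log_le_iff_le_exp (norm_pos_iff.mpr h5.1)]; linarith
        refine h7.trans ?_
        rw [Real.exp_add]
        gcongr
        exact hexp2 _ (by norm_num)
      have hFp : 0 < ‖FF w‖ := norm_pos_iff.mpr (Sj_Dl j hwT).1
      have hder : ‖deriv FF w‖ = cyl FF w * ‖FF w‖ / ‖w‖ := by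
        unfold cyl; field_simp
      rw [hder]
      calc cyl FF w * ‖FF w‖ / ‖w‖ ≤ 33 * (2 * Real.exp (rho j)) / (Real.exp (-rho j / 32) / 2) := by
            gcongr
        _ = 132 * (Real.exp (rho j) / Real.exp (-rho j / 32)) := by ring
        _ = _ := by rw [← Real.exp_sub]; ring_nf)
  refine h1.trans ?_
  gcongr
  rintro w ⟨⟨hw0, hw⟩, -⟩
  have h2 := (abs_le.mp ((Complex.abs_re_le_norm _).trans hw)).2
  rw [Complex.sub_re, Complex.log_re, Complex.ofReal_re] at h2
  have hwp : 0 < ‖w‖ := norm_pos_iff.mpr hw0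
  have hw1 : ‖w‖ ≤ 1 := by
    rw [← Real.log_nonpos_iff hwp.le]; linarith
  simpa using hw1

lemma kk_big {j : ℕ} (hj : ¬ Even j) : Real.exp (rho j) ≤ kk j := by
  have h1 : 4 * kk j = lev j := four_kk_odd hj
  have h2 := sl_le_lev j
  have h3 := sl_ge_pow hj
  have h4 : 3 ^ rho j ≤ kk j := by omega
  have h5 : ((3 : ℝ)) ^ rho j ≤ kk j := by exact_mod_cast h4
  refine le_trans ?_ h5
  have : Real.exp (rho j) = Real.exp 1 ^ rho j := by rw [← Real.exp_nat_mul]; ring_nf
  rw [this]
  apply pow_le_pow_left₀ (Real.exp_pos _).le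
  have := Real.exp_one_lt_d9; linarith

/-- classification of conformal measures of small exponent -/
theorem conf_class {s : ℝ} {μ : Measure ℂ} (hμ : IsLFConformal FF s μ) (hs : 0 ≤ s)
    (hs' : s ≤ 19 / 10) : μ {0}ᶜ = 0 := by
  by_contra hpos
  have hA := pos_A0 hμ hpos
  have hM : μ (Metric.closedBall 0 1) < ⊤ := hμ.lf _ (isCompact_closedBall 0 1)
  set M := μ (Metric.closedBall 0 1) with hMdef
  set C : ℝ := (1000000000 : ℝ) ^ (19 / 10 : ℝ) with hC
  have hC0 : 0 < C := by rw [hC]; positivity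
  -- the inequality for each odd circle
  have key : ∀ n : ℕ, μ A0 ≤ ENNReal.ofReal (C * (25 / (n + 1))) * M := by
    intro n
    set j := 2 * n + 1 with hj
    have hodd : ¬ Even j := by rw [hj, Nat.even_add_one]; simp
    have h1 := mass_odd hμ hs hodd
    have h2 := mass_back hμ hs j
    have hk := kk_pos_real j
    have hkb := kk_big hodd
    have hr := rho_ge_real j
    have hRp := Rr_pos j
    set k : ℝ := (kk j : ℝ) with hkdef
    set X : ℝ := 1000000000 * (k * Real.exp (rho j / 32)) with hX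
    have hE1 : (1 : ℝ) ≤ Real.exp (rho j / 32) := Real.one_le_exp (by linarith)
    have hX1 : 1 ≤ X := by rw [hX]; nlinarith
    have h3 : ENNReal.ofReal (k ^ 2) * μ A0 ≤ ENNReal.ofReal (X ^ (19 / 10 : ℝ)) * M := by
      calc ENNReal.ofReal (k ^ 2) * μ A0 = ((kk j * kk j : ℕ) : ℝ≥0∞) * μ A0 := by
            congr 1
            rw [← ENNReal.ofReal_natCast]
            congr 1
            push_cast; rw [hkdef]; ring
        _ ≤ ENNReal.ofReal ((6000000 * kk j / Rr j) ^ s) * μ (Sj j) := h1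
        _ ≤ ENNReal.ofReal ((6000000 * kk j / Rr j) ^ s) *
            (ENNReal.ofReal ((132 * Real.exp (33 / 32 * rho j)) ^ s) * M) := by gcongr
        _ = ENNReal.ofReal ((792000000 * (k * Real.exp (rho j / 32))) ^ s) * M := by
            rw [← mul_assoc, ← ENNReal.ofReal_mul (by positivity), ← Real.mul_rpow (by positivity)
              (by positivity)]
            congr 3
            have h4 : Real.exp (33 / 32 * rho j) = Rr j * Real.exp (rho j / 32) := by
              rw [Rr, ← Real.exp_add]; ring_nf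
            rw [h4]
            field_simp
            ring
        _ ≤ ENNReal.ofReal (X ^ s) * M := by
            gcongr ENNReal.ofReal (?_ ^ s) * _
            rw [hX]
            gcongr
            norm_num
        _ ≤ _ := by
            gcongr
    have h4 : X ^ (19 / 10 : ℝ) ≤ k ^ 2 * (C * (25 / (n + 1))) := by
      rw [hX, Real.mul_rpow (by norm_num) (by positivity), Real.mul_rpow (by positivity)
        (Real.exp_pos _).le, ← Real.exp_mul]
      have h5 : k ^ (19 / 10 : ℝ) = k ^ 2 * k ^ (-(1 / 10) : ℝ) := by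
        rw [← Real.rpow_natCast k 2, ← Real.rpow_add (by linarith)]; norm_num
      have h6 : k ^ (-(1 / 10) : ℝ) ≤ Real.exp (-(rho j / 10)) := by
        refine (Real.rpow_le_rpow_of_nonpos (Real.exp_pos _) hkb (by norm_num)).trans (le_of_eq ?_)
        rw [← Real.exp_mul]; ring_nf
      have h7 : Real.exp (-(rho j / 10)) * Real.exp (rho j / 32 * (19 / 10)) ≤ 25 / (n + 1) := by
        rw [← Real.exp_add]
        have h8 : -((rho j : ℝ) / 10) + rho j / 32 * (19 / 10) ≤ -(rho j / 25) := by linarith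
        refine (Real.exp_le_exp.mpr h8).trans ?_
        rw [Real.exp_neg, inv_le_comm₀ (Real.exp_pos _) (by positivity), inv_div]
        have h9 := Real.add_one_le_exp ((rho j : ℝ) / 25)
        have h10 : (n : ℝ) + 1 ≤ rho j := by
          have e1 := rho_ge_add j
          have : n + 1 ≤ rho j := by omega
          exact_mod_cast this
        have h11 : ((n : ℝ) + 1) / 25 ≤ rho j / 25 := by gcongr
        linarith
      rw [h5, ← hC]
      calc C * (k ^ 2 * k ^ (-(1 / 10) : ℝ) * Real.exp (rho j / 32 * (19 / 10))) ≤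
          C * (k ^ 2 * Real.exp (-(rho j / 10)) * Real.exp (rho j / 32 * (19 / 10))) := by gcongr
        _ = k ^ 2 * (C * (Real.exp (-(rho j / 10)) * Real.exp (rho j / 32 * (19 / 10)))) := by ring
        _ ≤ _ := by gcongr
    have h5 : ENNReal.ofReal (k ^ 2) * μ A0 ≤ ENNReal.ofReal (k ^ 2) *
        (ENNReal.ofReal (C * (25 / (n + 1))) * M) := by
      refine h3.trans ?_
      rw [← mul_assoc, ← ENNReal.ofReal_mul (by positivity)]
      gcongr
    have h6 : ENNReal.ofReal (k ^ 2) ≠ 0 := (ENNReal.ofReal_pos.mpr (by positivity)).ne'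
    exact (ENNReal.mul_le_mul_iff_right h6 ENNReal.ofReal_ne_top).mp h5
  have hlim : Tendsto (fun n : ℕ => ENNReal.ofReal (C * (25 / ((n : ℝ) + 1))) * M) atTop (𝓝 0) := by
    have h1 : Tendsto (fun n : ℕ => C * (25 / ((n : ℝ) + 1))) atTop (𝓝 (C * 0)) := by
      apply Tendsto.const_mul
      have := (tendsto_one_div_add_atTop_nhds_zero_nat (𝕜 := ℝ)).const_mul 25
      simpa [div_eq_mul_inv] using this
    rw [mul_zero] at h1
    have h2 := (ENNReal.tendsto_ofReal h1)
    rw [ENNReal.ofReal_zero] at h2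
    have h3 := ENNReal.Tendsto.mul_const h2 (Or.inr hM.ne)
    rwa [zero_mul] at h3
  have h0 : μ A0 ≤ 0 := ge_of_tendsto' hlim key
  exact hA (le_antisymm h0 zero_le)

end Pool.Agent.Work.MP_0a8b43_nt
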