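import Mathlib
import Pool.Agent.Work.MP_0a8b43_nt.Conf2

set_option autoImplicit false

open Complex Set Filter Topology MeasureTheory
open scoped ENNReal NNReal OnePoint

namespace Pool.Agent.Work.MP_0a8b43_nt

lemma Sj_norm {j : ℕ} {w : ℂ} (h : w ∈ Sj j) :
    Real.exp (rho j - 1) ≤ ‖w‖ ∧ ‖w‖ ≤ Real.exp (rho j + 1) := by
  obtain ⟨h0, h1⟩ := Sj_Dl j h
  have h2 : |Real.log ‖w‖ - rho j| ≤ 1 / 99 := by
    have h3 := Complex.abs_re_le_norm (log w - ((rho j : ℝ) : ℂ))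
    simp only [sub_re, log_re, ofReal_re] at h3
    exact h3.trans h1
  rw [abs_le] at h2
  rw [← exp_norm_log h0]
  exact ⟨Real.exp_le_exp.mpr (by linarith), Real.exp_le_exp.mpr (by linarith)⟩

lemma Sj_big {j : ℕ} {w : ℂ} (h : w ∈ Sj j) : 1000 ≤ ‖w‖ := by
  refine le_trans ?_ (Sj_norm h).1
  have h1 := rho_ge_real j
  have h2 := Real.add_one_le_exp ((rho j : ℝ) - 1)
  by_cases h3 : (1000 : ℝ) ≤ rho j
  · linarith
  · linarith

lemma wm_lip {j : ℕ} {v v' : ℂ} (hv : ‖v‖ ≤ 1 / 3) (hv' : ‖v'‖ ≤ 1 / 3) :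
    ‖wm j 1 v - wm j 1 v'‖ ≤ Rr j * ‖v - v'‖ := by
  have hc : Convex ℝ (Metric.closedBall (0 : ℂ) (1 / 3)) := convex_closedBall _ _
  refine Convex.norm_image_sub_le_of_norm_hasDerivWithin_le (s := Metric.closedBall (0 : ℂ) (1 / 3))
    (f' := fun v => wm j 1 v / NN j) (fun x _ => (wm_deriv j 1 x).hasDerivWithinAt) ?_ hc
    (by simpa using hv') (by simpa using hv)
  intro x hx
  have h1 := (Sj_norm (wm_Sj (j := j) (v := x) (by simpa using hx)).1).2
  have h2 := NN_ge_real j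
  rw [norm_div, Complex.norm_natCast, div_le_iff₀ (by linarith)]
  refine h1.trans ?_
  rw [Real.exp_add]
  have h3 : Real.exp 1 ≤ 3 := by have := Real.exp_one_lt_d9; linarith
  unfold Rr
  have h4 := Real.exp_pos (rho j : ℝ)
  nlinarith

lemma ret {j : ℕ} (hj : Even j) {w w' : ℂ} (hw : w ∈ Sj j) (hw' : w' ∈ Sj j)
    (h : 2 ≤ ‖FF w‖) (h' : 2 ≤ ‖FF w'‖) : ‖w - w'‖ ≤ 1 / 2 * ‖FF w - FF w'‖ := by
  obtain ⟨κ, κ', hκ, hκ0, hκb, hmod⟩ := model (j := j) (ζ := 1) (one_pow _)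
  obtain ⟨v1, v2, v3⟩ := V_facts j
  have hv : ‖log (q j w)‖ ≤ 1 / 3 := hw.2.2
  have hv' : ‖log (q j w')‖ ≤ 1 / 3 := hw'.2.2
  have e1 : wm j 1 (log (q j w)) = w := Sj_eq hw
  have e2 : wm j 1 (log (q j w')) = w' := Sj_eq hw'
  have m1 := hmod (log (q j w)) (by simp only [Metric.mem_ball, dist_zero_right]; linarith)
  have m2 := hmod (log (q j w')) (by simp only [Metric.mem_ball, dist_zero_right]; linarith)
  rw [e1, kk_even hj, pow_one] at m1
  rw [e2, kk_even hj, pow_one] at m2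
  have h2 := wm_lip (j := j) hv hv'
  rw [e1, e2] at h2
  have cm := circle_map hκ hκ0 hκb hv hv'
  generalize hvv : log (q j w) = v at *
  generalize hvv' : log (q j w') = v' at *
  generalize hA : exp (κ v) * (1 - exp v) = A at *
  generalize hA' : exp (κ v') * (1 - exp v') = A' at *
  generalize hV : VV j (wm j 1 0) = V at *
  have h1 : 1 / 2 * ‖v - v'‖ ≤ ‖A - A'‖ := by
    have h3 : v - v' = (A + v - (A' + v')) - (A - A') := by ring
    have h4 := norm_sub_le (A + v - (A' + v')) (A - A')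
    rw [← h3] at h4
    linarith
  have hz : FF w ≠ 0 := by intro h0; rw [h0, norm_zero] at h; norm_num at h
  have hz' : FF w' ≠ 0 := by intro h0; rw [h0, norm_zero] at h'; norm_num at h'
  have w1 : W w = 1 - (FF w)⁻¹ := W_of_FF hz rfl
  have w2 : W w' = 1 - (FF w')⁻¹ := W_of_FF hz' rfl
  have h5 : V * (A - A') = (FF w - FF w') / (FF w * FF w') := by
    have : V * (A - A') = W w - W w' := by rw [m1, m2]; ring
    rw [this, w1, w2]
    field_simp
    ring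
  have h6 : ‖V‖ * ‖A - A'‖ ≤ ‖FF w - FF w'‖ / 4 := by
    rw [← norm_mul, h5, norm_div, norm_mul]
    apply div_le_div_of_nonneg_left (norm_nonneg _) (by norm_num)
    nlinarith
  have hRV : Rr j ≤ ‖V‖ := by
    have hVp : 0 < ‖V‖ := norm_pos_iff.mpr v1
    rw [Real.le_log_iff_exp_le hVp] at v2
    refine le_trans ?_ v2
    unfold Rr
    apply Real.exp_le_exp.mpr
    have a1 : (32 : ℝ) * rho j ≤ lev j := by exact_mod_cast lev_ge j
    have a2 : (0 : ℝ) ≤ rho j := by positivity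
    linarith
  have h7 : ‖V‖ * (1 / 2 * ‖v - v'‖) ≤ ‖V‖ * ‖A - A'‖ :=
    mul_le_mul_of_nonneg_left h1 (norm_nonneg _)
  have h8 : Rr j * ‖v - v'‖ ≤ ‖V‖ * ‖v - v'‖ := mul_le_mul_of_nonneg_right hRV (norm_nonneg _)
  linarith

open Classical in
/-- inverse branch of `FF` with values near the circle `j` -/
noncomputable def gb (j : ℕ) (z : ℂ) : ℂ := if h : ∃ w ∈ Sj j, FF w = z then h.choose else 0

lemma gb_spec {j : ℕ} (hj : Even j) {z : ℂ} (hz : 2 ≤ ‖z‖) : gb j z ∈ Sj j ∧ FF (gb j z) = z := by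
  have h : ∃ w ∈ Sj j, FF w = z := by
    apply typeA_surj hj
    · rintro rfl; norm_num at hz
    · have h1 : ‖z⁻¹‖ ≤ 1 / 2 := by
        rw [norm_inv, one_div]
        exact inv_anti₀ (by norm_num) hz
      have h2 : ‖1 - z⁻¹‖ ≤ 3 / 2 := by
        refine (norm_sub_le _ _).trans ?_
        rw [norm_one]; linarith
      refine h2.trans ?_
      have h3 := lev_ge_real j
      have h4 := Real.add_one_le_exp (9 / 10 * (lev j : ℝ))
      linarith
  unfold gb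
  rw [dif_pos h]
  exact h.choose_spec

lemma gb_lip {j : ℕ} (hj : Even j) {z z' : ℂ} (hz : 2 ≤ ‖z‖) (hz' : 2 ≤ ‖z'‖) :
    ‖gb j z - gb j z'‖ ≤ 1 / 2 * ‖z - z'‖ := by
  obtain ⟨a1, a2⟩ := gb_spec hj hz
  obtain ⟨b1, b2⟩ := gb_spec hj hz'
  have := ret hj a1 b1 (by rw [a2]; exact hz) (by rw [b2]; exact hz')
  rwa [a2, b2] at this

lemma gb_eq {j : ℕ} (hj : Even j) {w : ℂ} (hw : w ∈ Sj j) (h : 2 ≤ ‖FF w‖) : gb j (FF w) = w := by
  obtain ⟨a1, a2⟩ := gb_spec hj h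
  have := ret hj a1 hw (by rw [a2]; exact h) h
  rw [a2, sub_self, norm_zero, mul_zero] at this
  exact sub_eq_zero.mp (norm_le_zero_iff.mp this)

lemma gb_norm {j : ℕ} (hj : Even j) {z : ℂ} (hz : 2 ≤ ‖z‖) : 1000 ≤ ‖gb j z‖ :=
  Sj_big (gb_spec hj hz).1

lemma gb_diff {j : ℕ} (hj : Even j) {z : ℂ} (hz : 2 < ‖z‖) : DifferentiableAt ℂ (gb j) z := by
  have hU : ∀ᶠ y in 𝓝 z, 2 < ‖y‖ := (isOpen_lt continuous_const continuous_norm).mem_nhds hz
  have hcont : ContinuousAt (gb j) z := by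
    unfold ContinuousAt
    rw [tendsto_iff_norm_sub_tendsto_zero]
    refine squeeze_zero' (Eventually.of_forall fun y => norm_nonneg _)
      (hU.mono fun y hy => gb_lip hj hy.le hz.le) ?_
    have : Tendsto (fun y : ℂ => 1 / 2 * ‖y - z‖) (𝓝 z) (𝓝 (1 / 2 * ‖z - z‖)) :=
      (Continuous.tendsto (by fun_prop) z)
    simpa using this
  obtain ⟨a1, a2⟩ := gb_spec hj hz.le
  have hne : 1 - W (gb j z) ≠ 0 := by
    apply FF_ne
    rw [a2]
    intro h0
    rw [h0, norm_zero] at hz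
    norm_num at hz
  have hd := FF_hasDeriv hne
  have hD : deriv W (gb j z) / (1 - W (gb j z)) ^ 2 ≠ 0 := by
    intro h0
    rw [h0, hasDerivAt_iff_isLittleO] at hd
    have h1 := (hd.comp_tendsto hcont).bound (show (0 : ℝ) < 1 by norm_num)
    have h2 : ∀ᶠ y in 𝓝[≠] z, ‖y - z‖ ≤ 0 := by
      have h3 : ∀ᶠ y in 𝓝 z, ‖y - z‖ ≤ 0 := by
        filter_upwards [h1, hU] with y hy hy2
        simp only [Function.comp_apply, smul_zero, sub_zero, one_mul, (gb_spec hj hy2.le).2, a2]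
          at hy
        have := gb_lip hj hy2.le hz.le
        linarith
      exact h3.filter_mono nhdsWithin_le_nhds
    have h4 : ∀ᶠ y in 𝓝[≠] z, y ≠ z := eventually_mem_nhdsWithin
    obtain ⟨y, hy, hy'⟩ := (h2.and h4).exists
    exact hy' (sub_eq_zero.mp (norm_le_zero_iff.mp hy))
  exact (HasDerivAt.of_local_left_inverse hcont hd hD
    (hU.mono fun y hy => (gb_spec hj hy.le).2)).differentiableAt

/-- composition of inverse branches -/
noncomputable def GI (a : ℕ → ℕ) : ℕ → ℂ → ℂ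
  | 0, z => z
  | n + 1, z => GI a n (gb (a n) z)

lemma GI_facts {a : ℕ → ℕ} (ha : ∀ n, Even (a n)) (n : ℕ) : ∀ z : ℂ, 2 ≤ ‖z‖ →
    2 ≤ ‖GI a n z‖ ∧ FF^[n] (GI a n z) = z ∧ ∀ k < n, 2 ≤ ‖FF^[k + 1] (GI a n z)‖ := by
  induction n with
  | zero =>
    intro z hz
    exact ⟨hz, rfl, fun k hk => absurd hk (Nat.not_lt_zero _)⟩
  | succ n ih =>
    intro z hz
    obtain ⟨b1, b2⟩ := gb_spec (ha n) hz
    obtain ⟨h1, h2, h3⟩ := ih (gb (a n) z) (by have := gb_norm (ha n) hz; linarith)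
    have h4 : FF^[n + 1] (GI a (n + 1) z) = z := by
      rw [Function.iterate_succ_apply']
      show FF (FF^[n] (GI a n (gb (a n) z))) = z
      rw [h2, b2]
    refine ⟨h1, h4, fun k hk => ?_⟩
    rcases Nat.lt_succ_iff_lt_or_eq.mp hk with h | h
    · exact h3 k h
    · rw [h, h4]; exact hz

lemma GI_lip {a : ℕ → ℕ} (ha : ∀ n, Even (a n)) (n : ℕ) : ∀ z z' : ℂ, 2 ≤ ‖z‖ → 2 ≤ ‖z'‖ →
    ‖GI a n z - GI a n z'‖ ≤ (1 / 2) ^ n * ‖z - z'‖ := by
  induction n with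
  | zero => intro z z' _ _; simp [GI]
  | succ n ih =>
    intro z z' hz hz'
    have h1 := ih (gb (a n) z) (gb (a n) z') (by have := gb_norm (ha n) hz; linarith)
      (by have := gb_norm (ha n) hz'; linarith)
    have h2 := gb_lip (ha n) hz hz'
    calc ‖GI a (n + 1) z - GI a (n + 1) z'‖ ≤ (1 / 2) ^ n * ‖gb (a n) z - gb (a n) z'‖ := h1
      _ ≤ (1 / 2) ^ n * (1 / 2 * ‖z - z'‖) := by gcongr
      _ = _ := by ring

lemma GI_diff {a : ℕ → ℕ} (ha : ∀ n, Even (a n)) (n : ℕ) : ∀ z : ℂ, 2 < ‖z‖ →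
    DifferentiableAt ℂ (GI a n) z := by
  induction n with
  | zero => intro z _; exact differentiableAt_id
  | succ n ih =>
    intro z hz
    have h1 := ih (gb (a n) z) (by have := gb_norm (ha n) hz.le; linarith)
    exact h1.comp z (gb_diff (ha n) hz)

lemma GI_eq {a : ℕ → ℕ} (ha : ∀ n, Even (a n)) {x : ℂ} (n : ℕ)
    (h : ∀ k < n, FF^[k] x ∈ Sj (a k)) (hn : 2 ≤ ‖FF^[n] x‖) : GI a n (FF^[n] x) = x := by
  induction n with
  | zero => rfl
  | succ n ih =>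
    have h1 := h n (Nat.lt_succ_self n)
    rw [Function.iterate_succ_apply'] at hn ⊢
    show GI a n (gb (a n) (FF (FF^[n] x))) = x
    rw [gb_eq (ha n) h1 hn]
    exact ih (fun k hk => h k (Nat.lt_succ_of_lt hk)) (by have := Sj_big h1; linarith)

/-- the two pieces -/
def X2 : Set ℂ := Sj 0 ∪ Sj 2

/-- the invariant compact set of the two-branch system -/
def KS : Set ℂ := {x | ∀ n, FF^[n] x ∈ X2}

lemma X2_big {w : ℂ} (h : w ∈ X2) : 1000 ≤ ‖w‖ := by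
  rcases h with h | h <;> exact Sj_big h

lemma X2_le {w : ℂ} (h : w ∈ X2) : ‖w‖ ≤ Real.exp (rho 2 + 1) := by
  rcases h with h | h
  · refine (Sj_norm h).2.trans (Real.exp_le_exp.mpr ?_)
    have : (rho 0 : ℝ) ≤ rho 2 := by exact_mod_cast rho_mono (by norm_num)
    linarith
  · exact (Sj_norm h).2

lemma S_far {w w' : ℂ} (h : w ∈ Sj 0) (h' : w' ∈ Sj 2) : 1 ≤ ‖w - w'‖ := by
  have h1 := (Sj_norm h).2
  have h2 := (Sj_norm h').1
  have h3 : (rho 0 : ℝ) + 1 + 1 ≤ rho 2 - 1 := by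
    have a1 : 4096 * rho 0 ≤ rho 1 := rho_step 0
    have a2 : rho 1 < rho 2 := rho_lt_succ 1
    have a3 := rho_ge 0
    have : rho 0 + 3 ≤ rho 2 := by omega
    have : ((rho 0 + 3 : ℕ) : ℝ) ≤ rho 2 := by exact_mod_cast this
    push_cast at this
    linarith
  have h4 : Real.exp (rho 0 + 1) * 2 ≤ Real.exp (rho 2 - 1) := by
    calc Real.exp (rho 0 + 1) * 2 ≤ Real.exp (rho 0 + 1) * Real.exp 1 := by
          gcongr
          have := Real.add_one_le_exp (1 : ℝ)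
          linarith
      _ = Real.exp (rho 0 + 1 + 1) := by rw [← Real.exp_add]
      _ ≤ _ := Real.exp_le_exp.mpr h3
  have h5 : 1 ≤ Real.exp (rho 0 + 1) := Real.one_le_exp (by positivity)
  have h6 := norm_sub_norm_le w' w
  rw [norm_sub_rev] at h6
  linarith

open Classical in
/-- symbols of the orbit -/
noncomputable def sy (x : ℂ) (n : ℕ) : ℕ := if FF^[n] x ∈ Sj 2 then 2 else 0

lemma sy_even (x : ℂ) (n : ℕ) : Even (sy x n) := by
  unfold sy; split_ifs <;> decide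

lemma sy_mem {x : ℂ} (hx : x ∈ KS) (n : ℕ) : FF^[n] x ∈ Sj (sy x n) := by
  unfold sy
  split_ifs with h
  · exact h
  · rcases hx n with h1 | h1
    · exact h1
    · exact absurd h1 h

lemma GI_sy {x : ℂ} (hx : x ∈ KS) (n : ℕ) : GI (sy x) n (FF^[n] x) = x :=
  GI_eq (sy_even x) n (fun k _ => sy_mem hx k) (by have := X2_big (hx n); linarith)

/-- a pole near circle `0` -/
lemma pole_S0 : ∃ p ∈ Sj 0, W p = 1 := by
  obtain ⟨κ, κ', hκ, hκ0, hκb, hmod⟩ := model (j := 0) (ζ := 1) (one_pow _)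
  obtain ⟨v1, v2, v3⟩ := V_facts 0
  have hL := lev_ge_real 0
  have hVp : 0 < ‖VV 0 (wm 0 1 0)‖ := norm_pos_iff.mpr v1
  have hV : 6 ≤ ‖VV 0 (wm 0 1 0)‖ := by
    rw [Real.le_log_iff_exp_le hVp] at v2
    refine le_trans ?_ v2
    have := Real.add_one_le_exp (99 / 100 * (lev 0 : ℝ))
    linarith
  obtain ⟨v, hv, -, hv2⟩ := circle_surj hκ hκ0 hκb (ξ := 1 / VV 0 (wm 0 1 0)) (by
    rw [norm_div, div_le_iff₀ hVp, norm_one]; linarith)
  obtain ⟨e1, e2⟩ := wm_Sj (j := 0) hv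
  refine ⟨wm 0 1 v, e1, ?_⟩
  rw [hmod v (by simp only [Metric.mem_ball, dist_zero_right]; linarith),
    kk_even (by decide), pow_one, hv2]
  field_simp

lemma KS_julia {x : ℂ} (hx : x ∈ KS) : x ∈ JuliaSet FF := by
  intro hF
  obtain ⟨U, hU, hxU, hdef, -⟩ := hF
  obtain ⟨p, hp, hWp⟩ := pole_S0
  obtain ⟨ε, hε, hball⟩ := Metric.isOpen_iff.mp hU x hxU
  set B := Real.exp (rho 2 + 1)
  have hB : 0 < B := Real.exp_pos _
  obtain ⟨n, hn⟩ := exists_pow_lt_of_lt_one (show 0 < ε / (2 * B) by positivity)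
    (show (1 / 2 : ℝ) < 1 by norm_num)
  have hp2 : 2 ≤ ‖p‖ := by have := Sj_big hp; linarith
  have hxn : 2 ≤ ‖FF^[n] x‖ := by have := X2_big (hx n); linarith
  obtain ⟨g1, g2, g3⟩ := GI_facts (sy_even x) n p hp2
  have hmem : GI (sy x) n p ∈ U := by
    apply hball
    rw [Metric.mem_ball, dist_eq_norm]
    have h1 := GI_lip (sy_even x) n p (FF^[n] x) hp2 hxn
    rw [GI_sy hx n] at h1
    refine lt_of_le_of_lt h1 ?_
    have h2 : ‖p - FF^[n] x‖ ≤ 2 * B := by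
      refine (norm_sub_le _ _).trans ?_
      have a1 := X2_le (Or.inl hp : p ∈ X2)
      have a2 := X2_le (hx n)
      linarith
    calc (1 / 2 : ℝ) ^ n * ‖p - FF^[n] x‖ ≤ (1 / 2) ^ n * (2 * B) := by gcongr
      _ < ε / (2 * B) * (2 * B) := by gcongr
      _ = ε := by field_simp
  have h3 := hdef (n + 2) _ hmem n (by omega)
  rw [g2] at h3
  exact h3 (isPole_iff.mpr hWp)

lemma far_of_chord {y z : ℂ} (hy : 1000 ≤ ‖y‖)
    (h : chord (z : OnePoint ℂ) (y : OnePoint ℂ) < 1 / 4) : 2 < ‖z‖ := by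
  by_contra hz
  rw [not_lt] at hz
  have h1 : chord (z : OnePoint ℂ) (y : OnePoint ℂ) =
    2 * ‖z - y‖ / (√(1 + ‖z‖ ^ 2) * √(1 + ‖y‖ ^ 2)) := rfl
  have h2 : √(1 + ‖z‖ ^ 2) ≤ 3 := by
    rw [Real.sqrt_le_left (by norm_num)]
    nlinarith [norm_nonneg z]
  have h3 : √(1 + ‖y‖ ^ 2) ≤ 2 * ‖y‖ := by
    rw [Real.sqrt_le_left (by positivity)]
    nlinarith
  have h4 : 1 / 2 * ‖y‖ * 2 ≤ 2 * ‖z - y‖ := by
    have := norm_sub_norm_le y z
    rw [norm_sub_rev] at this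
    linarith
  have hpos : 0 < √(1 + ‖z‖ ^ 2) * √(1 + ‖y‖ ^ 2) := by positivity
  rw [h1, div_lt_iff₀ hpos] at h
  have h5 : √(1 + ‖z‖ ^ 2) * √(1 + ‖y‖ ^ 2) ≤ 3 * (2 * ‖y‖) :=
    mul_le_mul h2 h3 (Real.sqrt_nonneg _) (by norm_num)
  have h6 : 2 * (‖y‖ - 2) ≤ 2 * ‖z - y‖ := by
    have := norm_sub_norm_le y z
    rw [norm_sub_rev] at this
    linarith
  nlinarith

lemma KS_radial {x : ℂ} (hx : x ∈ KS) : x ∈ RadialJulia FF := by
  refine ⟨KS_julia hx, ?_⟩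
  set B := Real.exp (rho 2 + 1)
  have hB : 0 < B := Real.exp_pos _
  have hδ : 0 < min (1 / 4 : ℝ) (2 / √(1 + B ^ 2)) := by positivity
  refine ⟨min (1 / 4) (2 / √(1 + B ^ 2)), hδ, Frequently.of_forall fun n => ?_⟩
  have hne : ∀ k, 1 - W (FF^[k] x) ≠ 0 := by
    intro k
    apply FF_ne
    intro h0
    have h1 := X2_big (hx (k + 1))
    rw [Function.iterate_succ_apply', h0, norm_zero] at h1
    norm_num at h1
  obtain ⟨i1, i2⟩ := itv_of (n := n) (y := x) fun k _ => hne k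
  refine ⟨i2, fun y => y.elim 0 (GI (sy x) n), ?_⟩
  rw [i1]
  have hyb := X2_big (hx n)
  have hyl := X2_le (hx n)
  have hinf : (∞ : OnePoint ℂ) ∉ cball ((FF^[n] x : ℂ) : OnePoint ℂ)
      (min (1 / 4) (2 / √(1 + B ^ 2))) := by
    intro h
    have h1 : chord ∞ ((FF^[n] x : ℂ) : OnePoint ℂ) < min (1 / 4) (2 / √(1 + B ^ 2)) := h
    have h2 : chord ∞ ((FF^[n] x : ℂ) : OnePoint ℂ) = 2 / √(1 + ‖FF^[n] x‖ ^ 2) := rfl
    rw [h2] at h1
    have h3 := lt_of_lt_of_le h1 (min_le_right _ _)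
    have h4 : 2 / √(1 + B ^ 2) ≤ 2 / √(1 + ‖FF^[n] x‖ ^ 2) := by
      apply div_le_div_of_nonneg_left (by norm_num) (by positivity)
      apply Real.sqrt_le_sqrt
      have : ‖FF^[n] x‖ ^ 2 ≤ B ^ 2 := by gcongr
      linarith
    linarith
  have hfin : ∀ z : ℂ, (z : OnePoint ℂ) ∈ cball ((FF^[n] x : ℂ) : OnePoint ℂ)
      (min (1 / 4) (2 / √(1 + B ^ 2))) → 2 < ‖z‖ := by
    intro z hz
    exact far_of_chord hyb (lt_of_lt_of_le hz (min_le_left _ _))
  refine ⟨⟨?_, fun h => absurd h hinf⟩, ?_, ?_⟩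
  · intro z hz
    have h1 : DifferentiableOn ℂ (GI (sy x) n) {z | 2 < ‖z‖} :=
      fun u hu => (GI_diff (sy_even x) n u hu).differentiableWithinAt
    exact h1.analyticAt ((isOpen_lt continuous_const continuous_norm).mem_nhds (hfin z hz))
  · show GI (sy x) n (FF^[n] x) = x
    exact GI_sy hx n
  · intro y hy
    induction y using OnePoint.rec with
    | infty => exact absurd hy hinf
    | coe z =>
      have hz := hfin z hy
      obtain ⟨g1, g2, g3⟩ := GI_facts (sy_even x) n z hz.le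
      obtain ⟨j1, j2⟩ := itv_of (n := n) (y := GI (sy x) n z) (by
        intro k hk
        apply FF_ne
        intro h0
        have h1 := g3 k hk
        rw [Function.iterate_succ_apply', h0, norm_zero] at h1
        norm_num at h1)
      refine ⟨j2, ?_⟩
      show itv FF n (GI (sy x) n z) = _
      rw [j1, g2]

end Pool.Agent.Work.MP_0a8b43_nt
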