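import Mathlib
import Pool.Agent.Work.MP_0a8b43_nt.Pos

set_option autoImplicit false

open Complex Set Filter Topology MeasureTheory
open scoped ENNReal NNReal OnePoint

namespace Pool.Agent.Work.MP_0a8b43_nt

lemma Sj_closed (j : ℕ) : IsClosed (Sj j) := by
  have h1 : Sj j = wm j 1 '' Metric.closedBall 0 (1 / 3) := by
    ext w
    constructor
    · intro h
      exact ⟨log (q j w), by simpa using h.2.2, Sj_eq h⟩
    · rintro ⟨v, hv, rfl⟩
      exact (wm_Sj (by simpa using hv)).1
  rw [h1]
  exact ((isCompact_closedBall _ _).image_of_continuousOn (fun v _ =>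
    (wm_deriv j 1 v).continuousAt.continuousWithinAt)).isClosed

/-- expansion bound -/
lemma FF_lip : ∃ L : ℝ, 2 ≤ L ∧ ∀ x ∈ X2, ∀ y ∈ X2, FF x ∈ X2 → FF y ∈ X2 →
    ‖FF x - FF y‖ ≤ L * ‖x - y‖ := by
  set B := Real.exp (rho 2 + 1)
  have hB : 0 < B := Real.exp_pos _
  have hc : ContinuousOn (fun z => ‖deriv W z‖) (Metric.closedBall (0 : ℂ) B) := by
    have h1 : Continuous (deriv W) := (W_diff.contDiff (n := 1)).continuous_deriv le_rfl
    exact h1.norm.continuousOn
  obtain ⟨M, hM⟩ := (isCompact_closedBall (0 : ℂ) B).bddAbove_image hc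
  have hM' : ∀ z ∈ Metric.closedBall (0 : ℂ) B, ‖deriv W z‖ ≤ M := fun z hz =>
    hM ⟨z, hz, rfl⟩
  refine ⟨max 2 (B * B * M), le_max_left _ _, ?_⟩
  intro x hx y hy hFx hFy
  have hx0 : FF x ≠ 0 := by
    intro h0; have := X2_big hFx; rw [h0, norm_zero] at this; norm_num at this
  have hy0 : FF y ≠ 0 := by
    intro h0; have := X2_big hFy; rw [h0, norm_zero] at this; norm_num at this
  have h1 : FF x - FF y = FF x * FF y * (W x - W y) := by
    rw [W_of_FF hx0 rfl, W_of_FF hy0 rfl]
    field_simp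
    ring
  have h2 : ‖W x - W y‖ ≤ M * ‖x - y‖ := by
    exact Convex.norm_image_sub_le_of_norm_deriv_le (fun z _ => W_diff z) hM'
      (convex_closedBall _ _) (mem_closedBall_zero_iff.mpr (X2_le hy))
      (mem_closedBall_zero_iff.mpr (X2_le hx))
  rw [h1, norm_mul, norm_mul]
  have hM0 : 0 ≤ M := (norm_nonneg _).trans (hM' 0 (by simp [hB.le]))
  calc ‖FF x‖ * ‖FF y‖ * ‖W x - W y‖ ≤ B * B * (M * ‖x - y‖) := by
        gcongr
        · exact X2_le hFx
        · exact X2_le hFy
    _ = B * B * M * ‖x - y‖ := by ring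
    _ ≤ _ := by gcongr; exact le_max_right _ _

open Classical in
/-- digits of the orbit -/
noncomputable def dg (x : ℂ) (n : ℕ) : Fin 2 := if FF^[n] x ∈ Sj 2 then 1 else 0

/-- the coding map -/
noncomputable def hh (x : ℂ) : ℝ := Real.ofDigits (dg x)

lemma hh_holder : ∃ r : ℝ≥0, 0 < r ∧ HolderOnWith 1 r hh KS := by
  obtain ⟨L, hL, hlip⟩ := FF_lip
  have hlogL : 0 < Real.log L := Real.log_pos (by linarith)
  have hlog2 : 0 < Real.log 2 := Real.log_pos (by norm_num)
  have hr : 0 < Real.log 2 / Real.log L := div_pos hlog2 hlogL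
  refine ⟨⟨Real.log 2 / Real.log L, hr.le⟩, hr, ?_⟩
  have hLr : L ^ (Real.log 2 / Real.log L) = 2 := by
    rw [Real.rpow_def_of_pos (by linarith)]
    rw [mul_div_cancel₀ _ hlogL.ne', Real.exp_log (by norm_num)]
  have key : ∀ x ∈ KS, ∀ y ∈ KS, |hh x - hh y| ≤ ‖x - y‖ ^ (Real.log 2 / Real.log L) := by
    intro x hx y hy
    have hit : ∀ n, ‖FF^[n] x - FF^[n] y‖ ≤ L ^ n * ‖x - y‖ := by
      intro n
      induction n with
      | zero => simp
      | succ n ih =>
        rw [Function.iterate_succ_apply', Function.iterate_succ_apply']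
        have h1 := hlip _ (hx n) _ (hy n)
          (by have := hx (n + 1); rwa [Function.iterate_succ_apply'] at this)
          (by have := hy (n + 1); rwa [Function.iterate_succ_apply'] at this)
        calc _ ≤ L * ‖FF^[n] x - FF^[n] y‖ := h1
          _ ≤ L * (L ^ n * ‖x - y‖) := by gcongr
          _ = _ := by ring
    by_cases he : ∀ n, dg x n = dg y n
    · have : dg x = dg y := funext he
      unfold hh
      rw [this, sub_self, abs_zero]
      positivity
    · push Not at he
      classical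
      set N := Nat.find he with hN
      have h1 : dg x N ≠ dg y N := Nat.find_spec he
      have h2 : ∀ i < N, dg x i = dg y i := by
        intro i hi
        have := Nat.find_min he hi
        push Not at this
        exact this
      have h3 : |hh x - hh y| ≤ (((2 : ℕ) : ℝ) ^ N)⁻¹ := Real.abs_ofDigits_sub_ofDigits_le h2
      have h4 : 1 ≤ ‖FF^[N] x - FF^[N] y‖ := by
        unfold dg at h1
        by_cases a : FF^[N] x ∈ Sj 2
        · by_cases b : FF^[N] y ∈ Sj 2
          · simp [a, b] at h1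
          · rcases hy N with c | c
            · rw [norm_sub_rev]; exact S_far c a
            · exact absurd c b
        · by_cases b : FF^[N] y ∈ Sj 2
          · rcases hx N with c | c
            · exact S_far c b
            · exact absurd c a
          · simp [a, b] at h1
      have h5 : 1 ≤ L ^ N * ‖x - y‖ := h4.trans (hit N)
      have h6 : (1 : ℝ) ≤ (L ^ N * ‖x - y‖) ^ (Real.log 2 / Real.log L) :=
        Real.one_le_rpow h5 hr.le
      rw [Real.mul_rpow (by positivity) (norm_nonneg _), ← Real.rpow_natCast,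
        ← Real.rpow_mul (by linarith), mul_comm (N : ℝ), Real.rpow_mul (by linarith), hLr,
        Real.rpow_natCast] at h6
      refine h3.trans ?_
      push_cast
      rw [inv_le_iff_one_le_mul₀ (by positivity), mul_comm]
      exact h6
  intro x hx y hy
  rw [edist_dist, edist_dist, Real.dist_eq, dist_eq_norm, ENNReal.coe_one, one_mul]
  show _ ≤ ENNReal.ofReal ‖x - y‖ ^ (Real.log 2 / Real.log L)
  rw [ENNReal.ofReal_rpow_of_nonneg (norm_nonneg _) hr.le]
  exact ENNReal.ofReal_le_ofReal (key x hx y hy)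

lemma GI_succ' (a : ℕ → ℕ) (n : ℕ) : ∀ z : ℂ,
    GI a (n + 1) z = gb (a 0) (GI (fun i => a (i + 1)) n z) := by
  induction n with
  | zero => intro z; rfl
  | succ n ih =>
    intro z
    show GI a (n + 1) (gb (a (n + 1)) z) = _
    rw [ih]
    rfl

lemma pt_lim {a : ℕ → ℕ} (ha : ∀ n, a n = 0 ∨ a n = 2) :
    ∃ x : ℂ, Tendsto (fun n => GI a n 1000) atTop (𝓝 x) := by
  have hev : ∀ n, Even (a n) := by
    intro n; rcases ha n with h | h <;> rw [h] <;> decide
  have h1000 : (2 : ℝ) ≤ ‖(1000 : ℂ)‖ := by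
    rw [Complex.norm_ofNat]; norm_num
  have hc : CauchySeq (fun n => GI a n 1000) := by
    refine cauchySeq_of_le_geometric (1 / 2) (Real.exp (rho 2 + 1) + 1000) (by norm_num) ?_
    intro n
    rw [dist_comm, dist_eq_norm]
    have h1 := GI_lip hev n (gb (a n) 1000) 1000
      (by have := gb_norm (hev n) h1000; linarith) h1000
    have h2 : ‖gb (a n) 1000 - 1000‖ ≤ Real.exp (rho 2 + 1) + 1000 := by
      refine (norm_sub_le _ _).trans ?_
      rw [Complex.norm_ofNat]
      have h3 : gb (a n) 1000 ∈ X2 := by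
        have h4 := (gb_spec (hev n) h1000).1
        rcases ha n with h | h
        · rw [h] at h4 ⊢; exact Or.inl h4
        · rw [h] at h4 ⊢; exact Or.inr h4
      have := X2_le h3
      linarith
    calc ‖GI a (n + 1) 1000 - GI a n 1000‖ ≤ (1 / 2) ^ n * ‖gb (a n) 1000 - 1000‖ := h1
      _ ≤ (1 / 2) ^ n * (Real.exp (rho 2 + 1) + 1000) := by gcongr
      _ = _ := by ring
  exact cauchySeq_tendsto_of_complete hc

lemma pt_step {a : ℕ → ℕ} (ha : ∀ n, a n = 0 ∨ a n = 2) {x y : ℂ}
    (hx : Tendsto (fun n => GI a n 1000) atTop (𝓝 x))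
    (hy : Tendsto (fun n => GI (fun i => a (i + 1)) n 1000) atTop (𝓝 y)) :
    x ∈ Sj (a 0) ∧ FF x = y := by
  have hev : ∀ n, Even (a n) := by
    intro n; rcases ha n with h | h <;> rw [h] <;> decide
  have h1000 : (2 : ℝ) ≤ ‖(1000 : ℂ)‖ := by
    rw [Complex.norm_ofNat]; norm_num
  have hy2 : 2 ≤ ‖y‖ :=
    ge_of_tendsto hy.norm (Eventually.of_forall fun n =>
      (GI_facts (fun i => hev (i + 1)) n 1000 h1000).1)
  have h1 : Tendsto (fun n => GI a (n + 1) 1000) atTop (𝓝 (gb (a 0) y)) := by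
    rw [tendsto_iff_norm_sub_tendsto_zero]
    refine squeeze_zero (fun n => norm_nonneg _)
      (g := fun n => 1 / 2 * ‖GI (fun i => a (i + 1)) n 1000 - y‖) (fun n => ?_) ?_
    · rw [GI_succ']
      exact gb_lip (hev 0) (GI_facts (fun i => hev (i + 1)) n 1000 h1000).1 hy2
    · have := (tendsto_iff_norm_sub_tendsto_zero.mp hy).const_mul (1 / 2 : ℝ)
      simpa using this
  have h2 : x = gb (a 0) y := tendsto_nhds_unique ((tendsto_add_atTop_iff_nat 1).mpr hx) h1
  rw [h2]
  exact gb_spec (hev 0) hy2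

lemma exists_pt {a : ℕ → ℕ} (ha : ∀ n, a n = 0 ∨ a n = 2) :
    ∃ x : ℂ, ∀ k, FF^[k] x ∈ Sj (a k) := by
  have h1 : ∀ k, ∃ x : ℂ, Tendsto (fun n => GI (fun i => a (i + k)) n 1000) atTop (𝓝 x) :=
    fun k => pt_lim fun n => ha _
  choose P hP using h1
  have h2 : ∀ k, P k ∈ Sj (a k) ∧ FF (P k) = P (k + 1) := by
    intro k
    have h3 := pt_step (fun n => ha (n + k)) (hP k) (y := P (k + 1)) (by
      have h4 := hP (k + 1)
      have h5 : (fun i => a (i + (k + 1))) = fun i => a (i + 1 + k) := by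
        funext i; congr 1; omega
      rwa [h5] at h4)
    simpa using h3
  refine ⟨P 0, fun k => ?_⟩
  have h3 : FF^[k] (P 0) = P k := by
    induction k with
    | zero => rfl
    | succ k ih => rw [Function.iterate_succ_apply', ih, (h2 k).2]
  rw [h3]
  exact (h2 k).1

lemma hh_surj : Icc (0 : ℝ) 1 ⊆ hh '' KS := by
  intro t ht
  obtain ⟨d, -, hd⟩ := Real.ofDigits_SurjOn (b := 2) (by norm_num) ht
  obtain ⟨x, hx⟩ := exists_pt (a := fun n => if d n = 1 then 2 else 0) (by
    intro n; split_ifs <;> simp)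
  refine ⟨x, ?_, ?_⟩
  · intro n
    have h1 := hx n
    split_ifs at h1
    · exact Or.inr h1
    · exact Or.inl h1
  · unfold hh
    rw [← hd]
    congr 1
    funext n
    have h1 := hx n
    unfold dg
    split_ifs at h1 with h2
    · rw [if_pos h1, h2]
    · have h3 : FF^[n] x ∉ Sj 2 := by
        intro h3
        have := S_far h1 h3
        rw [sub_self, norm_zero] at this
        norm_num at this
      rw [if_neg h3]
      have h4 := (d n).isLt
      have h5 : (d n).val ≠ 1 := fun h => h2 (Fin.ext h)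
      apply Fin.ext
      show 0 = (d n).val
      omega

/-- the dynamically accessible dimension of `FF` is positive -/
theorem dim_pos : 0 < dynDim FF := by
  obtain ⟨r, hr, hhold⟩ := hh_holder
  have h1 : dimH KS ≤ dynDim FF := dimH_mono fun x hx => KS_radial hx
  refine lt_of_lt_of_le ?_ h1
  rw [pos_iff_ne_zero]
  intro h0
  have h2 := hhold.dimH_image_le hr
  rw [h0, ENNReal.zero_div] at h2
  have h3 : dimH (Icc (0 : ℝ) 1) ≤ dimH (hh '' KS) := dimH_mono hh_surj
  have h4 : dimH (Icc (0 : ℝ) 1) = 1 := by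
    have := Real.dimH_of_nonempty_interior (E := ℝ) (s := Icc (0 : ℝ) 1) (by
      rw [interior_Icc]; exact ⟨1 / 2, by norm_num, by norm_num⟩)
    simpa using this
  rw [h4] at h3
  have := h3.trans h2
  norm_num at this

end Pool.Agent.Work.MP_0a8b43_nt
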