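import Mathlib
import Pool.Agent.Work.MP_0a8b43_nt.Pos2

set_option autoImplicit false

open Complex Set Filter Topology MeasureTheory
open scoped ENNReal NNReal OnePoint

namespace Pool.Agent.Work.MP_0a8b43_nt

lemma pole_zero : IsPole FF 0 := isPole_iff.mpr W_zero

lemma zero_julia : (0 : ℂ) ∈ JuliaSet FF := by
  rintro ⟨U, hU, h0, hdef, -⟩
  exact hdef 2 0 h0 0 (by norm_num) pole_zero

lemma omitted {z : ℂ} (hz : ¬ IsPole FF z) : FF z ≠ 0 := by
  intro h
  have h1 := not_pole_iff.mp hz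
  unfold FF at h
  exact h1 (inv_eq_zero.mp h)

lemma dirac_conf (s : ℝ) : IsLFConformal FF s (Measure.dirac (0 : ℂ)) := by
  refine ⟨Measure.dirac_ne_zero, ?_, ?_, ?_⟩
  · rw [Measure.dirac_apply, indicator_of_notMem]
    exact fun h => h zero_julia
  · intro K _
    exact (measure_mono (subset_univ K)).trans_lt (measure_lt_top _ _)
  · intro A hA hpole _
    have h0 : (0 : ℂ) ∉ A := fun h => hpole 0 h pole_zero
    have h1 : (0 : ℂ) ∉ FF '' A := by
      rintro ⟨w, hw, he⟩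
      exact omitted (hpole w hw) he
    rw [Measure.dirac_apply, indicator_of_notMem h1]
    have h2 : (Measure.dirac (0 : ℂ)).restrict A = 0 := by
      rw [Measure.restrict_eq_zero, Measure.dirac_apply, indicator_of_notMem h0]
    rw [h2, lintegral_zero_measure]

lemma confDim_zero : confDim FF = 0 := by
  apply le_antisymm _ zero_le
  have h1 : confDim FF ≤ ((0 : ℝ≥0) : ℝ≥0∞) := by
    unfold confDim
    exact iInf₂_le (0 : ℝ≥0) ⟨_, dirac_conf _⟩
  simpa using h1

lemma KS_nonempty : ∃ x, x ∈ KS := by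
  obtain ⟨x, hx⟩ := exists_pt (a := fun _ => 0) fun _ => Or.inl rfl
  exact ⟨x, fun n => Or.inl (hx n)⟩

lemma le_of_coe {s : ℝ≥0} (h : ¬ ((s : ℝ) ≤ 19 / 10)) : (19 / 10 : ℝ≥0∞) ≤ (s : ℝ≥0∞) := by
  have h1 : (19 / 10 : ℝ≥0) ≤ s := by
    rw [← NNReal.coe_le_coe]
    push_cast
    linarith
  have h2 : ((19 / 10 : ℝ≥0) : ℝ≥0∞) = 19 / 10 := by
    rw [ENNReal.coe_div (by norm_num)]
    norm_num
  rw [← h2]
  exact_mod_cast h1

lemma confDimFull_ge : 19 / 10 ≤ confDimFull FF := by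
  unfold confDimFull
  refine le_iInf₂ fun s hs => ?_
  obtain ⟨μ, hμ, hfull⟩ := hs
  apply le_of_coe
  intro h
  have h1 := conf_class hμ s.coe_nonneg h
  obtain ⟨x, hx⟩ := KS_nonempty
  refine hfull {0}ᶜ isOpen_compl_singleton ⟨x, ?_, KS_julia hx⟩ h1
  intro h0
  have h2 := X2_big (hx 0)
  rw [mem_singleton_iff] at h0
  rw [h0] at h2
  simp only [Function.iterate_zero, id_eq, norm_zero] at h2
  norm_num at h2

lemma confDimNP_ge : 19 / 10 ≤ confDimNP FF := by
  unfold confDimNP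
  refine le_iInf₂ fun s hs => ?_
  obtain ⟨μ, hμ, hnp⟩ := hs
  apply le_of_coe
  intro h
  have h1 := conf_class hμ s.coe_nonneg h
  apply hμ.ne_zero
  rw [← Measure.measure_univ_eq_zero]
  have h2 : (univ : Set ℂ) ⊆ {0}ᶜ ∪ {z | IsPole FF z} := by
    intro z _
    by_cases hz : z = 0
    · right; rw [hz]; exact pole_zero
    · left; exact hz
  refine measure_mono_null h2 (measure_union_null h1 hnp)

end Pool.Agent.Work.MP_0a8b43_nt
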